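import Mathlib

/-!
# Class forcing over countable transitive second-order models (definitions)

A second-order model is a pair `(M, C)` of `ZFSet`s: `M` is the (transitive) set of all sets of the
model, `C` the set of all classes of the model.
-/

namespace Pool.Agent.Helper90.Cf

open ZFSet

/-- First-order `∈`-formulas with `m` free set variables `x_0, ..., x_{m-1}` and `n` class
parameters `X_0, ..., X_{n-1}`.  Quantifiers range over sets only. -/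
inductive Fml (n : ℕ) : ℕ → Type
  /-- `x_i ∈ x_j` -/
  | mem {m : ℕ} (i j : Fin m) : Fml n m
  /-- `x_i = x_j` -/
  | eq {m : ℕ} (i j : Fin m) : Fml n m
  /-- `x_i ∈ X_j` -/
  | memC {m : ℕ} (i : Fin m) (j : Fin n) : Fml n m
  /-- negation -/
  | neg {m : ℕ} (φ : Fml n m) : Fml n m
  /-- conjunction -/
  | and {m : ℕ} (φ ψ : Fml n m) : Fml n m
  /-- `∀ x, φ(x, x_0, ..., x_{m-1})`; the quantified variable is variable number `0` of `φ` -/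
  | all {m : ℕ} (φ : Fml n (m + 1)) : Fml n m

/-- Satisfaction of a formula in the structure `⟨N, ∈, A_0, ..., A_{n-1}⟩` under the assignment
`v` of the free set variables. -/
def Sat (N : Set ZFSet.{0}) {n : ℕ} (A : Fin n → ZFSet.{0}) :
    {m : ℕ} → Fml n m → (Fin m → ZFSet.{0}) → Prop
  | _, .mem i j, v => v i ∈ v j
  | _, .eq i j, v => v i = v j
  | _, .memC i j, v => v i ∈ A j
  | _, .neg φ, v => ¬ Sat N A φ v
  | _, .and φ ψ, v => Sat N A φ v ∧ Sat N A ψ v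
  | _, .all φ, v => ∀ x ∈ N, Sat N A φ (Fin.cons x v)

/-- `(M, C)` is a transitive second-order model: `M` is transitive, every class is a subset of `M`,
and every set is a class. -/
structure IsModel (M C : ZFSet.{0}) : Prop where
  trans : ∀ x ∈ M, x ⊆ M
  sub : ∀ X ∈ C, X ⊆ M
  incl : ∀ x ∈ M, x ∈ C

/-- `(M, C) ⊨ GB⁻`: the set axioms of `ZF⁻` (extensionality, foundation, pairing, union, infinity,
and Separation and Collection for first-order formulas with class parameters; no Power Set), class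
extensionality, class foundation, and first-order class comprehension. -/
structure GBMinus (M C : ZFSet.{0}) : Prop where
  ext : ∀ x ∈ M, ∀ y ∈ M, (∀ z ∈ M, z ∈ x ↔ z ∈ y) → x = y
  found : ∀ x ∈ M, (∃ y ∈ M, y ∈ x) → ∃ y ∈ M, y ∈ x ∧ ∀ z ∈ M, ¬ (z ∈ y ∧ z ∈ x)
  pairing : ∀ x ∈ M, ∀ y ∈ M, ∃ z ∈ M, ∀ w ∈ M, w ∈ z ↔ (w = x ∨ w = y)
  union : ∀ x ∈ M, ∃ u ∈ M, ∀ w ∈ M, w ∈ u ↔ ∃ y ∈ M, y ∈ x ∧ w ∈ y
  infinity : ∃ w ∈ M, (∃ e ∈ M, (∀ z ∈ M, z ∉ e) ∧ e ∈ w) ∧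
    ∀ x ∈ M, x ∈ w → ∃ y ∈ M, y ∈ w ∧ ∀ z ∈ M, z ∈ y ↔ (z ∈ x ∨ z = x)
  separation : ∀ (n m : ℕ) (φ : Fml n (m + 1)) (A : Fin n → ZFSet.{0}) (v : Fin m → ZFSet.{0}),
    (∀ i, A i ∈ C) → (∀ i, v i ∈ M) →
      ∀ a ∈ M, ∃ b ∈ M, ∀ x ∈ M, x ∈ b ↔ (x ∈ a ∧ Sat (M : Set ZFSet.{0}) A φ (Fin.cons x v))
  collection : ∀ (n m : ℕ) (φ : Fml n (m + 2)) (A : Fin n → ZFSet.{0}) (v : Fin m → ZFSet.{0}),
    (∀ i, A i ∈ C) → (∀ i, v i ∈ M) → ∀ a ∈ M,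
      (∀ x ∈ M, x ∈ a → ∃ y ∈ M, Sat (M : Set ZFSet.{0}) A φ (Fin.cons y (Fin.cons x v))) →
      ∃ b ∈ M, ∀ x ∈ M, x ∈ a →
        ∃ y ∈ M, y ∈ b ∧ Sat (M : Set ZFSet.{0}) A φ (Fin.cons y (Fin.cons x v))
  classExt : ∀ X ∈ C, ∀ Y ∈ C, (∀ x ∈ M, x ∈ X ↔ x ∈ Y) → X = Y
  classFound : ∀ X ∈ C, (∃ y ∈ M, y ∈ X) → ∃ y ∈ M, y ∈ X ∧ ∀ z ∈ M, ¬ (z ∈ y ∧ z ∈ X)
  comprehension : ∀ (n m : ℕ) (φ : Fml n (m + 1)) (A : Fin n → ZFSet.{0})
    (v : Fin m → ZFSet.{0}), (∀ i, A i ∈ C) → (∀ i, v i ∈ M) →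
      ∃ X ∈ C, ∀ x ∈ M, x ∈ X ↔ Sat (M : Set ZFSet.{0}) A φ (Fin.cons x v)

/-- `p ≤ q` for the relation coded by `le` (a class of Kuratowski pairs). -/
def Le (le p q : ZFSet.{0}) : Prop := pair p q ∈ le

/-- `⟨P, le⟩` is a notion of class forcing for `(M, C)`: `P` and `le` are classes and `le` is a
partial order on `P` (here even with a largest element). -/
structure IsNotion (C P le : ZFSet.{0}) : Prop where
  memP : P ∈ C
  memLe : le ∈ C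
  dom : ∀ x ∈ le, ∃ p ∈ P, ∃ q ∈ P, x = pair p q
  refl : ∀ p ∈ P, Le le p p
  trans : ∀ p ∈ P, ∀ q ∈ P, ∀ r ∈ P, Le le p q → Le le q r → Le le p r
  antisymm : ∀ p ∈ P, ∀ q ∈ P, Le le p q → Le le q p → p = q
  top : ∃ o ∈ P, ∀ p ∈ P, Le le p o

/-- `x` is a `P`-name: recursively, a set of pairs `⟨τ, p⟩` with `τ` a `P`-name and `p ∈ P`. -/
inductive IsName (P : ZFSet.{0}) : ZFSet.{0} → Prop
  | mk (x : ZFSet.{0}) (h₁ : ∀ y ∈ x, ∃ τ p, y = pair τ p ∧ p ∈ P)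
      (h₂ : ∀ τ p, pair τ p ∈ x → IsName P τ) : IsName P x

/-- `G` is a filter on `P` that is generic over the model with classes `C`: it meets every dense
subset of `P` that belongs to `C`. -/
structure IsGeneric (C P le : ZFSet.{0}) (G : Set ZFSet.{0}) : Prop where
  sub : ∀ p ∈ G, p ∈ P
  nonempty : G.Nonempty
  up : ∀ p ∈ G, ∀ q ∈ P, Le le p q → q ∈ G
  dir : ∀ p ∈ G, ∀ q ∈ G, ∃ r ∈ G, Le le r p ∧ Le le r q
  meets : ∀ D ∈ C, D ⊆ P → (∀ p ∈ P, ∃ q ∈ D, Le le q p) → ∃ p ∈ G, p ∈ D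

theorem rank_lt_of_pair {τ p σ : ZFSet.{0}} (h : pair τ p ∈ σ) : rank τ < rank σ := by
  have h1 : τ ∈ ({τ} : ZFSet.{0}) := mem_singleton.2 rfl
  have h2 : ({τ} : ZFSet.{0}) ∈ pair τ p := by
    unfold pair
    exact mem_pair.2 (Or.inl rfl)
  exact (rank_lt_of_mem h1).trans ((rank_lt_of_mem h2).trans (rank_lt_of_mem h))

instance smallDom (G : Set ZFSet.{0}) (σ : ZFSet.{0}) :
    Small.{0} {τ : ZFSet.{0} // ∃ p ∈ G, pair τ p ∈ σ} := by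
  have key : ∀ t : {τ : ZFSet.{0} // ∃ p ∈ G, pair τ p ∈ σ}, t.1 ∈ (⋃₀ ⋃₀ σ : ZFSet.{0}) := by
    intro t
    obtain ⟨p, -, hp⟩ := t.2
    have h2 : ({t.1} : ZFSet.{0}) ∈ pair t.1 p := by
      unfold pair
      exact mem_pair.2 (Or.inl rfl)
    exact mem_sUnion.2 ⟨{t.1}, mem_sUnion.2 ⟨_, hp, h2⟩, mem_singleton.2 rfl⟩
  have hs : Small.{0} (⋃₀ ⋃₀ σ : ZFSet.{0}) := ZFSet.small_coe _
  exact small_of_injective
    (f := fun t : {τ : ZFSet.{0} // ∃ p ∈ G, pair τ p ∈ σ} =>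
      (⟨t.1, key t⟩ : (⋃₀ ⋃₀ σ : ZFSet.{0})))
    (fun a b hab => Subtype.ext (congrArg (fun z => z.1) hab))

/-- Evaluation of names: `σ^G = {τ^G : ∃ p ∈ G, ⟨τ, p⟩ ∈ σ}`. -/
noncomputable def val (G : Set ZFSet.{0}) (σ : ZFSet.{0}) : ZFSet.{0} :=
  ZFSet.range (fun t : {τ : ZFSet.{0} // ∃ p ∈ G, pair τ p ∈ σ} => val G t.1)
termination_by rank σ
decreasing_by
  obtain ⟨p, -, hp⟩ := t.2
  exact rank_lt_of_pair hp

/-- The sets of the generic extension: `M[G] = {σ^G : σ ∈ M^P}`. -/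
def Ext (M P : ZFSet.{0}) (G : Set ZFSet.{0}) : Set ZFSet.{0} :=
  {x | ∃ σ ∈ M, IsName P σ ∧ val G σ = x}

/-- `p ⊩ φ(σ, Γ)`: for every generic filter `G` containing `p`,
`⟨M[G], Γ^G⟩ ⊨ φ(σ^G, Γ^G)`. -/
def Forces (M C P le : ZFSet.{0}) {n m : ℕ} (φ : Fml n m) (σ : Fin m → ZFSet.{0})
    (Γ : Fin n → ZFSet.{0}) (p : ZFSet.{0}) : Prop :=
  ∀ G : Set ZFSet.{0}, IsGeneric C P le G → p ∈ G →
    Sat (Ext M P G) (fun j => val G (Γ j)) φ (fun i => val G (σ i))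

/-- The tuple `⟨v_0, ..., v_{m-1}⟩` coded by iterated pairs. -/
noncomputable def tup : {m : ℕ} → (Fin m → ZFSet.{0}) → ZFSet.{0}
  | 0, _ => ∅
  | _ + 1, v => pair (v 0) (tup (fun i => v i.succ))

/-- `P` satisfies the forcing theorem over `(M, C)`: for every `∈`-formula `φ` and all class names
`Γ`, (definability) the class of all `⟨p, σ⟩` with `p ∈ P`, `σ` a tuple of names in `M` and
`p ⊩ φ(σ, Γ)` belongs to `C`, and (truth) whatever holds in a generic extension is forced by an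
element of the generic filter. -/
def ForcingTheorem (M C P le : ZFSet.{0}) : Prop :=
  ∀ (n m : ℕ) (φ : Fml n m) (Γ : Fin n → ZFSet.{0}), (∀ j, Γ j ∈ C ∧ IsName P (Γ j)) →
    (∃ D ∈ C, ∀ x, x ∈ D ↔ ∃ p ∈ P, ∃ σ : Fin m → ZFSet.{0}, (∀ i, σ i ∈ M ∧ IsName P (σ i)) ∧
      Forces M C P le φ σ Γ p ∧ x = pair p (tup σ)) ∧
    (∀ σ : Fin m → ZFSet.{0}, (∀ i, σ i ∈ M ∧ IsName P (σ i)) →
      ∀ G : Set ZFSet.{0}, IsGeneric C P le G →
        Sat (Ext M P G) (fun j => val G (Γ j)) φ (fun i => val G (σ i)) →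
          ∃ p ∈ G, Forces M C P le φ σ Γ p)

end Pool.Agent.Helper90.Cf
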