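import Pool.Agent.Helper90.CfF

/-!
# Countable elementary closures and the model `(M, C)`
-/

namespace Pool.Agent.Helper90.Cf

open ZFSet

/-- the real universe of sets -/
abbrev HS : Set ZFSet.{0} := (H : Set ZFSet.{0})

/-- `p` decides badly: first kind -/
def Bad1 (P le σ τ p : ZFSet.{0}) : Prop :=
  ∃ ρ r, pair ρ r ∈ σ ∧ Le le p r ∧ ∀ q ∈ P, Le le q p → ¬ In1 P le ρ τ q

/-- second kind -/
def Bad2 (P le σ τ p : ZFSet.{0}) : Prop :=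
  ∃ π s, pair π s ∈ τ ∧ Le le p s ∧ ∀ q ∈ P, Le le q p →
    ∀ ρ r, pair ρ r ∈ σ → Le le q r → ¬ EqF P le ρ π q

/-- `N` is closed under everything we need. -/
structure Env (N : Set ZFSet.{0}) (P le : ZFSet.{0}) (F : ZFSet.{0} → ZFSet.{0}) : Prop where
  tr : ∀ x ∈ N, x ∈ H → ∀ y ∈ x, y ∈ N
  upair : ∀ x ∈ N, ∀ y ∈ N, ({x, y} : ZFSet.{0}) ∈ N
  sUnion : ∀ x ∈ N, (⋃₀ x : ZFSet.{0}) ∈ N
  inter : ∀ x ∈ N, ∀ y ∈ N, x ∩ y ∈ N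
  tv : ∀ {n m : ℕ} (φ : Fml n (m + 1)) (A : Fin n → ZFSet.{0}) (v : Fin m → ZFSet.{0}),
    (∀ i, A i ∈ N) → (∀ i, v i ∈ N) → (∃ y, y ∈ H ∧ Sat HS A φ (Fin.cons y v)) →
      ∃ y ∈ N, y ∈ H ∧ Sat HS A φ (Fin.cons y v)
  comp : ∀ {n m : ℕ} (φ : Fml n (m + 1)) (A : Fin n → ZFSet.{0}) (v : Fin m → ZFSet.{0}),
    (∀ i, A i ∈ N) → (∀ i, v i ∈ N) → ZFSet.sep (fun x => Sat HS A φ (Fin.cons x v)) H ∈ N
  coll : ∀ {n m : ℕ} (φ : Fml n (m + 2)) (A : Fin n → ZFSet.{0}) (v : Fin m → ZFSet.{0})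
    (a : ZFSet.{0}), (∀ i, A i ∈ N) → (∀ i, v i ∈ N) → a ∈ N →
    (∃ b, b ∈ H ∧ ∀ x ∈ a, ∃ z ∈ b, Sat HS A φ (Fin.cons z (Fin.cons x v))) →
      ∃ b ∈ N, b ∈ H ∧ ∀ x ∈ a, ∃ z ∈ b, Sat HS A φ (Fin.cons z (Fin.cons x v))
  f6 : ∀ X ∈ N, ∀ p ∈ N, (∃ y, y ∈ P ∧ Le le y p ∧ y ∈ X) → ∃ y ∈ N, y ∈ P ∧ Le le y p ∧ y ∈ X
  f7 : ∀ q ∈ N, ∀ ρ ∈ N, ∀ X ∈ N,
    (∃ y, y ∈ H ∧ y ∈ X ∧ ∃ π s, y = pair π s ∧ Le le q s ∧ EqF P le ρ π q) →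
    ∃ y ∈ N, y ∈ H ∧ y ∈ X ∧ ∃ π s, y = pair π s ∧ Le le q s ∧ EqF P le ρ π q
  f8 : ∀ {n m : ℕ} (φ : Fml n (m + 1)) (A : Fin n → ZFSet.{0}) (v : Fin m → ZFSet.{0})
    (p : ZFSet.{0}), (∀ i, A i ∈ N) → (∀ i, v i ∈ N) → p ∈ N →
    (∃ y, y ∈ H ∧ IsName P y ∧ Fo P le A (.neg φ) (Fin.cons y v) p) →
      ∃ y ∈ N, y ∈ H ∧ IsName P y ∧ Fo P le A (.neg φ) (Fin.cons y v) p
  c1 : ∀ ρ ∈ N, ∀ X ∈ N, ZFSet.sep (fun q => In1 P le ρ X q) P ∈ N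
  c2 : ∀ σ ∈ N, ∀ τ ∈ N, ZFSet.sep (fun p => Bad1 P le σ τ p) P ∈ N
  c2' : ∀ σ ∈ N, ∀ τ ∈ N, ZFSet.sep (fun p => Bad2 P le σ τ p) P ∈ N
  c3 : ∀ {n m : ℕ} (φ : Fml n m) (A : Fin n → ZFSet.{0}) (v : Fin m → ZFSet.{0}),
    (∀ i, A i ∈ N) → (∀ i, v i ∈ N) → ZFSet.sep (fun p => Fo P le A φ v p) P ∈ N
  c4 : ∀ {n m : ℕ} (φ : Fml n (m + 1)) (A : Fin n → ZFSet.{0}) (v : Fin m → ZFSet.{0}),
    (∀ i, A i ∈ N) → (∀ i, v i ∈ N) →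
      ZFSet.sep (fun p => ∃ x ∈ H, IsName P x ∧ Fo P le A (.neg φ) (Fin.cons x v) p) P ∈ N
  c5 : ∀ {n m : ℕ} (φ : Fml n m) (A : Fin n → ZFSet.{0}), (∀ i, A i ∈ N) →
    ZFSet.sep (fun x => ∃ p ∈ P, ∃ σ : Fin m → ZFSet.{0}, (∀ i, σ i ∈ H ∧ IsName P (σ i)) ∧
      Fo P le A φ σ p ∧ x = pair p (tup σ)) H ∈ N
  c6 : ∀ X ∈ N, ZFSet.sep (fun p => p ∈ X ∨ ∀ q ∈ P, Le le q p → q ∉ X) P ∈ N
  fn : ∀ x ∈ N, F x ∈ N

theorem exists_enum (x : ZFSet.{0}) (hx : x ∈ H) : ∃ f : ℕ → ZFSet.{0}, ∀ y ∈ x, ∃ n, y = f n := by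
  by_cases he : x = ∅
  · exact ⟨fun _ => ∅, fun y hy => absurd (he ▸ hy) (notMem_empty y)⟩
  · have hne : {y | y ∈ x}.Nonempty := by
      obtain ⟨y, hy⟩ := (eq_empty_or_nonempty x).resolve_left he
      exact ⟨y, hy⟩
    obtain ⟨f, hf⟩ := (H_count hx).exists_eq_range hne
    refine ⟨f, fun y hy => ?_⟩
    have : y ∈ Set.range f := by rw [← hf]; exact hy
    obtain ⟨n, hn⟩ := this
    exact ⟨n, hn.symm⟩

theorem exists_enum' (x : ZFSet.{0}) (hx : x ∈ H) :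
    ∃ f : ℕ → ZFSet.{0}, ∀ y ∈ x, ∃ n, y = f n ∧ f n ∈ x := by
  obtain ⟨f, hf⟩ := exists_enum x hx
  exact ⟨f, fun y hy => by obtain ⟨n, hn⟩ := hf y hy; exact ⟨n, hn, hn ▸ hy⟩⟩

theorem exists_env (P le : ZFSet.{0}) (F : ZFSet.{0} → ZFSet.{0}) (B : Set ZFSet.{0})
    (hB : B.Countable) : ∃ N : Set ZFSet.{0}, B ⊆ N ∧ N.Countable ∧ Env N P le F := by
  classical
  have hen : ∃ en : ZFSet.{0} → ℕ → ZFSet.{0}, ∀ x ∈ H, ∀ y ∈ x, ∃ n, y = en x n := by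
    have : ∀ x : ZFSet.{0}, ∃ f : ℕ → ZFSet.{0}, x ∈ H → ∀ y ∈ x, ∃ n, y = f n := by
      intro x
      by_cases hx : x ∈ H
      · obtain ⟨f, hf⟩ := exists_enum x hx
        exact ⟨f, fun _ => hf⟩
      · exact ⟨fun _ => ∅, fun h => absurd h hx⟩
    choose en hen using this
    exact ⟨en, hen⟩
  obtain ⟨en, hen⟩ := hen
  let T := List ZFSet.{0} → ZFSet.{0} → Prop
  let R0 : Set T := Set.range fun k : ℕ => mkR (n := 0) (m := 1) fun _ v y => y = en (v 0) k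
  let R1 : Set T := {mkR (n := 0) (m := 2) fun _ v y => y = {v 0, v 1}}
  let R2 : Set T := {mkR (n := 0) (m := 1) fun _ v y => y = ⋃₀ (v 0)}
  let R3 : Set T := {mkR (n := 0) (m := 2) fun _ v y => y = v 0 ∩ v 1}
  let R4 : Set T := Set.range fun k : (Σ n m : ℕ, Fml n (m + 1)) =>
    mkR (n := k.1) (m := k.2.1) fun A v y => y ∈ H ∧ Sat HS A k.2.2 (Fin.cons y v)
  let R5 : Set T := Set.range fun k : (Σ n m : ℕ, Fml n (m + 1)) =>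
    mkR (n := k.1) (m := k.2.1) fun A v y =>
      y = ZFSet.sep (fun x => Sat HS A k.2.2 (Fin.cons x v)) H
  let R6 : Set T := Set.range fun k : (Σ n m : ℕ, Fml n (m + 2)) =>
    mkR (n := k.1) (m := k.2.1 + 1) fun A v b => b ∈ H ∧
      ∀ x ∈ v 0, ∃ z ∈ b, Sat HS A k.2.2 (Fin.cons z (Fin.cons x (Fin.tail v)))
  let R7 : Set T := {mkR (n := 0) (m := 2) fun _ v y => y ∈ P ∧ Le le y (v 1) ∧ y ∈ v 0}
  let R8 : Set T := {mkR (n := 0) (m := 3) fun _ v y => y ∈ H ∧ y ∈ v 2 ∧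
    ∃ π s, y = pair π s ∧ Le le (v 0) s ∧ EqF P le (v 1) π (v 0)}
  let R9 : Set T := Set.range fun k : (Σ n m : ℕ, Fml n (m + 1)) =>
    mkR (n := k.1) (m := k.2.1 + 1) fun A v y => y ∈ H ∧ IsName P y ∧
      Fo P le A (.neg k.2.2) (Fin.cons y (Fin.tail v)) (v 0)
  let R10 : Set T := {mkR (n := 0) (m := 2) fun _ v y =>
    y = ZFSet.sep (fun q => In1 P le (v 0) (v 1) q) P}
  let R11 : Set T := {mkR (n := 0) (m := 2) fun _ v y =>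
    y = ZFSet.sep (fun q => Bad1 P le (v 0) (v 1) q) P}
  let R12 : Set T := {mkR (n := 0) (m := 2) fun _ v y =>
    y = ZFSet.sep (fun q => Bad2 P le (v 0) (v 1) q) P}
  let R13 : Set T := Set.range fun k : (Σ n m : ℕ, Fml n m) =>
    mkR (n := k.1) (m := k.2.1) fun A v y => y = ZFSet.sep (fun p => Fo P le A k.2.2 v p) P
  let R14 : Set T := Set.range fun k : (Σ n m : ℕ, Fml n (m + 1)) =>
    mkR (n := k.1) (m := k.2.1) fun A v y => y = ZFSet.sep (fun p => ∃ x ∈ H, IsName P x ∧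
      Fo P le A (.neg k.2.2) (Fin.cons x v) p) P
  let R15 : Set T := Set.range fun k : (Σ n m : ℕ, Fml n m) =>
    mkR (n := k.1) (m := 0) fun A _ y => y = ZFSet.sep (fun x => ∃ p ∈ P,
      ∃ σ : Fin k.2.1 → ZFSet.{0}, (∀ i, σ i ∈ H ∧ IsName P (σ i)) ∧
      Fo P le A k.2.2 σ p ∧ x = pair p (tup σ)) H
  let R16 : Set T := {mkR (n := 0) (m := 1) fun _ v y =>
    y = ZFSet.sep (fun p => p ∈ v 0 ∨ ∀ q ∈ P, Le le q p → q ∉ v 0) P}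
  let R17 : Set T := {mkR (n := 0) (m := 1) fun _ v y => y = F (v 0)}
  let Rs : Fin 18 → Set T :=
    ![R0, R1, R2, R3, R4, R5, R6, R7, R8, R9, R10, R11, R12, R13, R14, R15, R16, R17]
  have hRs : ∀ i, (Rs i).Countable := by
    intro i
    fin_cases i
    · exact Set.countable_range _
    · exact Set.countable_singleton _
    · exact Set.countable_singleton _
    · exact Set.countable_singleton _
    · exact Set.countable_range _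
    · exact Set.countable_range _
    · exact Set.countable_range _
    · exact Set.countable_singleton _
    · exact Set.countable_singleton _
    · exact Set.countable_range _
    · exact Set.countable_singleton _
    · exact Set.countable_singleton _
    · exact Set.countable_singleton _
    · exact Set.countable_range _
    · exact Set.countable_range _
    · exact Set.countable_range _
    · exact Set.countable_singleton _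
    · exact Set.countable_singleton _
  obtain ⟨N, hBN, hNc, hN⟩ := exists_closed (⋃ i, Rs i) (Set.countable_iUnion hRs) B hB
  refine ⟨N, hBN, hNc, ?_⟩
  have key : ∀ i : Fin 18, ∀ r ∈ Rs i, ∀ l : List ZFSet.{0}, (∀ x ∈ l, x ∈ N) →
      (∃ y, r l y) → ∃ y ∈ N, r l y := fun i r hr =>
    hN r (Set.mem_iUnion.2 ⟨i, hr⟩)
  have h1 : ∀ {a : ZFSet.{0}}, a ∈ N → ∀ i : Fin 1, (![a] : Fin 1 → ZFSet.{0}) i ∈ N := by
    intro a ha i; fin_cases i; exact ha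
  have h2 : ∀ {a b : ZFSet.{0}}, a ∈ N → b ∈ N →
      ∀ i : Fin 2, (![a, b] : Fin 2 → ZFSet.{0}) i ∈ N := by
    intro a b ha hb i; fin_cases i
    · exact ha
    · exact hb
  have h3 : ∀ {a b c : ZFSet.{0}}, a ∈ N → b ∈ N → c ∈ N →
      ∀ i : Fin 3, (![a, b, c] : Fin 3 → ZFSet.{0}) i ∈ N := by
    intro a b c ha hb hc i; fin_cases i
    · exact ha
    · exact hb
    · exact hc
  have h0 : ∀ i : Fin 0, (![] : Fin 0 → ZFSet.{0}) i ∈ N := fun i => i.elim0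
  have hcons : ∀ {m : ℕ} {v : Fin m → ZFSet.{0}} {a : ZFSet.{0}}, (∀ i, v i ∈ N) → a ∈ N →
      ∀ i, (Fin.cons a v : Fin (m + 1) → ZFSet.{0}) i ∈ N := by
    intro m v a hv ha i
    refine Fin.cases ?_ ?_ i
    · exact ha
    · intro j; exact hv j
  constructor
  · intro x hx hxH y hy
    obtain ⟨k, hk⟩ := hen x hxH y hy
    obtain ⟨z, hz, he⟩ := mkR_use (key 0 _ ⟨k, rfl⟩) ![] ![x] h0 (h1 hx) ⟨_, rfl⟩
    rw [hk]
    have he' : z = en x k := he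
    rw [← he']; exact hz
  · intro x hx y hy
    obtain ⟨z, hz, he⟩ := mkR_use (key 1 _ rfl) ![] ![x, y] h0 (h2 hx hy) ⟨_, rfl⟩
    have he' : z = {x, y} := he
    rw [← he']; exact hz
  · intro x hx
    obtain ⟨z, hz, he⟩ := mkR_use (key 2 _ rfl) ![] ![x] h0 (h1 hx) ⟨_, rfl⟩
    have he' : z = ⋃₀ x := he
    rw [← he']; exact hz
  · intro x hx y hy
    obtain ⟨z, hz, he⟩ := mkR_use (key 3 _ rfl) ![] ![x, y] h0 (h2 hx hy) ⟨_, rfl⟩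
    have he' : z = x ∩ y := he
    rw [← he']; exact hz
  · intro n m φ A v hA hv hy
    exact mkR_use (key 4 _ ⟨⟨n, m, φ⟩, rfl⟩) A v hA hv hy
  · intro n m φ A v hA hv
    obtain ⟨z, hz, he⟩ := mkR_use (key 5 _ ⟨⟨n, m, φ⟩, rfl⟩) A v hA hv ⟨_, rfl⟩
    rw [← he]; exact hz
  · intro n m φ A v a hA hv ha hb
    exact mkR_use (key 6 _ ⟨⟨n, m, φ⟩, rfl⟩) A (Fin.cons a v : Fin (m + 1) → ZFSet.{0}) hA
      (hcons hv ha) hb
  · intro X hX p hp hy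
    exact mkR_use (key 7 _ rfl) ![] ![X, p] h0 (h2 hX hp) hy
  · intro q hq ρ hρ X hX hy
    exact mkR_use (key 8 _ rfl) ![] ![q, ρ, X] h0 (h3 hq hρ hX) hy
  · intro n m φ A v p hA hv hp hy
    exact mkR_use (key 9 _ ⟨⟨n, m, φ⟩, rfl⟩) A (Fin.cons p v : Fin (m + 1) → ZFSet.{0}) hA
      (hcons hv hp) hy
  · intro ρ hρ X hX
    obtain ⟨z, hz, he⟩ := mkR_use (key 10 _ rfl) ![] ![ρ, X] h0 (h2 hρ hX) ⟨_, rfl⟩
    have he' : z = ZFSet.sep (fun q => In1 P le ρ X q) P := he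
    rw [← he']; exact hz
  · intro ρ hρ X hX
    obtain ⟨z, hz, he⟩ := mkR_use (key 11 _ rfl) ![] ![ρ, X] h0 (h2 hρ hX) ⟨_, rfl⟩
    have he' : z = ZFSet.sep (fun q => Bad1 P le ρ X q) P := he
    rw [← he']; exact hz
  · intro ρ hρ X hX
    obtain ⟨z, hz, he⟩ := mkR_use (key 12 _ rfl) ![] ![ρ, X] h0 (h2 hρ hX) ⟨_, rfl⟩
    have he' : z = ZFSet.sep (fun q => Bad2 P le ρ X q) P := he
    rw [← he']; exact hz
  · intro n m φ A v hA hv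
    obtain ⟨z, hz, he⟩ := mkR_use (key 13 _ ⟨⟨n, m, φ⟩, rfl⟩) A v hA hv ⟨_, rfl⟩
    rw [← he]; exact hz
  · intro n m φ A v hA hv
    obtain ⟨z, hz, he⟩ := mkR_use (key 14 _ ⟨⟨n, m, φ⟩, rfl⟩) A v hA hv ⟨_, rfl⟩
    rw [← he]; exact hz
  · intro n m φ A hA
    obtain ⟨z, hz, he⟩ := mkR_use (key 15 _ ⟨⟨n, m, φ⟩, rfl⟩) A ![] hA h0 ⟨_, rfl⟩
    rw [← he]; exact hz
  · intro X hX
    obtain ⟨z, hz, he⟩ := mkR_use (key 16 _ rfl) ![] ![X] h0 (h1 hX) ⟨_, rfl⟩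
    have he' : z = ZFSet.sep (fun p => p ∈ X ∨ ∀ q ∈ P, Le le q p → q ∉ X) P := he
    rw [← he']; exact hz
  · intro x hx
    obtain ⟨z, hz, he⟩ := mkR_use (key 17 _ rfl) ![] ![x] h0 (h1 hx) ⟨_, rfl⟩
    have he' : z = F x := he
    rw [← he']; exact hz

end Pool.Agent.Helper90.Cf
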