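import Pool.Agent.Helper90.CfH

/-!
# The strong forcing relation of a class poset `P ⊆ H`
-/

namespace Pool.Agent.Helper90.Cf

open ZFSet

/-- `p` forces `σ = τ` -/
def EqF (P le : ZFSet.{0}) (σ τ p : ZFSet.{0}) : Prop :=
  (∀ ρ r, ∀ _h : pair ρ r ∈ σ, ∀ q ∈ P, Le le q p → Le le q r → ∃ q' ∈ P, Le le q' q ∧
    ∃ π s, pair π s ∈ τ ∧ Le le q' s ∧ EqF P le ρ π q') ∧
  (∀ π s, pair π s ∈ τ → ∀ q ∈ P, Le le q p → Le le q s → ∃ q' ∈ P, Le le q' q ∧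
    ∃ ρ r, ∃ _h : pair ρ r ∈ σ, Le le q' r ∧ EqF P le ρ π q')
termination_by rank σ
decreasing_by
  all_goals exact rank_lt_of_pair ‹_›

theorem EqF_iff (P le σ τ p : ZFSet.{0}) : EqF P le σ τ p ↔
    (∀ ρ r, pair ρ r ∈ σ → ∀ q ∈ P, Le le q p → Le le q r → ∃ q' ∈ P, Le le q' q ∧
      ∃ π s, pair π s ∈ τ ∧ Le le q' s ∧ EqF P le ρ π q') ∧
    (∀ π s, pair π s ∈ τ → ∀ q ∈ P, Le le q p → Le le q s → ∃ q' ∈ P, Le le q' q ∧
      ∃ ρ r, pair ρ r ∈ σ ∧ Le le q' r ∧ EqF P le ρ π q') := by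
  rw [EqF]
  simp only [exists_prop]

/-- `q` directly witnesses `ρ ∈ X` -/
def In1 (P le ρ X q : ZFSet.{0}) : Prop :=
  ∃ π s, pair π s ∈ X ∧ Le le q s ∧ EqF P le ρ π q

/-- The strong forcing relation for formulas. -/
def Fo (P le : ZFSet.{0}) {n : ℕ} (X : Fin n → ZFSet.{0}) :
    {m : ℕ} → Fml n m → (Fin m → ZFSet.{0}) → ZFSet.{0} → Prop
  | _, .mem i j, v, p => ∀ q ∈ P, Le le q p → ∃ q' ∈ P, Le le q' q ∧ In1 P le (v i) (v j) q'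
  | _, .eq i j, v, p => EqF P le (v i) (v j) p
  | _, .memC i j, v, p => ∀ q ∈ P, Le le q p → ∃ q' ∈ P, Le le q' q ∧ In1 P le (v i) (X j) q'
  | _, .neg φ, v, p => ∀ q ∈ P, Le le q p → ¬ Fo P le X φ v q
  | _, .and φ ψ, v, p => Fo P le X φ v p ∧ Fo P le X ψ v p
  | _, .all φ, v, p => ∀ x ∈ H, IsName P x → Fo P le X φ (Fin.cons x v) p

variable {C P le : ZFSet.{0}}

theorem EqF_mono (hN : IsNotion C P le) {σ τ p q : ZFSet.{0}} (hp : p ∈ P) (hq : q ∈ P)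
    (h : EqF P le σ τ p) (hqp : Le le q p) : EqF P le σ τ q := by
  rw [EqF_iff] at h ⊢
  exact ⟨fun ρ r hr q1 hq1 h1 h2 => h.1 ρ r hr q1 hq1 (hN.trans _ hq1 _ hq _ hp h1 hqp) h2,
    fun π s hs q1 hq1 h1 h2 => h.2 π s hs q1 hq1 (hN.trans _ hq1 _ hq _ hp h1 hqp) h2⟩

theorem EqF_reg (hN : IsNotion C P le) {σ τ p : ZFSet.{0}} (hp : p ∈ P)
    (h : ∀ q ∈ P, Le le q p → ∃ r ∈ P, Le le r q ∧ EqF P le σ τ r) : EqF P le σ τ p := by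
  rw [EqF_iff]
  have hd : ∀ {a b : ZFSet.{0}}, Le le a b → a ∈ P ∧ b ∈ P := by
    intro a b hab
    obtain ⟨x, hx, y, hy, he⟩ := hN.dom _ hab
    obtain ⟨rfl, rfl⟩ := pair_inj.1 he
    exact ⟨hx, hy⟩
  constructor
  · intro ρ r hr q hq h1 h2
    obtain ⟨q1, hq1, h3, h4⟩ := h q hq h1
    rw [EqF_iff] at h4
    obtain ⟨q', hq', h5, h6⟩ := h4.1 ρ r hr q1 hq1 (hN.refl _ hq1)
      (hN.trans _ hq1 _ hq _ (hd h2).2 h3 h2)
    exact ⟨q', hq', hN.trans _ hq' _ hq1 _ hq h5 h3, h6⟩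
  · intro π s hs q hq h1 h2
    obtain ⟨q1, hq1, h3, h4⟩ := h q hq h1
    rw [EqF_iff] at h4
    obtain ⟨q', hq', h5, h6⟩ := h4.2 π s hs q1 hq1 (hN.refl _ hq1)
      (hN.trans _ hq1 _ hq _ (hd h2).2 h3 h2)
    exact ⟨q', hq', hN.trans _ hq' _ hq1 _ hq h5 h3, h6⟩

theorem le_dom (hN : IsNotion C P le) {a b : ZFSet.{0}} (hab : Le le a b) : a ∈ P ∧ b ∈ P := by
  obtain ⟨x, hx, y, hy, he⟩ := hN.dom _ hab
  obtain ⟨rfl, rfl⟩ := pair_inj.1 he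
  exact ⟨hx, hy⟩

theorem In1_mono (hN : IsNotion C P le) {ρ X p q : ZFSet.{0}} (hp : p ∈ P) (hq : q ∈ P)
    (h : In1 P le ρ X p) (hqp : Le le q p) : In1 P le ρ X q := by
  obtain ⟨π, s, h1, h2, h3⟩ := h
  exact ⟨π, s, h1, hN.trans _ hq _ hp _ (le_dom hN h2).2 hqp h2, EqF_mono hN hp hq h3 hqp⟩

theorem Fo_mono (hN : IsNotion C P le) {n : ℕ} (X : Fin n → ZFSet.{0}) {m : ℕ} (φ : Fml n m) :
    ∀ (v : Fin m → ZFSet.{0}) {p q : ZFSet.{0}}, p ∈ P → q ∈ P → Fo P le X φ v p → Le le q p →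
      Fo P le X φ v q := by
  induction φ with
  | mem i j =>
    intro v p q hp hq h hqp q1 hq1 h1
    exact h q1 hq1 (hN.trans _ hq1 _ hq _ hp h1 hqp)
  | eq i j =>
    intro v p q hp hq h hqp
    exact EqF_mono hN hp hq h hqp
  | memC i j =>
    intro v p q hp hq h hqp q1 hq1 h1
    exact h q1 hq1 (hN.trans _ hq1 _ hq _ hp h1 hqp)
  | neg φ ih =>
    intro v p q hp hq h hqp q1 hq1 h1
    exact h q1 hq1 (hN.trans _ hq1 _ hq _ hp h1 hqp)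
  | and φ ψ ih1 ih2 =>
    intro v p q hp hq h hqp
    exact ⟨ih1 v hp hq h.1 hqp, ih2 v hp hq h.2 hqp⟩
  | all φ ih =>
    intro v p q hp hq h hqp x hx hxn
    exact ih _ hp hq (h x hx hxn) hqp

theorem Fo_reg (hN : IsNotion C P le) {n : ℕ} (X : Fin n → ZFSet.{0}) {m : ℕ} (φ : Fml n m) :
    ∀ (v : Fin m → ZFSet.{0}) {p : ZFSet.{0}}, p ∈ P →
      (∀ q ∈ P, Le le q p → ∃ r ∈ P, Le le r q ∧ Fo P le X φ v r) → Fo P le X φ v p := by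
  induction φ with
  | mem i j =>
    intro v p hp h q hq hqp
    obtain ⟨r, hr, h1, h2⟩ := h q hq hqp
    obtain ⟨q', hq', h3, h4⟩ := h2 r hr (hN.refl _ hr)
    exact ⟨q', hq', hN.trans _ hq' _ hr _ hq h3 h1, h4⟩
  | eq i j =>
    intro v p hp h
    exact EqF_reg hN hp h
  | memC i j =>
    intro v p hp h q hq hqp
    obtain ⟨r, hr, h1, h2⟩ := h q hq hqp
    obtain ⟨q', hq', h3, h4⟩ := h2 r hr (hN.refl _ hr)
    exact ⟨q', hq', hN.trans _ hq' _ hr _ hq h3 h1, h4⟩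
  | neg φ ih =>
    intro v p hp h q hq hqp hf
    obtain ⟨r, hr, h1, h2⟩ := h q hq hqp
    exact h2 r hr (hN.refl _ hr) (Fo_mono hN X φ v hq hr hf h1)
  | and φ ψ ih1 ih2 =>
    intro v p hp h
    refine ⟨ih1 v hp ?_, ih2 v hp ?_⟩
    · intro q hq hqp
      obtain ⟨r, hr, h1, h2⟩ := h q hq hqp
      exact ⟨r, hr, h1, h2.1⟩
    · intro q hq hqp
      obtain ⟨r, hr, h1, h2⟩ := h q hq hqp
      exact ⟨r, hr, h1, h2.2⟩
  | all φ ih =>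
    intro v p hp h x hx hxn
    refine ih _ hp ?_
    intro q hq hqp
    obtain ⟨r, hr, h1, h2⟩ := h q hq hqp
    exact ⟨r, hr, h1, h2 x hx hxn⟩

/-- if `p` does not force `φ`, some extension forces `¬ φ` -/
theorem exists_neg (hN : IsNotion C P le) {n : ℕ} (X : Fin n → ZFSet.{0}) {m : ℕ} (φ : Fml n m)
    (v : Fin m → ZFSet.{0}) {p : ZFSet.{0}} (hp : p ∈ P) (h : ¬ Fo P le X φ v p) :
    ∃ q ∈ P, Le le q p ∧ Fo P le X (.neg φ) v q := by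
  by_contra hcon
  push Not at hcon
  apply h
  refine Fo_reg hN X φ v hp ?_
  intro q hq hqp
  have := hcon q hq hqp
  simp only [Fo] at this
  push Not at this
  exact this

end Pool.Agent.Helper90.Cf
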