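import Pool.Agent.Helper90.CfDefs

/-!
# Hereditarily countable sets and countable closures
-/

namespace Pool.Agent.Helper90.Cf

open ZFSet

/-- Codes for hereditarily countable sets. -/
inductive Tr : Type
  | nil : Tr
  | mk (f : ℕ → Tr) : Tr

noncomputable def ev : Tr → ZFSet.{0}
  | .nil => ∅
  | .mk f => ZFSet.range (fun n => ev (f n))

/-- The set of hereditarily countable sets. -/
noncomputable def H : ZFSet.{0} := ZFSet.range ev

theorem mem_H {x : ZFSet.{0}} : x ∈ H ↔ ∃ t, ev t = x := by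
  unfold H; exact ZFSet.mem_range

theorem H_trans {x y : ZFSet.{0}} (hx : x ∈ H) (hy : y ∈ x) : y ∈ H := by
  obtain ⟨t, rfl⟩ := mem_H.1 hx
  cases t with
  | nil => exact absurd hy (notMem_empty y)
  | mk f =>
    rw [ev] at hy
    obtain ⟨n, hn⟩ := ZFSet.mem_range.1 hy
    exact mem_H.2 ⟨f n, hn⟩

theorem H_count {x : ZFSet.{0}} (hx : x ∈ H) : {y | y ∈ x}.Countable := by
  obtain ⟨t, rfl⟩ := mem_H.1 hx
  cases t with
  | nil =>
    have : {y : ZFSet.{0} | y ∈ ev Tr.nil} = ∅ := by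
      ext y
      exact iff_of_false (notMem_empty y) (fun h => h)
    rw [this]; exact Set.countable_empty
  | mk f =>
    have : {y : ZFSet.{0} | y ∈ ev (Tr.mk f)} = Set.range (fun n => ev (f n)) := by
      ext y
      rw [ev]
      exact ZFSet.mem_range
    rw [this]; exact Set.countable_range _

theorem H_of {x : ZFSet.{0}} (h : ∀ y ∈ x, y ∈ H) (hc : {y | y ∈ x}.Countable) : x ∈ H := by
  by_cases he : x = ∅
  · exact mem_H.2 ⟨Tr.nil, by rw [ev, he]⟩
  · have hne : {y | y ∈ x}.Nonempty := by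
      obtain ⟨y, hy⟩ := (eq_empty_or_nonempty x).resolve_left he
      exact ⟨y, hy⟩
    obtain ⟨f, hf⟩ := hc.exists_eq_range hne
    have h1 : ∀ n, ∃ t, ev t = f n := by
      intro n
      have : f n ∈ {y | y ∈ x} := by rw [hf]; exact ⟨n, rfl⟩
      exact mem_H.1 (h _ this)
    choose g hg using h1
    refine mem_H.2 ⟨Tr.mk g, ?_⟩
    rw [ev]
    ext y
    rw [ZFSet.mem_range]
    have : y ∈ x ↔ y ∈ Set.range f := by rw [← hf]; rfl
    rw [this]
    constructor
    · rintro ⟨n, rfl⟩; exact ⟨n, (hg n).symm⟩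
    · rintro ⟨n, rfl⟩; exact ⟨n, hg n⟩

theorem H_empty : (∅ : ZFSet.{0}) ∈ H := mem_H.2 ⟨Tr.nil, by rw [ev]⟩

theorem H_sub {x y : ZFSet.{0}} (hx : x ∈ H) (hy : y ⊆ x) : y ∈ H :=
  H_of (fun _ hz => H_trans hx (hy hz)) ((H_count hx).mono (fun _ hz => hy hz))

theorem H_upair {x y : ZFSet.{0}} (hx : x ∈ H) (hy : y ∈ H) : ({x, y} : ZFSet.{0}) ∈ H := by
  refine H_of ?_ ?_
  · intro z hz
    rcases mem_pair.1 hz with rfl | rfl
    · exact hx
    · exact hy
  · have : {z : ZFSet.{0} | z ∈ ({x, y} : ZFSet.{0})} = {x, y} := by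
      ext z; exact mem_pair
    rw [this]
    exact (Set.countable_singleton y).insert x

theorem H_sing {x : ZFSet.{0}} (hx : x ∈ H) : ({x} : ZFSet.{0}) ∈ H := by
  rw [← pair_eq_singleton]; exact H_upair hx hx

theorem H_pair {x y : ZFSet.{0}} (hx : x ∈ H) (hy : y ∈ H) : pair x y ∈ H := by
  unfold pair
  exact H_upair (H_sing hx) (H_upair hx hy)

theorem H_sUnion {x : ZFSet.{0}} (hx : x ∈ H) : (⋃₀ x : ZFSet.{0}) ∈ H := by
  refine H_of ?_ ?_
  · intro z hz
    obtain ⟨y, hy, hz⟩ := mem_sUnion.1 hz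
    exact H_trans (H_trans hx hy) hz
  · have : {z : ZFSet.{0} | z ∈ (⋃₀ x : ZFSet.{0})} = ⋃ y ∈ {y | y ∈ x}, {z | z ∈ y} := by
      ext z
      simp
    rw [this]
    exact (H_count hx).biUnion (fun y hy => H_count (H_trans hx hy))

theorem H_insert {x y : ZFSet.{0}} (hx : x ∈ H) (hy : y ∈ H) : insert x y ∈ H := by
  refine H_of ?_ ?_
  · intro z hz
    rcases mem_insert_iff.1 hz with rfl | hz
    · exact hx
    · exact H_trans hy hz
  · have : {z : ZFSet.{0} | z ∈ insert x y} = insert x {z | z ∈ y} := by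
      ext z; exact mem_insert_iff
    rw [this]
    exact (H_count hy).insert x

theorem H_range {f : ℕ → ZFSet.{0}} (hf : ∀ n, f n ∈ H) : ZFSet.range f ∈ H := by
  refine H_of ?_ ?_
  · intro z hz
    obtain ⟨n, rfl⟩ := ZFSet.mem_range.1 hz
    exact hf n
  · have : {z : ZFSet.{0} | z ∈ ZFSet.range f} = Set.range f := by
      ext z; exact ZFSet.mem_range
    rw [this]
    exact Set.countable_range _

/-! ### Countable closures -/

theorem exists_closed (R : Set (List ZFSet.{0} → ZFSet.{0} → Prop)) (hR : R.Countable)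
    (B : Set ZFSet.{0}) (hB : B.Countable) :
    ∃ N : Set ZFSet.{0}, B ⊆ N ∧ N.Countable ∧
      ∀ r ∈ R, ∀ l : List ZFSet.{0}, (∀ x ∈ l, x ∈ N) → (∃ y, r l y) → ∃ y ∈ N, r l y := by
  classical
  let c : (List ZFSet.{0} → ZFSet.{0} → Prop) → List ZFSet.{0} → ZFSet.{0} := fun r l =>
    if h : ∃ y, r l y then h.choose else ∅
  have hc : ∀ (r : List ZFSet.{0} → ZFSet.{0} → Prop) (l : List ZFSet.{0}),
      (∃ y, r l y) → r l (c r l) := by
    intro r l h
    simp only [c, dif_pos h]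
    exact h.choose_spec
  let step : Set ZFSet.{0} → Set ZFSet.{0} := fun S =>
    S ∪ ⋃ r ∈ R, (fun l => c r l) '' {l : List ZFSet.{0} | ∀ x ∈ l, x ∈ S}
  let S : ℕ → Set ZFSet.{0} := fun n => step^[n] B
  have hS0 : S 0 = B := rfl
  have hSs : ∀ n, S (n + 1) = step (S n) := fun n => Function.iterate_succ_apply' step n B
  have hmono1 : ∀ n, S n ⊆ S (n + 1) := by
    intro n
    rw [hSs]
    exact Set.subset_union_left
  have hmono : Monotone S := monotone_nat_of_le_succ hmono1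
  have hcount : ∀ n, (S n).Countable := by
    intro n
    induction n with
    | zero => rw [hS0]; exact hB
    | succ n ih =>
      rw [hSs]
      refine ih.union ?_
      refine hR.biUnion ?_
      intro r _
      refine Set.Countable.image ?_ _
      have : {l : List ZFSet.{0} | ∀ x ∈ l, x ∈ S n} = Set.range (fun l : List (S n) => l.map Subtype.val) := by
        ext l
        constructor
        · intro hl
          exact ⟨l.attach.map (fun x => ⟨x.1, hl x.1 x.2⟩), by simp [List.map_map, Function.comp_def]⟩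
        · rintro ⟨l, rfl⟩ x hx
          obtain ⟨y, -, rfl⟩ := List.mem_map.1 hx
          exact y.2
      rw [this]
      have := ih.to_subtype
      exact Set.countable_range _
  refine ⟨⋃ n, S n, ?_, Set.countable_iUnion hcount, ?_⟩
  · intro x hx
    exact Set.mem_iUnion.2 ⟨0, hx⟩
  · intro r hr l hl hy
    have : ∃ n, ∀ x ∈ l, x ∈ S n := by
      clear hy
      induction l with
      | nil => exact ⟨0, fun x hx => absurd hx (by simp)⟩
      | cons a l ih =>
        obtain ⟨n, hn⟩ := ih (fun x hx => hl x (List.mem_cons_of_mem _ hx))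
        obtain ⟨k, hk⟩ := Set.mem_iUnion.1 (hl a List.mem_cons_self)
        refine ⟨max n k, ?_⟩
        intro x hx
        rcases List.mem_cons.1 hx with rfl | hx
        · exact hmono (le_max_right _ _) hk
        · exact hmono (le_max_left _ _) (hn x hx)
    obtain ⟨n, hn⟩ := this
    refine ⟨c r l, Set.mem_iUnion.2 ⟨n + 1, ?_⟩, hc r l hy⟩
    rw [hSs]
    refine Or.inr ?_
    exact Set.mem_iUnion₂.2 ⟨r, hr, l, hn, rfl⟩

/-- relations on lists coming from relations with `n + m` arguments -/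
def mkR {n m : ℕ} (Φ : (Fin n → ZFSet.{0}) → (Fin m → ZFSet.{0}) → ZFSet.{0} → Prop) :
    List ZFSet.{0} → ZFSet.{0} → Prop :=
  fun l y => ∃ (A : Fin n → ZFSet.{0}) (v : Fin m → ZFSet.{0}),
    l = List.ofFn A ++ List.ofFn v ∧ Φ A v y

theorem mkR_use {n m : ℕ} {Φ : (Fin n → ZFSet.{0}) → (Fin m → ZFSet.{0}) → ZFSet.{0} → Prop}
    {N : Set ZFSet.{0}}
    (h : ∀ l : List ZFSet.{0}, (∀ x ∈ l, x ∈ N) → (∃ y, mkR Φ l y) → ∃ y ∈ N, mkR Φ l y)
    (A : Fin n → ZFSet.{0}) (v : Fin m → ZFSet.{0}) (hA : ∀ i, A i ∈ N) (hv : ∀ i, v i ∈ N)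
    (hy : ∃ y, Φ A v y) : ∃ y ∈ N, Φ A v y := by
  obtain ⟨y, hy⟩ := hy
  obtain ⟨z, hz, A', v', he, hz'⟩ := h (List.ofFn A ++ List.ofFn v) (by
    intro x hx
    rcases List.mem_append.1 hx with hx | hx
    · obtain ⟨i, rfl⟩ := List.mem_ofFn.1 hx
      exact hA i
    · obtain ⟨i, rfl⟩ := List.mem_ofFn.1 hx
      exact hv i) ⟨y, A, v, rfl, hy⟩
  have hlen : (List.ofFn A).length = (List.ofFn A').length := by simp
  obtain ⟨h1, h2⟩ := List.append_inj he hlen
  have h1' := List.ofFn_injective h1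
  have h2' := List.ofFn_injective h2
  subst h1' h2'
  exact ⟨z, hz, hz'⟩

/-! ### Countability of the set of formulas -/

/-- untyped formulas -/
inductive PF : Type
  | mem (i j : ℕ) | eq (i j : ℕ) | memC (i j : ℕ) | neg (φ : PF) | and (φ ψ : PF) | all (φ : PF)
  deriving Encodable

def erase {n : ℕ} : {m : ℕ} → Fml n m → PF
  | _, .mem i j => .mem i j
  | _, .eq i j => .eq i j
  | _, .memC i j => .memC i j
  | _, .neg φ => .neg (erase φ)
  | _, .and φ ψ => .and (erase φ) (erase ψ)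
  | _, .all φ => .all (erase φ)

theorem erase_inj {n : ℕ} : ∀ {m : ℕ} (φ ψ : Fml n m), erase φ = erase ψ → φ = ψ := by
  intro m φ
  induction φ with
  | mem i j =>
    intro ψ h
    cases ψ <;> simp [erase] at h
    obtain ⟨h1, h2⟩ := h
    rw [Fin.ext h1, Fin.ext h2]
  | eq i j =>
    intro ψ h
    cases ψ <;> simp [erase] at h
    obtain ⟨h1, h2⟩ := h
    rw [Fin.ext h1, Fin.ext h2]
  | memC i j =>
    intro ψ h
    cases ψ <;> simp [erase] at h
    obtain ⟨h1, h2⟩ := h
    rw [Fin.ext h1, Fin.ext h2]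
  | neg φ ih =>
    intro ψ h
    cases ψ <;> simp [erase] at h
    rw [ih _ h]
  | and φ ψ ih1 ih2 =>
    intro χ h
    cases χ <;> simp [erase] at h
    rw [ih1 _ h.1, ih2 _ h.2]
  | all φ ih =>
    intro ψ h
    cases ψ <;> simp [erase] at h
    rw [ih _ h]

instance (n m : ℕ) : Countable (Fml n m) :=
  Function.Injective.countable (f := fun φ : Fml n m => erase φ) (fun φ ψ h => erase_inj φ ψ h)

end Pool.Agent.Helper90.Cf
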