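import Pool.Agent.Helper90.CfE

/-!
# The model `(M, C)` satisfies `GB⁻`
-/

namespace Pool.Agent.Helper90.Cf

open ZFSet

/-- sets of the model -/
noncomputable def MN (N : Set ZFSet.{0}) : ZFSet.{0} := ZFSet.sep (fun x => x ∈ N) H

/-- classes of the model -/
noncomputable def CN (N : Set ZFSet.{0}) : ZFSet.{0} :=
  ZFSet.sep (fun Y => ∃ X ∈ N, Y = X ∩ MN N) (powerset (MN N))

variable {N : Set ZFSet.{0}} {P le : ZFSet.{0}} {F : ZFSet.{0} → ZFSet.{0}}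

theorem mem_MN {x : ZFSet.{0}} : x ∈ MN N ↔ x ∈ H ∧ x ∈ N := by
  unfold MN; exact ZFSet.mem_sep

theorem mem_CN {Y : ZFSet.{0}} : Y ∈ CN N ↔ ∃ X ∈ N, Y = X ∩ MN N := by
  unfold CN
  rw [ZFSet.mem_sep, mem_powerset]
  constructor
  · rintro ⟨-, h⟩; exact h
  · rintro ⟨X, hX, rfl⟩
    exact ⟨fun z hz => (mem_inter.1 hz).2, X, hX, rfl⟩

theorem MN_trans (h : Env N P le F) {x y : ZFSet.{0}} (hx : x ∈ MN N) (hy : y ∈ x) :
    y ∈ MN N := by
  rw [mem_MN] at hx ⊢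
  exact ⟨H_trans hx.1 hy, h.tr x hx.2 hx.1 y hy⟩

theorem MN_upair (h : Env N P le F) {x y : ZFSet.{0}} (hx : x ∈ MN N) (hy : y ∈ MN N) :
    ({x, y} : ZFSet.{0}) ∈ MN N := by
  rw [mem_MN] at hx hy ⊢
  exact ⟨H_upair hx.1 hy.1, h.upair x hx.2 y hy.2⟩

theorem MN_sing (h : Env N P le F) {x : ZFSet.{0}} (hx : x ∈ MN N) :
    ({x} : ZFSet.{0}) ∈ MN N := by
  rw [← pair_eq_singleton]; exact MN_upair h hx hx

theorem MN_pair (h : Env N P le F) {x y : ZFSet.{0}} (hx : x ∈ MN N) (hy : y ∈ MN N) :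
    pair x y ∈ MN N := by
  unfold pair
  exact MN_upair h (MN_sing h hx) (MN_upair h hx hy)

theorem MN_of_pair (h : Env N P le F) {x y : ZFSet.{0}} (hxy : pair x y ∈ MN N) :
    x ∈ MN N ∧ y ∈ MN N := by
  have h1 : ({x, y} : ZFSet.{0}) ∈ pair x y := by
    unfold pair; exact mem_pair.2 (Or.inr rfl)
  have h2 := MN_trans h hxy h1
  exact ⟨MN_trans h h2 (mem_pair.2 (Or.inl rfl)), MN_trans h h2 (mem_pair.2 (Or.inr rfl))⟩

theorem MN_tup (h : Env N P le F) (h0 : (∅ : ZFSet.{0}) ∈ MN N) : ∀ {m : ℕ}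
    (v : Fin m → ZFSet.{0}), (∀ i, v i ∈ MN N) → tup v ∈ MN N
  | 0, _, _ => h0
  | _ + 1, v, hv => MN_pair h (hv 0) (MN_tup h h0 (fun i => v i.succ) (fun i => hv i.succ))

theorem MN_of_tup (h : Env N P le F) : ∀ {m : ℕ} (v : Fin m → ZFSet.{0}), tup v ∈ MN N →
    ∀ i, v i ∈ MN N
  | 0, _, _ => fun i => i.elim0
  | _ + 1, v, hv => by
    have h1 := MN_of_pair h hv
    intro i
    refine Fin.cases ?_ ?_ i
    · exact h1.1
    · exact MN_of_tup h (fun i => v i.succ) h1.2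

theorem tup_inj : ∀ {m : ℕ} (v w : Fin m → ZFSet.{0}), tup v = tup w → v = w
  | 0, v, w, _ => funext fun i => i.elim0
  | _ + 1, v, w, h => by
    obtain ⟨h1, h2⟩ := pair_inj.1 h
    have h3 := tup_inj _ _ h2
    funext i
    refine Fin.cases ?_ ?_ i
    · exact h1
    · intro j; exact congrFun h3 j

theorem MN_isModel (h : Env N P le F) : IsModel (MN N) (CN N) where
  trans := fun x hx y hy => MN_trans h hx hy
  sub := by
    intro X hX
    obtain ⟨Y, -, rfl⟩ := mem_CN.1 hX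
    exact fun z hz => (mem_inter.1 hz).2
  incl := by
    intro x hx
    refine mem_CN.2 ⟨x, (mem_MN.1 hx).2, ?_⟩
    ext z
    rw [mem_inter]
    exact ⟨fun hz => ⟨hz, MN_trans h hx hz⟩, fun hz => hz.1⟩

theorem sat_abs (h : Env N P le F) {n : ℕ} (A : Fin n → ZFSet.{0}) (hA : ∀ i, A i ∈ N)
    {m : ℕ} (φ : Fml n m) : ∀ v : Fin m → ZFSet.{0}, (∀ i, v i ∈ MN N) →
      (Sat (MN N : Set ZFSet.{0}) (fun i => A i ∩ MN N) φ v ↔ Sat HS A φ v) := by
  induction φ with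
  | mem i j => intro v hv; exact Iff.rfl
  | eq i j => intro v hv; exact Iff.rfl
  | memC i j =>
    intro v hv
    simp only [Sat]
    rw [mem_inter]
    exact ⟨fun hz => hz.1, fun hz => ⟨hz, hv i⟩⟩
  | neg φ ih =>
    intro v hv
    simp only [Sat]
    rw [ih v hv]
  | and φ ψ ih1 ih2 =>
    intro v hv
    simp only [Sat]
    rw [ih1 v hv, ih2 v hv]
  | all φ ih =>
    intro v hv
    have hcons : ∀ x ∈ MN N, ∀ i, (Fin.cons x v : Fin (_ + 1) → ZFSet.{0}) i ∈ MN N := by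
      intro x hx i
      refine Fin.cases ?_ ?_ i
      · exact hx
      · intro j; exact hv j
    simp only [Sat]
    constructor
    · intro hM
      by_contra hcon
      push Not at hcon
      obtain ⟨x, hx, hxs⟩ := hcon
      obtain ⟨y, hyN, hyH, hys⟩ := h.tv (.neg φ) A v hA (fun i => (mem_MN.1 (hv i)).2)
        ⟨x, hx, hxs⟩
      have hy : y ∈ MN N := mem_MN.2 ⟨hyH, hyN⟩
      exact hys ((ih _ (hcons y hy)).1 (hM y hy))
    · intro hM x hx
      exact (ih _ (hcons x hx)).2 (hM x (mem_MN.1 hx).1)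

theorem cons_mem {m : ℕ} {v : Fin m → ZFSet.{0}} {a S : ZFSet.{0}} (hv : ∀ i, v i ∈ S)
    (ha : a ∈ S) : ∀ i, (Fin.cons a v : Fin (m + 1) → ZFSet.{0}) i ∈ S := by
  intro i
  refine Fin.cases ?_ ?_ i
  · exact ha
  · intro j; exact hv j

theorem MN_gb (h : Env N P le F) {w : ZFSet.{0}} (hω : w ∈ N) (hωH : w ∈ H)
    (omega_zero : ∅ ∈ w) (omega_succ : ∀ {n : ZFSet.{0}}, n ∈ w → insert n n ∈ w) :
    GBMinus (MN N) (CN N) := by
  have hrep : ∀ {n : ℕ} (A : Fin n → ZFSet.{0}), (∀ i, A i ∈ CN N) →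
      ∃ A' : Fin n → ZFSet.{0}, (∀ i, A' i ∈ N) ∧ A = fun i => A' i ∩ MN N := by
    intro n A hA
    have : ∀ i, ∃ X, X ∈ N ∧ A i = X ∩ MN N := fun i => by
      obtain ⟨X, hX, he⟩ := mem_CN.1 (hA i)
      exact ⟨X, hX, he⟩
    choose A' hA' he using this
    exact ⟨A', hA', funext he⟩
  have hfound : ∀ X : ZFSet.{0}, (∃ y ∈ MN N, y ∈ X) →
      ∃ y ∈ MN N, y ∈ X ∧ ∀ z ∈ MN N, ¬ (z ∈ y ∧ z ∈ X) := by
    rintro X ⟨y, hy, hyX⟩
    have hne : X ∩ MN N ≠ ∅ := by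
      intro h0
      have : y ∈ X ∩ MN N := mem_inter.2 ⟨hyX, hy⟩
      rw [h0] at this
      exact notMem_empty _ this
    obtain ⟨z, hz, hz0⟩ := regularity _ hne
    obtain ⟨hzX, hzM⟩ := mem_inter.1 hz
    refine ⟨z, hzM, hzX, ?_⟩
    rintro w hw ⟨h1, h2⟩
    have : w ∈ (X ∩ MN N) ∩ z := mem_inter.2 ⟨mem_inter.2 ⟨h2, hw⟩, h1⟩
    rw [hz0] at this
    exact notMem_empty _ this
  have hωM : w ∈ MN N := mem_MN.2 ⟨hωH, hω⟩
  constructor
  · intro x hx y hy hxy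
    ext z
    exact ⟨fun hz => (hxy z (MN_trans h hx hz)).1 hz, fun hz => (hxy z (MN_trans h hy hz)).2 hz⟩
  · intro x hx hne
    exact hfound x hne
  · intro x hx y hy
    exact ⟨{x, y}, MN_upair h hx hy, fun w _ => mem_pair⟩
  · intro x hx
    refine ⟨⋃₀ x, mem_MN.2 ⟨H_sUnion (mem_MN.1 hx).1, h.sUnion x (mem_MN.1 hx).2⟩, ?_⟩
    intro w _
    rw [mem_sUnion]
    constructor
    · rintro ⟨z, hz, hw⟩
      exact ⟨z, MN_trans h hx hz, hz, hw⟩
    · rintro ⟨z, -, hz, hw⟩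
      exact ⟨z, hz, hw⟩
  · refine ⟨w, hωM, ⟨∅, MN_trans h hωM omega_zero, fun z _ => notMem_empty z, omega_zero⟩, ?_⟩
    intro x hx hxω
    refine ⟨insert x x, MN_trans h hωM (omega_succ hxω), omega_succ hxω, ?_⟩
    intro z _
    rw [mem_insert_iff]
    exact Or.comm
  · intro n m φ A v hA hv a ha
    obtain ⟨A', hA', rfl⟩ := hrep A hA
    have h1 := h.comp φ A' v hA' (fun i => (mem_MN.1 (hv i)).2)
    refine ⟨a ∩ ZFSet.sep (fun x => Sat HS A' φ (Fin.cons x v)) H, mem_MN.2 ⟨?_, ?_⟩, ?_⟩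
    · exact H_sub (mem_MN.1 ha).1 (fun z hz => (mem_inter.1 hz).1)
    · exact h.inter _ (mem_MN.1 ha).2 _ h1
    · intro x hx
      rw [mem_inter, mem_sep, sat_abs h A' hA' φ _ (cons_mem hv hx)]
      exact ⟨fun hh => ⟨hh.1, hh.2.2⟩, fun hh => ⟨hh.1, (mem_MN.1 hx).1, hh.2⟩⟩
  · intro n m φ A v hA hv a ha hcol
    obtain ⟨A', hA', rfl⟩ := hrep A hA
    have h1 : ∃ b, b ∈ H ∧ ∀ x ∈ a, ∃ z ∈ b, Sat HS A' φ (Fin.cons z (Fin.cons x v)) := by
      have h2 : ∀ x, ∃ y, x ∈ a → (y ∈ H ∧ Sat HS A' φ (Fin.cons y (Fin.cons x v))) := by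
        intro x
        by_cases hx : x ∈ a
        · obtain ⟨y, hy, hys⟩ := hcol x (MN_trans h ha hx) hx
          refine ⟨y, fun _ => ⟨(mem_MN.1 hy).1, ?_⟩⟩
          exact (sat_abs h A' hA' φ _ (cons_mem (cons_mem hv (MN_trans h ha hx)) hy)).1 hys
        · exact ⟨∅, fun hx' => absurd hx' hx⟩
      choose f hf using h2
      obtain ⟨en, hen⟩ := exists_enum' a (mem_MN.1 ha).1
      by_cases hane : a = ∅
      · exact ⟨∅, H_empty, fun x hx => absurd (hane ▸ hx) (notMem_empty x)⟩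
      · obtain ⟨x0, hx0⟩ := (eq_empty_or_nonempty a).resolve_left hane
        classical
        refine ⟨ZFSet.range (fun k : ℕ => if en k ∈ a then f (en k) else ∅), H_range ?_, ?_⟩
        · intro k
          split_ifs with hk
          · exact (hf _ hk).1
          · exact H_empty
        · intro x hx
          obtain ⟨k, hk, hk'⟩ := hen x hx
          refine ⟨f x, ZFSet.mem_range.2 ⟨k, ?_⟩, (hf x hx).2⟩
          simp only [if_pos hk', hk]
    obtain ⟨b, hbN, hbH, hb⟩ := h.coll φ A' v a hA' (fun i => (mem_MN.1 (hv i)).2)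
      (mem_MN.1 ha).2 h1
    have hbM : b ∈ MN N := mem_MN.2 ⟨hbH, hbN⟩
    refine ⟨b, hbM, ?_⟩
    intro x hx hxa
    obtain ⟨z, hz, hzs⟩ := hb x hxa
    have hzM := MN_trans h hbM hz
    exact ⟨z, hzM, hz, (sat_abs h A' hA' φ _ (cons_mem (cons_mem hv hx) hzM)).2 hzs⟩
  · intro X hX Y hY hXY
    have hs := (MN_isModel h).sub
    ext z
    exact ⟨fun hz => (hXY z (hs X hX hz)).1 hz, fun hz => (hXY z (hs Y hY hz)).2 hz⟩
  · intro X hX hne
    exact hfound X hne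
  · intro n m φ A v hA hv
    obtain ⟨A', hA', rfl⟩ := hrep A hA
    have h1 := h.comp φ A' v hA' (fun i => (mem_MN.1 (hv i)).2)
    refine ⟨_, mem_CN.2 ⟨_, h1, rfl⟩, ?_⟩
    intro x hx
    rw [mem_inter, mem_sep, sat_abs h A' hA' φ _ (cons_mem hv hx)]
    exact ⟨fun hh => hh.1.2, fun hh => ⟨⟨(mem_MN.1 hx).1, hh⟩, hx⟩⟩

theorem MN_countable (hN : N.Countable) : {x | x ∈ MN N}.Countable :=
  hN.mono (fun x hx => (mem_MN.1 hx).2)

theorem CN_countable (hN : N.Countable) : {x | x ∈ CN N}.Countable := by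
  have : {x | x ∈ CN N} ⊆ (fun X => X ∩ MN N) '' N := by
    intro x hx
    obtain ⟨X, hX, he⟩ := mem_CN.1 hx
    exact ⟨X, hX, he.symm⟩
  exact (hN.image _).mono this

end Pool.Agent.Helper90.Cf
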