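import Pool.Agent.Helper90.CfT

/-!
# A class forcing that satisfies the forcing theorem and turns the class of all reals into a set
-/

namespace Pool.Agent.Helper90.Cf

open ZFSet

/-- von Neumann naturals -/
noncomputable def nm : ℕ → ZFSet.{0}
  | 0 => ∅
  | n + 1 => insert (nm n) (nm n)

theorem nm_H (n : ℕ) : nm n ∈ H := by
  induction n with
  | zero => exact H_empty
  | succ n ih => exact H_insert ih ih

theorem mem_nm {n : ℕ} {x : ZFSet.{0}} : x ∈ nm n ↔ ∃ k < n, x = nm k := by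
  induction n with
  | zero =>
    rw [nm]
    constructor
    · intro h; exact absurd h (notMem_empty x)
    · rintro ⟨k, hk, -⟩; exact absurd hk (Nat.not_lt_zero k)
  | succ n ih =>
    rw [nm, mem_insert_iff, ih]
    constructor
    · rintro (rfl | ⟨k, hk, rfl⟩)
      · exact ⟨n, Nat.lt_succ_self n, rfl⟩
      · exact ⟨k, hk.trans (Nat.lt_succ_self n), rfl⟩
    · rintro ⟨k, hk, rfl⟩
      rcases Nat.lt_succ_iff_lt_or_eq.1 hk with h | rfl
      · exact Or.inr ⟨k, h, rfl⟩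
      · exact Or.inl rfl

theorem nm_inj : Function.Injective nm := by
  intro a b hab
  rcases lt_trichotomy a b with h | h | h
  · have : nm a ∈ nm b := mem_nm.2 ⟨a, h, rfl⟩
    rw [hab] at this
    exact absurd this (mem_irrefl _)
  · exact h
  · have : nm b ∈ nm a := mem_nm.2 ⟨b, h, rfl⟩
    rw [hab] at this
    exact absurd this (mem_irrefl _)

/-- the set of naturals -/
noncomputable def om : ZFSet.{0} := ZFSet.range nm

theorem mem_om {x : ZFSet.{0}} : x ∈ om ↔ ∃ n, nm n = x := by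
  unfold om; exact ZFSet.mem_range

theorem om_H : om ∈ H := H_range nm_H

theorem om_zero : (∅ : ZFSet.{0}) ∈ om := mem_om.2 ⟨0, by rw [nm]⟩

theorem om_succ {n : ZFSet.{0}} (h : n ∈ om) : insert n n ∈ om := by
  obtain ⟨k, rfl⟩ := mem_om.1 h
  exact mem_om.2 ⟨k + 1, by rw [nm]⟩

theorem sub_om_H {x : ZFSet.{0}} (h : x ⊆ om) : x ∈ H := H_sub om_H h

/-- check names of naturals -/
noncomputable def chk : ℕ → ZFSet.{0}
  | 0 => ∅
  | n + 1 => insert (pair (chk n) ∅) (chk n)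

theorem chk_H (n : ℕ) : chk n ∈ H := by
  induction n with
  | zero => exact H_empty
  | succ n ih => exact H_insert (H_pair ih H_empty) ih

theorem val_chk {G : Set ZFSet.{0}} (hG : (∅ : ZFSet.{0}) ∈ G) (n : ℕ) :
    val G (chk n) = nm n := by
  induction n with
  | zero =>
    ext x
    rw [mem_val, nm]
    constructor
    · rintro ⟨ρ, p, -, h, -⟩; exact absurd h (notMem_empty _)
    · intro h; exact absurd h (notMem_empty x)
  | succ n ih =>
    ext x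
    rw [mem_val, nm, mem_insert_iff, ← ih, mem_val]
    constructor
    · rintro ⟨ρ, p, hp, h, rfl⟩
      rw [chk, mem_insert_iff] at h
      rcases h with h | h
      · obtain ⟨rfl, rfl⟩ := pair_inj.1 h
        exact Or.inl rfl
      · exact Or.inr ⟨ρ, p, hp, h, rfl⟩
    · rintro (rfl | ⟨ρ, p, hp, h, rfl⟩)
      · exact ⟨chk n, ∅, hG, by rw [chk]; exact mem_insert _ _, rfl⟩
      · exact ⟨ρ, p, hp, by rw [chk]; exact mem_insert_of_mem _ h, rfl⟩

theorem name_chk (P : ZFSet.{0}) (hP : (∅ : ZFSet.{0}) ∈ P) (n : ℕ) : IsName P (chk n) := by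
  induction n with
  | zero =>
    exact ⟨_, fun y hy => absurd hy (notMem_empty y), fun τ p h => absurd h (notMem_empty _)⟩
  | succ n ih =>
    obtain ⟨_, h1, h2⟩ := ih
    refine ⟨_, ?_, ?_⟩
    · intro y hy
      rw [chk, mem_insert_iff] at hy
      rcases hy with rfl | hy
      · exact ⟨_, _, rfl, hP⟩
      · exact h1 y hy
    · intro τ p hy
      rw [chk, mem_insert_iff] at hy
      rcases hy with hy | hy
      · obtain ⟨rfl, rfl⟩ := pair_inj.1 hy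
        exact ⟨_, h1, h2⟩
      · exact h2 τ p hy

/-- the token `k ∈ g n` -/
noncomputable def tok (n k : ℕ) : ZFSet.{0} := pair ∅ (pair (nm n) (nm k))

/-- the promise `g n = x` -/
noncomputable def prm (n : ℕ) (x : ZFSet.{0}) : ZFSet.{0} := pair {∅} (pair (nm n) x)

theorem tok_inj {n k n' k' : ℕ} (h : tok n k = tok n' k') : n = n' ∧ k = k' := by
  obtain ⟨-, h⟩ := pair_inj.1 h
  obtain ⟨h1, h2⟩ := pair_inj.1 h
  exact ⟨nm_inj h1, nm_inj h2⟩

theorem prm_inj {n n' : ℕ} {x x' : ZFSet.{0}} (h : prm n x = prm n' x') : n = n' ∧ x = x' := by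
  obtain ⟨-, h⟩ := pair_inj.1 h
  obtain ⟨h1, h2⟩ := pair_inj.1 h
  exact ⟨nm_inj h1, h2⟩

theorem tok_ne_prm {n k n' : ℕ} {x : ZFSet.{0}} (h : tok n k = prm n' x) : False := by
  obtain ⟨h, -⟩ := pair_inj.1 h
  have h1 : (∅ : ZFSet.{0}) ∈ ({∅} : ZFSet.{0}) := mem_singleton.2 rfl
  rw [← h] at h1
  exact notMem_empty _ h1

/-- `g` satisfies `p` -/
def Ok (g : ℕ → ZFSet.{0}) (p : ZFSet.{0}) : Prop :=
  (∀ n, g n ⊆ om) ∧ ∀ t ∈ p, (∃ n k, t = tok n k ∧ nm k ∈ g n) ∨ (∃ n, t = prm n (g n))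

/-- conditions -/
def IsCond (p : ZFSet.{0}) : Prop := {y | y ∈ p}.Finite ∧ ∃ g, Ok g p

noncomputable def P0 : ZFSet.{0} := ZFSet.sep IsCond H

theorem mem_P0 {p : ZFSet.{0}} : p ∈ P0 ↔ p ∈ H ∧ IsCond p := by
  unfold P0; exact ZFSet.mem_sep

noncomputable def le0 : ZFSet.{0} :=
  ZFSet.sep (fun z => ∃ p q, z = pair p q ∧ q ⊆ p) (P0.prod P0)

theorem Le_iff {p q : ZFSet.{0}} : Le le0 p q ↔ p ∈ P0 ∧ q ∈ P0 ∧ q ⊆ p := by
  unfold Le le0
  rw [mem_sep, pair_mem_prod]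
  constructor
  · rintro ⟨⟨h1, h2⟩, a, b, he, h3⟩
    obtain ⟨rfl, rfl⟩ := pair_inj.1 he
    exact ⟨h1, h2, h3⟩
  · rintro ⟨h1, h2, h3⟩
    exact ⟨⟨h1, h2⟩, p, q, rfl, h3⟩

theorem empty_P0 : (∅ : ZFSet.{0}) ∈ P0 := by
  refine mem_P0.2 ⟨H_empty, ?_, fun _ => om, fun n => fun z hz => hz, fun t ht =>
    absurd ht (notMem_empty t)⟩
  have : {y : ZFSet.{0} | y ∈ (∅ : ZFSet.{0})} = ∅ := by
    ext y; exact iff_of_false (notMem_empty y) (fun h => h)
  rw [this]; exact Set.finite_empty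

theorem le_empty {p : ZFSet.{0}} (hp : p ∈ P0) : Le le0 p ∅ :=
  Le_iff.2 ⟨hp, empty_P0, empty_subset p⟩

theorem notion0 : IsNotion {P0, le0} P0 le0 where
  memP := mem_pair.2 (Or.inl rfl)
  memLe := mem_pair.2 (Or.inr rfl)
  dom := by
    intro x hx
    unfold le0 at hx
    rw [mem_sep, mem_prod] at hx
    obtain ⟨⟨p, hp, q, hq, rfl⟩, -⟩ := hx
    exact ⟨p, hp, q, hq, rfl⟩
  refl := fun p hp => Le_iff.2 ⟨hp, hp, fun z hz => hz⟩
  trans := fun p hp q _ r hr h1 h2 =>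
    Le_iff.2 ⟨hp, hr, fun z hz => (Le_iff.1 h1).2.2 ((Le_iff.1 h2).2.2 hz)⟩
  antisymm := by
    intro p _ q _ h1 h2
    ext z
    exact ⟨fun hz => (Le_iff.1 h2).2.2 hz, fun hz => (Le_iff.1 h1).2.2 hz⟩
  top := ⟨∅, empty_P0, fun p hp => le_empty hp⟩

theorem fin_insert {t p : ZFSet.{0}} (hp : {y | y ∈ p}.Finite) : {y | y ∈ insert t p}.Finite := by
  have : {y : ZFSet.{0} | y ∈ insert t p} = insert t {y | y ∈ p} := by
    ext y; exact mem_insert_iff
  rw [this]; exact hp.insert t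

theorem le_insert {t p : ZFSet.{0}} (hp : p ∈ P0) (hq : insert t p ∈ P0) :
    Le le0 (insert t p) p := Le_iff.2 ⟨hq, hp, fun _ hz => mem_insert_of_mem _ hz⟩

theorem tok_H (n k : ℕ) : tok n k ∈ H := H_pair H_empty (H_pair (nm_H n) (nm_H k))

theorem prm_H (n : ℕ) {x : ZFSet.{0}} (hx : x ∈ H) : prm n x ∈ H :=
  H_pair (H_sing H_empty) (H_pair (nm_H n) hx)

/-- adding a promise allowed by a witness -/
theorem insert_prm {g : ℕ → ZFSet.{0}} {p : ZFSet.{0}} (hp : p ∈ P0) (hg : Ok g p) (n : ℕ) :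
    insert (prm n (g n)) p ∈ P0 := by
  obtain ⟨hpH, hfin, -⟩ := mem_P0.1 hp
  refine mem_P0.2 ⟨H_insert (prm_H n (sub_om_H (hg.1 n))) hpH, fin_insert hfin, g, hg.1, ?_⟩
  intro t ht
  rcases mem_insert_iff.1 ht with rfl | ht
  · exact Or.inr ⟨n, rfl⟩
  · exact hg.2 t ht

theorem insert_tok {g : ℕ → ZFSet.{0}} {p : ZFSet.{0}} (hp : p ∈ P0) (hg : Ok g p) (n k : ℕ)
    (hk : nm k ∈ g n) : insert (tok n k) p ∈ P0 := by
  obtain ⟨hpH, hfin, -⟩ := mem_P0.1 hp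
  refine mem_P0.2 ⟨H_insert (tok_H n k) hpH, fin_insert hfin, g, hg.1, ?_⟩
  intro t ht
  rcases mem_insert_iff.1 ht with rfl | ht
  · exact Or.inl ⟨n, k, rfl, hk⟩
  · exact hg.2 t ht

theorem ok_prm {g : ℕ → ZFSet.{0}} {p : ZFSet.{0}} (hg : Ok g p) {n : ℕ} {x : ZFSet.{0}}
    (h : prm n x ∈ p) : x = g n := by
  rcases hg.2 _ h with ⟨n', k', he, -⟩ | ⟨n', he⟩
  · exact absurd he.symm (fun h => tok_ne_prm h)
  · obtain ⟨rfl, h⟩ := prm_inj he
    exact h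

theorem ok_tok {g : ℕ → ZFSet.{0}} {p : ZFSet.{0}} (hg : Ok g p) {n k : ℕ}
    (h : tok n k ∈ p) : nm k ∈ g n := by
  rcases hg.2 _ h with ⟨n', k', he, hk⟩ | ⟨n', he⟩
  · obtain ⟨rfl, rfl⟩ := tok_inj he
    exact hk
  · exact absurd he (fun h => tok_ne_prm h)

/-- a fresh index is available -/
theorem fresh {p : ZFSet.{0}} (hp : p ∈ P0) {x : ZFSet.{0}} (hx : x ⊆ om) :
    ∃ n, insert (prm n x) p ∈ P0 := by
  classical
  obtain ⟨hpH, hfin, g, hg⟩ := mem_P0.1 hp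
  have h1 : {n : ℕ | ∃ t ∈ p, (∃ k, t = tok n k) ∨ (∃ y, t = prm n y)}.Finite := by
    have h2 : ∀ t : ZFSet.{0}, {n : ℕ | (∃ k, t = tok n k) ∨ (∃ y, t = prm n y)}.Subsingleton := by
      rintro t a ha b hb
      rcases ha with ⟨k, rfl⟩ | ⟨y, rfl⟩
      · rcases hb with ⟨k', h⟩ | ⟨y', h⟩
        · exact (tok_inj h).1
        · exact absurd h (fun h => tok_ne_prm h)
      · rcases hb with ⟨k', h⟩ | ⟨y', h⟩
        · exact absurd h.symm (fun h => tok_ne_prm h)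
        · exact (prm_inj h).1
    have h3 : {n : ℕ | ∃ t ∈ p, (∃ k, t = tok n k) ∨ (∃ y, t = prm n y)} =
        ⋃ t ∈ {y | y ∈ p}, {n : ℕ | (∃ k, t = tok n k) ∨ (∃ y, t = prm n y)} := by
      ext n; simp
    rw [h3]
    exact hfin.biUnion (fun t _ => (h2 t).finite)
  obtain ⟨n, hn⟩ := h1.exists_notMem
  refine ⟨n, ?_⟩
  have hg' : Ok (Function.update g n x) p := by
    refine ⟨?_, ?_⟩
    · intro k
      by_cases hk : k = n
      · subst hk; rw [Function.update_self]; exact hx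
      · rw [Function.update_of_ne hk]; exact hg.1 k
    · intro t ht
      rcases hg.2 t ht with ⟨a, k, he, hk⟩ | ⟨a, he⟩
      · have hne : a ≠ n := by
          rintro rfl; exact hn ⟨t, ht, Or.inl ⟨k, he⟩⟩
        exact Or.inl ⟨a, k, he, by rw [Function.update_of_ne hne]; exact hk⟩
      · have hne : a ≠ n := by
          rintro rfl; exact hn ⟨t, ht, Or.inr ⟨g a, he⟩⟩
        exact Or.inr ⟨a, by rw [Function.update_of_ne hne]; exact he⟩
  have := insert_prm hp hg' n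
  rwa [Function.update_self] at this

/-- the name of the `n`-th real -/
noncomputable def tau (n : ℕ) : ZFSet.{0} := ZFSet.range fun k : ℕ => pair (chk k) {tok n k}

/-- the name of the set of all reals of the ground model -/
noncomputable def sig : ZFSet.{0} := ZFSet.range fun n : ℕ => pair (tau n) ∅

theorem tau_H (n : ℕ) : tau n ∈ H := H_range fun k => H_pair (chk_H k) (H_sing (tok_H n k))

theorem sig_H : sig ∈ H := H_range fun n => H_pair (tau_H n) H_empty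

theorem tok_P0 (n k : ℕ) : ({tok n k} : ZFSet.{0}) ∈ P0 := by
  have h := insert_tok (g := fun _ => om) empty_P0
    ⟨fun n => fun z hz => hz, fun t ht => absurd ht (notMem_empty t)⟩ n k (mem_om.2 ⟨k, rfl⟩)
  have h2 : ({tok n k} : ZFSet.{0}) = insert (tok n k) ∅ := by
    ext z; rw [mem_singleton, mem_insert_iff]
    exact ⟨fun h => Or.inl h, fun h => h.resolve_right (notMem_empty z)⟩
  rw [h2]; exact h

theorem name_sig : IsName P0 sig := by
  refine ⟨_, ?_, ?_⟩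
  · intro y hy
    obtain ⟨n, rfl⟩ := ZFSet.mem_range.1 hy
    exact ⟨_, _, rfl, empty_P0⟩
  · intro τ p h
    obtain ⟨n, hn⟩ := ZFSet.mem_range.1 h
    obtain ⟨rfl, rfl⟩ := pair_inj.1 hn
    refine ⟨_, ?_, ?_⟩
    · intro y hy
      obtain ⟨k, rfl⟩ := ZFSet.mem_range.1 hy
      exact ⟨_, _, rfl, tok_P0 n k⟩
    · intro τ p h
      obtain ⟨k, hk⟩ := ZFSet.mem_range.1 h
      obtain ⟨rfl, rfl⟩ := pair_inj.1 hk
      exact name_chk P0 empty_P0 k

/-- density class for a ground model real -/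
noncomputable def FF (x : ZFSet.{0}) : ZFSet.{0} := ZFSet.sep (fun p => ∃ n, prm n x ∈ p) P0
noncomputable def E1 (n k : ℕ) : ZFSet.{0} := ZFSet.sep (fun p => tok n k ∈ p) P0
noncomputable def E2 (n : ℕ) : ZFSet.{0} := ZFSet.sep (fun p => ∃ x, prm n x ∈ p) P0

theorem exists_setup : ∃ N : Set ZFSet.{0}, Setup N P0 le0 FF {P0, le0} ∧
    om ∈ N ∧ powerset om ∈ N ∧ sig ∈ N ∧ (∀ n k, E1 n k ∈ N) ∧ (∀ n, E2 n ∈ N) := by
  let B : Set ZFSet.{0} := ({P0, le0, H, om, powerset om, sig, ∅} : Set ZFSet.{0}) ∪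
    (Set.range (fun q : ℕ × ℕ => E1 q.1 q.2) ∪ Set.range E2)
  have hB : B.Countable := by
    refine Set.Countable.union ?_ ((Set.countable_range _).union (Set.countable_range _))
    exact (Set.toFinite _).countable
  obtain ⟨N, hBN, hNc, hN⟩ := exists_env P0 le0 FF B hB
  have h1 : P0 ∈ N := hBN (Or.inl (by simp))
  have h2 : le0 ∈ N := hBN (Or.inl (by simp))
  have h3 : H ∈ N := hBN (Or.inl (by simp))
  have h4 : om ∈ N := hBN (Or.inl (by simp))
  have h5 : powerset om ∈ N := hBN (Or.inl (by simp))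
  have h6 : sig ∈ N := hBN (Or.inl (by simp))
  have h7 : (∅ : ZFSet.{0}) ∈ N := hBN (Or.inl (by simp))
  have h8 : (∅ : ZFSet.{0}) ∈ MN N := mem_MN.2 ⟨H_empty, h7⟩
  refine ⟨N, ⟨hN, hNc, notion0, h1, h2, fun z hz => (mem_P0.1 hz).1, h3,
    ⟨∅, empty_P0, h8, fun p hp => le_empty hp⟩, h8⟩, h4, h5, h6, ?_, ?_⟩
  · intro n k; exact hBN (Or.inr (Or.inl ⟨(n, k), rfl⟩))
  · intro n; exact hBN (Or.inr (Or.inr ⟨n, rfl⟩))

theorem uncountable_powerset : ¬ {x : ZFSet.{0} | x ⊆ om}.Countable := by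
  intro h
  have h1 := h.to_subtype
  let f : Set ℕ → {x : ZFSet.{0} | x ⊆ om} := fun s =>
    ⟨ZFSet.sep (fun y => ∃ k ∈ s, y = nm k) om, fun z hz => (mem_sep.1 hz).1⟩
  have hf : Function.Injective f := by
    intro s t hst
    have h2 : ZFSet.sep (fun y => ∃ k ∈ s, y = nm k) om =
        ZFSet.sep (fun y => ∃ k ∈ t, y = nm k) om := congrArg Subtype.val hst
    ext k
    constructor
    · intro hk
      have : nm k ∈ ZFSet.sep (fun y => ∃ k ∈ s, y = nm k) om :=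
        mem_sep.2 ⟨mem_om.2 ⟨k, rfl⟩, k, hk, rfl⟩
      rw [h2] at this
      obtain ⟨-, j, hj, he⟩ := mem_sep.1 this
      rw [nm_inj he]; exact hj
    · intro hk
      have : nm k ∈ ZFSet.sep (fun y => ∃ k ∈ t, y = nm k) om :=
        mem_sep.2 ⟨mem_om.2 ⟨k, rfl⟩, k, hk, rfl⟩
      rw [← h2] at this
      obtain ⟨-, j, hj, he⟩ := mem_sep.1 this
      rw [nm_inj he]; exact hj
  have h3 : Countable (Set ℕ) := hf.countable
  obtain ⟨g, hg⟩ := exists_surjective_nat (Set ℕ)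
  exact Function.cantor_surjective g hg

theorem main : ∃ M C : ZFSet.{0}, {x | x ∈ M}.Countable ∧ {x | x ∈ C}.Countable ∧
    IsModel M C ∧ GBMinus M C ∧ ∃ P le : ZFSet.{0}, IsNotion C P le ∧ ForcingTheorem M C P le ∧
      ∃ σ ∈ M, IsName P σ ∧ ∃ G : Set ZFSet.{0}, IsGeneric C P le G ∧
        val G σ ∈ C ∧ val G σ ∉ M := by
  obtain ⟨N, S, hom, hpow, hsig, hE1, hE2⟩ := exists_setup
  have hsM : sig ∈ MN N := mem_MN.2 ⟨sig_H, hsig⟩
  have hpM : (∅ : ZFSet.{0}) ∈ PM N P0 := mem_PM.2 ⟨empty_P0, S.hempty⟩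
  obtain ⟨G, hG, hGe⟩ := exists_gen S hpM
  refine ⟨MN N, CN N, MN_countable S.cnt, CN_countable S.cnt, MN_isModel S.env,
    MN_gb S.env hom om_H om_zero om_succ, PM N P0, PM N le0, notionM S, forcing_theorem S,
    sig, hsM, (name_abs S sig hsM).2 name_sig, G, hG, ?_⟩
  have htauM : ∀ n, tau n ∈ MN N := by
    intro n
    exact (MN_of_pair S.env (MN_trans S.env hsM (ZFSet.mem_range.2 ⟨n, rfl⟩))).1
  have htokM : ∀ n k, ({tok n k} : ZFSet.{0}) ∈ MN N := by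
    intro n k
    exact (MN_of_pair S.env (MN_trans S.env (htauM n) (ZFSet.mem_range.2 ⟨k, rfl⟩))).2
  -- each index gets a promise
  have hA : ∀ n, ∃ x, x ⊆ om ∧ x ∈ MN N ∧ ∃ p ∈ G, prm n x ∈ p := by
    intro n
    rcases dec S hG (hE2 n) with ⟨p, hp, hb⟩ | ⟨p, hp, hb⟩
    · obtain ⟨x, hx⟩ := (mem_sep.1 hb).2
      obtain ⟨-, -, g, hg⟩ := mem_P0.1 (gen_P hG hp)
      have h1 := MN_trans S.env (gen_M hG hp) hx
      have h2 := (MN_of_pair S.env (MN_of_pair S.env h1).2).2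
      exact ⟨x, ok_prm hg hx ▸ hg.1 n, h2, p, hp, hx⟩
    · exfalso
      obtain ⟨-, -, g, hg⟩ := mem_P0.1 (gen_P hG hp)
      have h1 := insert_prm (gen_P hG hp) hg n
      exact hb _ h1 (le_insert (gen_P hG hp) h1) (mem_sep.2 ⟨h1, g n, mem_insert _ _⟩)
  -- evaluation of the names of reals
  have hB : ∀ n x, (∃ p ∈ G, prm n x ∈ p) → val G (tau n) = x := by
    rintro n x ⟨p, hp, hpx⟩
    have hxo : x ⊆ om := by
      obtain ⟨-, -, g, hg⟩ := mem_P0.1 (gen_P hG hp)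
      exact ok_prm hg hpx ▸ hg.1 n
    ext z
    rw [mem_val]
    constructor
    · rintro ⟨ρ, r, hr, h1, rfl⟩
      obtain ⟨k, hk⟩ := ZFSet.mem_range.1 h1
      obtain ⟨rfl, rfl⟩ := pair_inj.1 hk
      rw [val_chk hGe]
      obtain ⟨q, hq, h2, h3⟩ := gen_dir S hG hp hr
      obtain ⟨-, -, g, hg⟩ := mem_P0.1 (gen_P hG hq)
      have h4 : prm n x ∈ q := (Le_iff.1 h2).2.2 hpx
      have h5 : tok n k ∈ q := (Le_iff.1 h3).2.2 (mem_singleton.2 rfl)
      rw [ok_prm hg h4]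
      exact ok_tok hg h5
    · intro hz
      obtain ⟨k, rfl⟩ := mem_om.1 (hxo hz)
      refine ⟨chk k, {tok n k}, ?_, ZFSet.mem_range.2 ⟨k, rfl⟩, val_chk hGe k⟩
      rcases dec S hG (hE1 n k) with ⟨q, hq, hb⟩ | ⟨q, hq, hb⟩
      · refine gen_up S hG hq (htokM n k) (Le_iff.2 ⟨gen_P hG hq, tok_P0 n k, ?_⟩)
        intro y hy
        rw [mem_singleton.1 hy]
        exact (mem_sep.1 hb).2
      · exfalso
        obtain ⟨r, hr, h1, h2⟩ := gen_dir S hG hp hq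
        obtain ⟨-, -, g, hg⟩ := mem_P0.1 (gen_P hG hr)
        have h4 : prm n x ∈ r := (Le_iff.1 h1).2.2 hpx
        have h5 : nm k ∈ g n := ok_prm hg h4 ▸ hz
        have h6 := insert_tok (gen_P hG hr) hg n k h5
        exact hb _ h6 (le_tr S (le_insert (gen_P hG hr) h6) h2)
          (mem_sep.2 ⟨h6, mem_insert _ _⟩)
  have hval : val G sig = powerset om ∩ MN N := by
    ext x
    rw [mem_val, mem_inter, mem_powerset]
    constructor
    · rintro ⟨ρ, r, hr, h1, rfl⟩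
      obtain ⟨n, hn⟩ := ZFSet.mem_range.1 h1
      obtain ⟨rfl, rfl⟩ := pair_inj.1 hn
      obtain ⟨x, hx, hxM, hxp⟩ := hA n
      rw [hB n x hxp]
      exact ⟨hx, hxM⟩
    · rintro ⟨hx, hxM⟩
      rcases dec S hG (S.env.fn x (mem_MN.1 hxM).2) with ⟨p, hp, hb⟩ | ⟨p, hp, hb⟩
      · obtain ⟨n, hn⟩ := (mem_sep.1 hb).2
        exact ⟨tau n, ∅, hGe, ZFSet.mem_range.2 ⟨n, rfl⟩, hB n x ⟨p, hp, hn⟩⟩
      · exfalso
        obtain ⟨n, hn⟩ := fresh (gen_P hG hp) hx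
        exact hb _ hn (le_insert (gen_P hG hp) hn) (mem_sep.2 ⟨hn, n, mem_insert _ _⟩)
  rw [hval]
  refine ⟨mem_CN.2 ⟨_, hpow, rfl⟩, ?_⟩
  intro ha
  have haH := (mem_MN.1 ha).1
  have hex : ∃ x, x ⊆ om ∧ x ∉ powerset om ∩ MN N := by
    by_contra hcon
    push Not at hcon
    exact uncountable_powerset ((H_count haH).mono (fun x hx => hcon x hx))
  obtain ⟨x, hx, hxn⟩ := hex
  obtain ⟨y, hyN, hyH, hy1, hy2⟩ := S.env.tv (n := 1) (m := 1)
    (.and (.memC 0 0) (.neg (.mem 0 1))) ![powerset om] ![powerset om ∩ MN N]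
    (by intro i; fin_cases i; exact hpow) (by intro i; fin_cases i; exact (mem_MN.1 ha).2)
    ⟨x, sub_om_H hx, mem_powerset.2 hx, hxn⟩
  exact hy2 (mem_inter.2 ⟨hy1, mem_MN.2 ⟨hyH, hyN⟩⟩)

end Pool.Agent.Helper90.Cf
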