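import Pool.Agent.Helper90.CfM

/-!
# The truth lemma and the forcing theorem over `(M, C)`
-/

namespace Pool.Agent.Helper90.Cf

open ZFSet

theorem mem_val {G : Set ZFSet.{0}} {σ x : ZFSet.{0}} :
    x ∈ val G σ ↔ ∃ ρ p, p ∈ G ∧ pair ρ p ∈ σ ∧ val G ρ = x := by
  rw [val, ZFSet.mem_range]
  constructor
  · rintro ⟨⟨ρ, p, hp, h⟩, rfl⟩
    exact ⟨ρ, p, hp, h, rfl⟩
  · rintro ⟨ρ, p, hp, h, rfl⟩
    exact ⟨⟨ρ, p, hp, h⟩, rfl⟩

theorem rank_induction {p : ZFSet.{0} → Prop} (σ : ZFSet.{0})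
    (h : ∀ σ, (∀ ρ r, pair ρ r ∈ σ → p ρ) → p σ) : p σ := by
  have wf : WellFounded (fun a b : ZFSet.{0} => rank a < rank b) :=
    InvImage.wf rank Ordinal.lt_wf
  refine wf.induction σ ?_
  intro σ ih
  exact h σ (fun ρ r hr => ih ρ (rank_lt_of_pair hr))

theorem EqF_symm (P le : ZFSet.{0}) (σ : ZFSet.{0}) :
    ∀ τ p, EqF P le σ τ p ↔ EqF P le τ σ p := by
  refine rank_induction (p := fun σ => ∀ τ p, EqF P le σ τ p ↔ EqF P le τ σ p) σ ?_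
  intro σ ih τ p
  rw [EqF_iff P le σ τ, EqF_iff P le τ σ]
  constructor
  · rintro ⟨h1, h2⟩
    refine ⟨?_, ?_⟩
    · intro π s hs q hq hqp hqs
      obtain ⟨q', hq', h3, ρ, r, hr, h4, h5⟩ := h2 π s hs q hq hqp hqs
      exact ⟨q', hq', h3, ρ, r, hr, h4, (ih ρ r hr π q').1 h5⟩
    · intro ρ r hr q hq hqp hqr
      obtain ⟨q', hq', h3, π, s, hs, h4, h5⟩ := h1 ρ r hr q hq hqp hqr
      exact ⟨q', hq', h3, π, s, hs, h4, (ih ρ r hr π q').1 h5⟩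
  · rintro ⟨h1, h2⟩
    refine ⟨?_, ?_⟩
    · intro ρ r hr q hq hqp hqr
      obtain ⟨q', hq', h3, π, s, hs, h4, h5⟩ := h2 ρ r hr q hq hqp hqr
      exact ⟨q', hq', h3, π, s, hs, h4, (ih ρ r hr π q').2 h5⟩
    · intro π s hs q hq hqp hqs
      obtain ⟨q', hq', h3, ρ, r, hr, h4, h5⟩ := h1 π s hs q hq hqp hqs
      exact ⟨q', hq', h3, ρ, r, hr, h4, (ih ρ r hr π q').2 h5⟩

/-- Everything we need about `(M, C)` and the poset. -/
structure Setup (N : Set ZFSet.{0}) (P le : ZFSet.{0}) (F : ZFSet.{0} → ZFSet.{0})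
    (C0 : ZFSet.{0}) : Prop where
  env : Env N P le F
  cnt : N.Countable
  no : IsNotion C0 P le
  hP : P ∈ N
  hle : le ∈ N
  hPH : P ⊆ H
  hH : H ∈ N
  htop : ∃ o ∈ P, o ∈ MN N ∧ ∀ p ∈ P, Le le p o
  hempty : (∅ : ZFSet.{0}) ∈ MN N

variable {N : Set ZFSet.{0}} {P le : ZFSet.{0}} {F : ZFSet.{0} → ZFSet.{0}} {C0 : ZFSet.{0}}

/-- the poset of the model -/
noncomputable abbrev PM (N : Set ZFSet.{0}) (P : ZFSet.{0}) : ZFSet.{0} := P ∩ MN N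

theorem mem_PM {N : Set ZFSet.{0}} {P x : ZFSet.{0}} : x ∈ PM N P ↔ x ∈ P ∧ x ∈ MN N := mem_inter

theorem Le_abs (S : Setup N P le F C0) {p q : ZFSet.{0}} (hp : p ∈ MN N) (hq : q ∈ MN N) :
    Le (PM N le) p q ↔ Le le p q := by
  unfold Le
  rw [mem_PM]
  exact ⟨fun h => h.1, fun h => ⟨h, MN_pair S.env hp hq⟩⟩

theorem notionM (S : Setup N P le F C0) : IsNotion (CN N) (PM N P) (PM N le) where
  memP := mem_CN.2 ⟨P, S.hP, rfl⟩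
  memLe := mem_CN.2 ⟨le, S.hle, rfl⟩
  dom := by
    intro x hx
    obtain ⟨hx, hxM⟩ := mem_PM.1 hx
    obtain ⟨p, hp, q, hq, rfl⟩ := S.no.dom x hx
    obtain ⟨h1, h2⟩ := MN_of_pair S.env hxM
    exact ⟨p, mem_PM.2 ⟨hp, h1⟩, q, mem_PM.2 ⟨hq, h2⟩, rfl⟩
  refl := by
    intro p hp
    obtain ⟨hp, hpM⟩ := mem_PM.1 hp
    exact (Le_abs S hpM hpM).2 (S.no.refl p hp)
  trans := by
    intro p hp q hq r hr h1 h2
    obtain ⟨hp, hpM⟩ := mem_PM.1 hp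
    obtain ⟨hq, hqM⟩ := mem_PM.1 hq
    obtain ⟨hr, hrM⟩ := mem_PM.1 hr
    exact (Le_abs S hpM hrM).2 (S.no.trans p hp q hq r hr ((Le_abs S hpM hqM).1 h1)
      ((Le_abs S hqM hrM).1 h2))
  antisymm := by
    intro p hp q hq h1 h2
    obtain ⟨hp, hpM⟩ := mem_PM.1 hp
    obtain ⟨hq, hqM⟩ := mem_PM.1 hq
    exact S.no.antisymm p hp q hq ((Le_abs S hpM hqM).1 h1) ((Le_abs S hqM hpM).1 h2)
  top := by
    obtain ⟨o, ho, hoM, h1⟩ := S.htop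
    refine ⟨o, mem_PM.2 ⟨ho, hoM⟩, ?_⟩
    intro p hp
    obtain ⟨hp, hpM⟩ := mem_PM.1 hp
    exact (Le_abs S hpM hoM).2 (h1 p hp)

/-- generic over the model -/
abbrev Gen (N : Set ZFSet.{0}) (P le : ZFSet.{0}) (G : Set ZFSet.{0}) : Prop :=
  IsGeneric (CN N) (PM N P) (PM N le) G

theorem gen_P {G : Set ZFSet.{0}} (hG : Gen N P le G) {p : ZFSet.{0}} (hp : p ∈ G) : p ∈ P :=
  (mem_PM.1 (hG.sub p hp)).1

theorem gen_M {G : Set ZFSet.{0}} (hG : Gen N P le G) {p : ZFSet.{0}} (hp : p ∈ G) :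
    p ∈ MN N := (mem_PM.1 (hG.sub p hp)).2

theorem gen_N {G : Set ZFSet.{0}} (hG : Gen N P le G) {p : ZFSet.{0}} (hp : p ∈ G) :
    p ∈ N := (mem_MN.1 (gen_M hG hp)).2

theorem gen_up (S : Setup N P le F C0) {G : Set ZFSet.{0}} (hG : Gen N P le G)
    {p q : ZFSet.{0}} (hp : p ∈ G) (hq : q ∈ MN N) (h : Le le p q) : q ∈ G :=
  hG.up p hp q (mem_PM.2 ⟨(le_dom S.no h).2, hq⟩) ((Le_abs S (gen_M hG hp) hq).2 h)

theorem gen_dir (S : Setup N P le F C0) {G : Set ZFSet.{0}} (hG : Gen N P le G)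
    {p q : ZFSet.{0}} (hp : p ∈ G) (hq : q ∈ G) : ∃ r ∈ G, Le le r p ∧ Le le r q := by
  obtain ⟨r, hr, h1, h2⟩ := hG.dir p hp q hq
  exact ⟨r, hr, (Le_abs S (gen_M hG hr) (gen_M hG hp)).1 h1,
    (Le_abs S (gen_M hG hr) (gen_M hG hq)).1 h2⟩

theorem le_tr (S : Setup N P le F C0) {a b c : ZFSet.{0}} (h1 : Le le a b) (h2 : Le le b c) :
    Le le a c :=
  S.no.trans a (le_dom S.no h1).1 b (le_dom S.no h1).2 c (le_dom S.no h2).2 h1 h2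

theorem dec (S : Setup N P le F C0) {G : Set ZFSet.{0}} (hG : Gen N P le G) {X : ZFSet.{0}}
    (hX : X ∈ N) : (∃ p ∈ G, p ∈ X) ∨ (∃ p ∈ G, ∀ q ∈ P, Le le q p → q ∉ X) := by
  obtain ⟨p, hpG, hp⟩ := hG.meets
    (ZFSet.sep (fun p => p ∈ X ∨ ∀ q ∈ P, Le le q p → q ∉ X) P ∩ MN N)
    (mem_CN.2 ⟨_, S.env.c6 X hX, rfl⟩)
    (by
      intro z hz
      obtain ⟨h1, h2⟩ := mem_inter.1 hz
      exact mem_PM.2 ⟨(mem_sep.1 h1).1, h2⟩)
    (by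
      intro p hp
      obtain ⟨hpP, hpM⟩ := mem_PM.1 hp
      by_cases hex : ∃ y, y ∈ P ∧ Le le y p ∧ y ∈ X
      · obtain ⟨y, hyN, hyP, hyp, hyX⟩ := S.env.f6 X hX p (mem_MN.1 hpM).2 hex
        have hyM : y ∈ MN N := mem_MN.2 ⟨S.hPH hyP, hyN⟩
        exact ⟨y, mem_inter.2 ⟨mem_sep.2 ⟨hyP, Or.inl hyX⟩, hyM⟩, (Le_abs S hyM hpM).2 hyp⟩
      · push Not at hex
        exact ⟨p, mem_inter.2 ⟨mem_sep.2 ⟨hpP, Or.inr (fun q hq hqp => hex q hq hqp)⟩, hpM⟩,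
          (Le_abs S hpM hpM).2 (S.no.refl p hpP)⟩)
  obtain ⟨h1, -⟩ := mem_inter.1 hp
  rcases (mem_sep.1 h1).2 with h2 | h2
  · exact Or.inl ⟨p, hpG, h2⟩
  · exact Or.inr ⟨p, hpG, h2⟩

theorem T_eq (S : Setup N P le F C0) {G : Set ZFSet.{0}} (hG : Gen N P le G) (σ : ZFSet.{0}) :
    σ ∈ MN N → ∀ τ ∈ MN N, (val G σ = val G τ ↔ ∃ p ∈ G, EqF P le σ τ p) := by
  refine rank_induction (p := fun σ => σ ∈ MN N → ∀ τ ∈ MN N,
    (val G σ = val G τ ↔ ∃ p ∈ G, EqF P le σ τ p)) σ ?_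
  intro σ ih hσ τ hτ
  have hσN := (mem_MN.1 hσ).2
  have hτN := (mem_MN.1 hτ).2
  constructor
  · intro heq
    rcases dec S hG (S.env.c2 σ hσN τ hτN) with ⟨p, hp, hb⟩ | ⟨p1, hp1, hb1⟩
    · exfalso
      obtain ⟨ρ, r, hr, hpr, hno⟩ := (mem_sep.1 hb).2
      obtain ⟨hρM, hrM⟩ := MN_of_pair S.env (MN_trans S.env hσ hr)
      have hrG := gen_up S hG hp hrM hpr
      have h1 : val G ρ ∈ val G τ := by rw [← heq]; exact mem_val.2 ⟨ρ, r, hrG, hr, rfl⟩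
      obtain ⟨π, s, hs, hπs, hπ⟩ := mem_val.1 h1
      obtain ⟨hπM, hsM⟩ := MN_of_pair S.env (MN_trans S.env hτ hπs)
      obtain ⟨p2, hp2, he⟩ := (ih ρ r hr hρM π hπM).1 hπ.symm
      obtain ⟨q, hq, hq1, hq2⟩ := gen_dir S hG hp hp2
      obtain ⟨q', hq', hq3, hq4⟩ := gen_dir S hG hq hs
      exact hno q' (gen_P hG hq') (le_tr S hq3 hq1) ⟨π, s, hπs, hq4,
        EqF_mono S.no (gen_P hG hp2) (gen_P hG hq') he (le_tr S hq3 hq2)⟩
    · rcases dec S hG (S.env.c2' σ hσN τ hτN) with ⟨p, hp, hb⟩ | ⟨p2, hp2, hb2⟩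
      · exfalso
        obtain ⟨π, s, hs, hps, hno⟩ := (mem_sep.1 hb).2
        obtain ⟨hπM, hsM⟩ := MN_of_pair S.env (MN_trans S.env hτ hs)
        have hsG := gen_up S hG hp hsM hps
        have h1 : val G π ∈ val G σ := by rw [heq]; exact mem_val.2 ⟨π, s, hsG, hs, rfl⟩
        obtain ⟨ρ, r, hr, hρr, hρ⟩ := mem_val.1 h1
        obtain ⟨hρM, hrM⟩ := MN_of_pair S.env (MN_trans S.env hσ hρr)
        obtain ⟨p2, hp2, he⟩ := (ih ρ r hρr hρM π hπM).1 hρ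
        obtain ⟨q, hq, hq1, hq2⟩ := gen_dir S hG hp hp2
        obtain ⟨q', hq', hq3, hq4⟩ := gen_dir S hG hq hr
        exact hno q' (gen_P hG hq') (le_tr S hq3 hq1) ρ r hρr hq4
          (EqF_mono S.no (gen_P hG hp2) (gen_P hG hq') he (le_tr S hq3 hq2))
      · obtain ⟨p, hp, h1, h2⟩ := gen_dir S hG hp1 hp2
        refine ⟨p, hp, ?_⟩
        rw [EqF_iff]
        constructor
        · intro ρ r hr q hq hqp hqr
          have := hb1 q hq (le_tr S hqp h1)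
          rw [mem_sep] at this
          by_contra hcon
          apply this
          refine ⟨hq, ρ, r, hr, hqr, ?_⟩
          intro q' hq' hq'q hin
          exact hcon ⟨q', hq', hq'q, hin⟩
        · intro π s hs q hq hqp hqs
          have := hb2 q hq (le_tr S hqp h2)
          rw [mem_sep] at this
          by_contra hcon
          apply this
          refine ⟨hq, π, s, hs, hqs, ?_⟩
          intro q' hq' hq'q ρ r hr hq'r he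
          exact hcon ⟨q', hq', hq'q, ρ, r, hr, hq'r, he⟩
  · rintro ⟨p, hp, he⟩
    rw [EqF_iff] at he
    ext x
    constructor
    · intro hx
      obtain ⟨ρ, r, hr, hρr, rfl⟩ := mem_val.1 hx
      obtain ⟨hρM, hrM⟩ := MN_of_pair S.env (MN_trans S.env hσ hρr)
      rcases dec S hG (S.env.c1 ρ (mem_MN.1 hρM).2 τ hτN) with ⟨q, hq, hb⟩ | ⟨p', hp', hb⟩
      · obtain ⟨π, s, hs, hqs, he'⟩ := (mem_sep.1 hb).2
        obtain ⟨hπM, hsM⟩ := MN_of_pair S.env (MN_trans S.env hτ hs)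
        have hsG := gen_up S hG hq hsM hqs
        exact mem_val.2 ⟨π, s, hsG, hs, ((ih ρ r hρr hρM π hπM).2 ⟨q, hq, he'⟩).symm⟩
      · exfalso
        obtain ⟨q, hq, h1, h2⟩ := gen_dir S hG hp hr
        obtain ⟨q1, hq1, h3, h4⟩ := gen_dir S hG hq hp'
        obtain ⟨q', hq', h5, hin⟩ := he.1 ρ r hρr q1 (gen_P hG hq1) (le_tr S h3 h1)
          (le_tr S h3 h2)
        exact hb q' hq' (le_tr S h5 h4) (mem_sep.2 ⟨hq', hin⟩)
    · intro hx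
      obtain ⟨π, s, hs, hπs, rfl⟩ := mem_val.1 hx
      obtain ⟨hπM, hsM⟩ := MN_of_pair S.env (MN_trans S.env hτ hπs)
      rcases dec S hG (S.env.c1 π (mem_MN.1 hπM).2 σ hσN) with ⟨q, hq, hb⟩ | ⟨p', hp', hb⟩
      · obtain ⟨ρ, r, hr, hqr, he'⟩ := (mem_sep.1 hb).2
        obtain ⟨hρM, hrM⟩ := MN_of_pair S.env (MN_trans S.env hσ hr)
        have hrG := gen_up S hG hq hrM hqr
        exact mem_val.2 ⟨ρ, r, hrG, hr,
          (ih ρ r hr hρM π hπM).2 ⟨q, hq, (EqF_symm P le π ρ q).1 he'⟩⟩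
      · exfalso
        obtain ⟨q, hq, h1, h2⟩ := gen_dir S hG hp hs
        obtain ⟨q1, hq1, h3, h4⟩ := gen_dir S hG hq hp'
        obtain ⟨q', hq', h5, ρ, r, hr, h6, h7⟩ := he.2 π s hπs q1 (gen_P hG hq1)
          (le_tr S h3 h1) (le_tr S h3 h2)
        exact hb q' hq' (le_tr S h5 h4)
          (mem_sep.2 ⟨hq', ρ, r, hr, h6, (EqF_symm P le ρ π q').1 h7⟩)

theorem T_in (S : Setup N P le F C0) {G : Set ZFSet.{0}} (hG : Gen N P le G) {ρ X : ZFSet.{0}}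
    (hρ : ρ ∈ MN N) (hX : X ∈ N) (hXH : X ⊆ H) : val G ρ ∈ val G (X ∩ MN N) ↔
      ∃ p ∈ G, ∀ q ∈ P, Le le q p → ∃ q' ∈ P, Le le q' q ∧ In1 P le ρ X q' := by
  constructor
  · intro h
    obtain ⟨π, s, hs, hπs, hπ⟩ := mem_val.1 h
    obtain ⟨h1, h2⟩ := mem_inter.1 hπs
    obtain ⟨hπM, hsM⟩ := MN_of_pair S.env h2
    obtain ⟨p1, hp1, he⟩ := (T_eq S hG ρ hρ π hπM).1 hπ.symm
    obtain ⟨q, hq, h3, h4⟩ := gen_dir S hG hp1 hs
    refine ⟨q, hq, ?_⟩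
    intro q1 hq1 hq1q
    exact ⟨q1, hq1, S.no.refl q1 hq1, π, s, h1, le_tr S hq1q h4,
      EqF_mono S.no (gen_P hG hp1) hq1 he (le_tr S hq1q h3)⟩
  · rintro ⟨p, hp, hd⟩
    rcases dec S hG (S.env.c1 ρ (mem_MN.1 hρ).2 X hX) with ⟨q, hq, hb⟩ | ⟨p', hp', hb⟩
    · obtain ⟨π, s, hs, hqs, he'⟩ := (mem_sep.1 hb).2
      obtain ⟨y, hyN, hyH, hyX, π', s', rfl, hqs', he''⟩ :=
        S.env.f7 q (gen_N hG hq) ρ (mem_MN.1 hρ).2 X hX
          ⟨pair π s, hXH hs, hs, π, s, rfl, hqs, he'⟩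
      have hyM := mem_MN.2 ⟨hyH, hyN⟩
      obtain ⟨hπM, hsM⟩ := MN_of_pair S.env hyM
      have hsG := gen_up S hG hq hsM hqs'
      exact mem_val.2 ⟨π', s', hsG, mem_inter.2 ⟨hyX, hyM⟩,
        ((T_eq S hG ρ hρ π' hπM).2 ⟨q, hq, he''⟩).symm⟩
    · exfalso
      obtain ⟨q, hq, h1, h2⟩ := gen_dir S hG hp hp'
      obtain ⟨q', hq', h3, h4⟩ := hd q (gen_P hG hq) h1
      exact hb q' hq' (le_tr S h3 h2) (mem_sep.2 ⟨hq', h4⟩)

theorem name_abs (S : Setup N P le F C0) (σ : ZFSet.{0}) :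
    σ ∈ MN N → (IsName (PM N P) σ ↔ IsName P σ) := by
  refine rank_induction (p := fun σ => σ ∈ MN N → (IsName (PM N P) σ ↔ IsName P σ)) σ ?_
  intro σ ih hσ
  constructor
  · rintro ⟨_, h1, h2⟩
    refine ⟨_, ?_, ?_⟩
    · intro y hy
      obtain ⟨τ, p, rfl, hp⟩ := h1 y hy
      exact ⟨τ, p, rfl, (mem_PM.1 hp).1⟩
    · intro τ p hτ
      exact (ih τ p hτ (MN_of_pair S.env (MN_trans S.env hσ hτ)).1).1 (h2 τ p hτ)
  · rintro ⟨_, h1, h2⟩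
    refine ⟨_, ?_, ?_⟩
    · intro y hy
      obtain ⟨τ, p, rfl, hp⟩ := h1 y hy
      exact ⟨τ, p, rfl, mem_PM.2 ⟨hp, (MN_of_pair S.env (MN_trans S.env hσ hy)).2⟩⟩
    · intro τ p hτ
      exact (ih τ p hτ (MN_of_pair S.env (MN_trans S.env hσ hτ)).1).2 (h2 τ p hτ)

theorem cons_val {G : Set ZFSet.{0}} {m : ℕ} (v : Fin m → ZFSet.{0}) (σ : ZFSet.{0}) :
    (Fin.cons (val G σ) (fun i => val G (v i)) : Fin (m + 1) → ZFSet.{0}) =
      fun i => val G ((Fin.cons σ v : Fin (m + 1) → ZFSet.{0}) i) := by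
  funext i
  refine Fin.cases ?_ ?_ i
  · rfl
  · intro j; rfl

theorem inter_self_of_mem (S : Setup N P le F C0) {τ : ZFSet.{0}} (hτ : τ ∈ MN N) :
    τ ∩ MN N = τ := by
  ext z
  rw [mem_inter]
  exact ⟨fun h => h.1, fun h => ⟨h, MN_trans S.env hτ h⟩⟩

/-- The truth lemma. -/
theorem T_fo (S : Setup N P le F C0) {G : Set ZFSet.{0}} (hG : Gen N P le G) {n : ℕ}
    (X : Fin n → ZFSet.{0}) (hX : ∀ j, X j ∈ N) (hXH : ∀ j, X j ⊆ H) {m : ℕ} (φ : Fml n m) :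
    ∀ v : Fin m → ZFSet.{0}, (∀ i, v i ∈ MN N) →
      (Sat (Ext (MN N) (PM N P) G) (fun j => val G (X j ∩ MN N)) φ (fun i => val G (v i)) ↔
        ∃ p ∈ G, Fo P le X φ v p) := by
  induction φ with
  | mem i j =>
    intro v hv
    have := T_in S hG (hv i) (mem_MN.1 (hv j)).2 (fun z hz => H_trans (mem_MN.1 (hv j)).1 hz)
    rw [inter_self_of_mem S (hv j)] at this
    exact this
  | eq i j =>
    intro v hv
    exact T_eq S hG (v i) (hv i) (v j) (hv j)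
  | memC i j =>
    intro v hv
    exact T_in S hG (hv i) (hX j) (hXH j)
  | neg φ ih =>
    intro v hv
    simp only [Sat]
    rw [ih v hv]
    constructor
    · intro hn
      rcases dec S hG (S.env.c3 φ X v hX (fun i => (mem_MN.1 (hv i)).2)) with
        ⟨p, hp, hb⟩ | ⟨p, hp, hb⟩
      · exact absurd ⟨p, hp, (mem_sep.1 hb).2⟩ hn
      · exact ⟨p, hp, fun q hq hqp hf => hb q hq hqp (mem_sep.2 ⟨hq, hf⟩)⟩
    · rintro ⟨p, hp, hf⟩ ⟨q, hq, hf'⟩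
      obtain ⟨r, hr, h1, h2⟩ := gen_dir S hG hp hq
      exact hf r (gen_P hG hr) h1 (Fo_mono S.no X φ v (gen_P hG hq) (gen_P hG hr) hf' h2)
  | and φ ψ ih1 ih2 =>
    intro v hv
    simp only [Sat]
    rw [ih1 v hv, ih2 v hv]
    constructor
    · rintro ⟨⟨p, hp, hf⟩, ⟨q, hq, hf'⟩⟩
      obtain ⟨r, hr, h1, h2⟩ := gen_dir S hG hp hq
      exact ⟨r, hr, Fo_mono S.no X φ v (gen_P hG hp) (gen_P hG hr) hf h1,
        Fo_mono S.no X ψ v (gen_P hG hq) (gen_P hG hr) hf' h2⟩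
    · rintro ⟨p, hp, hf⟩
      exact ⟨⟨p, hp, hf.1⟩, ⟨p, hp, hf.2⟩⟩
  | all φ ih =>
    intro v hv
    simp only [Sat]
    constructor
    · intro hall
      rcases dec S hG (S.env.c4 φ X v hX (fun i => (mem_MN.1 (hv i)).2)) with
        ⟨p, hp, hb⟩ | ⟨p, hp, hb⟩
      · exfalso
        obtain ⟨x, hx, hxn, hxf⟩ := (mem_sep.1 hb).2
        obtain ⟨y, hyN, hyH, hyn, hyf⟩ := S.env.f8 φ X v p hX
          (fun i => (mem_MN.1 (hv i)).2) (gen_N hG hp) ⟨x, hx, hxn, hxf⟩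
        have hyM := mem_MN.2 ⟨hyH, hyN⟩
        have h1 := hall (val G y) ⟨y, hyM, (name_abs S y hyM).2 hyn, rfl⟩
        rw [cons_val] at h1
        obtain ⟨q, hq, hf'⟩ := (ih _ (cons_mem hv hyM)).1 h1
        obtain ⟨r, hr, h1, h2⟩ := gen_dir S hG hp hq
        exact hyf r (gen_P hG hr) h1
          (Fo_mono S.no X φ _ (gen_P hG hq) (gen_P hG hr) hf' h2)
      · refine ⟨p, hp, ?_⟩
        intro x hx hxn
        by_contra hcon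
        obtain ⟨q, hq, hqp, hqf⟩ := exists_neg S.no X φ _ (gen_P hG hp) hcon
        exact hb q hq hqp (mem_sep.2 ⟨hq, x, hx, hxn, hqf⟩)
    · rintro ⟨p, hp, hf⟩ x ⟨σ, hσ, hσn, rfl⟩
      rw [cons_val]
      exact (ih _ (cons_mem hv hσ)).2 ⟨p, hp, hf σ (mem_MN.1 hσ).1 ((name_abs S σ hσ).1 hσn)⟩

/-- existence of generic filters -/
theorem exists_gen (S : Setup N P le F C0) {p : ZFSet.{0}} (hp : p ∈ PM N P) :
    ∃ G, Gen N P le G ∧ p ∈ G := by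
  classical
  have hM := notionM S
  have hC : {x | x ∈ CN N}.Countable := CN_countable S.cnt
  have hCne : {x | x ∈ CN N}.Nonempty := ⟨_, hM.memP⟩
  obtain ⟨D, hD⟩ := hC.exists_eq_range hCne
  have hstep : ∀ (k : ℕ) (q : ZFSet.{0}), ∃ r, q ∈ PM N P → (r ∈ PM N P ∧ Le (PM N le) r q ∧
      (D k ⊆ PM N P → (∀ p ∈ PM N P, ∃ q ∈ D k, Le (PM N le) q p) → r ∈ D k)) := by
    intro k q
    by_cases hq : q ∈ PM N P
    · by_cases hd : D k ⊆ PM N P ∧ ∀ p ∈ PM N P, ∃ q ∈ D k, Le (PM N le) q p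
      · obtain ⟨r, hr, hrq⟩ := hd.2 q hq
        exact ⟨r, fun _ => ⟨hd.1 hr, hrq, fun _ _ => hr⟩⟩
      · exact ⟨q, fun _ => ⟨hq, hM.refl q hq, fun h1 h2 => absurd ⟨h1, h2⟩ hd⟩⟩
    · exact ⟨q, fun h => absurd h hq⟩
  choose f hf using hstep
  let s : ℕ → ZFSet.{0} := fun k => Nat.rec p (fun k q => f k q) k
  have hs0 : s 0 = p := rfl
  have hss : ∀ k, s (k + 1) = f k (s k) := fun k => rfl
  have hsP : ∀ k, s k ∈ PM N P := by
    intro k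
    induction k with
    | zero => rw [hs0]; exact hp
    | succ k ih => rw [hss]; exact (hf k (s k) ih).1
  have hmono : ∀ k l, Le (PM N le) (s (k + l)) (s k) := by
    intro k l
    induction l with
    | zero => exact hM.refl _ (hsP k)
    | succ l ih =>
      have : s (k + (l + 1)) = f (k + l) (s (k + l)) := rfl
      rw [this]
      exact hM.trans _ (hf _ _ (hsP _)).1 _ (hsP _) _ (hsP _) (hf _ _ (hsP _)).2.1 ih
  have hmono' : ∀ k l, k ≤ l → Le (PM N le) (s l) (s k) := by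
    intro k l hkl
    obtain ⟨j, rfl⟩ := Nat.exists_eq_add_of_le hkl
    exact hmono k j
  refine ⟨{q | q ∈ PM N P ∧ ∃ k, Le (PM N le) (s k) q}, ?_, hp, 0, hM.refl p hp⟩
  constructor
  · rintro q ⟨hq, -⟩; exact hq
  · exact ⟨p, hp, 0, hM.refl p hp⟩
  · rintro q ⟨hq, k, hk⟩ r hr hqr
    exact ⟨hr, k, hM.trans _ (hsP k) _ hq _ hr hk hqr⟩
  · rintro q ⟨hq, k, hk⟩ r ⟨hr, l, hl⟩
    refine ⟨s (max k l), ⟨hsP _, max k l, hM.refl _ (hsP _)⟩, ?_, ?_⟩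
    · exact hM.trans _ (hsP _) _ (hsP k) _ hq (hmono' _ _ (le_max_left k l)) hk
    · exact hM.trans _ (hsP _) _ (hsP l) _ hr (hmono' _ _ (le_max_right k l)) hl
  · intro E hE hEP hEd
    have : E ∈ Set.range D := by rw [← hD]; exact hE
    obtain ⟨k, rfl⟩ := this
    have h1 := (hf k (s k) (hsP k)).2.2 hEP hEd
    exact ⟨s (k + 1), ⟨hsP (k + 1), k + 1, hM.refl _ (hsP (k + 1))⟩, h1⟩

theorem forces_iff (S : Setup N P le F C0) {n : ℕ}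
    (X : Fin n → ZFSet.{0}) (hX : ∀ j, X j ∈ N) (hXH : ∀ j, X j ⊆ H) {m : ℕ} (φ : Fml n m)
    (v : Fin m → ZFSet.{0}) (hv : ∀ i, v i ∈ MN N) {p : ZFSet.{0}} (hp : p ∈ PM N P) :
    Forces (MN N) (CN N) (PM N P) (PM N le) φ v (fun j => X j ∩ MN N) p ↔ Fo P le X φ v p := by
  constructor
  · intro hF
    by_contra hcon
    obtain ⟨q, hq, hqp, hqf⟩ := exists_neg S.no X φ v (mem_PM.1 hp).1 hcon
    obtain ⟨y, hyN, hyP, hyp, hyX⟩ := S.env.f6 _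
      (S.env.c3 (.neg φ) X v hX (fun i => (mem_MN.1 (hv i)).2)) p (mem_MN.1 (mem_PM.1 hp).2).2
      ⟨q, hq, hqp, mem_sep.2 ⟨hq, hqf⟩⟩
    have hyM : y ∈ MN N := mem_MN.2 ⟨S.hPH hyP, hyN⟩
    obtain ⟨G, hG, hyG⟩ := exists_gen S (mem_PM.2 ⟨hyP, hyM⟩)
    have hpG : p ∈ G := gen_up S hG hyG (mem_PM.1 hp).2 hyp
    have h1 := hF G hG hpG
    have h2 := (T_fo S hG X hX hXH (.neg φ) v hv).2 ⟨y, hyG, (mem_sep.1 hyX).2⟩
    exact h2 h1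
  · intro hF G hG hpG
    exact (T_fo S hG X hX hXH φ v hv).2 ⟨p, hpG, hF⟩

theorem forcing_theorem (S : Setup N P le F C0) :
    ForcingTheorem (MN N) (CN N) (PM N P) (PM N le) := by
  intro n m φ Γ hΓ
  have hrep : ∃ X : Fin n → ZFSet.{0}, (∀ j, X j ∈ N) ∧ (∀ j, X j ⊆ H) ∧
      Γ = fun j => X j ∩ MN N := by
    have : ∀ j, ∃ X, X ∈ N ∧ X ⊆ H ∧ Γ j = X ∩ MN N := by
      intro j
      obtain ⟨X, hX, he⟩ := mem_CN.1 (hΓ j).1
      refine ⟨X ∩ H, S.env.inter X hX H S.hH, fun z hz => (mem_inter.1 hz).2, ?_⟩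
      rw [he]
      ext z
      rw [mem_inter, mem_inter, mem_inter]
      exact ⟨fun hz => ⟨⟨hz.1, (mem_MN.1 hz.2).1⟩, hz.2⟩, fun hz => ⟨hz.1.1, hz.2⟩⟩
    choose X h1 h2 h3 using this
    exact ⟨X, h1, h2, funext h3⟩
  obtain ⟨X, hX, hXH, rfl⟩ := hrep
  constructor
  · refine ⟨_, mem_CN.2 ⟨_, S.env.c5 φ X hX, rfl⟩, ?_⟩
    intro x
    rw [mem_inter, mem_sep]
    constructor
    · rintro ⟨⟨hxH, p, hp, σ, hσ, hf, rfl⟩, hxM⟩
      obtain ⟨hpM, htM⟩ := MN_of_pair S.env hxM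
      have hσM := MN_of_tup S.env σ htM
      refine ⟨p, mem_PM.2 ⟨hp, hpM⟩, σ, fun i => ⟨hσM i, (name_abs S _ (hσM i)).2 (hσ i).2⟩,
        ?_, rfl⟩
      exact (forces_iff S X hX hXH φ σ hσM (mem_PM.2 ⟨hp, hpM⟩)).2 hf
    · rintro ⟨p, hp, σ, hσ, hf, rfl⟩
      have hxM : pair p (tup σ) ∈ MN N :=
        MN_pair S.env (mem_PM.1 hp).2 (MN_tup S.env S.hempty σ (fun i => (hσ i).1))
      refine ⟨⟨(mem_MN.1 hxM).1, p, (mem_PM.1 hp).1, σ, fun i =>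
        ⟨(mem_MN.1 (hσ i).1).1, (name_abs S _ (hσ i).1).1 (hσ i).2⟩, ?_, rfl⟩, hxM⟩
      exact (forces_iff S X hX hXH φ σ (fun i => (hσ i).1) hp).1 hf
  · intro σ hσ G hG hsat
    obtain ⟨p, hp, hf⟩ := (T_fo S hG X hX hXH φ σ (fun i => (hσ i).1)).1 hsat
    exact ⟨p, hp, (forces_iff S X hX hXH φ σ (fun i => (hσ i).1) (hG.sub p hp)).2 hf⟩

end Pool.Agent.Helper90.Cf
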