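import Mathlib

/-! Forcing with labelled tagged trees: conditions, views, the lifting lemma, strong forcing. -/

open Ordinal Cardinal
open scoped Ordinal

namespace Halin

/-! ### Countable ordinals -/

theorem lt_omega_one_iff {α : Ordinal.{0}} : α < ω₁ ↔ α.card ≤ ℵ₀ := by
  rw [← Cardinal.ord_aleph, Cardinal.lt_ord, ← Cardinal.succ_aleph0, Order.lt_succ_iff]

theorem countable_Iio_of_lt {α : Ordinal.{0}} (h : α < ω₁) : (Set.Iio α).Countable := by
  have h2 := lt_omega_one_iff.mp h
  rw [← Cardinal.le_aleph0_iff_set_countable]
  have h3 : Cardinal.mk (Set.Iio α) = Cardinal.lift.{1} α.card := by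
    exact Cardinal.mk_Iio_ordinal α
  rw [h3]
  exact Cardinal.lift_le_aleph0.mpr h2

theorem add_lt_omega_one {α β : Ordinal.{0}} (h : α < ω₁) (h' : β < ω₁) : α + β < ω₁ := by
  rw [lt_omega_one_iff] at *
  rw [Ordinal.card_add]
  exact Cardinal.add_le_aleph0.mpr ⟨h, h'⟩

theorem add_omega_lt {θ : Ordinal.{0}} (h : θ < ω₁) : θ + ω < ω₁ :=
  add_lt_omega_one h omega0_lt_omega_one

theorem add_nat_lt {θ : Ordinal.{0}} (n : ℕ) : θ + n < θ + ω := by
  exact (add_lt_add_iff_left θ).mpr (natCast_lt_omega0 n)

theorem lt_add_omega {θ α : Ordinal.{0}} (h : α < θ + ω) : ∃ n : ℕ, α < θ + n := by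
  rcases lt_or_ge α θ with h1 | h1
  · exact ⟨0, by simpa using h1⟩
  · obtain ⟨β, rfl⟩ : ∃ β, α = θ + β := ⟨α - θ, (Ordinal.add_sub_cancel_of_le h1).symm⟩
    have h2 : β < ω := (add_lt_add_iff_left θ).mp h
    obtain ⟨n, rfl⟩ := Ordinal.lt_omega0.mp h2
    exact ⟨n + 1, (add_lt_add_iff_left θ).mpr (by exact_mod_cast Nat.lt_succ_self n)⟩

/-! ### A bookkeeping lemma -/

/-- Rasiowa-Sikorski with names: one descending sequence of pairs (condition, name) that meets
every requirement of a countable list of requirements, relative to all finite lists of pairs
that occur in the sequence. -/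
theorem master {P A : Type*} [Preorder P] (D : Set (List (P × A) → P × A → Prop))
    (hD : D.Countable) (p₀ : P × A) :
    ∃ y : ℕ → P × A, y 0 = p₀ ∧ Antitone (fun n => (y n).1) ∧
      ∀ d ∈ D, ∀ l : List ℕ,
        (∀ p, (∀ m ∈ l, p ≤ (y m).1) → ∃ z : P × A, z.1 ≤ p ∧ d (l.map y) z) →
        ∃ k, (∀ m ∈ l, m ≤ k) ∧ d (l.map y) (y k) := by
  classical
  rcases D.eq_empty_or_nonempty with h0 | h0
  · exact ⟨fun _ => p₀, rfl, fun _ _ _ => le_refl _, by simp [h0]⟩
  obtain ⟨e, he⟩ := hD.exists_eq_range h0
  -- tasks
  let task : ℕ → ℕ × List ℕ := fun k => (Encodable.decode (α := ℕ × List ℕ) k.unpair.1).getD (0, [])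
  let good : ℕ → (ℕ → P × A) → P × A → Prop := fun k H z =>
    z.1 ≤ (H k).1 ∧ e (task k).1 ((task k).2.map H) z
  let nxt : ℕ → (ℕ → P × A) → P × A := fun k H =>
    if h : ∃ z, good k H z then Classical.choose h else H k
  let H : ℕ → (ℕ → P × A) := fun n => Nat.rec (fun _ => p₀)
    (fun k Hk => Function.update Hk (k + 1) (nxt k Hk)) n
  have H0 : H 0 = fun _ => p₀ := rfl
  have HS : ∀ k, H (k + 1) = Function.update (H k) (k + 1) (nxt k (H k)) := fun k => rfl
  let y : ℕ → P × A := fun n => H n n
  have hist : ∀ n m, m ≤ n → H n m = y m := by
    intro n
    induction n with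
    | zero => intro m hm; obtain rfl : m = 0 := by omega
              rfl
    | succ k ih =>
      intro m hm
      rcases Nat.lt_or_ge m (k + 1) with h | h
      · rw [HS, Function.update_of_ne (by omega)]
        exact ih m (by omega)
      · obtain rfl : m = k + 1 := by omega
        rfl
  have yS : ∀ k, y (k + 1) = nxt k (H k) := by
    intro k
    show H (k + 1) (k + 1) = _
    rw [HS, Function.update_self]
  have ystep : ∀ k, (y (k + 1)).1 ≤ (y k).1 := by
    intro k
    rw [yS]
    by_cases h : ∃ z, good k (H k) z
    · have : nxt k (H k) = Classical.choose h := dif_pos h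
      rw [this]
      exact (Classical.choose_spec h).1
    · have : nxt k (H k) = H k k := dif_neg h
      rw [this]
  have ymono : Antitone (fun n => (y n).1) := antitone_nat_of_succ_le ystep
  refine ⟨y, rfl, ymono, ?_⟩
  intro d hd l hl
  rw [he] at hd
  obtain ⟨n, rfl⟩ := hd
  obtain ⟨M, hM⟩ : ∃ M, ∀ m ∈ l, m ≤ M := by
    refine ⟨l.sum, fun m hm => List.single_le_sum (by simp) m hm⟩
  let k := Nat.pair (Encodable.encode ((n, l) : ℕ × List ℕ)) M
  have hMk : M ≤ k := Nat.right_le_pair _ _
  have htask : task k = (n, l) := by
    simp only [task, k, Nat.unpair_pair, Encodable.encodek, Option.getD_some]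
  have hmap : l.map (H k) = l.map y := by
    apply List.map_congr_left
    intro m hm
    exact hist k m ((hM m hm).trans hMk)
  have hex : ∃ z, good k (H k) z := by
    obtain ⟨z, hz1, hz2⟩ := hl (y k).1 (fun m hm => ymono ((hM m hm).trans hMk))
    refine ⟨z, ?_, ?_⟩
    · rw [hist k k le_rfl]; exact hz1
    · rw [htask, hmap]; exact hz2
  refine ⟨k + 1, fun m hm => ((hM m hm).trans hMk).trans (Nat.le_succ _), ?_⟩
  have : nxt k (H k) = Classical.choose hex := dif_pos hex
  rw [yS, this]
  have := (Classical.choose_spec hex).2
  rw [htask, hmap] at this
  exact this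

/-! ### Tags, nodes and conditions -/

/-- A node is a sequence in the `i`-th tree; the list is read from the top, so that `n :: σ` is
a child of `σ`. -/
abbrev Node := ℕ × List ℕ

/-- Tags: an ordinal, or one of two kinds of infinity; tags of the kind `top` carry a label. -/
inductive Tag : Type 1
  | rk (α : Ordinal.{0})
  | bt
  | tp (c : ℕ)

open Tag

/-- Which tags the child of a node may carry. -/
def ok : Tag → Tag → Prop
  | .rk α, .rk β => β < α
  | .rk _, .bt => False
  | .rk _, .tp _ => False
  | .bt, .rk _ => True
  | .bt, .bt => True
  | .bt, .tp _ => False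
  | .tp _, _ => True

@[simp] theorem ok_ord_ord (α β) : ok (rk α) (rk β) ↔ β < α := Iff.rfl
@[simp] theorem ok_ord_bot (α) : ok (rk α) bt ↔ False := Iff.rfl
@[simp] theorem ok_ord_top (α c) : ok (rk α) (tp c) ↔ False := Iff.rfl
@[simp] theorem ok_bot_ord (β) : ok bt (rk β) ↔ True := Iff.rfl
@[simp] theorem ok_bot_bot : ok bt bt ↔ True := Iff.rfl
@[simp] theorem ok_bot_top (c) : ok bt (tp c) ↔ False := Iff.rfl
@[simp] theorem ok_top (c t) : ok (tp c) t ↔ True := by cases t <;> exact Iff.rfl

/-- Partial tag functions. -/
abbrev PM := Node → Option Tag

/-- Conditions. -/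
structure Cond : Type 1 where
  f : PM
  root : ∀ i, f (i, []) = some (tp 0)
  fin : {x : Node | f x ≠ none ∧ x.2 ≠ []}.Finite
  rule : ∀ i n σ t, f (i, n :: σ) = some t → ∃ s, f (i, σ) = some s ∧ ok s t
  ctb : ∀ x α, f x = some (rk α) → α < ω₁

theorem Cond.ext' {p q : Cond} (h : p.f = q.f) : p = q := by
  cases p; cases q; cases h; rfl

/-- Extension of partial maps. -/
def Ext (f f' : PM) : Prop := ∀ x t, f x = some t → f' x = some t

theorem Ext.refl (f : PM) : Ext f f := fun _ _ h => h
theorem Ext.trans {f g h : PM} (h1 : Ext f g) (h2 : Ext g h) : Ext f h :=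
  fun x t hx => h2 x t (h1 x t hx)

instance : Preorder Cond where
  le q p := Ext p.f q.f
  le_refl p := Ext.refl _
  le_trans _ _ _ h1 h2 := Ext.trans h2 h1

theorem le_def {p q : Cond} : q ≤ p ↔ Ext p.f q.f := Iff.rfl

/-- The empty condition. -/
def Cond.one : Cond where
  f x := if x.2 = [] then some (tp 0) else none
  root i := by simp
  fin := by
    convert Set.finite_empty (α := Node)
    ext x; simp
  rule i n σ t h := by simp at h
  ctb x α h := by
    split at h <;> simp at h

instance : Nonempty Cond := ⟨Cond.one⟩

/-! ### Views -/

/-- A view turns the label of a node into a visible label (`c + 1` for the label `c`), or hides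
it (`0`). -/
abbrev View := Node → ℕ → ℕ

/-- Structures seen by a view: `0` absent node, `1` present node without visible label, `c + 2`
present node with the visible label `c`. -/
abbrev Str := Node → ℕ

def lab (g : View) (f : PM) (i : ℕ) : List ℕ → ℕ
  | [] => match f (i, []) with
    | none => 0
    | some (.tp c) => g (i, []) c + 1
    | some (.rk _) => 1
    | some .bt => 1
  | n :: σ => match f (i, n :: σ) with
    | none => 0
    | some (.tp c) => if 2 ≤ lab g f i σ then g (i, n :: σ) c + 1 else 1
    | some (.rk _) => 1
    | some .bt => 1

def st (g : View) (f : PM) : Str := fun x => lab g f x.1 x.2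

theorem st_eq_zero {g : View} {f : PM} {x : Node} : st g f x = 0 ↔ f x = none := by
  obtain ⟨i, σ⟩ := x
  cases σ with
  | nil =>
    simp only [st, lab]
    split <;> simp_all
  | cons n σ =>
    simp only [st, lab]
    split
    · simp_all
    · split <;> simp_all
    · simp_all
    · simp_all

theorem st_ge_two {g : View} {f : PM} {x : Node} (h : 2 ≤ st g f x) :
    ∃ c, f x = some (tp c) := by
  obtain ⟨i, σ⟩ := x
  cases σ with
  | nil =>
    simp only [st, lab] at h
    split at h <;> simp_all
  | cons n σ =>
    simp only [st, lab] at h
    split at h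
    · simp_all
    · simp_all
    · simp_all
    · simp_all

theorem st_parent {g : View} {f : PM} {i n : ℕ} {σ : List ℕ} (h : 2 ≤ st g f (i, n :: σ)) :
    2 ≤ st g f (i, σ) := by
  simp only [st, lab] at h
  split at h
  · simp_all
  · split at h
    · assumption
    · simp_all
  · simp_all
  · simp_all

theorem lab_ext {g : View} (p : Cond) {f' : PM} (h : Ext p.f f') (i : ℕ) (σ : List ℕ)
    (hx : p.f (i, σ) ≠ none) : lab g f' i σ = lab g p.f i σ := by
  induction σ with
  | nil =>
    obtain ⟨t, ht⟩ := Option.ne_none_iff_exists'.mp hx
    simp only [lab, h _ _ ht, ht]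
  | cons n σ ih =>
    obtain ⟨t, ht⟩ := Option.ne_none_iff_exists'.mp hx
    obtain ⟨s, hs, -⟩ := p.rule _ _ _ _ ht
    have := ih (by rw [hs]; simp)
    simp only [lab, h _ _ ht, ht, this]

theorem st_ext {g : View} {p : Cond} {f' : PM} (h : Ext p.f f') {x : Node}
    (hx : p.f x ≠ none) : st g f' x = st g p.f x := lab_ext p h x.1 x.2 hx

/-- Similarity of conditions: same domain, same visible labels, and the same ordinal tags
below `θ`. -/
def Sim (θ : Ordinal.{0}) (g : View) (p q : Cond) : Prop :=
  st g p.f = st g q.f ∧ ∀ x α, α < θ → (p.f x = some (rk α) ↔ q.f x = some (rk α))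

theorem Sim.symm {θ g p q} (h : Sim θ g p q) : Sim θ g q p :=
  ⟨h.1.symm, fun x α hα => (h.2 x α hα).symm⟩

theorem Sim.mono {θ θ' g p q} (h : Sim θ g p q) (hθ : θ' ≤ θ) : Sim θ' g p q :=
  ⟨h.1, fun x α hα => h.2 x α (hα.trans_le hθ)⟩

theorem Sim.refl {θ g} (p : Cond) : Sim θ g p p := ⟨rfl, fun _ _ _ => Iff.rfl⟩

theorem Sim.trans {θ g p q r} (h : Sim θ g p q) (h' : Sim θ g q r) : Sim θ g p r :=
  ⟨h.1.trans h'.1, fun x α hα => (h.2 x α hα).trans (h'.2 x α hα)⟩

theorem Sim.dom {θ g p q} (h : Sim θ g p q) (x : Node) : p.f x = none ↔ q.f x = none := by
  rw [← st_eq_zero (g := g), ← st_eq_zero (g := g), h.1]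


/-! ### The lifting lemma -/

theorem exists_bound_len (q : Cond) : ∃ N : ℕ, ∀ x, q.f x ≠ none → x.2.length < N := by
  have h := q.fin.image (fun x : Node => x.2.length)
  obtain ⟨N, hN⟩ := h.bddAbove
  refine ⟨N + 1, fun x hx => ?_⟩
  by_cases h0 : x.2 = []
  · rw [h0]; simp
  · have := hN (Set.mem_image_of_mem _ (show x ∈ {x : Node | q.f x ≠ none ∧ x.2 ≠ []} from ⟨hx, h0⟩))
    exact Nat.lt_succ_of_le this

theorem exists_bound_tag (q : Cond) (θ : Ordinal.{0}) :
    ∃ K : ℕ, ∀ x α, q.f x = some (rk α) → α < θ + ω → α < θ + K := by
  classical
  have : ∀ x : Node, ∃ K : ℕ, ∀ α, q.f x = some (rk α) → α < θ + ω → α < θ + K := by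
    intro x
    by_cases h : ∃ α, q.f x = some (rk α) ∧ α < θ + ω
    · obtain ⟨α, h1, h2⟩ := h
      obtain ⟨n, hn⟩ := lt_add_omega h2
      refine ⟨n, fun β hβ _ => ?_⟩
      rw [h1] at hβ
      cases hβ
      exact hn
    · push Not at h
      exact ⟨0, fun α h1 h2 => absurd h2 (not_lt.mpr (h α h1))⟩
  choose K hK using this
  obtain ⟨M, hM⟩ := (q.fin.image K).bddAbove
  refine ⟨M, fun x α h1 h2 => ?_⟩
  have hx0 : x.2 ≠ [] := by
    intro h0
    obtain ⟨i, σ⟩ := x
    simp only at h0
    subst h0
    rw [q.root] at h1
    cases h1
  have h3 : K x ≤ M := hM (Set.mem_image_of_mem _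
    (show x ∈ {x : Node | q.f x ≠ none ∧ x.2 ≠ []} from ⟨by rw [h1]; simp, hx0⟩))
  refine (hK x α h1 h2).trans_le ?_
  have : (K x : Ordinal.{0}) ≤ (M : Ordinal.{0}) := by exact_mod_cast h3
  exact (add_le_add_iff_left θ).mpr this

section lift
open Classical

/-- New tag in the lifting lemma. -/
noncomputable def newTag (θ : Ordinal.{0}) (m : ℕ) (vis : Prop) (t : Tag) : Tag :=
  if vis then t else match t with
    | rk α => if α < θ + ω then rk α else rk (θ + m)
    | _ => rk (θ + m)

theorem lift {θ : Ordinal.{0}} (hθ : θ < ω₁) {g : View} {p p' q : Cond}
    (h : Sim (θ + ω) g p p') (hq : q ≤ p) : ∃ q' ≤ p', Sim θ g q q' := by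
  obtain ⟨N, hN⟩ := exists_bound_len q
  obtain ⟨K, hK⟩ := exists_bound_tag q θ
  let F : PM := fun x => if p'.f x ≠ none then p'.f x else
    (q.f x).map (fun t => newTag θ (K + (N - x.2.length)) (2 ≤ st g q.f x) t)
  have Fold : ∀ x, p'.f x ≠ none → F x = p'.f x := fun x hx => if_pos hx
  have Fnew : ∀ x, p'.f x = none → F x =
      (q.f x).map (fun t => newTag θ (K + (N - x.2.length)) (2 ≤ st g q.f x) t) :=
    fun x hx => if_neg (by simpa using hx)
  have hdom : ∀ x, F x = none ↔ q.f x = none := by
    intro x
    by_cases hx : p'.f x = none
    · rw [Fnew x hx]; simp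
    · rw [Fold x hx]
      have h1 : p.f x ≠ none := fun h0 => hx ((h.dom x).mp h0)
      obtain ⟨t, ht⟩ := Option.ne_none_iff_exists'.mp h1
      rw [hq x t ht]
      simp [hx]
  have hlt : ∀ m : ℕ, θ + (m : Ordinal.{0}) < ω₁ := fun m =>
    (add_nat_lt m).trans (add_omega_lt hθ)
  let q' : Cond :=
    { f := F
      root := by
        intro i
        rw [Fold _ (by rw [p'.root]; simp), p'.root]
      fin := by
        refine q.fin.subset ?_
        rintro x ⟨h1, h2⟩
        exact ⟨fun h0 => h1 ((hdom x).mpr h0), h2⟩
      rule := by
        intro i n σ t ht
        by_cases hx : p'.f (i, n :: σ) = none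
        · rw [Fnew _ hx] at ht
          obtain ⟨t₀, ht₀, rfl⟩ := Option.map_eq_some_iff.mp ht
          obtain ⟨s, hs, hok⟩ := q.rule _ _ _ _ ht₀
          have hlen : (n :: σ).length < N := hN (i, n :: σ) (by rw [ht₀]; simp)
          by_cases hy : p'.f (i, σ) = none
          · -- parent is new
            rw [Fnew _ hy, hs]
            refine ⟨_, rfl, ?_⟩
            simp only [newTag]
            by_cases hv : 2 ≤ st g q.f (i, σ)
            · obtain ⟨c, hc⟩ := st_ge_two hv
              rw [hs] at hc
              cases hc
              rw [if_pos hv]
              simp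
            · have hv' : ¬ 2 ≤ st g q.f (i, n :: σ) := fun h0 => hv (st_parent h0)
              rw [if_neg hv, if_neg hv']
              have e1 : ((K + (N - (n :: σ).length) : ℕ) : Ordinal.{0}) <
                  ((K + (N - σ.length) : ℕ) : Ordinal.{0}) := by
                have : K + (N - (n :: σ).length) < K + (N - σ.length) := by
                  simp only [List.length_cons] at hlen ⊢; omega
                exact_mod_cast this
              have e2 : θ + ((K + (N - (n :: σ).length) : ℕ) : Ordinal.{0}) <
                  θ + ((K + (N - σ.length) : ℕ) : Ordinal.{0}) :=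
                (add_lt_add_iff_left θ).mpr e1
              have e3 : ∀ α, q.f (i, n :: σ) = some (rk α) → α < θ + ω →
                  α < θ + ((K + (N - σ.length) : ℕ) : Ordinal.{0}) := by
                intro α h1 h2
                refine (hK _ _ h1 h2).trans_le ?_
                refine (add_le_add_iff_left θ).mpr ?_
                exact_mod_cast Nat.le_add_right _ _
              cases s with
              | rk β =>
                cases t₀ with
                | rk α =>
                  simp only [ok_ord_ord] at hok
                  by_cases hβ : β < θ + ω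
                  · simp only [hβ, hok.trans hβ, if_true]
                    exact hok
                  · simp only [hβ, if_false]
                    by_cases hα : α < θ + ω
                    · simp only [hα, if_true]
                      exact e3 α ht₀ hα
                    · simp only [hα, if_false]
                      exact e2
                | bt => simp at hok
                | tp c => simp at hok
              | bt =>
                cases t₀ with
                | rk α =>
                  by_cases hα : α < θ + ω
                  · simp only [hα, if_true]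
                    exact e3 α ht₀ hα
                  · simp only [hα, if_false]
                    exact e2
                | bt => exact e2
                | tp c => simp at hok
              | tp c' =>
                cases t₀ with
                | rk α =>
                  by_cases hα : α < θ + ω
                  · simp only [hα, if_true]
                    exact e3 α ht₀ hα
                  · simp only [hα, if_false]
                    exact e2
                | bt => exact e2
                | tp c => exact e2
          · -- parent is old
            rw [Fold _ hy]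
            obtain ⟨s', hs'⟩ := Option.ne_none_iff_exists'.mp hy
            refine ⟨s', hs', ?_⟩
            have hyp : p.f (i, σ) ≠ none := fun h0 => hy ((h.dom _).mp h0)
            obtain ⟨s₁, hs₁⟩ := Option.ne_none_iff_exists'.mp hyp
            have : s₁ = s := by
              have := hq _ _ hs₁
              rw [hs] at this
              exact (Option.some.inj this).symm
            subst this
            simp only [newTag]
            by_cases hv : 2 ≤ st g q.f (i, n :: σ)
            · have hv2 := st_parent hv
              rw [st_ext hq hyp, h.1] at hv2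
              obtain ⟨c, hc⟩ := st_ge_two hv2
              rw [hs'] at hc
              cases hc
              simp
            · rw [if_neg hv]
              have key : ∀ m : ℕ, (∀ α, t₀ = rk α → ¬ α < θ + ω) → ok s' (rk (θ + m)) := by
                intro m hm
                cases s' with
                | rk β' =>
                  by_cases hβ' : β' < θ + ω
                  · exfalso
                    have := (h.2 (i, σ) β' hβ').mpr hs'
                    rw [hs₁] at this
                    cases this
                    cases t₀ with
                    | rk α => exact hm α rfl (lt_trans hok hβ')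
                    | bt => simp at hok
                    | tp c => simp at hok
                  · exact (add_nat_lt m).trans_le (not_lt.mp hβ')
                | bt => simp
                | tp c => simp
              have key2 : ∀ α, t₀ = rk α → α < θ + ω → ok s' (rk α) := by
                intro α h0 hα
                subst h0
                cases s' with
                | rk β' =>
                  by_cases hβ' : β' < θ + ω
                  · have := (h.2 (i, σ) β' hβ').mpr hs'
                    rw [hs₁] at this
                    cases this
                    exact hok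
                  · exact hα.trans_le (not_lt.mp hβ')
                | bt => simp
                | tp c => simp
              cases t₀ with
              | rk α =>
                by_cases hα : α < θ + ω
                · simp only [hα, if_true]
                  exact key2 α rfl hα
                · simp only [hα, if_false]
                  refine key _ ?_
                  intro β hβ
                  cases hβ
                  exact hα
              | bt => exact key _ (by intro α h0; cases h0)
              | tp c => exact key _ (by intro α h0; cases h0)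
        · rw [Fold _ hx] at ht
          obtain ⟨s, hs, hok⟩ := p'.rule _ _ _ _ ht
          refine ⟨s, ?_, hok⟩
          rw [Fold _ (by rw [hs]; simp), hs]
      ctb := by
        intro x α hα
        by_cases hx : p'.f x = none
        · rw [Fnew _ hx] at hα
          obtain ⟨t₀, ht₀, h2⟩ := Option.map_eq_some_iff.mp hα
          simp only [newTag] at h2
          split at h2
          · subst h2
            exact q.ctb _ _ ht₀
          · split at h2
            · split at h2
              · cases h2
                exact q.ctb _ _ ht₀
              · cases h2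
                exact hlt _
            · cases h2
              exact hlt _
        · rw [Fold _ hx] at hα
          exact p'.ctb _ _ hα }
  have hle : q' ≤ p' := by
    intro x t ht
    show F x = some t
    rw [Fold _ (by rw [ht]; simp), ht]
  refine ⟨q', hle, ?_, ?_⟩
  · funext x
    obtain ⟨i, σ⟩ := x
    induction σ with
    | nil =>
      have h1 : p.f (i, []) ≠ none := by rw [p.root]; simp
      have h2 : p'.f (i, []) ≠ none := by rw [p'.root]; simp
      rw [st_ext hq h1, st_ext hle h2, h.1]
    | cons n σ ih =>
      by_cases hx : p'.f (i, n :: σ) = none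
      · have hF : q'.f (i, n :: σ) = _ := Fnew _ hx
        cases hqx : q.f (i, n :: σ) with
        | none =>
          rw [st_eq_zero.mpr hqx, eq_comm, st_eq_zero]
          exact (hdom _).mpr hqx
        | some t =>
          rw [hqx, Option.map_some] at hF
          by_cases hv : 2 ≤ st g q.f (i, n :: σ)
          · have hv2 := st_parent hv
            rw [ih] at hv2
            obtain ⟨c, hc⟩ := st_ge_two hv
            rw [hqx] at hc
            cases hc
            simp only [newTag] at hF
            rw [if_pos hv] at hF
            have e1 : st g q.f (i, n :: σ) = g (i, n :: σ) c + 1 := by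
              have := st_parent hv
              simp only [st] at this
              simp only [st, lab, hqx, this, if_true]
            have e2 : st g q'.f (i, n :: σ) = g (i, n :: σ) c + 1 := by
              simp only [st] at hv2
              simp only [st, lab, hF, hv2, if_true]
            rw [e1, e2]
          · simp only [newTag] at hF
            rw [if_neg hv] at hF
            have e1 : st g q.f (i, n :: σ) = 1 := by
              have h0 : st g q.f (i, n :: σ) ≠ 0 := by
                rw [Ne, st_eq_zero, hqx]; simp
              omega
            have e2 : st g q'.f (i, n :: σ) = 1 := by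
              have : ∃ β, q'.f (i, n :: σ) = some (rk β) := by
                cases t with
                | rk α =>
                  by_cases hα : α < θ + ω
                  · simp only [hα, if_true] at hF
                    exact ⟨_, hF⟩
                  · simp only [hα, if_false] at hF
                    exact ⟨_, hF⟩
                | bt => exact ⟨_, hF⟩
                | tp c => exact ⟨_, hF⟩
              obtain ⟨β, hβ⟩ := this
              simp only [st, lab, hβ]
            rw [e1, e2]
      · have h1 : p.f (i, n :: σ) ≠ none := fun h0 => hx ((h.dom _).mp h0)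
        rw [st_ext hq h1, st_ext hle hx, h.1]
  · intro x α hα
    have hα' : α < θ + ω := hα.trans_le (by simp)
    by_cases hx : p'.f x = none
    · have hF : q'.f x = _ := Fnew _ hx
      rw [hF]
      cases hqx : q.f x with
      | none => simp
      | some t =>
        rw [Option.map_some]
        simp only [newTag]
        by_cases hv : 2 ≤ st g q.f x
        · rw [if_pos hv]
        · rw [if_neg hv]
          have hne : ∀ m : ℕ, θ + (m : Ordinal.{0}) ≠ α := by
            intro m h0
            have : θ ≤ α := by rw [← h0]; simp
            exact absurd hα (not_lt.mpr this)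
          cases t with
          | rk β =>
            by_cases hβ : β < θ + ω
            · simp only [hβ, if_true]
            · simp only [hβ, if_false, Option.some.injEq, Tag.rk.injEq]
              constructor
              · intro h0; subst h0; exact absurd hα' hβ
              · intro h0; exact absurd h0 (hne _)
          | bt => 
            simp only [Option.some.injEq, Tag.rk.injEq, reduceCtorEq, false_iff]
            exact hne _
          | tp c => 
            simp only [Option.some.injEq, Tag.rk.injEq, reduceCtorEq, false_iff]
            exact hne _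
    · have hF : q'.f x = _ := Fold _ hx
      rw [hF]
      have h1 : p.f x ≠ none := fun h0 => hx ((h.dom _).mp h0)
      obtain ⟨t, ht⟩ := Option.ne_none_iff_exists'.mp h1
      rw [hq _ _ ht, ← ht]
      exact h.2 x α hα'

end lift

end Halin
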