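import Pool.Agent.Helper90.HalinA

/-! Infinitary formulas, strong forcing, retagging, Borel sets, generic sequences. -/

open Ordinal
open scoped Ordinal

namespace Halin
open Tag

/-! ### Formulas -/

inductive Form
  | fls
  | atom (x : Node) (a : ℕ)
  | neg (φ : Form)
  | disj (f : ℕ → Form)

def sat (M : Str) : Form → Prop
  | .fls => False
  | .atom x a => M x = a + 1
  | .neg φ => ¬ sat M φ
  | .disj f => ∃ n, sat M (f n)

def frc (g : View) : Form → Cond → Prop
  | .fls, _ => False
  | .atom x a, p => st g p.f x = a + 1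
  | .neg φ, p => ∀ q ≤ p, ¬ frc g φ q
  | .disj f, p => ∃ n, frc g (f n) p

noncomputable def thr : Form → Ordinal.{0}
  | .fls => 0
  | .atom _ _ => 0
  | .neg φ => thr φ + ω
  | .disj f => ⨆ n, thr (f n)

theorem thr_lt (φ : Form) : thr φ < ω₁ := by
  induction φ with
  | fls => exact omega_pos 1
  | atom x a => exact omega_pos 1
  | neg φ ih => exact add_omega_lt ih
  | disj f ih => exact Ordinal.iSup_lt_omega_one ih

theorem frc_mono {g : View} {φ : Form} {p q : Cond} (h : q ≤ p) (hp : frc g φ p) :
    frc g φ q := by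
  induction φ with
  | fls => exact hp
  | atom x a =>
    simp only [frc] at hp ⊢
    rw [st_ext h, hp]
    intro h0
    rw [← st_eq_zero (g := g)] at h0
    omega
  | neg φ ih => exact fun r hr => hp r (hr.trans h)
  | disj f ih =>
    obtain ⟨n, hn⟩ := hp
    exact ⟨n, ih n hn⟩

theorem retag {g : View} (φ : Form) : ∀ p p' : Cond, Sim (thr φ) g p p' → frc g φ p →
    frc g φ p' := by
  induction φ with
  | fls => exact fun _ _ _ h => h
  | atom x a =>
    intro p p' h hp
    simp only [frc] at hp ⊢
    rw [← h.1, hp]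
  | neg φ ih =>
    intro p p' h hp q' hq' hf
    obtain ⟨q, hq, hs⟩ := lift (thr_lt φ) h.symm hq'
    exact hp q hq (ih _ _ hs hf)
  | disj f ih =>
    intro p p' h hp
    obtain ⟨n, hn⟩ := hp
    exact ⟨n, ih n _ _ (h.mono (Ordinal.le_iSup (fun n => thr (f n)) n)) hn⟩

/-! ### Every Borel set is given by a formula -/

theorem measurable_sat (φ : Form) : MeasurableSet {M : Str | sat M φ} := by
  induction φ with
  | fls => simp [sat]
  | atom x a =>
    exact measurableSet_eq_fun (measurable_pi_apply x) measurable_const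
  | neg φ ih => exact ih.compl
  | disj f ih =>
    have : {M : Str | sat M (.disj f)} = ⋃ n, {M : Str | sat M (f n)} := by
      ext M; simp [sat]
    rw [this]
    exact MeasurableSet.iUnion ih

theorem exists_form {A : Set Str} (hA : MeasurableSet A) : ∃ φ, ∀ M, M ∈ A ↔ sat M φ := by
  classical
  let m' : MeasurableSpace Str :=
    { MeasurableSet' := fun A => ∃ φ, ∀ M, M ∈ A ↔ sat M φ
      measurableSet_empty := ⟨.fls, fun M => by simp [sat]⟩
      measurableSet_compl := by
        rintro A ⟨φ, hφ⟩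
        exact ⟨.neg φ, fun M => by simp [sat, hφ M]⟩
      measurableSet_iUnion := by
        intro f hf
        choose φ hφ using hf
        exact ⟨.disj φ, fun M => by simp [sat, hφ]⟩ }
  have hle : (MeasurableSpace.pi : MeasurableSpace Str) ≤ m' := by
    refine iSup_le fun x => ?_
    rintro _ ⟨s, -, rfl⟩
    show ∃ φ, ∀ M, M ∈ (fun M : Str => M x) ⁻¹' s ↔ sat M φ
    refine ⟨.disj (fun a => if a ∈ s then
      (match a with | 0 => .neg (.disj (fun k => .atom x k)) | k + 1 => .atom x k) else .fls), ?_⟩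
    intro M
    simp only [Set.mem_preimage, sat]
    constructor
    · intro h
      refine ⟨M x, ?_⟩
      rw [if_pos h]
      cases hM : M x with
      | zero => simp [sat, hM]
      | succ k => simp [sat, hM]
    · rintro ⟨a, ha⟩
      by_cases h : a ∈ s
      · rw [if_pos h] at ha
        cases a with
        | zero =>
          simp only [sat, not_exists] at ha
          have : M x = 0 := by
            by_contra h0
            obtain ⟨k, hk⟩ := Nat.exists_eq_succ_of_ne_zero h0
            exact ha k hk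
          rw [this]; exact h
        | succ k =>
          simp only [sat] at ha
          rw [ha]; exact h
      · rw [if_neg h] at ha
        exact ha.elim
  exact hle A hA

open Classical in
/-- The formula chosen for a Borel set. -/
noncomputable def fm (A : Set Str) : Form :=
  if h : MeasurableSet A then Classical.choose (exists_form h) else .fls

theorem fm_spec {A : Set Str} (hA : MeasurableSet A) (M : Str) : M ∈ A ↔ sat M (fm A) := by
  rw [fm, dif_pos hA]
  exact Classical.choose_spec (exists_form hA) M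

/-- Weak forcing of (membership in) a Borel set. -/
def Frc (g : View) (p : Cond) (A : Set Str) : Prop := ∀ q ≤ p, ∃ r ≤ q, frc g (fm A) r

theorem Frc_iff {g p A} : Frc g p A ↔ frc g (.neg (.neg (fm A))) p := by
  simp only [Frc, frc]
  constructor
  · intro h q hq h2
    obtain ⟨r, hr, hr2⟩ := h q hq
    exact h2 r hr hr2
  · intro h q hq
    by_contra h2
    push Not at h2
    exact h q hq h2

theorem Frc.mono {g p q A} (h : Frc g p A) (hq : q ≤ p) : Frc g q A :=
  fun r hr => h r (hr.trans hq)

theorem Frc.of_frc {g p A} (h : frc g (fm A) p) : Frc g p A :=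
  fun q hq => ⟨q, le_refl q, frc_mono hq h⟩

theorem Frc.dense {g p A} (h : ∀ q ≤ p, ∃ r ≤ q, Frc g r A) : Frc g p A := by
  intro q hq
  obtain ⟨r, hr, hr2⟩ := h q hq
  obtain ⟨r', hr', h3⟩ := hr2 r le_rfl
  exact ⟨r', hr'.trans hr, h3⟩

/-- The retagging threshold of a Borel set. -/
noncomputable def thrS (A : Set Str) : Ordinal.{0} := thr (.neg (.neg (fm A)))

theorem thrS_lt (A : Set Str) : thrS A < ω₁ := thr_lt _

theorem Frc.retag {g p p' A} (h : Frc g p A) (hs : Sim (thrS A) g p p') : Frc g p' A := by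
  rw [Frc_iff] at *
  exact Halin.retag _ _ _ hs h

/-! ### Views -/

/-- The views used: the labels of the trees in `Fs` are visible; in the trees of `F` not in `Fs`
the labels of the nodes in `D0` are visible, and other labels are visible if they are of class
`b`. -/
def cv (Fs F : Finset ℕ) (D0 : Finset Node) (b : ℕ) : View := fun x c =>
  if x.1 ∈ Fs then c + 1 else if x.1 ∈ F then
    (if x.2 = [] ∨ x ∈ D0 then c + 1 else
      if (Nat.unpair c).1 = b then (Nat.unpair c).2 + 1 else 0) else 0

/-- The view that sees the labels of the trees in `F`. -/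
def vF (F : Finset ℕ) : View := cv F ∅ ∅ 0

theorem vF_apply (F : Finset ℕ) (x : Node) (c : ℕ) : vF F x c = if x.1 ∈ F then c + 1 else 0 := by
  simp [vF, cv]

/-- The countable set of all views considered. -/
def VV : Set View := Set.range (fun t : Finset ℕ × Finset ℕ × Finset Node × ℕ =>
  cv t.1 t.2.1 t.2.2.1 t.2.2.2)

theorem VV_countable : VV.Countable := Set.countable_range _

theorem cv_mem (Fs F : Finset ℕ) (D0 : Finset Node) (b : ℕ) : cv Fs F D0 b ∈ VV :=
  ⟨(Fs, F, D0, b), rfl⟩

theorem vF_mem (F : Finset ℕ) : vF F ∈ VV := cv_mem _ _ _ _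

/-! ### Names and generic sequences -/

/-- Names: Borel maps from structures to the Baire space. -/
abbrev Nm := {Ψ : Str → (ℕ → ℕ) // Measurable Ψ}

instance : Nonempty Nm := ⟨⟨fun _ _ => 0, measurable_const⟩⟩

abbrev Rel := List (Cond × Nm) → Cond × Nm → Prop

/-- `y` meets all requirements in `D`. -/
def Gen (D : Set Rel) (y : ℕ → Cond × Nm) : Prop :=
  Antitone (fun n => (y n).1) ∧
  ∀ d ∈ D, ∀ l : List ℕ,
    (∀ p, (∀ m ∈ l, p ≤ (y m).1) → ∃ z : Cond × Nm, z.1 ≤ p ∧ d (l.map y) z) →
    ∃ k, (∀ m ∈ l, m ≤ k) ∧ d (l.map y) (y k)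

theorem Gen.mono {D D' : Set Rel} {y} (h : Gen D y) (h' : D' ⊆ D) : Gen D' y :=
  ⟨h.1, fun d hd => h.2 d (h' hd)⟩

theorem exists_gen {D : Set Rel} (hD : D.Countable) (p : Cond) :
    ∃ y, Gen D y ∧ (y 0).1 = p := by
  obtain ⟨y, h0, h1, h2⟩ := master D hD (p, Classical.arbitrary Nm)
  exact ⟨y, ⟨h1, h2⟩, by rw [h0]⟩

open Classical in
/-- The union of the conditions in the sequence. -/
noncomputable def lim (s : ℕ → Cond) : PM := fun x =>
  if h : ∃ k, (s k).f x ≠ none then (s (Classical.choose h)).f x else none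

theorem lim_eq {s : ℕ → Cond} (hs : Antitone s) {x : Node} {t : Tag} :
    lim s x = some t ↔ ∃ k, (s k).f x = some t := by
  constructor
  · intro h
    by_cases h' : ∃ k, (s k).f x ≠ none
    · rw [lim, dif_pos h'] at h
      exact ⟨_, h⟩
    · rw [lim, dif_neg h'] at h
      cases h
  · rintro ⟨k, hk⟩
    have h' : ∃ k, (s k).f x ≠ none := ⟨k, by rw [hk]; simp⟩
    rw [lim, dif_pos h']
    have h2 := Classical.choose_spec h'
    obtain ⟨t', ht'⟩ := Option.ne_none_iff_exists'.mp h2
    rcases le_total k (Classical.choose h') with h3 | h3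
    · exact hs h3 _ _ hk
    · have := hs h3 _ _ ht'
      rw [hk] at this
      rw [ht', ← this]

theorem ext_lim {s : ℕ → Cond} (hs : Antitone s) (k : ℕ) : Ext (s k).f (lim s) :=
  fun _ _ h => (lim_eq hs).mpr ⟨k, h⟩

theorem lim_eq_none {s : ℕ → Cond} (hs : Antitone s) {x : Node} :
    lim s x = none ↔ ∀ k, (s k).f x = none := by
  constructor
  · intro h k
    by_contra h2
    obtain ⟨t', ht'⟩ := Option.ne_none_iff_exists'.mp h2
    rw [ext_lim hs k _ _ ht'] at h
    cases h
  · intro h
    by_contra h2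
    obtain ⟨t', ht'⟩ := Option.ne_none_iff_exists'.mp h2
    obtain ⟨k, hk⟩ := (lim_eq hs).mp ht'
    rw [h k] at hk
    cases hk

theorem st_lim {g : View} {s : ℕ → Cond} (hs : Antitone s) {x : Node} {k : ℕ}
    (h : (s k).f x ≠ none) : st g (lim s) x = st g (s k).f x :=
  st_ext (ext_lim hs k) h

def sub (n : ℕ) : Form → Form
  | .fls => .fls
  | .atom x a => .atom x a
  | .neg φ => φ
  | .disj f => f n

def subs : List ℕ → Form → Form
  | [], φ => φ
  | n :: l, φ => subs l (sub n φ)

/-- The formula `φ` is decided along the sequence. -/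
def DcdF (s : ℕ → Cond) (g : View) (φ : Form) : Prop :=
  ∃ k, frc g φ (s k) ∨ frc g (.neg φ) (s k)

theorem truth {s : ℕ → Cond} (hs : Antitone s) {g : View} (φ : Form)
    (h : ∀ j : List ℕ, DcdF s g (subs j φ)) : sat (st g (lim s)) φ ↔ ∃ k, frc g φ (s k) := by
  induction φ with
  | fls => simp [sat, frc]
  | atom x a =>
    simp only [sat, frc]
    constructor
    · intro h
      have h0 : lim s x ≠ none := by
        intro h0
        rw [← st_eq_zero (g := g)] at h0
        omega
      obtain ⟨t, ht⟩ := Option.ne_none_iff_exists'.mp h0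
      obtain ⟨k, hk⟩ := (lim_eq hs).mp ht
      refine ⟨k, ?_⟩
      rw [← h, st_lim hs (by rw [hk]; simp)]
    · rintro ⟨k, hk⟩
      rw [st_lim (k := k) hs, hk]
      intro h0
      rw [← st_eq_zero (g := g)] at h0
      omega
  | neg φ ih =>
    have ih' := ih (fun j => h (0 :: j))
    simp only [sat, ih']
    constructor
    · intro h1
      obtain ⟨k, hk | hk⟩ := h [0]
      · exact absurd ⟨k, hk⟩ h1
      · exact ⟨k, hk⟩
    · rintro ⟨k, hk⟩ ⟨k', hk'⟩
      have h3 : frc g φ (s (max k k')) := frc_mono (hs (le_max_right _ _)) hk'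
      exact hk _ (hs (le_max_left _ _)) h3
  | disj f ih =>
    have ih' : ∀ n, sat (st g (lim s)) (f n) ↔ ∃ k, frc g (f n) (s k) :=
      fun n => ih n (fun j => h (n :: j))
    simp only [sat, frc, ih']
    exact exists_comm

/-- A Borel set is decided along the sequence, in all views. -/
def Dcd (s : ℕ → Cond) (A : Set Str) : Prop :=
  ∀ g ∈ VV, ∀ j : List ℕ, DcdF s g (subs j (fm A))

theorem truthS {s : ℕ → Cond} (hs : Antitone s) {A : Set Str} (hA : MeasurableSet A)
    (hd : Dcd s A) {g : View} (hg : g ∈ VV) : st g (lim s) ∈ A ↔ ∃ k, frc g (fm A) (s k) := by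
  rw [fm_spec hA, truth hs _ (hd g hg)]

theorem mem_of_Frc {s : ℕ → Cond} (hs : Antitone s) {A : Set Str} (hA : MeasurableSet A)
    (hd : Dcd s A) {g : View} (hg : g ∈ VV) {p : Cond} {k : ℕ} (hp : s k ≤ p)
    (h : Frc g p A) : st g (lim s) ∈ A := by
  rw [truthS hs hA hd hg]
  by_contra h0
  push Not at h0
  obtain ⟨m, hm | hm⟩ := hd g hg []
  · exact h0 m hm
  · obtain ⟨r, hr, hr2⟩ := h (s (max k m)) ((hs (le_max_left _ _)).trans hp)
    exact hm r (hr.trans (hs (le_max_right _ _))) hr2

theorem exists_Frc {s : ℕ → Cond} (hs : Antitone s) {A : Set Str} (hA : MeasurableSet A)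
    (hd : Dcd s A) {g : View} (hg : g ∈ VV) (h : st g (lim s) ∈ A) : ∃ k, Frc g (s k) A := by
  rw [truthS hs hA hd hg] at h
  obtain ⟨k, hk⟩ := h
  exact ⟨k, Frc.of_frc hk⟩

theorem decide_dense (g : View) (φ : Form) (p : Cond) :
    ∃ q ≤ p, frc g φ q ∨ frc g (.neg φ) q := by
  by_cases h : ∃ q ≤ p, frc g φ q
  · obtain ⟨q, hq, h1⟩ := h
    exact ⟨q, hq, Or.inl h1⟩
  · push Not at h
    exact ⟨p, le_rfl, Or.inr h⟩

/-- The requirement to decide a formula. -/
def decRel (g : View) (φ : Form) : Rel := fun _ z => frc g φ z.1 ∨ frc g (.neg φ) z.1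

/-! ### Structural requirements -/

open Classical in
/-- Enumeration of the ordinals below a countable ordinal. -/
noncomputable def enumO (α : Ordinal.{0}) : ℕ → Ordinal.{0} :=
  if h : (Set.Iio α).Countable ∧ (Set.Iio α).Nonempty then
    Classical.choose (h.1.exists_eq_range h.2) else fun _ => 0

theorem enumO_spec {α : Ordinal.{0}} (h : α < ω₁) (h0 : 0 < α) :
    Set.Iio α = Set.range (enumO α) := by
  have h' : (Set.Iio α).Countable ∧ (Set.Iio α).Nonempty := ⟨countable_Iio_of_lt h, ⟨0, h0⟩⟩
  rw [enumO, dif_pos h']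
  exact Classical.choose_spec (h'.1.exists_eq_range h'.2)

open Classical in
/-- Tags of the children that generic trees must have. -/
noncomputable def kid : Tag → ℕ → Option Tag
  | .tp _, _ => some (tp 0)
  | .bt, _ => some bt
  | .rk α, j => if 0 < α then some (rk (enumO α j)) else none

def srel (x : Node) (j : ℕ) : Rel := fun l z => ∀ w, l = [w] →
  ∀ t, w.1.f x = some t → ∀ t', kid t j = some t' → ∃ n, z.1.f (x.1, n :: x.2) = some t'

open Classical in
/-- Adding a child. -/
noncomputable def addChild (p : Cond) (i : ℕ) (σ : List ℕ) (n : ℕ) (s t : Tag)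
    (h1 : p.f (i, σ) = some s) (h2 : ok s t) (h3 : p.f (i, n :: σ) = none)
    (h4 : ∀ α, t = rk α → α < ω₁) : Cond where
  f := Function.update p.f (i, n :: σ) (some t)
  root j := by
    rw [Function.update_of_ne (by simp), p.root]
  fin := by
    refine (p.fin.union (Set.finite_singleton (i, n :: σ))).subset ?_
    rintro x ⟨hx1, hx2⟩
    by_cases hx : x = (i, n :: σ)
    · right; exact hx
    · left
      rw [Function.update_of_ne hx] at hx1
      exact ⟨hx1, hx2⟩
  rule := by
    intro j m τ t' ht'
    by_cases hx : (j, m :: τ) = ((i, n :: σ) : Node)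
    · have e1 : j = i := congrArg Prod.fst hx
      have e2 : m :: τ = n :: σ := congrArg Prod.snd hx
      cases e2
      subst e1
      rw [Function.update_self] at ht'
      cases ht'
      refine ⟨s, ?_, h2⟩
      rw [Function.update_of_ne, h1]
      intro h0
      have := congrArg (fun x : Node => x.2.length) h0
      simp at this
    · rw [Function.update_of_ne hx] at ht'
      obtain ⟨s', hs', hok⟩ := p.rule _ _ _ _ ht'
      refine ⟨s', ?_, hok⟩
      rw [Function.update_of_ne, hs']
      intro h0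
      rw [h0, h3] at hs'
      cases hs'
  ctb := by
    intro x α hx
    by_cases hx' : x = (i, n :: σ)
    · rw [hx', Function.update_self] at hx
      exact h4 α (Option.some.inj hx)
    · rw [Function.update_of_ne hx'] at hx
      exact p.ctb _ _ hx

theorem exists_child (p : Cond) (i : ℕ) (σ : List ℕ) (s t : Tag)
    (h1 : p.f (i, σ) = some s) (h2 : ok s t) (h4 : ∀ α, t = rk α → α < ω₁) :
    ∃ q ≤ p, ∃ n, q.f (i, n :: σ) = some t := by
  obtain ⟨n, hn⟩ : ∃ n, p.f (i, n :: σ) = none := by
    by_contra h0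
    push Not at h0
    have hinj : Function.Injective (fun n : ℕ => ((i, n :: σ) : Node)) := by
      intro a b hab
      have := congrArg (fun x : Node => x.2) hab
      simpa using this
    refine Set.infinite_range_of_injective hinj (p.fin.subset ?_)
    rintro _ ⟨n, rfl⟩
    exact ⟨h0 n, by simp⟩
  refine ⟨addChild p i σ n s t h1 h2 hn h4, ?_, n, ?_⟩
  · intro x t' hx
    show Function.update p.f (i, n :: σ) (some t) x = some t'
    rw [Function.update_of_ne, hx]
    intro h0
    rw [h0, hn] at hx
    cases hx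
  · show Function.update p.f (i, n :: σ) (some t) (i, n :: σ) = some t
    rw [Function.update_self]

theorem kid_ok {t t' : Tag} {j : ℕ} (h : kid t j = some t') (ht : ∀ α, t = rk α → α < ω₁) :
    ok t t' ∧ ∀ α, t' = rk α → α < ω₁ := by
  cases t with
  | rk α =>
    have hα := ht α rfl
    simp only [kid] at h
    split at h
    · rename_i h0
      cases h
      have h1 : enumO α j ∈ Set.Iio α := by
        rw [enumO_spec hα h0]; exact ⟨j, rfl⟩
      refine ⟨h1, fun β hβ => ?_⟩
      cases hβ
      exact lt_trans h1 hα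
    · cases h
  | bt =>
    simp only [kid] at h
    cases h
    exact ⟨by simp, by intro α h; cases h⟩
  | tp c =>
    simp only [kid] at h
    cases h
    exact ⟨by simp, by intro α h; cases h⟩

/-- The structural requirements. -/
def DS : Set Rel := Set.range (fun t : Node × ℕ => srel t.1 t.2)

theorem DS_countable : DS.Countable := Set.countable_range _

/-- Structural properties of generic objects. -/
structure Stc (G : PM) : Prop where
  root : ∀ i, G (i, []) = some (tp 0)
  rule : ∀ i n σ t, G (i, n :: σ) = some t → ∃ s, G (i, σ) = some s ∧ ok s t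
  ctb : ∀ x α, G x = some (rk α) → α < ω₁
  top_kid : ∀ i σ c, G (i, σ) = some (tp c) → ∃ n c', G (i, n :: σ) = some (tp c')
  bot_kid : ∀ i σ, G (i, σ) = some bt → ∃ n, G (i, n :: σ) = some bt
  ord_kid : ∀ i σ α β, G (i, σ) = some (rk α) → β < α → ∃ n, G (i, n :: σ) = some (rk β)

/-- The limit of the conditions of a sequence of pairs. -/
noncomputable def limy (y : ℕ → Cond × Nm) : PM := lim (fun n => (y n).1)

theorem Gen.stc {y : ℕ → Cond × Nm} (h : Gen DS y) : Stc (limy y) := by
  have hs := h.1
  have key : ∀ i σ t j t', limy y (i, σ) = some t → kid t j = some t' →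
      ∃ n, limy y (i, n :: σ) = some t' := by
    intro i σ t j t' ht ht'
    obtain ⟨k, hk⟩ := (lim_eq hs).mp ht
    obtain ⟨m, hm, hd⟩ := h.2 (srel (i, σ) j) ⟨((i, σ), j), rfl⟩ [k] (by
      intro p hp
      have hp' : p ≤ (y k).1 := hp k (by simp)
      have hpt : p.f (i, σ) = some t := hp' _ _ hk
      have hok := kid_ok ht' (fun α hα => p.ctb (i, σ) α (by rw [hpt, hα]))
      obtain ⟨q, hq, n, hn⟩ := exists_child p i σ t t' hpt hok.1 hok.2
      refine ⟨(q, Classical.arbitrary Nm), hq, ?_⟩
      intro w hw t₁ ht₁ t₂ ht₂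
      simp only [List.map_cons, List.map_nil, List.cons.injEq, and_true] at hw
      subst hw
      simp only [hk, Option.some.injEq] at ht₁
      subst ht₁
      rw [ht'] at ht₂
      cases ht₂
      exact ⟨n, hn⟩)
    obtain ⟨n, hn⟩ := hd (y k) (by simp) t hk t' ht'
    exact ⟨n, (lim_eq hs).mpr ⟨m, hn⟩⟩
  have hctb : ∀ x α, limy y x = some (rk α) → α < ω₁ := by
    intro x α hx
    obtain ⟨k, hk⟩ := (lim_eq hs).mp hx
    exact (y k).1.ctb _ _ hk
  refine ⟨?_, ?_, hctb, ?_, ?_, ?_⟩
  · intro i
    exact (lim_eq hs).mpr ⟨0, (y 0).1.root i⟩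
  · intro i n σ t ht
    obtain ⟨k, hk⟩ := (lim_eq hs).mp ht
    obtain ⟨s, hs', hok⟩ := (y k).1.rule _ _ _ _ hk
    exact ⟨s, (lim_eq hs).mpr ⟨k, hs'⟩, hok⟩
  · intro i σ c hc
    obtain ⟨n, hn⟩ := key i σ (tp c) 0 (tp 0) hc rfl
    exact ⟨n, 0, hn⟩
  · intro i σ hc
    exact key i σ bt 0 bt hc rfl
  · intro i σ α β hα hβ
    have h0 : 0 < α := lt_of_le_of_lt zero_le hβ
    have hβ' : β ∈ Set.range (enumO α) := by
      rw [← enumO_spec (hctb _ _ hα) h0]; exact hβ
    obtain ⟨j, rfl⟩ := hβ'
    exact key i σ (rk α) j _ hα (by simp only [kid, if_pos h0])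

end Halin
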