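import Pool.Agent.Helper90.HalinB

/-! Auxiliary generic sequences, ranks, matching, truncation and projection. -/

open Ordinal
open scoped Ordinal

namespace Halin
open Tag

/-- Sequences of conditions generic for the Borel sets in `S`. -/
structure AGen (S : Set (Set Str)) (s : ℕ → Cond) : Prop where
  anti : Antitone s
  stc : Stc (lim s)
  dcd : ∀ A ∈ S, Dcd s A

/-- The requirements to decide the Borel sets in `S`. -/
def DD (S : Set (Set Str)) : Set Rel :=
  (fun t : View × List ℕ × Set Str => decRel t.1 (subs t.2.1 (fm t.2.2))) ''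
    (VV ×ˢ (Set.univ ×ˢ S))

theorem DD_countable {S : Set (Set Str)} (h : S.Countable) : (DD S).Countable := by
  apply Set.Countable.image
  exact VV_countable.prod (Set.countable_univ.prod h)

theorem Gen.dcd {S : Set (Set Str)} {y : ℕ → Cond × Nm} (h : Gen (DD S) y) {A : Set Str}
    (hA : A ∈ S) : Dcd (fun n => (y n).1) A := by
  intro g hg j
  obtain ⟨k, -, hk⟩ := h.2 (decRel g (subs j (fm A)))
    ⟨(g, j, A), ⟨hg, Set.mem_univ _, hA⟩, rfl⟩ [] (by
      intro p _
      obtain ⟨q, hq, h1⟩ := decide_dense g (subs j (fm A)) p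
      exact ⟨(q, Classical.arbitrary Nm), hq, h1⟩)
  exact ⟨k, hk⟩

theorem exists_agen {S : Set (Set Str)} (h : S.Countable) (p : Cond) :
    ∃ s, AGen S s ∧ s 0 = p := by
  obtain ⟨y, hy, h0⟩ := exists_gen (DS_countable.union (DD_countable h)) p
  refine ⟨fun n => (y n).1, ⟨hy.1, (hy.mono Set.subset_union_left).stc, fun A hA => ?_⟩, h0⟩
  exact (hy.mono Set.subset_union_right).dcd hA

theorem Frc_of {g : View} (hg : g ∈ VV) {q : Cond} {B : Set Str} (hB : MeasurableSet B)
    {S : Set (Set Str)} (hS : S.Countable)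
    (h : ∀ s, AGen (insert B S) s → s 0 ≤ q → st g (lim s) ∈ B) : Frc g q B := by
  intro q' hq'
  by_contra h0
  push Not at h0
  obtain ⟨s, hs, hs0⟩ := exists_agen (hS.insert B) q'
  have h1 := h s hs (by rw [hs0]; exact hq')
  rw [truthS hs.anti hB (hs.dcd B (Set.mem_insert _ _)) hg] at h1
  obtain ⟨k, hk⟩ := h1
  exact h0 (s k) (by rw [← hs0]; exact hs.anti (Nat.zero_le _)) hk

/-- If a condition does not force `A`, some extension forces the complement. -/
theorem exists_Frc_compl {g : View} (hg : g ∈ VV) {p : Cond} {A : Set Str}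
    (hA : MeasurableSet A) (h : ¬ Frc g p A) : ∃ q ≤ p, Frc g q Aᶜ := by
  simp only [Frc] at h
  push Not at h
  obtain ⟨q, hq, h1⟩ := h
  refine ⟨q, hq, ?_⟩
  refine Frc_of hg hA.compl (S := {A}) (Set.countable_singleton _) ?_
  intro s hs h0 hmem
  rw [truthS hs.anti hA (hs.dcd A (by simp)) hg] at hmem
  obtain ⟨k, hk⟩ := hmem
  exact h1 (s k) ((hs.anti (Nat.zero_le _)).trans h0) hk

theorem not_Frc_both {g : View} (hg : g ∈ VV) {p : Cond} {A : Set Str}
    (hA : MeasurableSet A) (h : Frc g p A) (h' : Frc g p Aᶜ) : False := by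
  obtain ⟨s, hs, hs0⟩ := exists_agen (S := {A, Aᶜ}) (by simp) p
  have h1 := mem_of_Frc hs.anti hA (hs.dcd A (by simp)) hg (k := 0) hs0.le h
  have h2 := mem_of_Frc hs.anti hA.compl (hs.dcd _ (by simp)) hg (k := 0) hs0.le h'
  exact h2 h1

/-! ### Ranks -/

def Rge (T : Node → Prop) (α : Ordinal.{0}) (x : Node) : Prop :=
  ∀ β, ∀ _ : β < α, ∃ n, T (x.1, n :: x.2) ∧ Rge T β (x.1, n :: x.2)
termination_by α
decreasing_by assumption

theorem Rge_iff (T : Node → Prop) (α : Ordinal.{0}) (x : Node) :
    Rge T α x ↔ ∀ β, β < α → ∃ n, T (x.1, n :: x.2) ∧ Rge T β (x.1, n :: x.2) := by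
  rw [Rge]

/-- The rank of the node is exactly `α`. -/
def Rk (T : Node → Prop) (α : Ordinal.{0}) (x : Node) : Prop := Rge T α x ∧ ¬ Rge T (α + 1) x

theorem rge_rk {G : PM} (hG : Stc G) (β : Ordinal.{0}) : ∀ i σ α, G (i, σ) = some (rk α) →
    (Rge (fun x => G x ≠ none) β (i, σ) ↔ β ≤ α) := by
  induction β using WellFoundedLT.induction with
  | ind β ih =>
    intro i σ α hα
    rw [Rge_iff]
    constructor
    · intro h
      by_contra h0
      obtain ⟨n, hn, hr⟩ := h α (not_le.mp h0)
      obtain ⟨t, ht⟩ := Option.ne_none_iff_exists'.mp hn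
      simp only at ht hr
      obtain ⟨s, hs, hok⟩ := hG.rule _ _ _ _ ht
      rw [hα] at hs
      cases hs
      cases t with
      | rk α' =>
        rw [ih α (not_le.mp h0) i (n :: σ) α' ht] at hr
        exact absurd hok (not_lt.mpr hr)
      | bt => exact hok
      | tp c => exact hok
    · intro h γ hγ
      obtain ⟨n, hn⟩ := hG.ord_kid i σ α γ hα (hγ.trans_le h)
      exact ⟨n, by simp [hn], (ih γ hγ i (n :: σ) γ hn).mpr le_rfl⟩

theorem rge_inf {G : PM} (hG : Stc G) (β : Ordinal.{0}) : ∀ i σ,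
    (G (i, σ) = some bt ∨ ∃ c, G (i, σ) = some (tp c)) →
    Rge (fun x => G x ≠ none) β (i, σ) := by
  induction β using WellFoundedLT.induction with
  | ind β ih =>
    intro i σ h
    rw [Rge_iff]
    intro γ hγ
    rcases h with h | ⟨c, h⟩
    · obtain ⟨n, hn⟩ := hG.bot_kid i σ h
      exact ⟨n, by simp [hn], ih γ hγ i (n :: σ) (Or.inl hn)⟩
    · obtain ⟨n, c', hn⟩ := hG.top_kid i σ c h
      exact ⟨n, by simp [hn], ih γ hγ i (n :: σ) (Or.inr ⟨c', hn⟩)⟩

/-- Presence of nodes in a structure. -/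
def TT (M : Str) : Node → Prop := fun x => M x ≠ 0

theorem TT_st (g : View) (G : PM) : TT (st g G) = fun x => G x ≠ none := by
  funext x
  simp only [TT, ne_eq, st_eq_zero]

theorem rk_iff {G : PM} (hG : Stc G) {g : View} {x : Node} (hx : G x ≠ none)
    (α : Ordinal.{0}) : G x = some (rk α) ↔ Rk (TT (st g G)) α x := by
  obtain ⟨i, σ⟩ := x
  rw [TT_st]
  obtain ⟨t, ht⟩ := Option.ne_none_iff_exists'.mp hx
  cases t with
  | rk α' =>
    rw [Rk, rge_rk hG _ i σ α' ht, rge_rk hG _ i σ α' ht, ht]
    simp only [Option.some.injEq, Tag.rk.injEq, not_le]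
    rw [← Order.succ_eq_add_one, Order.lt_succ_iff]
    constructor
    · rintro rfl; exact ⟨le_rfl, le_rfl⟩
    · rintro ⟨h1, h2⟩; exact le_antisymm h2 h1
  | bt =>
    rw [ht]
    simp only [Rk, reduceCtorEq, Option.some.injEq, false_iff, not_and, not_not]
    intro _
    exact rge_inf hG _ i σ (Or.inl ht)
  | tp c =>
    rw [ht]
    simp only [Rk, reduceCtorEq, Option.some.injEq, false_iff, not_and, not_not]
    intro _
    exact rge_inf hG _ i σ (Or.inr ⟨c, ht⟩)

theorem measurable_TT (x : Node) : MeasurableSet {M : Str | TT M x} := by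
  have : {M : Str | TT M x} = {M : Str | M x = 0}ᶜ := by
    ext M; simp [TT]
  rw [this]
  exact (measurableSet_eq_fun (measurable_pi_apply x) measurable_const).compl

theorem measurable_Rge (α : Ordinal.{0}) : α < ω₁ → ∀ x, MeasurableSet {M : Str | Rge (TT M) α x} := by
  induction α using WellFoundedLT.induction with
  | ind α ih =>
    intro hα x
    have : {M : Str | Rge (TT M) α x} = ⋂ β ∈ Set.Iio α, ⋃ n : ℕ,
        ({M : Str | TT M (x.1, n :: x.2)} ∩ {M : Str | Rge (TT M) β (x.1, n :: x.2)}) := by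
      ext M
      simp only [Set.mem_iInter, Set.mem_iUnion, Set.mem_inter_iff, Set.mem_Iio,
        Set.mem_ofPred_eq]
      rw [Rge_iff]
    rw [this]
    refine MeasurableSet.biInter (countable_Iio_of_lt hα) ?_
    intro β hβ
    refine MeasurableSet.iUnion fun n => ?_
    exact (measurable_TT _).inter (ih β hβ (lt_trans hβ hα) _)

theorem measurable_Rk {α : Ordinal.{0}} (hα : α < ω₁) (x : Node) :
    MeasurableSet {M : Str | Rk (TT M) α x} := by
  have : {M : Str | Rk (TT M) α x} =
      {M : Str | Rge (TT M) α x} ∩ {M : Str | Rge (TT M) (α + 1) x}ᶜ := by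
    ext M; simp [Rk]
  rw [this]
  refine (measurable_Rge α hα x).inter (measurable_Rge _ ?_ x).compl
  exact add_lt_omega_one hα (lt_of_lt_of_le one_lt_omega0 omega0_lt_omega_one.le)

/-! ### Matching a condition -/

def Mt (g : View) (θ : Ordinal.{0}) (w : Cond) (M : Str) : Prop :=
  ∀ x, w.f x ≠ none → (M x = st g w.f x ∧
    ∀ α, α < θ → (w.f x = some (rk α) ↔ Rk (TT M) α x))

theorem measurable_Mt (g : View) {θ : Ordinal.{0}} (hθ : θ < ω₁) (w : Cond) :
    MeasurableSet {M : Str | Mt g θ w M} := by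
  classical
  have : {M : Str | Mt g θ w M} = ⋂ x ∈ {x : Node | w.f x ≠ none},
      ({M : Str | M x = st g w.f x} ∩ ⋂ α ∈ Set.Iio θ,
        {M : Str | w.f x = some (rk α) ↔ Rk (TT M) α x}) := by
    ext M
    simp only [Set.mem_iInter, Set.mem_inter_iff, Set.mem_Iio,
        Set.mem_ofPred_eq]
    rfl
  rw [this]
  refine MeasurableSet.biInter (Set.to_countable _) fun x _ => ?_
  refine MeasurableSet.inter ?_ ?_
  · exact measurableSet_eq_fun (measurable_pi_apply x) measurable_const
  · refine MeasurableSet.biInter (countable_Iio_of_lt hθ) fun α hα => ?_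
    have hm := measurable_Rk (lt_trans hα hθ) x
    by_cases h : w.f x = some (rk α)
    · have : {M : Str | w.f x = some (rk α) ↔ Rk (TT M) α x} = {M : Str | Rk (TT M) α x} := by
        ext M; simp [h]
      rw [this]; exact hm
    · have : {M : Str | w.f x = some (rk α) ↔ Rk (TT M) α x} = {M : Str | Rk (TT M) α x}ᶜ := by
        ext M; simp [h]
      rw [this]; exact hm.compl

open Classical in
/-- Restriction of a condition to the domain of another one. -/
noncomputable def restr (p w : Cond) : Cond where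
  f x := if w.f x ≠ none then p.f x else none
  root i := by rw [if_pos (by rw [w.root]; simp), p.root]
  fin := by
    refine p.fin.subset ?_
    rintro x ⟨h1, h2⟩
    refine ⟨fun h0 => h1 ?_, h2⟩
    rw [h0]; simp
  rule := by
    intro i n σ t ht
    by_cases h : w.f (i, n :: σ) ≠ none
    · rw [if_pos h] at ht
      obtain ⟨s, hs, hok⟩ := p.rule _ _ _ _ ht
      obtain ⟨t', ht'⟩ := Option.ne_none_iff_exists'.mp h
      obtain ⟨s', hs', -⟩ := w.rule _ _ _ _ ht'
      exact ⟨s, by rw [if_pos (by rw [hs']; simp), hs], hok⟩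
    · rw [if_neg h] at ht
      cases ht
  ctb := by
    intro x α hα
    by_cases h : w.f x ≠ none
    · rw [if_pos h] at hα
      exact p.ctb _ _ hα
    · rw [if_neg h] at hα
      cases hα

theorem restr_apply {p w : Cond} {x : Node} (h : w.f x ≠ none) : (restr p w).f x = p.f x :=
  if_pos h

theorem restr_none {p w : Cond} {x : Node} (h : w.f x = none) : (restr p w).f x = none :=
  if_neg (by simp [h])

theorem le_restr (p w : Cond) : p ≤ restr p w := by
  intro x t hx
  by_cases h : w.f x ≠ none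
  · rwa [restr_apply h] at hx
  · rw [restr_none (by simpa using h)] at hx
    cases hx

theorem Mt_sim {s : ℕ → Cond} (hs : Antitone s) (hG : Stc (lim s)) {g : View} {θ : Ordinal.{0}}
    {w : Cond} (h : Mt g θ w (st g (lim s))) : ∃ k, Sim θ g w (restr (s k) w) := by
  classical
  have h1 : ∀ x, w.f x ≠ none → ∃ k, (s k).f x ≠ none := by
    intro x hx
    have h2 := (h x hx).1
    have h3 : lim s x ≠ none := by
      intro h0
      rw [st_eq_zero.mpr h0] at h2
      exact hx (st_eq_zero.mp h2.symm)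
    by_contra h4
    push Not at h4
    exact h3 ((lim_eq_none hs).mpr h4)
  have h2 : ∀ x, ∃ k, w.f x ≠ none → (s k).f x ≠ none := by
    intro x
    by_cases hx : w.f x ≠ none
    · obtain ⟨k, hk⟩ := h1 x hx
      exact ⟨k, fun _ => hk⟩
    · exact ⟨0, fun h0 => absurd h0 hx⟩
  choose K hK using h2
  obtain ⟨M, hM⟩ := (w.fin.image K).bddAbove
  have hdom : ∀ x, w.f x ≠ none → (s M).f x ≠ none := by
    intro x hx
    by_cases h0 : x.2 = []
    · obtain ⟨i, σ⟩ := x
      simp only at h0
      subst h0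
      rw [(s M).root]; simp
    · have h3 : K x ≤ M := hM (Set.mem_image_of_mem _
        (show x ∈ {x : Node | w.f x ≠ none ∧ x.2 ≠ []} from ⟨hx, h0⟩))
      obtain ⟨t, ht⟩ := Option.ne_none_iff_exists'.mp (hK x hx)
      rw [hs h3 _ _ ht]; simp
  refine ⟨M, ?_, ?_⟩
  · funext x
    by_cases hx : w.f x = none
    · rw [st_eq_zero.mpr hx, st_eq_zero.mpr (restr_none hx)]
    · rw [← (h x hx).1, st_lim hs (hdom x hx), st_ext (le_restr _ _) (by
        rw [restr_apply hx]; exact hdom x hx)]
  · intro x α hα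
    by_cases hx : w.f x = none
    · rw [hx, restr_none hx]
    · obtain ⟨t, ht⟩ := Option.ne_none_iff_exists'.mp (hdom x hx)
      have h4 : lim s x = some t := (lim_eq hs).mpr ⟨M, ht⟩
      rw [(h x hx).2 α hα, restr_apply hx, ht, ← rk_iff hG (by rw [h4]; simp), h4]

theorem sim_Mt {s : ℕ → Cond} (hs : Antitone s) (hG : Stc (lim s)) {g : View} {θ : Ordinal.{0}}
    {w r : Cond} {k : ℕ} (hr : s k ≤ r) (h : Sim θ g w r) : Mt g θ w (st g (lim s)) := by
  intro x hx
  have hx' : r.f x ≠ none := fun h0 => hx ((h.dom x).mpr h0)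
  obtain ⟨t, ht⟩ := Option.ne_none_iff_exists'.mp hx'
  have h4 : lim s x = some t := (lim_eq hs).mpr ⟨k, hr _ _ ht⟩
  refine ⟨?_, fun α hα => ?_⟩
  · rw [h.1]
    exact st_ext (fun y u hy => ext_lim hs k _ _ (hr _ _ hy)) hx'
  · rw [h.2 x α hα, ht, ← rk_iff hG (by rw [h4]; simp), h4]

/-! ### Truncation -/

/-- All ordinal tags are below `γ`. -/
def Bd (γ : Ordinal.{0}) (p : Cond) : Prop := ∀ x α, p.f x = some (rk α) → α < γ

theorem Bd.mono {γ γ' p} (h : Bd γ p) (h' : γ ≤ γ') : Bd γ' p :=
  fun x α hx => (h x α hx).trans_le h'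

open Classical in
noncomputable def tcTag (γ : Ordinal.{0}) : Tag → Tag
  | rk α => if α < γ then rk α else bt
  | bt => bt
  | tp c => tp c

theorem tcTag_ok {γ : Ordinal.{0}} {s t : Tag} (h : ok s t) : ok (tcTag γ s) (tcTag γ t) := by
  cases s with
  | rk α =>
    cases t with
    | rk β =>
      simp only [ok_ord_ord] at h
      simp only [tcTag]
      by_cases h1 : α < γ
      · rw [if_pos h1, if_pos (h.trans h1)]; exact h
      · rw [if_neg h1]
        split <;> simp
    | bt => exact h.elim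
    | tp c => exact h.elim
  | bt =>
    cases t with
    | rk β =>
      simp only [tcTag]
      split <;> simp
    | bt => simp [tcTag]
    | tp c => exact h.elim
  | tp c => simp [tcTag]

noncomputable def trunc (γ : Ordinal.{0}) (p : Cond) : Cond where
  f x := (p.f x).map (tcTag γ)
  root i := by rw [p.root]; rfl
  fin := by
    refine p.fin.subset ?_
    rintro x ⟨h1, h2⟩
    exact ⟨fun h0 => h1 (by rw [h0]; rfl), h2⟩
  rule := by
    intro i n σ t ht
    obtain ⟨t₀, ht₀, rfl⟩ := Option.map_eq_some_iff.mp ht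
    obtain ⟨s, hs, hok⟩ := p.rule _ _ _ _ ht₀
    exact ⟨_, by rw [hs]; rfl, tcTag_ok hok⟩
  ctb := by
    intro x α hα
    obtain ⟨t₀, ht₀, h1⟩ := Option.map_eq_some_iff.mp hα
    cases t₀ with
    | rk β =>
      simp only [tcTag] at h1
      split at h1
      · cases h1; exact p.ctb _ _ ht₀
      · cases h1
    | bt => cases h1
    | tp c => cases h1

theorem trunc_apply (γ : Ordinal.{0}) (p : Cond) (x : Node) :
    (trunc γ p).f x = (p.f x).map (tcTag γ) := rfl

theorem trunc_ord {γ : Ordinal.{0}} {p : Cond} {x : Node} {α : Ordinal.{0}} :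
    (trunc γ p).f x = some (rk α) ↔ p.f x = some (rk α) ∧ α < γ := by
  rw [trunc_apply, Option.map_eq_some_iff]
  constructor
  · rintro ⟨t, ht, h1⟩
    cases t with
    | rk β =>
      simp only [tcTag] at h1
      split at h1
      · cases h1; exact ⟨ht, by assumption⟩
      · cases h1
    | bt => cases h1
    | tp c => cases h1
  · rintro ⟨h1, h2⟩
    exact ⟨_, h1, by simp only [tcTag, if_pos h2]⟩

theorem trunc_bd (γ : Ordinal.{0}) (p : Cond) : Bd γ (trunc γ p) :=
  fun _ _ h => (trunc_ord.mp h).2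

theorem trunc_le {γ : Ordinal.{0}} {p q : Cond} (h : q ≤ p) (hp : Bd γ p) : trunc γ q ≤ p := by
  intro x t ht
  rw [trunc_apply, h _ _ ht, Option.map_some]
  cases t with
  | rk α => simp only [tcTag, if_pos (hp x α ht)]
  | bt => rfl
  | tp c => rfl

theorem trunc_sim (γ : Ordinal.{0}) (g : View) (p : Cond) : Sim γ g p (trunc γ p) := by
  refine ⟨?_, ?_⟩
  · funext x
    obtain ⟨i, σ⟩ := x
    induction σ with
    | nil => simp only [st, lab, p.root, (trunc γ p).root]
    | cons n σ ih =>
      simp only [st] at ih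
      simp only [st, lab, trunc_apply, ih]
      cases p.f (i, n :: σ) with
      | none => rfl
      | some t =>
        cases t with
        | rk α =>
          simp only [Option.map_some, tcTag]
          by_cases hα : α < γ <;> simp only [hα, if_true, if_false]
        | bt => rfl
        | tp c => rfl
  · intro x α hα
    rw [trunc_ord]
    simp [hα]

theorem countable_bd {γ : Ordinal.{0}} (hγ : γ < ω₁) : {p : Cond | Bd γ p}.Countable := by
  classical
  let TG : Set Tag := (Tag.rk '' Set.Iio γ) ∪ ({bt} ∪ Set.range tp)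
  have hTG : TG.Countable :=
    ((countable_Iio_of_lt hγ).image _).union ((Set.countable_singleton _).union
      (Set.countable_range _))
  let NT : Set (Node × Tag) := Set.univ ×ˢ TG
  have hNT : NT.Countable := (Set.to_countable _).prod hTG
  have hfin := Set.countable_ofPred_finite_subset hNT
  let F : Cond → Set (Node × Tag) := fun p => {z | p.f z.1 = some z.2 ∧ z.1.2 ≠ []}
  refine Set.MapsTo.countable_of_injOn (f := F) ?_ ?_ hfin
  · intro p hp
    refine ⟨?_, ?_⟩
    · have : F p ⊆ (fun x : Node => (x, (p.f x).getD bt)) '' {x : Node | p.f x ≠ none ∧ x.2 ≠ []} := by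
        rintro ⟨x, t⟩ ⟨h1, h2⟩
        simp only at h1 h2
        exact ⟨x, ⟨by rw [h1]; simp, h2⟩, by
          show (x, (p.f x).getD bt) = (x, t)
          rw [h1]; rfl⟩
      exact (p.fin.image _).subset this
    · rintro ⟨x, t⟩ ⟨h1, h2⟩
      simp only at h1 h2
      refine ⟨Set.mem_univ _, ?_⟩
      cases t with
      | rk α => exact Or.inl ⟨α, hp x α h1, rfl⟩
      | bt => exact Or.inr (Or.inl rfl)
      | tp c => exact Or.inr (Or.inr ⟨c, rfl⟩)
  · intro p _ q _ hpq
    apply Cond.ext'
    funext x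
    by_cases h0 : x.2 = []
    · obtain ⟨i, σ⟩ := x
      simp only at h0
      subst h0
      rw [p.root, q.root]
    · have key : ∀ t, p.f x = some t ↔ q.f x = some t := by
        intro t
        have : (x, t) ∈ F p ↔ (x, t) ∈ F q := by rw [hpq]
        simpa [F, h0] using this
      cases hp : p.f x with
      | none =>
        cases hq : q.f x with
        | none => rfl
        | some t => rw [(key t).mpr hq] at hp; cases hp
      | some t => rw [(key t).mp hp]

/-! ### Bounds for tags -/

theorem exists_bd (p : Cond) : ∃ γ < ω₁, Bd γ p := by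
  classical
  let b : {x : Node // p.f x ≠ none ∧ x.2 ≠ []} → Ordinal.{0} := fun x =>
    match p.f x.1 with
    | some (rk α) => α + 1
    | _ => 0
  have hb : ∀ x, b x < ω₁ := by
    intro x
    simp only [b]
    split
    · rename_i α hα
      exact add_lt_omega_one (p.ctb _ _ hα)
        (lt_of_lt_of_le one_lt_omega0 omega0_lt_omega_one.le)
    · exact omega_pos 1
  refine ⟨⨆ x, b x, Ordinal.iSup_lt_omega_one hb, ?_⟩
  intro x α hα
  have hx0 : x.2 ≠ [] := by
    intro h0
    obtain ⟨i, σ⟩ := x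
    simp only at h0
    subst h0
    rw [p.root] at hα
    cases hα
  have h1 : b ⟨x, by rw [hα]; simp, hx0⟩ = α + 1 := by
    simp only [b, hα]
  have h2 := Ordinal.le_iSup b ⟨x, by rw [hα]; simp, hx0⟩
  rw [h1] at h2
  exact (Order.lt_add_one_iff.mpr le_rfl).trans_le h2

end Halin
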