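import Mathlib

/-! A small toolkit for Borel predicates and countably valued Borel functions. -/

namespace Halin

/-- Least witness (`0` if there is none). -/
noncomputable def lst (P : ℕ → Prop) : ℕ := sInf {n | P n}

theorem lst_spec {P : ℕ → Prop} (h : ∃ n, P n) : P (lst P) := Nat.sInf_mem (s := {n | P n}) h

theorem lst_le {P : ℕ → Prop} {m : ℕ} (h : P m) : lst P ≤ m := Nat.sInf_le (s := {n | P n}) h

theorem lst_zero {P : ℕ → Prop} (h : ¬ ∃ n, P n) : lst P = 0 := by
  rw [lst, Nat.sInf_eq_zero]
  right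
  ext n
  simp only [Set.mem_ofPred_eq, Set.mem_empty_iff_false, iff_false]
  exact fun h0 => h ⟨n, h0⟩

section
variable {α : Type*} [MeasurableSpace α]

/-- Borel predicates. -/
def BP (P : α → Prop) : Prop := MeasurableSet {a | P a}

/-- Borel functions with values in a discrete space. -/
def CM {σ : Type*} (f : α → σ) : Prop := ∀ s, BP (fun a => f a = s)

theorem BP.congr {P Q : α → Prop} (h : BP P) (h' : ∀ a, P a ↔ Q a) : BP Q := by
  have : Q = P := by funext a; exact (propext (h' a)).symm
  rwa [this]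

theorem BP.const (P : Prop) : BP (fun _ : α => P) := by
  by_cases h : P
  · simp [BP, h]
  · simp [BP, h]

theorem BP.not {P : α → Prop} (h : BP P) : BP (fun a => ¬ P a) := MeasurableSet.compl h

theorem BP.and {P Q : α → Prop} (h : BP P) (h' : BP Q) : BP (fun a => P a ∧ Q a) :=
  MeasurableSet.inter h h'

theorem BP.or {P Q : α → Prop} (h : BP P) (h' : BP Q) : BP (fun a => P a ∨ Q a) :=
  MeasurableSet.union h h'

theorem BP.imp {P Q : α → Prop} (h : BP P) (h' : BP Q) : BP (fun a => P a → Q a) :=
  (h.not.or h').congr fun a => by tauto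

theorem BP.iff {P Q : α → Prop} (h : BP P) (h' : BP Q) : BP (fun a => P a ↔ Q a) :=
  ((h.imp h').and (h'.imp h)).congr fun a => by tauto

theorem BP.all {ι : Sort*} [Countable ι] {P : ι → α → Prop} (h : ∀ i, BP (P i)) :
    BP (fun a => ∀ i, P i a) := by
  have : {a | ∀ i, P i a} = ⋂ i, {a | P i a} := by ext a; simp
  rw [BP, this]
  exact MeasurableSet.iInter h

theorem BP.ex {ι : Sort*} [Countable ι] {P : ι → α → Prop} (h : ∀ i, BP (P i)) :
    BP (fun a => ∃ i, P i a) := by
  have : {a | ∃ i, P i a} = ⋃ i, {a | P i a} := by ext a; simp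
  rw [BP, this]
  exact MeasurableSet.iUnion h

theorem BP.comp {β : Type*} [MeasurableSpace β] {P : β → Prop} (h : BP P) {f : α → β}
    (hf : Measurable f) : BP (fun a => P (f a)) := hf h

variable {σ τ : Type*}

theorem BP.bind [Countable σ] {f : α → σ} (hf : CM f) {P : σ → α → Prop}
    (h : ∀ s, BP (P s)) : BP (fun a => P (f a) a) :=
  (BP.ex fun s => (hf s).and (h s)).congr fun a => by
    constructor
    · rintro ⟨s, rfl, h⟩; exact h
    · intro h; exact ⟨_, rfl, h⟩

theorem CM.bind [Countable σ] {f : α → σ} (hf : CM f) {g : σ → α → τ}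
    (h : ∀ s, CM (g s)) : CM (fun a => g (f a) a) :=
  fun t => BP.bind hf (fun s => h s t)

theorem CM.const (s : σ) : CM (fun _ : α => s) := fun _ => BP.const _

theorem CM.map [Countable σ] {f : α → σ} (hf : CM f) (g : σ → τ) : CM (fun a => g (f a)) :=
  CM.bind hf (fun s => CM.const (g s))

theorem CM.map₂ [Countable σ] [Countable τ] {f : α → σ} (hf : CM f) {f' : α → τ} (hf' : CM f')
    {υ : Type*} (g : σ → τ → υ) : CM (fun a => g (f a) (f' a)) :=
  CM.bind hf (fun s => CM.bind hf' (fun t => CM.const (g s t)))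

theorem CM.pred [Countable σ] {f : α → σ} (hf : CM f) (P : σ → Prop) : BP (fun a => P (f a)) :=
  BP.bind hf (fun _ => BP.const _)

theorem CM.ite {P : α → Prop} [DecidablePred P] (h : BP P) {f g : α → σ} (hf : CM f)
    (hg : CM g) :
    CM (fun a => if P a then f a else g a) := by
  intro s
  refine ((h.and (hf s)).or (h.not.and (hg s))).congr fun a => ?_
  by_cases hp : P a <;> simp [hp]

theorem cm_iff_measurable {f : α → ℕ} : CM f ↔ Measurable f := by
  constructor
  · intro h
    exact measurable_to_countable' (fun n => h n)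
  · intro h n
    exact measurableSet_eq_fun h measurable_const

theorem measurable_fun_iff {f : α → ℕ → ℕ} : Measurable f ↔ ∀ n, CM (fun a => f a n) := by
  rw [measurable_pi_iff]
  exact forall_congr' fun n => cm_iff_measurable.symm

theorem CM.app {f : α → ℕ → ℕ} (h : Measurable f) (n : ℕ) : CM (fun a => f a n) :=
  measurable_fun_iff.mp h n

theorem CM.app' {f : α → ℕ → ℕ} (h : Measurable f) {g : α → ℕ} (hg : CM g) :
    CM (fun a => f a (g a)) :=
  CM.bind hg (g := fun n a => f a n) (fun n => CM.app h n)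

theorem CM.comp {β : Type*} [MeasurableSpace β] {f : β → σ} (h : CM f) {g : α → β}
    (hg : Measurable g) : CM (fun a => f (g a)) := fun s => BP.comp (h s) hg

theorem CM.lst {P : ℕ → α → Prop} (h : ∀ n, BP (P n)) :
    CM (fun a => lst (fun n => P n a)) := by
  intro s
  have hex : BP (fun a => ∃ n, P n a) := BP.ex h
  have h1 : BP (fun a => P s a ∧ ∀ m, m < s → ¬ P m a) :=
    (h s).and (BP.all fun m => (BP.const (m < s)).imp (h m).not)
  refine ((hex.and h1).or (hex.not.and (BP.const (s = 0)))).congr fun a => ?_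
  by_cases he : ∃ n, P n a
  · simp only [he, true_and, not_true_eq_false, false_and, or_false]
    constructor
    · rintro ⟨h2, h3⟩
      refine le_antisymm (lst_le h2) ?_
      by_contra h4
      exact h3 _ (not_le.mp h4) (lst_spec he)
    · intro h2
      subst h2
      exact ⟨lst_spec he, fun m hm h5 => absurd hm (not_lt.mpr (lst_le h5))⟩
  · simp only [he, false_and, not_false_eq_true, true_and, false_or]
    rw [lst_zero he]
    exact eq_comm

open Classical in
/-- Borel uniformization over a countable set. -/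
theorem exists_CM_choice [Encodable σ] [Nonempty σ] {P : σ → α → Prop} (h : ∀ s, BP (P s)) :
    ∃ f : α → σ, CM f ∧ ∀ a, (∃ s, P s a) → P (f a) a := by
  classical
  let Q : ℕ → α → Prop := fun n a => ∃ s : σ, Encodable.decode n = some s ∧ P s a
  have hQ : ∀ n, BP (Q n) := fun n => BP.ex fun s => (BP.const _).and (h s)
  let k : α → ℕ := fun a => lst (fun n => Q n a)
  have hk : CM k := CM.lst hQ
  let s₀ : σ := Classical.arbitrary σ
  refine ⟨fun a => (Encodable.decode (k a)).getD s₀,
    hk.map (fun n => (Encodable.decode n).getD s₀), ?_⟩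
  rintro a ⟨s, hs⟩
  have he : ∃ n, Q n a := ⟨Encodable.encode s, s, Encodable.encodek s, hs⟩
  have h1 : Q (k a) a := lst_spec he
  obtain ⟨s', h2, h3⟩ := h1
  simp only [h2, Option.getD_some]
  exact h3

/-- Borel dependent choice over a countable set of states. -/
theorem borel_dc [Encodable σ] [Nonempty σ] {Q : α → σ → Prop} {R : ℕ → α → σ → σ → Prop}
    (hQ : ∀ s, BP (fun a => Q a s)) (hR : ∀ n s t, BP (fun a => R n a s t)) :
    ∃ Φ : ℕ → α → σ, (∀ n, CM (Φ n)) ∧ ∀ a, (∃ s, Q a s) →
      (∀ n s, Q a s → ∃ t, Q a t ∧ R n a s t) →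
      (∀ n, Q a (Φ n a)) ∧ ∀ n, R n a (Φ n a) (Φ (n + 1) a) := by
  obtain ⟨f0, hf0, hf0'⟩ := exists_CM_choice (P := fun s a => Q a s) hQ
  have h1 : ∀ n s, ∃ f : α → σ, CM f ∧ ∀ a, (∃ t, Q a t ∧ R n a s t) → Q a (f a) ∧ R n a s (f a) :=
    fun n s => exists_CM_choice (P := fun t a => Q a t ∧ R n a s t)
      (fun t => (hQ t).and (hR n s t))
  choose F hF hF' using h1
  let Φ : ℕ → α → σ := fun n => Nat.rec f0 (fun k g a => F k (g a) a) n
  have hΦS : ∀ n a, Φ (n + 1) a = F n (Φ n a) a := fun n a => rfl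
  have hcm : ∀ n, CM (Φ n) := by
    intro n
    induction n with
    | zero => exact hf0
    | succ k ih => exact CM.bind ih (g := fun s a => F k s a) (fun s => hF k s)
  refine ⟨Φ, hcm, ?_⟩
  intro a h0 hstep
  have hgood : ∀ n, Q a (Φ n a) := by
    intro n
    induction n with
    | zero => exact hf0' a h0
    | succ k ih =>
      rw [hΦS]
      exact (hF' k _ a (hstep k _ ih)).1
  refine ⟨hgood, fun n => ?_⟩
  rw [hΦS]
  exact (hF' n _ a (hstep n _ (hgood n))).2

end

/-! ### Coding -/

/-- The `k`-th row of a coded sequence. -/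
def row (X : ℕ → ℕ) (k : ℕ) : ℕ → ℕ := fun n => X (Nat.pair k n)

/-- Coding a sequence. -/
def mk (g : ℕ → ℕ → ℕ) : ℕ → ℕ := fun n => g (Nat.unpair n).1 (Nat.unpair n).2

@[simp] theorem row_mk (g : ℕ → ℕ → ℕ) (k : ℕ) : row (mk g) k = g k := by
  funext n; simp [row, mk]

/-- Coding a pair. -/
def join (X Y : ℕ → ℕ) : ℕ → ℕ := mk (fun k => if k = 0 then X else Y)

@[simp] theorem row_join_zero (X Y : ℕ → ℕ) : row (join X Y) 0 = X := by simp [join]
@[simp] theorem row_join_one (X Y : ℕ → ℕ) : row (join X Y) 1 = Y := by simp [join]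

theorem measurable_row (k : ℕ) : Measurable (fun X : ℕ → ℕ => row X k) :=
  measurable_fun_iff.mpr fun _ => CM.app measurable_id _

theorem measurable_mk {α : Type*} [MeasurableSpace α] {f : α → ℕ → ℕ → ℕ}
    (h : ∀ k, Measurable (fun a => f a k)) : Measurable (fun a => mk (f a)) :=
  measurable_fun_iff.mpr fun _ => CM.app (h _) _

theorem measurable_join {α : Type*} [MeasurableSpace α] {f g : α → ℕ → ℕ}
    (h : Measurable f) (h' : Measurable g) : Measurable (fun a => join (f a) (g a)) := by
  refine measurable_mk fun k => ?_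
  by_cases hk : k = 0
  · simp only [hk, if_true]; exact h
  · simp only [hk, if_false]; exact h'

end Halin
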