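import Pool.Agent.Helper90.HalinC
import Pool.Agent.Helper90.HalinM

/-! No paths outside the support, and the bounding theorem. -/

open Ordinal
open scoped Ordinal

namespace Halin
open Tag

/-- The finite initial segments of a sequence, newest entry first. -/
def pre (X : ℕ → ℕ) : ℕ → List ℕ
  | 0 => []
  | n + 1 => X n :: pre X n

theorem CM_pre {α : Type*} [MeasurableSpace α] {f : α → ℕ → ℕ} (h : Measurable f) (n : ℕ) :
    CM (fun a => pre (f a) n) := by
  induction n with
  | zero => exact CM.const _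
  | succ n ih => exact CM.map₂ (CM.app h n) ih (fun a l => a :: l)

/-- The name gives a path of the `i`-th tree. -/
def Pth (i : ℕ) (Ψ : Nm) : Set Str := {M | ∀ n, M (i, pre (Ψ.1 M) n) ≠ 0}

theorem measurable_Pth (i : ℕ) (Ψ : Nm) : MeasurableSet (Pth i Ψ) := by
  show BP (fun M : Str => ∀ n, M (i, pre (Ψ.1 M) n) ≠ 0)
  refine BP.all fun n => ?_
  refine BP.bind (CM_pre Ψ.2 n) (P := fun l M => M (i, l) ≠ 0) fun l => ?_
  refine BP.not (P := fun M : Str => M (i, l) = 0) ?_
  exact measurableSet_eq_fun (measurable_pi_apply _) measurable_const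

theorem st_vF {f : PM} (hr : ∀ i n σ t, f (i, n :: σ) = some t → ∃ s, f (i, σ) = some s ∧ ok s t)
    (F : Finset ℕ) (i : ℕ) (σ : List ℕ) : st (vF F) f (i, σ) =
      match f (i, σ) with
      | none => 0
      | some (.tp c) => if i ∈ F then c + 2 else 1
      | some (.rk _) => 1
      | some .bt => 1 := by
  induction σ with
  | nil =>
    cases h : f (i, []) with
    | none => simp only [st, lab, h]
    | some t =>
      cases t with
      | rk α => simp only [st, lab, h]
      | bt => simp only [st, lab, h]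
      | tp c =>
        simp only [st, lab, h, vF_apply]
        by_cases hi : i ∈ F
        · simp [hi]
        · simp [hi]
  | cons n σ ih =>
    cases h : f (i, n :: σ) with
    | none => simp only [st, lab, h]
    | some t =>
      cases t with
      | rk α => simp only [st, lab, h]
      | bt => simp only [st, lab, h]
      | tp c =>
        obtain ⟨s, hs, hok⟩ := hr _ _ _ _ h
        obtain ⟨c', rfl⟩ : ∃ c', s = tp c' := by
          cases s with
          | rk α => exact hok.elim
          | bt => exact hok.elim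
          | tp c' => exact ⟨c', rfl⟩
        simp only [st, hs] at ih
        simp only [st, lab, h, ih, vF_apply]
        by_cases hi : i ∈ F
        · simp [hi]
        · simp [hi]

open Classical in
noncomputable def ftag (θ : Ordinal.{0}) (m : ℕ) : Tag → Tag
  | rk α => if α < θ then rk α else rk (θ + m)
  | bt => rk (θ + m)
  | tp _ => rk (θ + m)

theorem ftag_ok {θ : Ordinal.{0}} {m : ℕ} {s t : Tag} (h : ok s t) :
    ok (ftag θ (m + 1) s) (ftag θ m t) := by
  have e : θ + (m : Ordinal.{0}) < θ + ((m + 1 : ℕ) : Ordinal.{0}) :=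
    (add_lt_add_iff_left θ).mpr (by exact_mod_cast Nat.lt_succ_self m)
  have e2 : θ ≤ θ + ((m + 1 : ℕ) : Ordinal.{0}) := by simp
  cases s with
  | rk α =>
    cases t with
    | rk β =>
      simp only [ok_ord_ord] at h
      simp only [ftag]
      by_cases h1 : α < θ
      · rw [if_pos h1, if_pos (h.trans h1)]; exact h
      · rw [if_neg h1]
        by_cases h2 : β < θ
        · rw [if_pos h2]; exact h2.trans_le e2
        · rw [if_neg h2]; exact e
    | bt => exact h.elim
    | tp c => exact h.elim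
  | bt =>
    cases t with
    | rk β =>
      simp only [ftag]
      by_cases h2 : β < θ
      · rw [if_pos h2]; exact h2.trans_le e2
      · rw [if_neg h2]; exact e
    | bt => exact e
    | tp c => exact h.elim
  | tp c' =>
    cases t with
    | rk β =>
      simp only [ftag]
      by_cases h2 : β < θ
      · rw [if_pos h2]; exact h2.trans_le e2
      · rw [if_neg h2]; exact e
    | bt => exact e
    | tp c => exact e

theorem ftag_lt {θ : Ordinal.{0}} (hθ : θ < ω₁) {m : ℕ} {t : Tag} (h : ∀ α, t = rk α → α < ω₁) :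
    ∀ α, ftag θ m t = rk α → α < ω₁ := by
  have e : θ + (m : Ordinal.{0}) < ω₁ := (add_nat_lt m).trans (add_omega_lt hθ)
  intro α hα
  cases t with
  | rk β =>
    simp only [ftag] at hα
    split at hα
    · cases hα; exact h _ rfl
    · cases hα; exact e
  | bt => cases hα; exact e
  | tp c => cases hα; exact e

theorem ftag_ord {θ : Ordinal.{0}} {m : ℕ} {t : Tag} {α : Ordinal.{0}} (hα : α < θ) :
    ftag θ m t = rk α ↔ t = rk α := by
  have hne : rk (θ + (m : Ordinal.{0})) ≠ rk α := by
    intro h0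
    have h1 : θ + (m : Ordinal.{0}) = α := by cases h0; rfl
    have : θ ≤ α := by rw [← h1]; simp
    exact absurd hα (not_lt.mpr this)
  cases t with
  | rk β =>
    simp only [ftag]
    split
    · rfl
    · rename_i h0
      constructor
      · intro h1; exact absurd h1 hne
      · intro h1; cases h1; exact absurd hα h0
  | bt => simp only [ftag, reduceCtorEq, iff_false]; exact hne
  | tp c => simp only [ftag, reduceCtorEq, iff_false]; exact hne

theorem ftag_isrk (θ : Ordinal.{0}) (m : ℕ) (t : Tag) : ∃ α, ftag θ m t = rk α := by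
  cases t with
  | rk β =>
    simp only [ftag]
    split <;> exact ⟨_, rfl⟩
  | bt => exact ⟨_, rfl⟩
  | tp c => exact ⟨_, rfl⟩

open Classical in
/-- In one tree all tags can be replaced by ordinals. -/
theorem exists_star (p : Cond) {θ : Ordinal.{0}} (hθ : θ < ω₁) (i : ℕ) :
    ∃ p' : Cond, (∀ F : Finset ℕ, i ∉ F → Sim θ (vF F) p p') ∧
      (∀ n σ t, p'.f (i, n :: σ) = some t → ∃ α, t = rk α) := by
  obtain ⟨N, hN⟩ := exists_bound_len p
  let f' : PM := fun x => if x.1 = i ∧ x.2 ≠ [] then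
    (p.f x).map (ftag θ (N - x.2.length)) else p.f x
  have fin1 : ∀ n σ, f' (i, n :: σ) = (p.f (i, n :: σ)).map (ftag θ (N - (n :: σ).length)) := by
    intro n σ
    exact if_pos ⟨rfl, by simp⟩
  have fout : ∀ x : Node, ¬ (x.1 = i ∧ x.2 ≠ []) → f' x = p.f x := fun x hx => if_neg hx
  have hdom : ∀ x, f' x = none ↔ p.f x = none := by
    intro x
    by_cases hx : x.1 = i ∧ x.2 ≠ []
    · have : f' x = (p.f x).map (ftag θ (N - x.2.length)) := if_pos hx
      rw [this]; simp
    · rw [fout x hx]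
  let p' : Cond :=
    { f := f'
      root := by
        intro j
        rw [fout _ (by simp), p.root]
      fin := by
        refine p.fin.subset ?_
        rintro x ⟨h1, h2⟩
        exact ⟨fun h0 => h1 ((hdom x).mpr h0), h2⟩
      rule := by
        intro j n σ t ht
        by_cases hj : j = i
        · subst hj
          rw [fin1] at ht
          obtain ⟨t₀, ht₀, rfl⟩ := Option.map_eq_some_iff.mp ht
          obtain ⟨s, hs, hok⟩ := p.rule _ _ _ _ ht₀
          have hlen : (n :: σ).length < N := hN (j, n :: σ) (by rw [ht₀]; simp)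
          cases σ with
          | nil =>
            rw [p.root] at hs
            cases hs
            exact ⟨tp 0, by rw [fout _ (by simp), p.root], by simp⟩
          | cons m τ =>
            refine ⟨_, by rw [fin1, hs]; rfl, ?_⟩
            have : N - (m :: τ).length = (N - (n :: m :: τ).length) + 1 := by
              simp only [List.length_cons] at hlen ⊢; omega
            rw [this]
            exact ftag_ok hok
        · rw [fout _ (by simp [hj])] at ht
          obtain ⟨s, hs, hok⟩ := p.rule _ _ _ _ ht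
          exact ⟨s, by rw [fout _ (by simp [hj])]; exact hs, hok⟩
      ctb := by
        intro x α hα
        by_cases hx : x.1 = i ∧ x.2 ≠ []
        · have : f' x = (p.f x).map (ftag θ (N - x.2.length)) := if_pos hx
          rw [this] at hα
          obtain ⟨t₀, ht₀, h1⟩ := Option.map_eq_some_iff.mp hα
          exact ftag_lt hθ (fun β hβ => p.ctb x β (by rw [ht₀, hβ])) α h1
        · rw [fout x hx] at hα
          exact p.ctb _ _ hα }
  refine ⟨p', ?_, ?_⟩
  · intro F hF
    refine ⟨?_, ?_⟩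
    · funext x
      obtain ⟨j, σ⟩ := x
      rw [st_vF p.rule, st_vF p'.rule]
      by_cases hj : j = i
      · subst hj
        have h1 := hdom (j, σ)
        have h2 : p'.f (j, σ) = f' (j, σ) := rfl
        rw [← h2] at h1
        cases h3 : p.f (j, σ) with
        | none =>
          rw [h1.mpr h3]
        | some t =>
          have h4 : p'.f (j, σ) ≠ none := fun h0 => by rw [h1.mp h0] at h3; cases h3
          obtain ⟨t', ht'⟩ := Option.ne_none_iff_exists'.mp h4
          rw [ht']
          cases t <;> cases t' <;> simp [hF]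
      · have : p'.f (j, σ) = p.f (j, σ) := fout _ (by simp [hj])
        rw [this]
    · intro x α hα
      by_cases hx : x.1 = i ∧ x.2 ≠ []
      · have : p'.f x = (p.f x).map (ftag θ (N - x.2.length)) := if_pos hx
        rw [this]
        cases h3 : p.f x with
        | none => simp
        | some t =>
          rw [Option.map_some, Option.some.injEq, Option.some.injEq, ftag_ord hα]
      · have : p'.f x = p.f x := fout x hx
        rw [this]
  · intro n σ t ht
    have h2 : p'.f (i, n :: σ) = f' (i, n :: σ) := rfl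
    rw [h2, fin1] at ht
    obtain ⟨t₀, ht₀, rfl⟩ := Option.map_eq_some_iff.mp ht
    exact ftag_isrk _ _ _

/-- No condition forces a name over the view `F` to be a path of a tree outside `F`. -/
theorem no_path {F : Finset ℕ} {i : ℕ} (hi : i ∉ F) (Ψ : Nm) (p : Cond) :
    ¬ Frc (vF F) p (Pth i Ψ) := by
  intro h
  let A : ℕ → Set Str := fun n => {M | Ψ.1 M 0 = n}
  have hA : ∀ n, MeasurableSet (A n) := fun n => CM.app Ψ.2 0 n
  have hP := measurable_Pth i Ψ
  have hS : (insert (Pth i Ψ) (Set.range A)).Countable := (Set.countable_range A).insert _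
  obtain ⟨s, hs, hs0⟩ := exists_agen hS p
  have hM := mem_of_Frc hs.anti hP (hs.dcd _ (Set.mem_insert _ _)) (vF_mem F) (k := 0) hs0.le h
  set M := st (vF F) (lim s) with hMdef
  set n₀ := Ψ.1 M 0 with hn₀
  have hMA : M ∈ A n₀ := rfl
  obtain ⟨k, hk⟩ := exists_Frc hs.anti (hA n₀) (hs.dcd _ (Set.mem_insert_of_mem _ ⟨n₀, rfl⟩))
    (vF_mem F) hMA
  have hx1 : lim s (i, [n₀]) ≠ none := by
    intro h0
    exact hM 1 (st_eq_zero.mpr h0)
  obtain ⟨k', hk'⟩ : ∃ k, (s k).f (i, [n₀]) ≠ none := by
    by_contra h4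
    push Not at h4
    exact hx1 ((lim_eq_none hs.anti).mpr h4)
  set q := s (max k k') with hq
  have hq1 : Frc (vF F) q (A n₀) := hk.mono (hs.anti (le_max_left _ _))
  have hq2 : Frc (vF F) q (Pth i Ψ) := h.mono (by
    rw [← hs0]; exact hs.anti (Nat.zero_le _))
  have hq3 : q.f (i, [n₀]) ≠ none := by
    obtain ⟨t, ht⟩ := Option.ne_none_iff_exists'.mp hk'
    rw [hs.anti (le_max_right k k') _ _ ht]; simp
  obtain ⟨q', hq', hrk⟩ := exists_star q (θ := max (thrS (Pth i Ψ)) (thrS (A n₀)))
    (max_lt (thrS_lt _) (thrS_lt _)) i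
  have hsim := hq' F hi
  have h1' : Frc (vF F) q' (A n₀) := hq1.retag (hsim.mono (le_max_right _ _))
  have h2' : Frc (vF F) q' (Pth i Ψ) := hq2.retag (hsim.mono (le_max_left _ _))
  obtain ⟨s', hs', hs0'⟩ := exists_agen hS q'
  have hM' := mem_of_Frc hs'.anti hP (hs'.dcd _ (Set.mem_insert _ _)) (vF_mem F) (k := 0)
    hs0'.le h2'
  have hA' := mem_of_Frc hs'.anti (hA n₀) (hs'.dcd _ (Set.mem_insert_of_mem _ ⟨n₀, rfl⟩))
    (vF_mem F) (k := 0) hs0'.le h1'
  set M' := st (vF F) (lim s') with hMdef'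
  set X := Ψ.1 M' with hX
  have hX0 : X 0 = n₀ := hA'
  have hchain : ∀ n, ∃ α, lim s' (i, pre X (n + 1)) = some (rk α) := by
    intro n
    induction n with
    | zero =>
      have h3 : q'.f (i, [n₀]) ≠ none := fun h0 => hq3 ((hsim.dom _).mpr h0)
      obtain ⟨t, ht⟩ := Option.ne_none_iff_exists'.mp h3
      obtain ⟨α, rfl⟩ := hrk _ _ _ ht
      refine ⟨α, ?_⟩
      have : pre X (0 + 1) = [n₀] := by simp [pre, hX0]
      rw [this]
      refine (lim_eq hs'.anti).mpr ⟨0, ?_⟩
      rw [hs0', ht]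
    | succ n ih =>
      obtain ⟨α, hα⟩ := ih
      have h3 : lim s' (i, pre X (n + 1 + 1)) ≠ none := by
        intro h0
        exact hM' (n + 1 + 1) (st_eq_zero.mpr h0)
      obtain ⟨t, ht⟩ := Option.ne_none_iff_exists'.mp h3
      obtain ⟨u, hu, hok⟩ := hs'.stc.rule _ _ _ _ ht
      have : lim s' (i, pre X (n + 1)) = some u := hu
      rw [hα] at this
      cases this
      cases t with
      | rk β => exact ⟨β, ht⟩
      | bt => exact hok.elim
      | tp c => exact hok.elim
  have hno : ∀ α : Ordinal.{0}, ∀ n, lim s' (i, pre X (n + 1)) ≠ some (rk α) := by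
    intro α
    induction α using WellFoundedLT.induction with
    | ind α ih =>
      intro n hn
      obtain ⟨β, hβ⟩ := hchain (n + 1)
      obtain ⟨u, hu, hok⟩ := hs'.stc.rule _ _ _ _ hβ
      have : lim s' (i, pre X (n + 1)) = some u := hu
      rw [hn] at this
      cases this
      exact ih β hok (n + 1) hβ
  obtain ⟨α, hα⟩ := hchain 0
  exact hno α 0 hα

/-! ### Bounding -/

theorem exists_bd_of_sup {δ : ℕ → Ordinal.{0}} (hδ : Monotone δ) {w : Cond}
    (h : Bd (⨆ n, δ n) w) : ∃ n, Bd (δ n) w := by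
  classical
  have h1 : ∀ x, ∃ n, ∀ α, w.f x = some (rk α) → α < δ n := by
    intro x
    by_cases hx : ∃ α, w.f x = some (rk α)
    · obtain ⟨α, hα⟩ := hx
      obtain ⟨n, hn⟩ := Ordinal.lt_iSup_iff.mp (h x α hα)
      refine ⟨n, fun β hβ => ?_⟩
      rw [hα] at hβ
      cases hβ
      exact hn
    · push Not at hx
      exact ⟨0, fun α hα => absurd hα (hx α)⟩
  choose K hK using h1
  obtain ⟨M, hM⟩ := (w.fin.image K).bddAbove
  refine ⟨M, fun x α hα => ?_⟩
  have hx0 : x.2 ≠ [] := by
    intro h0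
    obtain ⟨i, σ⟩ := x
    simp only at h0
    subst h0
    rw [w.root] at hα
    cases hα
  have h3 : K x ≤ M := hM (Set.mem_image_of_mem _
    (show x ∈ {x : Node | w.f x ≠ none ∧ x.2 ≠ []} from ⟨by rw [hα]; simp, hx0⟩))
  exact (hK x α hα).trans_le (hδ h3)

theorem bounding {g : View} (hg : g ∈ VV) {P : ℕ → (ℕ → ℕ) → (ℕ → ℕ) → Prop}
    (hP : ∀ k, BP (fun z : (ℕ → ℕ) × (ℕ → ℕ) => P k z.1 z.2)) (h : Nm) (p : Cond)
    (H : ∀ k, ∀ q ≤ p, ∃ q' ≤ q, ∃ f : Nm, Frc g q' {M | P k (f.1 M) (h.1 M)}) :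
    ∃ G : Nm, Frc g p {M | ∀ k, P k (row (G.1 M) k) (h.1 M)} := by
  classical
  have H' : ∀ k q, ∃ q', ∃ f : Nm, q ≤ p → q' ≤ q ∧ Frc g q' {M | P k (f.1 M) (h.1 M)} := by
    intro k q
    by_cases hq : q ≤ p
    · obtain ⟨q', h1, f, h2⟩ := H k q hq
      exact ⟨q', f, fun _ => ⟨h1, h2⟩⟩
    · exact ⟨q, Classical.arbitrary Nm, fun h0 => absurd h0 hq⟩
  choose Q f hQ using H'
  let A : ℕ → Cond → Set Str := fun k q => {M | P k ((f k q).1 M) (h.1 M)}
  have hA : ∀ k q, MeasurableSet (A k q) := fun k q =>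
    BP.comp (hP k) ((f k q).2.prodMk h.2)
  choose β hβ1 hβ2 using exists_bd
  let B : Ordinal.{0} → Ordinal.{0} := fun δ =>
    ⨆ z : ℕ × {q // Bd δ q}, max (β (Q z.1 z.2.1)) (thrS (A z.1 z.2.1) + ω)
  have hcount : ∀ δ < ω₁, Countable (ℕ × {q // Bd δ q}) := by
    intro δ hδ
    have : Countable {q // Bd δ q} := (countable_bd hδ).to_subtype
    infer_instance
  have hB : ∀ δ < ω₁, B δ < ω₁ := by
    intro δ hδ
    have := hcount δ hδ
    refine Ordinal.iSup_lt_omega_one fun z => max_lt (hβ1 _) (add_omega_lt (thrS_lt _))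
  let δ : ℕ → Ordinal.{0} := fun n => Nat.rec (β p) (fun _ d => max d (B d)) n
  have hδS : ∀ n, δ (n + 1) = max (δ n) (B (δ n)) := fun n => rfl
  have hδlt : ∀ n, δ n < ω₁ := by
    intro n
    induction n with
    | zero => exact hβ1 p
    | succ n ih => rw [hδS]; exact max_lt ih (hB _ ih)
  have hδmono : Monotone δ := monotone_nat_of_le_succ (fun n => by rw [hδS]; exact le_max_left _ _)
  set γ := ⨆ n, δ n with hγ
  have hγlt : γ < ω₁ := Ordinal.iSup_lt_omega_one hδlt
  have hδγ : ∀ n, δ n ≤ γ := fun n => Ordinal.le_iSup δ n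
  have hclosed : ∀ k w, Bd γ w → Bd γ (Q k w) ∧ thrS (A k w) + ω ≤ γ := by
    intro k w hw
    obtain ⟨n, hn⟩ := exists_bd_of_sup hδmono hw
    have := hcount (δ n) (hδlt n)
    have h1 : max (β (Q k w)) (thrS (A k w) + ω) ≤ B (δ n) :=
      Ordinal.le_iSup (fun z : ℕ × {q // Bd (δ n) q} =>
        max (β (Q z.1 z.2.1)) (thrS (A z.1 z.2.1) + ω)) (k, ⟨w, hn⟩)
    have h2 : B (δ n) ≤ γ := (le_max_right _ _).trans ((hδS n).symm.le.trans (hδγ (n + 1)))
    have h3 := h1.trans h2
    exact ⟨(hβ2 _).mono ((le_max_left _ _).trans h3), (le_max_right _ _).trans h3⟩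
  have hpγ : Bd γ p := (hβ2 p).mono (hδγ 0)
  have hQc : {q | Bd γ q ∧ q ≤ p}.Countable := (countable_bd hγlt).mono (fun q hq => hq.1)
  obtain ⟨en, hen⟩ := hQc.exists_eq_range ⟨p, hpγ, le_rfl⟩
  have hen1 : ∀ j, Bd γ (en j) ∧ en j ≤ p := fun j => by
    have : en j ∈ {q | Bd γ q ∧ q ≤ p} := by rw [hen]; exact ⟨j, rfl⟩
    exact this
  let MM : ℕ → ℕ → Str → Prop := fun k j N => Mt g (thrS (A k (en j))) (Q k (en j)) N
  have hMM : ∀ k j, BP (MM k j) := fun k j => measurable_Mt g (thrS_lt _) _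
  let J : ℕ → Str → ℕ := fun k N => lst (fun j => MM k j N)
  have hJ : ∀ k, CM (J k) := fun k => CM.lst (hMM k)
  let G : Nm := ⟨fun N => mk (fun k => (f k (en (J k N))).1 N), by
    refine measurable_mk fun k => measurable_fun_iff.mpr fun n => ?_
    exact CM.bind (hJ k) (g := fun j N => (f k (en j)).1 N n) (fun j => CM.app (f k (en j)).2 n)⟩
  let U : ℕ → Set Str := fun k => {N | ∃ j, MM k j N}
  have hU : ∀ k, MeasurableSet (U k) := fun k => BP.ex (hMM k)
  have hUF : ∀ k, Frc g p (U k) := by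
    intro k
    refine Frc.dense fun q hq => ?_
    have h1 : trunc γ q ∈ {q | Bd γ q ∧ q ≤ p} := ⟨trunc_bd γ q, trunc_le hq hpγ⟩
    rw [hen] at h1
    obtain ⟨j, hj⟩ := h1
    have h2 := hQ k (en j) (hen1 j).2
    have h3 : Sim γ g (en j) q := by rw [hj]; exact (trunc_sim γ g q).symm
    obtain ⟨r, hr, hr2⟩ := lift (thrS_lt (A k (en j)))
      (h3.mono (hclosed k (en j) (hen1 j).1).2) h2.1
    refine ⟨r, hr, ?_⟩
    refine Frc_of hg (hU k) (S := ∅) Set.countable_empty ?_
    intro s hs hs0
    exact ⟨j, sim_Mt hs.anti hs.stc (k := 0) hs0 hr2⟩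
  have hfin : MeasurableSet {M : Str | ∀ k, P k (row (G.1 M) k) (h.1 M)} := by
    refine BP.all fun k => ?_
    exact BP.comp (hP k) (((measurable_row k).comp G.2).prodMk h.2)
  refine ⟨G, ?_⟩
  refine Frc_of hg hfin (S := Set.range U ∪ Set.range (fun t : ℕ × ℕ => A t.1 (en t.2)))
    ((Set.countable_range _).union (Set.countable_range _)) ?_
  intro s hs hs0 k
  have h1 : st g (lim s) ∈ U k := mem_of_Frc hs.anti (hU k)
    (hs.dcd _ (Set.mem_insert_of_mem _ (Or.inl ⟨k, rfl⟩))) hg (k := 0) hs0 (hUF k)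
  have h2 : MM k (J k (st g (lim s))) (st g (lim s)) := lst_spec h1
  set j := J k (st g (lim s)) with hj
  have h3 : row (G.1 (st g (lim s))) k = (f k (en j)).1 (st g (lim s)) := by
    simp only [G, row_mk, hj]
  rw [h3]
  obtain ⟨m, hm⟩ := Mt_sim hs.anti hs.stc h2
  have h4 := (hQ k (en j) (hen1 j).2).2
  have h5 : Frc g (restr (s m) (Q k (en j))) (A k (en j)) := Frc.retag h4 hm
  exact mem_of_Frc hs.anti (hA k (en j))
    (hs.dcd _ (Set.mem_insert_of_mem _ (Or.inr ⟨(k, j), rfl⟩))) hg (k := m)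
    (le_restr _ _) h5

end Halin
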