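import Pool.Agent.Helper90.HalinD

/-! Copy views, the projection, and the dichotomy for names of reals with an invariant. -/

open Ordinal
open scoped Ordinal

namespace Halin
open Tag

/-! ### Relabelling of structures -/

def rl (g : View) (M : Str) (i : ℕ) : List ℕ → ℕ
  | [] => match M (i, []) with
    | 0 => 0
    | 1 => 1
    | c + 2 => g (i, []) c + 1
  | n :: σ => match M (i, n :: σ) with
    | 0 => 0
    | 1 => 1
    | c + 2 => if 2 ≤ rl g M i σ then g (i, n :: σ) c + 1 else 1

def rv (g : View) (M : Str) : Str := fun x => rl g M x.1 x.2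

theorem rl_ge_two {g : View} {M : Str} {i : ℕ} {σ : List ℕ} (h : 2 ≤ rl g M i σ) :
    2 ≤ M (i, σ) := by
  cases σ with
  | nil =>
    simp only [rl] at h
    split at h
    · omega
    · omega
    · rename_i h1; omega
  | cons n σ =>
    simp only [rl] at h
    split at h
    · omega
    · omega
    · rename_i h1; omega

theorem rv_st {g₀ g g' : View} (h : ∀ x c, g' x c = match g₀ x c with | 0 => 0 | c' + 1 => g x c')
    (f : PM) : rv g (st g₀ f) = st g' f := by
  funext x
  obtain ⟨i, σ⟩ := x
  show rl g (st g₀ f) i σ = lab g' f i σ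
  induction σ with
  | nil =>
    cases hf : f (i, []) with
    | none => simp only [rl, st, lab, hf]
    | some t =>
      cases t with
      | rk α => simp only [rl, st, lab, hf]
      | bt => simp only [rl, st, lab, hf]
      | tp c =>
        have h1 := h (i, []) c
        cases h2 : g₀ (i, []) c with
        | zero =>
          rw [h2] at h1
          simp only [rl, st, lab, hf, h2, h1]
        | succ c' =>
          rw [h2] at h1
          simp only [rl, st, lab, hf, h2, h1]
  | cons n σ ih =>
    cases hf : f (i, n :: σ) with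
    | none => simp only [rl, st, lab, hf]
    | some t =>
      cases t with
      | rk α => simp only [rl, st, lab, hf]
      | bt => simp only [rl, st, lab, hf]
      | tp c =>
        have h1 := h (i, n :: σ) c
        by_cases hv : 2 ≤ lab g₀ f i σ
        · cases h2 : g₀ (i, n :: σ) c with
          | zero =>
            rw [h2] at h1
            simp only [rl, st, lab, hf, h2, h1, hv, if_true]
            split <;> rfl
          | succ c' =>
            rw [h2] at h1
            have e : st g₀ f (i, n :: σ) = c' + 2 := by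
              simp only [st, lab, hf, h2, hv, if_true]
            simp only [rl, e, ih, lab, hf, h1]
        · have e : st g₀ f (i, n :: σ) = 1 := by
            simp only [st, lab, hf, hv, if_false]
          have hv' : ¬ 2 ≤ lab g' f i σ := by
            intro h0
            rw [← ih] at h0
            exact hv (rl_ge_two h0)
          simp only [rl, e, lab, hf, hv', if_false]

theorem measurable_rv (g : View) : Measurable (rv g) := by
  rw [measurable_pi_iff]
  rintro ⟨i, σ⟩
  rw [← cm_iff_measurable]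
  show CM (fun M : Str => rl g M i σ)
  have happ : ∀ x : Node, CM (fun M : Str => M x) := fun x =>
    cm_iff_measurable.mpr (measurable_pi_apply x)
  induction σ with
  | nil =>
    exact CM.map (happ (i, [])) (fun a => match a with | 0 => 0 | 1 => 1 | c + 2 => g (i, []) c + 1)
  | cons n σ ih =>
    exact CM.map₂ (happ (i, n :: σ)) ih (fun a b => match a with
      | 0 => 0
      | 1 => 1
      | c + 2 => if 2 ≤ b then g (i, n :: σ) c + 1 else 1)

theorem rv_vF {Fs F : Finset ℕ} (h : Fs ⊆ F) (f : PM) :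
    rv (vF Fs) (st (vF F) f) = st (vF Fs) f := by
  apply rv_st
  intro x c
  simp only [vF_apply]
  by_cases h1 : x.1 ∈ F
  · simp [h1]
  · have : x.1 ∉ Fs := fun h0 => h1 (h h0)
    simp [h1, this]

theorem rv_cv {Fs F : Finset ℕ} (h : Fs ⊆ F) (D0 : Finset Node) (b : ℕ) (f : PM) :
    rv (cv Fs F D0 b) (st (vF F) f) = st (cv Fs F D0 b) f := by
  apply rv_st
  intro x c
  simp only [vF_apply]
  by_cases h1 : x.1 ∈ F
  · simp [h1]
  · have : x.1 ∉ Fs := fun h0 => h1 (h h0)
    simp [h1, this, cv]

theorem rv_vF_cv (Fs F : Finset ℕ) (D0 : Finset Node) (b : ℕ) (f : PM) :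
    rv (vF Fs) (st (cv Fs F D0 b) f) = st (vF Fs) f := by
  apply rv_st
  intro x c
  by_cases h1 : x.1 ∈ Fs
  · simp [vF_apply, cv, h1]
  · simp only [vF_apply, h1, if_false]
    split <;> rfl

theorem lab_congr {g g' : View} {f f' : PM} {i : ℕ} (h : ∀ σ c, g (i, σ) c = g' (i, σ) c)
    (hf : ∀ σ, f (i, σ) = f' (i, σ)) (σ : List ℕ) : st g f (i, σ) = st g' f' (i, σ) := by
  show lab g f i σ = lab g' f' i σ
  induction σ with
  | nil => simp only [lab, h, hf]
  | cons n σ ih => simp only [lab, h, hf, ih]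

/-! ### The projection -/

open Classical in
/-- New tag under the projection; `v` is the value of the copy view at the node. -/
noncomputable def ptg (Fs F : Finset ℕ) (i v : ℕ) : Tag → Tag
  | tp c => if i ∈ F ∧ i ∉ Fs then (if 2 ≤ v then tp (v - 2) else bt) else tp c
  | rk α => rk α
  | bt => bt

theorem ptg_ok {Fs F : Finset ℕ} {i v v' : ℕ} {s t : Tag} (h : ok s t) (hv : 2 ≤ v' → 2 ≤ v) :
    ok (ptg Fs F i v s) (ptg Fs F i v' t) := by
  cases s with
  | rk α =>
    cases t with
    | rk β => exact h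
    | bt => exact h.elim
    | tp c => exact h.elim
  | bt =>
    cases t with
    | rk β => exact h
    | bt => exact h
    | tp c => exact h.elim
  | tp c =>
    simp only [ptg]
    by_cases hi : i ∈ F ∧ i ∉ Fs
    · rw [if_pos hi]
      by_cases h2 : 2 ≤ v
      · rw [if_pos h2]; simp
      · rw [if_neg h2]
        cases t with
        | rk β => simp
        | bt => simp
        | tp c' =>
          simp only [if_pos hi]
          rw [if_neg (fun h0 => h2 (hv h0))]
          simp
    · rw [if_neg hi]; simp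

theorem ptg_ord {Fs F : Finset ℕ} {i v : ℕ} {t : Tag} {α : Ordinal.{0}} :
    ptg Fs F i v t = rk α ↔ t = rk α := by
  cases t with
  | rk β => rfl
  | bt => rfl
  | tp c =>
    simp only [ptg, reduceCtorEq, iff_false]
    split
    · split <;> simp
    · simp

/-- The projection of conditions belonging to a copy view. -/
noncomputable def prj (Fs F : Finset ℕ) (D0 : Finset Node) (b : ℕ) (p : Cond) : Cond where
  f x := (p.f x).map (ptg Fs F x.1 (st (cv Fs F D0 b) p.f x))
  root i := by
    rw [p.root, Option.map_some]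
    by_cases hi : i ∈ F ∧ i ∉ Fs
    · have : st (cv Fs F D0 b) p.f (i, []) = 2 := by
        simp [st, lab, p.root, cv, hi]
      simp only [ptg, this, if_pos hi]
      rfl
    · simp only [ptg, if_neg hi]
  fin := by
    refine p.fin.subset ?_
    rintro x ⟨h1, h2⟩
    exact ⟨fun h0 => h1 (by rw [h0]; rfl), h2⟩
  rule := by
    intro i n σ t ht
    obtain ⟨t₀, ht₀, rfl⟩ := Option.map_eq_some_iff.mp ht
    obtain ⟨s, hs, hok⟩ := p.rule _ _ _ _ ht₀
    exact ⟨_, by rw [hs]; rfl, ptg_ok hok st_parent⟩
  ctb := by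
    intro x α hα
    obtain ⟨t₀, ht₀, h1⟩ := Option.map_eq_some_iff.mp hα
    rw [ptg_ord] at h1
    subst h1
    exact p.ctb _ _ ht₀

theorem prj_apply (Fs F : Finset ℕ) (D0 : Finset Node) (b : ℕ) (p : Cond) (x : Node) :
    (prj Fs F D0 b p).f x = (p.f x).map (ptg Fs F x.1 (st (cv Fs F D0 b) p.f x)) := rfl

theorem prj_mono {Fs F : Finset ℕ} {D0 : Finset Node} {b : ℕ} {p q : Cond} (h : q ≤ p) :
    prj Fs F D0 b q ≤ prj Fs F D0 b p := by
  intro x t ht
  rw [prj_apply] at ht ⊢
  obtain ⟨t₀, ht₀, rfl⟩ := Option.map_eq_some_iff.mp ht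
  rw [h _ _ ht₀, Option.map_some, st_ext h (by rw [ht₀]; simp)]

theorem st_pos {g : View} {f : PM} {x : Node} {t : Tag} (h : f x = some t) : 1 ≤ st g f x := by
  have : st g f x ≠ 0 := by rw [Ne, st_eq_zero, h]; simp
  omega

theorem st_not_top {g : View} {f : PM} {x : Node} {t : Tag} (h : f x = some t)
    (h' : ∀ c, t ≠ tp c) : st g f x = 1 := by
  have h1 := st_pos (g := g) h
  by_contra h2
  obtain ⟨c, hc⟩ := st_ge_two (g := g) (f := f) (x := x) (by omega)
  rw [h] at hc
  exact h' c (Option.some.inj hc)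

theorem st_cv_Fs {Fs F : Finset ℕ} {D0 : Finset Node} {b : ℕ} {f : PM} {i : ℕ} (hi : i ∈ Fs)
    (σ : List ℕ) : st (cv Fs F D0 b) f (i, σ) = st (vF Fs) f (i, σ) :=
  lab_congr (fun σ c => by simp [vF_apply, cv, hi]) (fun _ => rfl) σ

theorem st_cv_out {Fs F : Finset ℕ} {D0 : Finset Node} {b : ℕ} {f : PM} {i : ℕ} (hi : i ∉ Fs)
    (hi' : i ∉ F) (σ : List ℕ) : st (cv Fs F D0 b) f (i, σ) = st (vF ∅) f (i, σ) :=
  lab_congr (fun σ c => by simp [vF_apply, cv, hi, hi']) (fun _ => rfl) σ

theorem st_prj {Fs F : Finset ℕ} (hF : Fs ⊆ F) (D0 : Finset Node) (b : ℕ) (p : Cond) :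
    st (vF F) (prj Fs F D0 b p).f = st (cv Fs F D0 b) p.f := by
  funext x
  obtain ⟨i, σ⟩ := x
  rw [st_vF (prj Fs F D0 b p).rule, prj_apply]
  cases h : p.f (i, σ) with
  | none => rw [Option.map_none, eq_comm, st_eq_zero, h]
  | some t =>
    cases t with
    | rk α =>
      rw [st_not_top h (by simp)]
      rfl
    | bt =>
      rw [st_not_top h (by simp)]
      rfl
    | tp c =>
      simp only [Option.map_some, ptg]
      by_cases h1 : i ∈ Fs
      · have h2 : ¬ (i ∈ F ∧ i ∉ Fs) := by tauto
        have h3 : i ∈ F := hF h1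
        rw [if_neg h2, st_cv_Fs h1, st_vF p.rule, h]
        simp [h1, h3]
      · by_cases h2 : i ∈ F
        · rw [if_pos ⟨h2, h1⟩]
          by_cases h3 : 2 ≤ st (cv Fs F D0 b) p.f (i, σ)
          · rw [if_pos h3]
            simp only [h2, if_true]
            omega
          · rw [if_neg h3]
            simp only
            have := st_pos (g := cv Fs F D0 b) h
            omega
        · have h3 : ¬ (i ∈ F ∧ i ∉ Fs) := by tauto
          rw [if_neg h3, st_cv_out h1 h2, st_vF p.rule, h]
          simp [h2]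

/-- Tag of the lift of a node through the projection. -/
def utag (Fs F : Finset ℕ) (b i : ℕ) : Tag → Tag
  | tp c => if i ∈ F ∧ i ∉ Fs then tp (Nat.pair b c) else tp c
  | rk α => rk α
  | bt => bt

theorem utag_ord {Fs F : Finset ℕ} {b i : ℕ} {t : Tag} {α : Ordinal.{0}} :
    utag Fs F b i t = rk α ↔ t = rk α := by
  cases t with
  | rk β => rfl
  | bt => rfl
  | tp c =>
    simp only [utag, reduceCtorEq, iff_false]
    split <;> simp

theorem utag_ok {Fs F : Finset ℕ} {b i : ℕ} {s t : Tag} (h : ok s t) :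
    ok (utag Fs F b i s) (utag Fs F b i t) := by
  cases s with
  | rk α =>
    cases t with
    | rk β => exact h
    | bt => exact h.elim
    | tp c => exact h.elim
  | bt =>
    cases t with
    | rk β => exact h
    | bt => exact h
    | tp c => exact h.elim
  | tp c =>
    simp only [utag]
    split <;> simp

open Classical in
/-- The projection is open. -/
theorem prj_open {Fs F : Finset ℕ} {D0 : Finset Node} {b : ℕ} {p r : Cond}
    (hD : ∀ x ∈ D0, p.f x ≠ none) (hr : r ≤ prj Fs F D0 b p) :
    ∃ q ≤ p, prj Fs F D0 b q = r ∧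
      ∀ x, p.f x = none → q.f x = (r.f x).map (utag Fs F b x.1) := by
  let f' : PM := fun x => if p.f x ≠ none then p.f x else (r.f x).map (utag Fs F b x.1)
  have fold : ∀ x, p.f x ≠ none → f' x = p.f x := fun x hx => if_pos hx
  have fnew : ∀ x, p.f x = none → f' x = (r.f x).map (utag Fs F b x.1) :=
    fun x hx => if_neg (by simp [hx])
  have hrp : ∀ x t, p.f x = some t →
      r.f x = some (ptg Fs F x.1 (st (cv Fs F D0 b) p.f x) t) := by
    intro x t ht
    exact hr _ _ (by rw [prj_apply, ht]; rfl)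
  let q : Cond :=
    { f := f'
      root := by
        intro i
        rw [fold _ (by rw [p.root]; simp), p.root]
      fin := by
        refine (p.fin.union r.fin).subset ?_
        rintro x ⟨h1, h2⟩
        by_cases hx : p.f x = none
        · right
          refine ⟨fun h0 => h1 ?_, h2⟩
          rw [fnew x hx, h0]; rfl
        · exact Or.inl ⟨hx, h2⟩
      rule := by
        intro i n σ t ht
        by_cases hx : p.f (i, n :: σ) = none
        · rw [fnew _ hx] at ht
          obtain ⟨t₀, ht₀, rfl⟩ := Option.map_eq_some_iff.mp ht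
          obtain ⟨s, hs, hok⟩ := r.rule _ _ _ _ ht₀
          by_cases hy : p.f (i, σ) = none
          · exact ⟨_, by rw [fnew _ hy, hs]; rfl, utag_ok hok⟩
          · rw [fold _ hy]
            obtain ⟨s₁, hs₁⟩ := Option.ne_none_iff_exists'.mp hy
            refine ⟨s₁, hs₁, ?_⟩
            have h1 := hrp _ _ hs₁
            rw [hs] at h1
            cases s₁ with
            | rk α =>
              simp only [ptg, Option.some.injEq] at h1
              subst h1
              exact utag_ok (Fs := Fs) (F := F) (b := b) (i := i) hok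
            | bt =>
              simp only [ptg, Option.some.injEq] at h1
              subst h1
              exact utag_ok (Fs := Fs) (F := F) (b := b) (i := i) hok
            | tp c => simp
        · rw [fold _ hx] at ht
          obtain ⟨s, hs, hok⟩ := p.rule _ _ _ _ ht
          exact ⟨s, by rw [fold _ (by rw [hs]; simp), hs], hok⟩
      ctb := by
        intro x α hα
        by_cases hx : p.f x = none
        · rw [fnew _ hx] at hα
          obtain ⟨t₀, ht₀, h1⟩ := Option.map_eq_some_iff.mp hα
          rw [utag_ord] at h1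
          subst h1
          exact r.ctb _ _ ht₀
        · rw [fold _ hx] at hα
          exact p.ctb _ _ hα }
  have hqp : q ≤ p := by
    intro x t ht
    show f' x = some t
    rw [fold _ (by rw [ht]; simp), ht]
  refine ⟨q, hqp, ?_, fun x hx => fnew x hx⟩
  apply Cond.ext'
  funext x
  obtain ⟨i, σ⟩ := x
  induction σ with
  | nil => rw [(prj Fs F D0 b q).root, r.root]
  | cons n σ ih =>
    rw [prj_apply]
    by_cases hx : p.f (i, n :: σ) = none
    · have hq : q.f (i, n :: σ) = _ := fnew _ hx
      cases hrx : r.f (i, n :: σ) with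
      | none => rw [hq, hrx]; rfl
      | some t =>
        rw [hrx, Option.map_some] at hq
        cases t with
        | rk α => rw [hq]; rfl
        | bt => rw [hq]; rfl
        | tp c =>
          simp only [utag] at hq
          by_cases hi : i ∈ F ∧ i ∉ Fs
          · rw [if_pos hi] at hq
            obtain ⟨s, hs, hok⟩ := r.rule _ _ _ _ hrx
            obtain ⟨c'', rfl⟩ : ∃ c', s = tp c' := by
              cases s with
              | rk α => exact hok.elim
              | bt => exact hok.elim
              | tp c' => exact ⟨c', rfl⟩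
            rw [hs, prj_apply] at ih
            obtain ⟨u, hu, hu2⟩ := Option.map_eq_some_iff.mp ih
            have hvis : 2 ≤ st (cv Fs F D0 b) q.f (i, σ) := by
              cases u with
              | rk α => simp [ptg] at hu2
              | bt => simp [ptg] at hu2
              | tp c₁ =>
                simp only [ptg, if_pos hi] at hu2
                by_contra h0
                rw [if_neg h0] at hu2
                cases hu2
            have hD0 : (i, n :: σ) ∉ D0 := fun h0 => hD _ h0 hx
            have hst : st (cv Fs F D0 b) q.f (i, n :: σ) = c + 2 := by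
              have h3 : 2 ≤ lab (cv Fs F D0 b) q.f i σ := hvis
              simp only [st, lab, hq, h3, if_true]
              simp [cv, hi, hD0]
            rw [hq, Option.map_some, hst]
            simp [ptg, hi]
          · rw [if_neg hi] at hq
            rw [hq, Option.map_some]
            simp only [ptg, if_neg hi]
    · obtain ⟨t, ht⟩ := Option.ne_none_iff_exists'.mp hx
      rw [hqp _ _ ht, Option.map_some, hrp _ _ ht, st_ext hqp hx]

theorem frc_prj {Fs F : Finset ℕ} (hF : Fs ⊆ F) {D0 : Finset Node} {b : ℕ} (φ : Form) :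
    ∀ p : Cond, (∀ x ∈ D0, p.f x ≠ none) →
      (frc (cv Fs F D0 b) φ p ↔ frc (vF F) φ (prj Fs F D0 b p)) := by
  induction φ with
  | fls => intro p _; simp [frc]
  | atom x a => intro p _; simp only [frc, st_prj hF]
  | neg φ ih =>
    intro p hp
    have hp' : ∀ q ≤ p, ∀ x ∈ D0, q.f x ≠ none := by
      intro q hq x hx
      obtain ⟨t, ht⟩ := Option.ne_none_iff_exists'.mp (hp x hx)
      rw [hq _ _ ht]; simp
    simp only [frc]
    constructor
    · intro h r hr hf
      obtain ⟨q, hq, rfl, -⟩ := prj_open hp hr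
      exact h q hq ((ih q (hp' q hq)).mpr hf)
    · intro h q hq hf
      exact h _ (prj_mono hq) ((ih q (hp' q hq)).mp hf)
  | disj f ih =>
    intro p hp
    simp only [frc]
    exact exists_congr fun n => ih n p hp

theorem Frc_prj {Fs F : Finset ℕ} (hF : Fs ⊆ F) {D0 : Finset Node} {b : ℕ} {A : Set Str}
    {p : Cond} (hp : ∀ x ∈ D0, p.f x ≠ none) :
    Frc (cv Fs F D0 b) p A ↔ Frc (vF F) (prj Fs F D0 b p) A := by
  rw [Frc_iff, Frc_iff, frc_prj hF _ p hp]

/-- The nodes of a condition, without the roots. -/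
noncomputable def Cond.dom (p : Cond) : Finset Node := p.fin.toFinset

theorem Cond.mem_dom {p : Cond} {x : Node} : x ∈ p.dom ↔ p.f x ≠ none ∧ x.2 ≠ [] := by
  simp [Cond.dom]

theorem prj_self {Fs F : Finset ℕ} (b : ℕ) (p : Cond) : prj Fs F p.dom b p = p := by
  apply Cond.ext'
  funext x
  obtain ⟨i, σ⟩ := x
  rw [prj_apply]
  cases h : p.f (i, σ) with
  | none => rfl
  | some t =>
    cases t with
    | rk α => rfl
    | bt => rfl
    | tp c =>
      rw [Option.map_some]
      simp only [ptg]
      by_cases hi : i ∈ F ∧ i ∉ Fs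
      · rw [if_pos hi]
        have key : ∀ σ c, p.f (i, σ) = some (tp c) → st (cv Fs F p.dom b) p.f (i, σ) = c + 2 := by
          intro σ
          induction σ with
          | nil =>
            intro c hc
            simp [st, lab, hc, cv, hi]
          | cons n σ ih =>
            intro c hc
            obtain ⟨s, hs, hok⟩ := p.rule _ _ _ _ hc
            obtain ⟨c', rfl⟩ : ∃ c', s = tp c' := by
              cases s with
              | rk α => exact hok.elim
              | bt => exact hok.elim
              | tp c' => exact ⟨c', rfl⟩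
            have h1 : 2 ≤ lab (cv Fs F p.dom b) p.f i σ := by
              have := ih c' hs
              simp only [st] at this
              omega
            have h2 : (i, n :: σ) ∈ p.dom := Cond.mem_dom.mpr ⟨by rw [hc]; simp, by simp⟩
            simp only [st, lab, hc, h1, if_true]
            simp [cv, hi, h2]
        rw [key σ c h]
        simp
      · rw [if_neg hi]

/-- Lifts of similar conditions through the projection of class `b` are similar for the copy
view of another class. -/
theorem sim_lifts {Fs F : Finset ℕ} {D0 : Finset Node} {b b' : ℕ} (hb : b ≠ b')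
    {ξ : Ordinal.{0}} {q w w' J J' : Cond} (hD : ∀ x ∈ D0, q.f x ≠ none)
    (hw : w ≤ prj Fs F D0 b q) (hw' : w' ≤ prj Fs F D0 b q) (hs : Sim ξ (vF Fs) w w')
    (hJ : J ≤ q) (hJ' : J' ≤ q)
    (hJ1 : ∀ x, q.f x = none → J.f x = (w.f x).map (utag Fs F b x.1))
    (hJ1' : ∀ x, q.f x = none → J'.f x = (w'.f x).map (utag Fs F b x.1)) :
    Sim ξ (cv Fs F D0 b') J J' := by
  have hFs : ∀ (w J : Cond), w ≤ prj Fs F D0 b q → J ≤ q →
      (∀ x, q.f x = none → J.f x = (w.f x).map (utag Fs F b x.1)) →
      ∀ i ∈ Fs, ∀ σ, J.f (i, σ) = w.f (i, σ) := by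
    intro w J hw hJ hJ1 i hi σ
    have h0 : ¬ (i ∈ F ∧ i ∉ Fs) := by tauto
    cases hq : q.f (i, σ) with
    | none =>
      rw [hJ1 _ hq]
      cases hw2 : w.f (i, σ) with
      | none => rfl
      | some t =>
        cases t with
        | rk α => rfl
        | bt => rfl
        | tp c => simp only [Option.map_some, utag, if_neg h0]
    | some t =>
      rw [hJ _ _ hq]
      symm
      apply hw
      rw [prj_apply, hq, Option.map_some]
      cases t with
      | rk α => rfl
      | bt => rfl
      | tp c => simp only [ptg, if_neg h0]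
  have hout : ∀ (w J : Cond), J ≤ q →
      (∀ x, q.f x = none → J.f x = (w.f x).map (utag Fs F b x.1)) →
      ∀ i ∉ Fs, ∀ σ t, q.f (i, σ) = none → w.f (i, σ) = some t →
        st (cv Fs F D0 b') J.f (i, σ) = 1 := by
    intro w J hJ hJ1 i hi σ t hq hwt
    have hJx := hJ1 _ hq
    rw [hwt, Option.map_some] at hJx
    cases t with
    | rk α => exact st_not_top hJx (by simp [utag])
    | bt => exact st_not_top hJx (by simp [utag])
    | tp c =>
      by_cases hiF : i ∈ F
      · simp only [utag, if_pos (And.intro hiF hi)] at hJx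
        have hD0 : (i, σ) ∉ D0 := fun h0 => hD _ h0 hq
        cases σ with
        | nil => rw [q.root] at hq; cases hq
        | cons n σ =>
          simp only [st, lab, hJx]
          have : cv Fs F D0 b' (i, n :: σ) (Nat.pair b c) = 0 := by
            simp [cv, hi, hiF, hD0, hb]
          rw [this]
          split <;> rfl
      · rw [st_cv_out hi hiF, st_vF J.rule, hJx]
        simp only [utag]
        split <;> simp_all
  refine ⟨?_, ?_⟩
  · funext x
    obtain ⟨i, σ⟩ := x
    by_cases hi : i ∈ Fs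
    · rw [st_cv_Fs hi, st_cv_Fs hi,
        lab_congr (g := vF Fs) (g' := vF Fs) (fun _ _ => rfl) (hFs w J hw hJ hJ1 i hi) σ,
        lab_congr (g := vF Fs) (g' := vF Fs) (fun _ _ => rfl) (hFs w' J' hw' hJ' hJ1' i hi) σ,
        hs.1]
    · cases hq : q.f (i, σ) with
      | some t =>
        have hne : q.f (i, σ) ≠ none := by rw [hq]; simp
        rw [st_ext hJ hne, st_ext hJ' hne]
      | none =>
        cases hw2 : w.f (i, σ) with
        | none =>
          have h2 := (hs.dom _).mp hw2
          rw [st_eq_zero.mpr (by rw [hJ1 _ hq, hw2]; rfl),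
            st_eq_zero.mpr (by rw [hJ1' _ hq, h2]; rfl)]
        | some t =>
          have h2 : w'.f (i, σ) ≠ none := fun h0 => by
            rw [(hs.dom _).mpr h0] at hw2; cases hw2
          obtain ⟨t', ht'⟩ := Option.ne_none_iff_exists'.mp h2
          rw [hout w J hJ hJ1 i hi σ t hq hw2, hout w' J' hJ' hJ1' i hi σ t' hq ht']
  · intro x α hα
    cases hq : q.f x with
    | some t => rw [hJ _ _ hq, hJ' _ _ hq]
    | none =>
      rw [hJ1 _ hq, hJ1' _ hq, Option.map_eq_some_iff, Option.map_eq_some_iff]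
      simp only [utag_ord]
      constructor
      · rintro ⟨t, ht, rfl⟩
        exact ⟨_, (hs.2 x α hα).mp ht, rfl⟩
      · rintro ⟨t, ht, rfl⟩
        exact ⟨_, (hs.2 x α hα).mpr ht, rfl⟩

/-! ### The dichotomy -/

section dich

variable (R : (ℕ → ℕ) → Prop) (Fi : (ℕ → ℕ) → (ℕ → ℕ) → Prop) (Hv : (ℕ → ℕ) → ℕ → Prop)

/-- The pair of the parameter (seen through `Fs`) and the real named by `f`. -/
def psi (Fs : Finset ℕ) (h f : Nm) (M : Str) : ℕ → ℕ := join (h.1 (rv (vF Fs) M)) (f.1 M)

theorem measurable_psi (Fs : Finset ℕ) (h f : Nm) : Measurable (psi Fs h f) :=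
  measurable_join (h.2.comp (measurable_rv _)) f.2

open Classical in
theorem dichotomy (hR : BP R) (hFi : BP (fun z : (ℕ → ℕ) × (ℕ → ℕ) => Fi z.1 z.2))
    (hHv : ∀ n, BP (fun X => Hv X n))
    (hinv : ∀ X X', row X 0 = row X' 0 → R X → R X' → ¬ Fi X X' → ∀ n, Hv X n ↔ Hv X' n)
    {Fs F : Finset ℕ} (hF : Fs ⊆ F) (h f : Nm) (p : Cond) :
    ∃ u ≤ p, ∃ E : Nm,
      Frc (vF F) u {M | ¬ R (psi Fs h f M)} ∨
      (Frc (vF F) u {M | R (psi Fs h f M)} ∧ ∀ b b', b ≠ b' → Frc (vF F) u
        {M | Fi (psi Fs h f (rv (cv Fs F u.dom b) M)) (psi Fs h f (rv (cv Fs F u.dom b') M))}) ∨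
      Frc (vF F) u {M | ∀ n, Hv (psi Fs h f M) n ↔ E.1 (rv (vF Fs) M) n = 1} := by
  have hpsi := measurable_psi Fs h f
  let AR : Set Str := {M | R (psi Fs h f M)}
  have hAR : MeasurableSet AR := BP.comp hR hpsi
  by_cases hcase : Frc (vF F) p AR
  swap
  · obtain ⟨u, hu, h1⟩ := exists_Frc_compl (vF_mem F) hAR hcase
    exact ⟨u, hu, Classical.arbitrary Nm, Or.inl h1⟩
  by_cases hsplit : ∀ b b', b ≠ b' → Frc (vF F) p
      {M | Fi (psi Fs h f (rv (cv Fs F p.dom b) M)) (psi Fs h f (rv (cv Fs F p.dom b') M))}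
  · exact ⟨p, le_rfl, Classical.arbitrary Nm, Or.inr (Or.inl ⟨hcase, hsplit⟩)⟩
  push Not at hsplit
  obtain ⟨b, b', hb, hnot⟩ := hsplit
  set D0 := p.dom with hD0
  let AF : Set Str :=
    {M | Fi (psi Fs h f (rv (cv Fs F D0 b) M)) (psi Fs h f (rv (cv Fs F D0 b') M))}
  have hAF : MeasurableSet AF := BP.comp hFi
    ((hpsi.comp (measurable_rv _)).prodMk (hpsi.comp (measurable_rv _)))
  obtain ⟨q, hq, hqF⟩ := exists_Frc_compl (vF_mem F) hAF hnot
  have hDp : ∀ x ∈ D0, p.f x ≠ none := fun x hx => (Cond.mem_dom.mp hx).1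
  have hDle : ∀ q ≤ p, ∀ x ∈ D0, q.f x ≠ none := by
    intro q hq x hx
    obtain ⟨t, ht⟩ := Option.ne_none_iff_exists'.mp (hDp x hx)
    rw [hq _ _ ht]; simp
  let u := prj Fs F D0 b q
  have hup : u ≤ p := by
    have := prj_mono (Fs := Fs) (F := F) (D0 := D0) (b := b) hq
    rwa [hD0, prj_self] at this
  let A : ℕ → Set Str := fun n => {M | Hv (psi Fs h f M) n}
  have hA : ∀ n, MeasurableSet (A n) := fun n => BP.comp (hHv n) hpsi
  let ξ : Ordinal.{0} := ⨆ n, thrS (A n)
  have hξ : ξ < ω₁ := Ordinal.iSup_lt_omega_one fun n => thrS_lt _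
  have hξA : ∀ n, thrS (A n) ≤ ξ := fun n => Ordinal.le_iSup (fun n => thrS (A n)) n
  obtain ⟨γ₀, hγ₀, hγ₀u⟩ := exists_bd u
  let γ := max (ξ + ω) γ₀
  have hγ : γ < ω₁ := max_lt (add_omega_lt hξ) hγ₀
  have hγu : Bd γ u := hγ₀u.mono (le_max_right _ _)
  let W : ℕ → Set Cond := fun n => {w | Bd γ w ∧ w ≤ u ∧ Frc (vF F) w (A n)}
  have hW : ∀ n, (W n).Countable := fun n => (countable_bd hγ).mono (fun w hw => hw.1)
  let EP : ℕ → Str → Prop := fun n N => ∃ w ∈ W n, Mt (vF Fs) (ξ + ω) w N
  have hEP : ∀ n, BP (EP n) := by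
    intro n
    have := (hW n).to_subtype
    refine (BP.ex (ι := W n) (P := fun w N => Mt (vF Fs) (ξ + ω) w.1 N)
      (fun w => measurable_Mt _ (add_omega_lt hξ) _)).congr fun N => ?_
    simp [EP]
  let E : Nm := ⟨fun N n => if EP n N then 1 else 0,
    measurable_fun_iff.mpr fun n => CM.ite (hEP n) (CM.const _) (CM.const _)⟩
  have hEn : ∀ N n, E.1 N n = 1 ↔ EP n N := by
    intro N n
    simp only [E]
    split <;> simp_all
  refine ⟨u, hup, E, Or.inr (Or.inr ?_)⟩
  have hfin : MeasurableSet {M : Str | ∀ n, Hv (psi Fs h f M) n ↔ E.1 (rv (vF Fs) M) n = 1} := by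
    refine BP.all fun n => (BP.comp (hHv n) hpsi).iff ?_
    exact CM.app (E.2.comp (measurable_rv _)) n 1
  refine Frc_of (vF_mem F) hfin (S := Set.range A ∪ Set.range (fun n => (A n)ᶜ))
    ((Set.countable_range _).union (Set.countable_range _)) ?_
  intro s hs hs0 n
  rw [hEn, rv_vF hF]
  constructor
  · intro hn
    have hmem : st (vF F) (lim s) ∈ A n := hn
    obtain ⟨k, hk⟩ := exists_Frc hs.anti (hA n)
      (hs.dcd _ (Set.mem_insert_of_mem _ (Or.inl ⟨n, rfl⟩))) (vF_mem F) hmem
    have hku : s k ≤ u := (hs.anti (Nat.zero_le _)).trans hs0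
    refine ⟨trunc γ (s k), ⟨trunc_bd _ _, trunc_le hku hγu, ?_⟩, ?_⟩
    · exact hk.retag ((trunc_sim γ _ _).mono ((hξA n).trans ((by simp : ξ ≤ ξ + ω).trans
        (le_max_left _ _))))
    · exact sim_Mt hs.anti hs.stc (k := k) le_rfl
        ((trunc_sim γ (vF Fs) (s k)).symm.mono (le_max_left _ _))
  · rintro ⟨w, ⟨hw1, hw2, hw3⟩, hw4⟩
    by_contra hn
    have hmem : st (vF F) (lim s) ∈ (A n)ᶜ := hn
    obtain ⟨k₁, hk₁⟩ := exists_Frc hs.anti (hA n).compl
      (hs.dcd _ (Set.mem_insert_of_mem _ (Or.inr ⟨n, rfl⟩))) (vF_mem F) hmem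
    obtain ⟨k₂, hk₂⟩ := Mt_sim hs.anti hs.stc hw4
    set w' := s (max k₁ k₂) with hw'
    have hw'1 : w' ≤ restr (s k₂) w := (hs.anti (le_max_right _ _)).trans (le_restr _ _)
    have hw'u : w' ≤ u := (hs.anti (Nat.zero_le _)).trans hs0
    have hw'F : Frc (vF F) w' (A n)ᶜ := hk₁.mono (hs.anti (le_max_left _ _))
    obtain ⟨v, hv, hv2⟩ := lift hξ hk₂.symm hw'1
    have hDq := hDle q hq
    obtain ⟨J, hJ, hJv, hJ1⟩ := prj_open (r := v) hDq (hv.trans hw2)
    obtain ⟨J', hJ', hJw, hJ1'⟩ := prj_open (r := w') hDq hw'u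
    have hsim : Sim ξ (cv Fs F D0 b') J J' :=
      sim_lifts hb hDq (hv.trans hw2) hw'u hv2.symm hJ hJ' hJ1 hJ1'
    have hAn : ∀ (B : Set Str), MeasurableSet B →
        (∀ X X', row (psi Fs h f X) 0 = row (psi Fs h f X') 0 → R (psi Fs h f X) →
          R (psi Fs h f X') → ¬ Fi (psi Fs h f X) (psi Fs h f X') → X ∈ B → X' ∈ B) →
        ∀ K ≤ q, Frc (vF F) (prj Fs F D0 b K) B → Frc (cv Fs F D0 b') K B := by
      intro B hB hinvB K hK hKB
      have hKD : ∀ x ∈ D0, K.f x ≠ none := hDle K (hK.trans hq)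
      rw [← Frc_prj hF hKD] at hKB
      refine Frc_of (cv_mem _ _ _ _) hB (S := {AR, AFᶜ}) (by simp) ?_
      intro s hs hs0
      have e1 := mem_of_Frc hs.anti hB (hs.dcd _ (by simp)) (cv_mem Fs F D0 b) (k := 0) hs0 hKB
      have hRb : ∀ b, Frc (cv Fs F D0 b) K AR := by
        intro b
        have h5 : Frc (cv Fs F D0 b) p AR := by
          rw [Frc_prj hF hDp, hD0, prj_self]
          exact hcase
        exact h5.mono (hK.trans hq)
      have e2 := mem_of_Frc hs.anti hAR (hs.dcd AR (by simp)) (cv_mem Fs F D0 b) (k := 0) hs0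
        (hRb b)
      have e3 := mem_of_Frc hs.anti hAR (hs.dcd AR (by simp)) (cv_mem Fs F D0 b') (k := 0) hs0
        (hRb b')
      have e4 := mem_of_Frc hs.anti hAF.compl (hs.dcd AFᶜ (by simp)) (vF_mem F) (k := 0) hs0
        (hqF.mono hK)
      have e5 : ¬ Fi (psi Fs h f (st (cv Fs F D0 b) (lim s)))
          (psi Fs h f (st (cv Fs F D0 b') (lim s))) := by
        intro h0
        apply e4
        show Fi _ _
        rw [rv_cv hF, rv_cv hF]
        exact h0
      refine hinvB _ _ ?_ e2 e3 e5 e1
      simp only [psi, row_join_zero, rv_vF_cv]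
    have c1 : Frc (cv Fs F D0 b') J (A n) := by
      refine hAn (A n) (hA n) ?_ J hJ ?_
      · intro X X' h1 h2 h3 h4 h5
        exact (hinv _ _ h1 h2 h3 h4 n).mp h5
      · rw [hJv]; exact hw3.mono hv
    have c2 : Frc (cv Fs F D0 b') J' (A n)ᶜ := by
      refine hAn (A n)ᶜ (hA n).compl ?_ J' hJ' ?_
      · intro X X' h1 h2 h3 h4 h5 h6
        exact h5 ((hinv _ _ h1 h2 h3 h4 n).mpr h6)
      · rw [hJw]; exact hw'F
    exact not_Frc_both (cv_mem _ _ _ _) (hA n) (c1.retag (hsim.mono (hξA n))) c2

end dich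

end Halin
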