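import Pool.Agent.Helper90.HalinM

/-! Graph theory: rays, havens, paths, Menger. -/

namespace Halin

/-! ### Paths -/

theorem first_hit {r : ℕ → ℕ → Prop} {N T : ℕ → Prop} (hN : ∀ a b, r a b → N b) {x w : ℕ}
    (h : Relation.ReflTransGen r x w) (hT : T w) :
    ∃ L : List ℕ, (L ++ [x]).IsChain (fun a b => r b a) ∧ (L ++ [x]).Nodup ∧ (∀ y ∈ L, N y) ∧
      (∃ t M, L ++ [x] = t :: M ∧ T t ∧ ∀ y ∈ M, ¬ T y) := by
  have key : (∃ L : List ℕ, (L ++ [x]).IsChain (fun a b => r b a) ∧ (L ++ [x]).Nodup ∧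
      (∀ y ∈ L, N y) ∧ (∃ t M, L ++ [x] = t :: M ∧ T t ∧ ∀ y ∈ M, ¬ T y)) ∨
      (∃ L : List ℕ, (L ++ [x]).IsChain (fun a b => r b a) ∧ (L ++ [x]).Nodup ∧
      (∀ y ∈ L, N y) ∧ (L ++ [x]).head? = some w ∧ ∀ y ∈ L ++ [x], ¬ T y) := by
    clear hT
    induction h with
    | refl =>
      by_cases hx : T x
      · left
        exact ⟨[], by simp, by simp, by simp, x, [], rfl, hx, by simp⟩
      · right
        exact ⟨[], by simp, by simp, by simp, by simp, by simpa using hx⟩
    | @tail b c hb hbc ih =>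
      rcases ih with h1 | ⟨L, h1, h2, h3, h4, h5⟩
      · exact Or.inl h1
      · by_cases hc : c ∈ L ++ [x]
        · right
          rcases List.mem_append.mp hc with hcL | hcx
          · obtain ⟨L1, L2, rfl⟩ := List.append_of_mem hcL
            refine ⟨c :: L2, ?_, ?_, ?_, by simp, ?_⟩
            · rw [List.append_assoc] at h1
              exact h1.right_of_append
            · rw [List.append_assoc] at h2
              exact (List.nodup_append.mp h2).2.1
            · intro y hy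
              exact h3 y (by simp only [List.mem_append]; right; exact hy)
            · intro y hy
              apply h5 y
              simp only [List.mem_append, List.mem_cons] at hy ⊢
              tauto
          · have hcx' : c = x := by simpa using hcx
            subst hcx'
            exact ⟨[], by simp, by simp, by simp, by simp, by
              intro y hy
              apply h5 y
              simp only [List.nil_append, List.mem_append] at hy ⊢
              exact Or.inr hy⟩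
        · have hch : ((c :: L) ++ [x]).IsChain (fun a b => r b a) := by
            rw [List.cons_append, List.isChain_cons]
            refine ⟨fun y hy => ?_, h1⟩
            rw [h4] at hy
            cases hy
            exact hbc
          have hnd : ((c :: L) ++ [x]).Nodup := by
            rw [List.cons_append, List.nodup_cons]
            exact ⟨hc, h2⟩
          have hN' : ∀ y ∈ c :: L, N y := by
            intro y hy
            rcases List.mem_cons.mp hy with rfl | hy
            · exact hN _ _ hbc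
            · exact h3 y hy
          by_cases hTc : T c
          · left
            exact ⟨c :: L, hch, hnd, hN', c, L ++ [x], rfl, hTc, h5⟩
          · right
            refine ⟨c :: L, hch, hnd, hN', rfl, ?_⟩
            intro y hy
            rcases List.mem_cons.mp hy with rfl | hy
            · exact hTc
            · exact h5 y hy
  rcases key with h1 | ⟨L, -, -, -, h4, h5⟩
  · exact h1
  · exact absurd hT (h5 w (List.mem_of_mem_head? h4))

/-- Gluing a path to a longer path. -/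
theorem glue {A : ℕ → ℕ → Prop} {L P : List ℕ} {x : ℕ} (hL : (L ++ [x]).IsChain A)
    (hL2 : (L ++ [x]).Nodup) (hP : P.head? = some x) (hP1 : P.IsChain A) (hP2 : P.Nodup)
    (hd : ∀ y ∈ L, y ∉ P.tail) : (L ++ P).IsChain A ∧ (L ++ P).Nodup := by
  obtain ⟨P', rfl⟩ : ∃ P', P = x :: P' := by
    cases P with
    | nil => simp at hP
    | cons a P' => simp only [List.head?_cons, Option.some.injEq] at hP; subst hP; exact ⟨_, rfl⟩
  refine ⟨List.isChain_split.mpr ⟨hL, hP1⟩, ?_⟩
  rw [List.nodup_append]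
  rw [List.nodup_append] at hL2
  refine ⟨hL2.1, hP2, ?_⟩
  intro a ha b hb hab
  subst hab
  rcases List.mem_cons.mp hb with rfl | hb
  · exact hL2.2.2 a ha a (by simp) rfl
  · exact hd a ha hb

/-! ### Rays and limits of paths -/

def IsRay (A : ℕ → ℕ → Prop) (ρ : ℕ → ℕ) : Prop :=
  Function.Injective ρ ∧ ∀ n, A (ρ n) (ρ (n + 1))

/-- The limit of a sequence of paths (newest vertex first). -/
noncomputable def limp (l : ℕ → List ℕ) (k : ℕ) : ℕ :=
  (l (lst (fun m => k < (l m).length))).reverse.getD k 0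

theorem suffix_mono {l : ℕ → List ℕ} (h : ∀ m, l m <:+ l (m + 1)) {m n : ℕ} (hmn : m ≤ n) :
    l m <:+ l n := by
  induction hmn with
  | refl => exact List.suffix_rfl
  | step _ ih => exact ih.trans (h _)

theorem getD_suffix {l l' : List ℕ} (h : l <:+ l') {k : ℕ} (hk : k < l.length) :
    l'.reverse.getD k 0 = l.reverse.getD k 0 := by
  obtain ⟨u, rfl⟩ := h
  rw [List.reverse_append, List.getD_append _ _ _ _ (by simpa using hk)]

theorem limp_eq {l : ℕ → List ℕ} (h : ∀ m, l m <:+ l (m + 1)) {k m : ℕ}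
    (hk : k < (l m).length) : limp l k = (l m).reverse.getD k 0 := by
  have h1 : k < (l (lst (fun m => k < (l m).length))).length :=
    lst_spec (P := fun m => k < (l m).length) ⟨m, hk⟩
  have h2 : lst (fun m => k < (l m).length) ≤ m := lst_le (P := fun m => k < (l m).length) hk
  exact (getD_suffix (suffix_mono h h2) h1).symm

theorem limp_mem {l : ℕ → List ℕ} (h : ∀ m, l m <:+ l (m + 1)) {k m : ℕ}
    (hk : k < (l m).length) : limp l k ∈ l m := by
  rw [limp_eq h hk, List.getD_eq_getElem _ _ (by simpa using hk)]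
  exact List.mem_reverse.mp (List.getElem_mem _)

theorem isRay_limp {A : ℕ → ℕ → Prop} (hA : ∀ u v, A u v → A v u) {l : ℕ → List ℕ}
    (h : ∀ m, l m <:+ l (m + 1)) (hlen : ∀ k, ∃ m, k < (l m).length)
    (hch : ∀ m, (l m).IsChain A) (hnd : ∀ m, (l m).Nodup) : IsRay A (limp l) := by
  constructor
  · intro j k hjk
    obtain ⟨m, hm⟩ := hlen j
    obtain ⟨m', hm'⟩ := hlen k
    have e1 : j < (l (max m m')).length := hm.trans_le
      (suffix_mono h (le_max_left _ _)).length_le
    have e2 : k < (l (max m m')).length := hm'.trans_le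
      (suffix_mono h (le_max_right _ _)).length_le
    rw [limp_eq h e1, limp_eq h e2, List.getD_eq_getElem _ _ (by simpa using e1),
      List.getD_eq_getElem _ _ (by simpa using e2)] at hjk
    exact (List.Nodup.getElem_inj_iff (List.nodup_reverse.mpr (hnd _))).mp hjk
  · intro k
    obtain ⟨m, hm⟩ := hlen (k + 1)
    have hm0 : k < (l m).length := by omega
    rw [limp_eq h hm, limp_eq h hm0, List.getD_eq_getElem _ _ (by simpa using hm0),
      List.getD_eq_getElem _ _ (by simpa using hm)]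
    have h1 : (l m).reverse.IsChain A := by
      rw [List.isChain_reverse]
      exact (hch m).imp (fun a b hab => hA _ _ hab)
    exact List.isChain_iff_getElem.mp h1 k (by simpa using hm)

/-- The last vertices of the approximations are on the limit ray. -/
theorem limp_head {l : ℕ → List ℕ} (h : ∀ m, l m <:+ l (m + 1)) {m : ℕ} {x : ℕ} {P : List ℕ}
    (hx : l m = x :: P) : limp l P.length = x := by
  have hk : P.length < (l m).length := by rw [hx]; simp
  rw [limp_eq h hk, hx]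
  simp

theorem CM_limp {α : Type*} [MeasurableSpace α] {l : α → ℕ → List ℕ}
    (h : ∀ m, CM (fun a => l a m)) (k : ℕ) : CM (fun a => limp (l a) k) := by
  have h1 : CM (fun a => lst (fun m => k < (l a m).length)) :=
    CM.lst fun m => (h m).pred (fun L => k < L.length)
  exact CM.bind h1 (g := fun m a => (l a m).reverse.getD k 0)
    (fun m => (h m).map (fun L => L.reverse.getD k 0))

/-! ### Havens -/

/-- Connectivity outside a finite set (both endpoints are usually outside of it). -/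
def Cn (A : ℕ → ℕ → Prop) (Z : Finset ℕ) (u v : ℕ) : Prop :=
  Relation.ReflTransGen (fun a b => A a b ∧ b ∉ Z) u v

theorem Cn.mono {A : ℕ → ℕ → Prop} {Z Z' : Finset ℕ} (hZ : Z ⊆ Z') {u v : ℕ}
    (h : Cn A Z' u v) : Cn A Z u v := by
  induction h with
  | refl => exact Relation.ReflTransGen.refl
  | tail _ hbc ih => exact Relation.ReflTransGen.tail ih ⟨hbc.1, fun h0 => hbc.2 (hZ h0)⟩

structure IsHaven (A : ℕ → ℕ → Prop) (e : Finset ℕ → ℕ → Prop) : Prop where
  ne : ∀ Z, ∃ v, e Z v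
  out : ∀ Z v, e Z v → v ∉ Z
  adj : ∀ Z v w, e Z v → A v w → w ∉ Z → e Z w
  conn : ∀ Z v w, e Z v → e Z w → Cn A Z v w
  mono : ∀ Z Z' v, Z ⊆ Z' → e Z' v → e Z v

theorem IsHaven.cn {A e} (h : IsHaven A e) {Z : Finset ℕ} {v w : ℕ} (hv : e Z v)
    (hc : Cn A Z v w) : e Z w := by
  induction hc with
  | refl => exact hv
  | tail _ hbc ih => exact h.adj _ _ _ ih hbc.1 hbc.2

theorem IsHaven.avoid {A e} (h : IsHaven A e) {B Y : Finset ℕ} (hY : ∀ y ∈ Y, ¬ e B y) {w : ℕ}
    (hw : e B w) : e (B ∪ Y) w := by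
  obtain ⟨v, hv⟩ := h.ne (B ∪ Y)
  have hvB : e B v := h.mono _ _ _ Finset.subset_union_left hv
  have hc := h.conn B v w hvB hw
  induction hc with
  | refl => exact hv
  | @tail b c hb hbc ih =>
    have h1 := ih (h.cn hvB hb)
    refine h.adj _ _ _ h1 hbc.1 ?_
    rw [Finset.mem_union, not_or]
    exact ⟨hbc.2, fun h0 => hY _ h0 hw⟩

/-- The ray converges to the haven. -/
def Conv (e : Finset ℕ → ℕ → Prop) (ρ : ℕ → ℕ) : Prop := ∀ Z, ∃ N, ∀ n, N ≤ n → e Z (ρ n)

/-- The haven of a ray. -/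
def hv (A : ℕ → ℕ → Prop) (ρ : ℕ → ℕ) (Z : Finset ℕ) (v : ℕ) : Prop :=
  ∃ N, (∀ n, N ≤ n → ρ n ∉ Z) ∧ Cn A Z (ρ N) v

theorem ray_avoid {A ρ} (h : IsRay A ρ) (Z : Finset ℕ) : ∃ N, ∀ n, N ≤ n → ρ n ∉ Z := by
  have : (ρ ⁻¹' (Z : Set ℕ)).Finite := Set.Finite.preimage (h.1.injOn) Z.finite_toSet
  obtain ⟨N, hN⟩ := this.bddAbove
  refine ⟨N + 1, fun n hn h0 => ?_⟩
  have := hN (show n ∈ ρ ⁻¹' (Z : Set ℕ) from h0)
  omega

theorem ray_cn {A ρ} (h : IsRay A ρ) {Z : Finset ℕ} {N : ℕ} (hN : ∀ n, N ≤ n → ρ n ∉ Z)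
    {m n : ℕ} (hm : N ≤ m) (hmn : m ≤ n) : Cn A Z (ρ m) (ρ n) := by
  induction hmn with
  | refl => exact Relation.ReflTransGen.refl
  | @step k hk ih =>
    have hk' : m ≤ k := hk
    exact Relation.ReflTransGen.tail ih ⟨h.2 k, hN _ (by omega)⟩

theorem Cn.symm' {A} (hA : ∀ u v, A u v → A v u) {Z : Finset ℕ} {u v : ℕ} (hu : u ∉ Z)
    (h : Cn A Z u v) : v ∉ Z ∧ Cn A Z v u := by
  induction h with
  | refl => exact ⟨hu, Relation.ReflTransGen.refl⟩
  | @tail b c hb hbc ih =>
    exact ⟨hbc.2, Relation.ReflTransGen.head ⟨hA _ _ hbc.1, ih.1⟩ ih.2⟩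

theorem hv_iff {A ρ} (hA : ∀ u v, A u v → A v u) (h : IsRay A ρ) {Z : Finset ℕ} {v : ℕ}
    {N : ℕ} (hN : ∀ n, N ≤ n → ρ n ∉ Z) : hv A ρ Z v ↔ Cn A Z (ρ N) v := by
  constructor
  · rintro ⟨M, hM, hc⟩
    rcases le_total N M with h1 | h1
    · exact (ray_cn h hN le_rfl h1).trans hc
    · have h2 := ray_cn h hM le_rfl h1
      exact (Cn.symm' hA (hM M le_rfl) h2).2.trans hc
  · intro hc
    exact ⟨N, hN, hc⟩

theorem isHaven_hv {A ρ} (hA : ∀ u v, A u v → A v u) (h : IsRay A ρ) : IsHaven A (hv A ρ) where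
  ne Z := by
    obtain ⟨N, hN⟩ := ray_avoid h Z
    exact ⟨ρ N, N, hN, Relation.ReflTransGen.refl⟩
  out Z v := by
    rintro ⟨N, hN, hc⟩
    exact (Cn.symm' hA (hN N le_rfl) hc).1
  adj Z v w := by
    rintro ⟨N, hN, hc⟩ h1 h2
    exact ⟨N, hN, Relation.ReflTransGen.tail hc ⟨h1, h2⟩⟩
  conn Z v w h1 h2 := by
    obtain ⟨N, hN⟩ := ray_avoid h Z
    rw [hv_iff hA h hN] at h1 h2
    exact (Cn.symm' hA (hN N le_rfl) h1).2.trans h2
  mono Z Z' v hZ h1 := by
    obtain ⟨N, hN, hc⟩ := h1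
    refine ⟨N, fun n hn h0 => hN n hn (hZ h0), ?_⟩
    exact Cn.mono hZ hc

theorem conv_hv {A ρ} (h : IsRay A ρ) : Conv (hv A ρ) ρ := by
  intro Z
  obtain ⟨N, hN⟩ := ray_avoid h Z
  exact ⟨N, fun n hn => ⟨N, hN, ray_cn h hN le_rfl hn⟩⟩

theorem hv_eq_of_conv {A e ρ} (hA : ∀ u v, A u v → A v u) (he : IsHaven A e) (h : IsRay A ρ)
    (hc : Conv e ρ) : hv A ρ = e := by
  funext Z v
  obtain ⟨N, hN⟩ := hc Z
  have hN' : ∀ n, N ≤ n → ρ n ∉ Z := fun n hn => he.out _ _ (hN n hn)
  rw [hv_iff hA h hN']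
  exact propext ⟨fun h1 => he.cn (hN N le_rfl) h1, fun h1 => he.conn _ _ _ (hN N le_rfl) h1⟩

/-- Infinitely many vertices in each component suffice for convergence. -/
theorem conv_of_frequently {A e ρ} (he : IsHaven A e) (h : IsRay A ρ)
    (hc : ∀ Z, ∀ N, ∃ n, N ≤ n ∧ e Z (ρ n)) : Conv e ρ := by
  intro Z
  obtain ⟨N, hN⟩ := ray_avoid h Z
  obtain ⟨n, hn, h1⟩ := hc Z N
  exact ⟨n, fun m hm => he.cn h1 (ray_cn h hN hn hm)⟩

/-- The two sequences have only finitely many terms in common. -/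
def FinInt (ρ ρ' : ℕ → ℕ) : Prop := ∃ N, ∀ n, N ≤ n → ∀ m, ρ n ≠ ρ' m

theorem hv_eq_of_not_finInt {A ρ ρ'} (hA : ∀ u v, A u v → A v u) (h : IsRay A ρ)
    (h' : IsRay A ρ') (hf : ¬ FinInt ρ ρ') : hv A ρ = hv A ρ' := by
  simp only [FinInt] at hf
  push Not at hf
  apply hv_eq_of_conv hA (isHaven_hv hA h') h
  apply conv_of_frequently (isHaven_hv hA h') h
  intro Z N
  obtain ⟨M, hM⟩ := conv_hv h' Z
  -- the indices `n` with `ρ n = ρ' m` for some `m < M` are bounded
  obtain ⟨K, hK⟩ := ray_avoid h ((Finset.range M).image ρ')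
  obtain ⟨n, hn, m, hm⟩ := hf (max N K)
  refine ⟨n, (le_max_left _ _).trans hn, ?_⟩
  rw [hm]
  apply hM
  by_contra h0
  apply hK n ((le_max_right _ _).trans hn)
  rw [hm]
  exact Finset.mem_image_of_mem _ (Finset.mem_range.mpr (not_le.mp h0))

theorem hv_ne_finInt {A ρ ρ'} (hA : ∀ u v, A u v → A v u) (h : IsRay A ρ)
    (h' : IsRay A ρ') (hf : hv A ρ ≠ hv A ρ') : FinInt ρ ρ' := by
  by_contra h0
  exact hf (hv_eq_of_not_finInt hA h h' h0)

end Halin
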