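import Pool.Agent.Helper90.HalinG

/-! Rays from havens, and a form of the theorem of Menger. -/

namespace Halin

/-! ### Borel complexity of connectivity -/

def reach (A : ℕ → ℕ → Prop) (Z : Finset ℕ) (u : ℕ) : ℕ → ℕ → Prop
  | 0, v => u = v
  | n + 1, v => ∃ w, reach A Z u n w ∧ A w v ∧ v ∉ Z

theorem cn_iff_reach {A : ℕ → ℕ → Prop} {Z : Finset ℕ} {u v : ℕ} :
    Cn A Z u v ↔ ∃ n, reach A Z u n v := by
  constructor
  · intro h
    induction h with
    | refl => exact ⟨0, rfl⟩
    | tail _ hbc ih =>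
      obtain ⟨n, hn⟩ := ih
      exact ⟨n + 1, _, hn, hbc.1, hbc.2⟩
  · rintro ⟨n, hn⟩
    induction n generalizing v with
    | zero =>
      have : u = v := hn
      subst this
      exact Relation.ReflTransGen.refl
    | succ n ih =>
      obtain ⟨w, hw, h1, h2⟩ := hn
      exact Relation.ReflTransGen.tail (ih hw) ⟨h1, h2⟩

section
variable {α : Type*} [MeasurableSpace α]

theorem BP_cn {A : α → ℕ → ℕ → Prop} (hA : ∀ u v, BP (fun a => A a u v)) (Z : Finset ℕ)
    (u v : ℕ) : BP (fun a => Cn (A a) Z u v) := by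
  have h : ∀ n v, BP (fun a => reach (A a) Z u n v) := by
    intro n
    induction n with
    | zero => intro v; exact BP.const _
    | succ n ih =>
      intro v
      exact BP.ex fun w => (ih w).and ((hA w v).and (BP.const _))
  exact (BP.ex fun n => h n v).congr fun a => cn_iff_reach.symm

theorem BP_chain {A : α → ℕ → ℕ → Prop} (hA : ∀ u v, BP (fun a => A a u v)) (l : List ℕ) :
    BP (fun a => l.IsChain (A a)) := by
  induction l with
  | nil => exact (BP.const True).congr fun a => by simp
  | cons x l ih =>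
    cases l with
    | nil => exact (BP.const True).congr fun a => by simp
    | cons y l =>
      exact ((hA x y).and ih).congr fun a => by rw [List.isChain_cons_cons]

/-- Rays converging to havens can be chosen in a Borel way. -/
theorem exists_conv_ray {A : α → ℕ → ℕ → Prop} (hA : ∀ u v, BP (fun a => A a u v))
    {e : α → Finset ℕ → ℕ → Prop} (he : ∀ Z v, BP (fun a => e a Z v)) :
    ∃ ρ : α → ℕ → ℕ, Measurable ρ ∧ ∀ a, (∀ u v, A a u v → A a v u) → IsHaven (A a) (e a) →
      IsRay (A a) (ρ a) ∧ Conv (e a) (ρ a) := by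
  let Q : α → List ℕ → Prop := fun a l => l ≠ [] ∧ l.IsChain (A a) ∧ l.Nodup ∧
    e a l.tail.toFinset (l.headD 0)
  let R : ℕ → α → List ℕ → List ℕ → Prop := fun n a l l' =>
    l <:+ l' ∧ l.length < l'.length ∧ e a (Finset.range n) (l'.headD 0)
  have hQ : ∀ l, BP (fun a => Q a l) := fun l =>
    (BP.const _).and ((BP_chain hA l).and ((BP.const _).and (he _ _)))
  have hR : ∀ n l l', BP (fun a => R n a l l') := fun n l l' =>
    (BP.const _).and ((BP.const _).and (he _ _))
  obtain ⟨Φ, hΦ, hΦ2⟩ := borel_dc hQ hR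
  refine ⟨fun a => limp (fun n => Φ n a), ?_, ?_⟩
  · exact measurable_fun_iff.mpr fun k => CM_limp (l := fun a n => Φ n a) hΦ k
  · intro a hs hh
    obtain ⟨h1, h2⟩ := hΦ2 a (by
      obtain ⟨v, hv⟩ := hh.ne ∅
      exact ⟨[v], by simp, by simp, by simp, by simpa using hv⟩) (by
      rintro n l ⟨hl1, hl2, hl3, hl4⟩
      obtain ⟨x, Y, rfl⟩ := List.exists_cons_of_ne_nil hl1
      simp only [List.tail_cons, List.headD_cons] at hl4
      let Y' : Finset ℕ := Y.toFinset ∪ ({x} ∪ Finset.range n)
      obtain ⟨w, hw⟩ := hh.ne Y'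
      have hYY' : Y.toFinset ⊆ Y' := Finset.subset_union_left
      have hwY := hh.mono _ _ _ hYY' hw
      obtain ⟨L, c1, c2, c3, t, M, c4, c5, c6⟩ := first_hit
        (N := fun b => b ∉ Y.toFinset) (T := fun b => e a Y' b) (fun _ _ h => h.2)
        (hh.conn _ _ _ hl4 hwY) hw
      have hxT : ¬ e a Y' x := fun h0 => hh.out _ _ h0 (by simp [Y'])
      obtain ⟨L₁, rfl⟩ : ∃ L₁, L = t :: L₁ := by
        cases L with
        | nil =>
          simp only [List.nil_append, List.cons.injEq] at c4
          exact absurd (c4.1 ▸ c5) hxT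
        | cons t' L₁ =>
          simp only [List.cons_append, List.cons.injEq] at c4
          exact ⟨L₁, by rw [c4.1]⟩
      have hM : M = L₁ ++ [x] := by
        simp only [List.cons_append, List.cons.injEq, true_and] at c4
        exact c4.symm
      have hchL : ((t :: L₁) ++ [x]).IsChain (A a) := c1.imp (fun u v h => hs _ _ h.1)
      obtain ⟨g1, g2⟩ := glue (P := x :: Y) hchL c2 rfl hl2 hl3 (by
        intro y hy
        simp only [List.tail_cons]
        have := c3 y hy
        simpa using this)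
      refine ⟨(t :: L₁) ++ (x :: Y), ⟨by simp, g1, g2, ?_⟩, List.suffix_append _ _, by
        simp, ?_⟩
      · simp only [List.cons_append, List.tail_cons, List.headD_cons]
        refine hh.mono _ (Y' ∪ (L₁ ++ x :: Y).toFinset) _ Finset.subset_union_right ?_
        refine hh.avoid ?_ c5
        intro y hy h0
        simp only [List.toFinset_append, List.toFinset_cons, Finset.mem_union,
          List.mem_toFinset, Finset.mem_insert] at hy
        rcases hy with hy | rfl | hy
        · exact c6 y (by rw [hM]; simp [hy]) h0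
        · exact hxT h0
        · exact hh.out _ _ h0 (hYY' (List.mem_toFinset.mpr hy))
      · simp only [List.cons_append, List.headD_cons]
        refine hh.mono _ Y' _ ?_ c5
        intro y hy
        simp only [Y', Finset.mem_union]
        exact Or.inr (Or.inr hy))
    have hsuf : ∀ m, Φ m a <:+ Φ (m + 1) a := fun m => (h2 m).1
    have hlen : ∀ m, m ≤ (Φ m a).length := by
      intro m
      induction m with
      | zero => exact Nat.zero_le _
      | succ m ih => have := (h2 m).2.1; omega
    have hray : IsRay (A a) (limp (fun n => Φ n a)) :=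
      isRay_limp (l := fun n => Φ n a) hs hsuf
        (fun k => ⟨k + 1, by have := hlen (k + 1); show k < (Φ (k + 1) a).length; omega⟩)
        (fun m => (h1 m).2.1) (fun m => (h1 m).2.2.1)
    refine ⟨hray, conv_of_frequently hh hray ?_⟩
    intro Z N
    obtain ⟨M, hM⟩ : ∃ M, Z ⊆ Finset.range M :=
      ⟨Z.sup id + 1, fun z hz => Finset.mem_range.mpr (Nat.lt_succ_of_le (Finset.le_sup (f := id) hz))⟩
    set m := max M (N + 1) with hm
    obtain ⟨x, P, hP⟩ := List.exists_cons_of_ne_nil (h1 (m + 1)).1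
    refine ⟨P.length, ?_, ?_⟩
    · have h3 := hlen (m + 1)
      rw [hP, List.length_cons] at h3
      have : N + 1 ≤ m := le_max_right _ _
      omega
    · have h4 := limp_head (l := fun n => Φ n a) hsuf (m := m + 1) hP
      show e a Z (limp (fun n => Φ n a) P.length)
      rw [h4]
      have h5 := (h2 m).2.2
      rw [hP, List.headD_cons] at h5
      refine hh.mono _ _ _ ?_ h5
      exact hM.trans (Finset.range_subset_range.mpr (le_max_left _ _))

end

/-! ### Menger -/

theorem finite_reduction {A : ℕ → ℕ → Prop} {X B Y : Finset ℕ}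
    (hsep : ∀ Z : Finset ℕ, Disjoint Z Y → Z.card < X.card →
      ∃ x ∈ X, x ∉ Z ∧ ∃ b ∈ B, Cn A (Z ∪ Y) x b) :
    ∃ n : ℕ, ∀ Z : Finset ℕ, Disjoint Z Y → Z.card < X.card →
      ∃ x ∈ X, x ∉ Z ∧ ∃ b ∈ B, Relation.ReflTransGen
        (fun u v => A u v ∧ v ∈ (Finset.range n ∪ X) \ Y ∧ v ∉ Z) x b := by
  classical
  by_contra hcon
  push Not at hcon
  choose Z hZ1 hZ2 hZ3 using hcon
  let U := Filter.hyperfilter ℕ
  let S : Set ℕ := {v | ∀ᶠ n in (U : Filter ℕ), v ∈ Z n}
  have hT : ∀ T : Finset ℕ, (T : Set ℕ) ⊆ S → T.card < X.card := by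
    intro T hTS
    have : ∀ᶠ n in (U : Filter ℕ), ∀ v ∈ T, v ∈ Z n :=
      (Filter.eventually_all_finset T).mpr fun v hv => hTS hv
    obtain ⟨n, hn⟩ := this.exists
    exact (Finset.card_le_card hn).trans_lt (hZ2 n)
  have hfin : S.Finite := by
    by_contra hinf
    obtain ⟨T, hT1, hT2⟩ := Set.Infinite.exists_subset_card_eq hinf X.card
    have := hT T hT1
    omega
  let Zf := hfin.toFinset
  have hZf : Zf.card < X.card := hT Zf (by simp [Zf])
  have hZY : Disjoint Zf Y := by
    rw [Finset.disjoint_left]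
    intro v hv hvY
    have hv' : ∀ᶠ n in (U : Filter ℕ), v ∈ Z n := by simpa [Zf, S] using hv
    obtain ⟨n, hn⟩ := hv'.exists
    exact Finset.disjoint_left.mp (hZ1 n) hn hvY
  obtain ⟨x, hx, hxZ, b, hb, hc⟩ := hsep Zf hZY hZf
  have hev : ∀ v, v ∉ Zf → ∀ᶠ n in (U : Filter ℕ), v ∉ Z n := by
    intro v hv
    have : ¬ ∀ᶠ n in (U : Filter ℕ), v ∈ Z n := by simpa [Zf, S] using hv
    exact Ultrafilter.eventually_not.mpr this
  have hlt : ∀ v, ∀ᶠ n in (U : Filter ℕ), v < n := by
    intro v
    have : ∀ᶠ n in Filter.atTop, v < n := Filter.eventually_gt_atTop v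
    exact (Nat.hyperfilter_le_atTop) this
  have hpath : ∀ᶠ n in (U : Filter ℕ), Relation.ReflTransGen
      (fun u v => A u v ∧ v ∈ (Finset.range n ∪ X) \ Y ∧ v ∉ Z n) x b := by
    clear hb
    induction hc with
    | refl => exact Filter.Eventually.of_forall fun n => Relation.ReflTransGen.refl
    | @tail c d hcd hd ih =>
      rw [Finset.mem_union, not_or] at hd
      filter_upwards [ih, hev d hd.2.1, hlt d] with n h1 h2 h3
      refine Relation.ReflTransGen.tail h1 ⟨hd.1, ?_, h2⟩
      rw [Finset.mem_sdiff, Finset.mem_union, Finset.mem_range]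
      exact ⟨Or.inl h3, hd.2.2⟩
  obtain ⟨n, h1, h2⟩ := (hpath.and (hev x hxZ)).exists
  exact hZ3 n x hx h2 b hb h1

/-- The part of the orbit of `x` between `1` and `k`, newest first. -/
def orb (F : ℕ → ℕ) (x : ℕ) : ℕ → List ℕ
  | 0 => []
  | k + 1 => F^[k + 1] x :: orb F x k

theorem mem_orb {F : ℕ → ℕ} {x k y : ℕ} : y ∈ orb F x k ↔ ∃ j, 1 ≤ j ∧ j ≤ k ∧ y = F^[j] x := by
  induction k with
  | zero =>
    simp only [orb, List.not_mem_nil, false_iff]
    rintro ⟨j, h1, h2, -⟩
    omega
  | succ k ih =>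
    simp only [orb, List.mem_cons, ih]
    constructor
    · rintro (rfl | ⟨j, h1, h2, h3⟩)
      · exact ⟨k + 1, by omega, le_rfl, rfl⟩
      · exact ⟨j, h1, by omega, h3⟩
    · rintro ⟨j, h1, h2, h3⟩
      rcases Nat.lt_or_ge j (k + 1) with h4 | h4
      · exact Or.inr ⟨j, h1, by omega, h3⟩
      · obtain rfl : j = k + 1 := by omega
        exact Or.inl h3

theorem mem_orb' {F : ℕ → ℕ} {x k y : ℕ} : y ∈ orb F x k ++ [x] ↔ ∃ j, j ≤ k ∧ y = F^[j] x := by
  simp only [List.mem_append, mem_orb, List.mem_singleton]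
  constructor
  · rintro (⟨j, h1, h2, h3⟩ | rfl)
    · exact ⟨j, h2, h3⟩
    · exact ⟨0, Nat.zero_le _, rfl⟩
  · rintro ⟨j, h2, h3⟩
    rcases Nat.eq_zero_or_pos j with rfl | h1
    · exact Or.inr h3
    · exact Or.inl ⟨j, h1, h2, h3⟩

theorem orb_head {F : ℕ → ℕ} {x k : ℕ} : (orb F x k ++ [x]).head? = some (F^[k] x) := by
  cases k with
  | zero => rfl
  | succ k => rfl

/-- The linkage form of the theorem of Menger. -/
theorem linkage {A : ℕ → ℕ → Prop} {X B Y : Finset ℕ} (hXY : Disjoint X Y)
    (hsep : ∀ Z : Finset ℕ, Disjoint Z Y → Z.card < X.card →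
      ∃ x ∈ X, x ∉ Z ∧ ∃ b ∈ B, Cn A (Z ∪ Y) x b) :
    ∃ L : ℕ → List ℕ, ∀ x ∈ X, (L x ++ [x]).IsChain (fun a b => A b a) ∧ (L x ++ [x]).Nodup ∧
      (∀ y ∈ L x, y ∉ Y ∧ y ∉ X) ∧ (∃ t M, L x ++ [x] = t :: M ∧ t ∈ B ∧ ∀ y ∈ M, y ∉ B) ∧
      ∀ x' ∈ X, x ≠ x' → ∀ y ∈ L x, y ∉ L x' := by
  classical
  obtain ⟨n, hn⟩ := finite_reduction hsep
  set V : Finset ℕ := (Finset.range n ∪ X) \ Y with hV
  have hXV : X ⊆ V := by
    intro x hx
    rw [hV, Finset.mem_sdiff, Finset.mem_union]
    exact ⟨Or.inr hx, Finset.disjoint_left.mp hXY hx⟩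
  have hVY : ∀ y ∈ V, y ∉ Y := fun y hy => (Finset.mem_sdiff.mp hy).2
  let ι := {v // v ∈ V \ B}
  let nb : ℕ → Finset ℕ := fun v => insert v (V.filter (fun w => A v w))
  let t : ι → Finset ℕ := fun v => nb v.1 \ X
  have hall : ∀ s : Finset ι, s.card ≤ (s.biUnion t).card := by
    intro s
    by_contra hlt
    push Not at hlt
    let W : Finset ℕ := s.map (Function.Embedding.subtype _)
    have hWc : W.card = s.card := Finset.card_map _
    let NW : Finset ℕ := W.biUnion nb
    have hU : s.biUnion t = NW \ X := by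
      ext y
      simp only [Finset.mem_biUnion, t, Finset.mem_sdiff, NW, W, Finset.mem_map,
        Function.Embedding.subtype_apply]
      constructor
      · rintro ⟨v, hv, h1, h2⟩
        exact ⟨⟨v.1, ⟨v, hv, rfl⟩, h1⟩, h2⟩
      · rintro ⟨⟨_, ⟨v, hv, rfl⟩, h1⟩, h2⟩
        exact ⟨v, hv, h1, h2⟩
    have hWN : W ⊆ NW := by
      intro v hv
      exact Finset.mem_biUnion.mpr ⟨v, hv, Finset.mem_insert_self _ _⟩
    have hWVB : ∀ v ∈ W, v ∈ V ∧ v ∉ B := by
      intro v hv
      simp only [W, Finset.mem_map, Function.Embedding.subtype_apply] at hv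
      obtain ⟨u, -, rfl⟩ := hv
      exact Finset.mem_sdiff.mp u.2
    have hNV : ∀ v ∈ NW, v ∈ V := by
      intro v hv
      obtain ⟨u, hu, h1⟩ := Finset.mem_biUnion.mp hv
      rcases Finset.mem_insert.mp h1 with rfl | h1
      · exact (hWVB _ hu).1
      · exact (Finset.mem_filter.mp h1).1
    let S : Finset ℕ := (NW ∪ X) \ W
    have hS1 : Disjoint S Y := by
      rw [Finset.disjoint_left]
      intro v hv
      have := (Finset.mem_sdiff.mp hv).1
      rcases Finset.mem_union.mp this with h1 | h1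
      · exact hVY _ (hNV _ h1)
      · exact hVY _ (hXV h1)
    have hS2 : S.card < X.card := by
      have e1 : S.card = (NW ∪ X).card - W.card :=
        Finset.card_sdiff_of_subset (hWN.trans Finset.subset_union_left)
      have e2 : (NW ∪ X).card ≤ (NW \ X).card + X.card := by
        rw [← Finset.sdiff_union_self_eq_union]
        exact Finset.card_union_le _ _
      have e3 : W.card ≤ (NW ∪ X).card :=
        Finset.card_le_card (hWN.trans Finset.subset_union_left)
      rw [hU] at hlt
      omega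
    obtain ⟨x, hx, hxS, b, hb, hc⟩ := hn S hS1 hS2
    have hxW : x ∈ W := by
      by_contra h0
      exact hxS (Finset.mem_sdiff.mpr ⟨Finset.mem_union_right _ hx, h0⟩)
    have hbW : b ∈ W := by
      clear hb
      induction hc with
      | refl => exact hxW
      | @tail c d hcd hd ih =>
        by_contra h0
        apply hd.2.2
        refine Finset.mem_sdiff.mpr ⟨Finset.mem_union_left _ ?_, h0⟩
        exact Finset.mem_biUnion.mpr ⟨c, ih, Finset.mem_insert_of_mem
          (Finset.mem_filter.mpr ⟨hd.2.1, hd.1⟩)⟩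
    exact (hWVB b hbW).2 hb
  obtain ⟨f, hf1, hf2⟩ := (Finset.all_card_le_biUnion_card_iff_exists_injective t).mp hall
  let F : ℕ → ℕ := fun v => if h : v ∈ V \ B then f ⟨v, h⟩ else v
  have hF : ∀ v (h : v ∈ V \ B), F v = f ⟨v, h⟩ := fun v h => dif_pos h
  have hFt : ∀ v, v ∈ V → v ∉ B → F v ∈ V ∧ F v ∉ X ∧ (F v = v ∨ A v (F v)) := by
    intro v hv hvB
    have h : v ∈ V \ B := Finset.mem_sdiff.mpr ⟨hv, hvB⟩
    rw [hF v h]
    have h1 := hf2 ⟨v, h⟩
    obtain ⟨h2, h3⟩ := Finset.mem_sdiff.mp h1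
    rcases Finset.mem_insert.mp h2 with h4 | h4
    · refine ⟨?_, h3, Or.inl h4⟩
      rw [h4]; exact hv
    · obtain ⟨h5, h6⟩ := Finset.mem_filter.mp h4
      exact ⟨h5, h3, Or.inr h6⟩
  have hFinj : ∀ v w, v ∈ V → v ∉ B → w ∈ V → w ∉ B → F v = F w → v = w := by
    intro v w h1 h2 h3 h4 h5
    rw [hF v (Finset.mem_sdiff.mpr ⟨h1, h2⟩), hF w (Finset.mem_sdiff.mpr ⟨h3, h4⟩)] at h5
    exact congrArg Subtype.val (hf1 h5)
  have hit : ∀ x ∈ X, ∀ k, (∀ j < k, F^[j] x ∉ B) → F^[k] x ∈ V := by
    intro x hx k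
    induction k with
    | zero => intro _; exact hXV hx
    | succ k ih =>
      intro hk
      have h1 := ih (fun j hj => hk j (by omega))
      rw [Function.iterate_succ_apply']
      exact (hFt _ h1 (hk k (by omega))).1
  have hinj : ∀ a x, x ∈ X → ∀ b x', x' ∈ X → (∀ j < a, F^[j] x ∉ B) →
      (∀ j < b, F^[j] x' ∉ B) → F^[a] x = F^[b] x' → a = b ∧ x = x' := by
    intro a
    induction a with
    | zero =>
      intro x hx b x' hx' _ hb h
      cases b with
      | zero => exact ⟨rfl, h⟩
      | succ b =>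
        exfalso
        rw [Function.iterate_succ_apply'] at h
        have h1 := hit x' hx' b (fun j hj => hb j (by omega))
        have h2 := (hFt _ h1 (hb b (by omega))).2.1
        rw [← h] at h2
        exact h2 hx
    | succ a ih =>
      intro x hx b x' hx' ha hb h
      have ha1 := hit x hx a (fun j hj => ha j (by omega))
      cases b with
      | zero =>
        exfalso
        rw [Function.iterate_succ_apply'] at h
        have h2 := (hFt _ ha1 (ha a (by omega))).2.1
        rw [h] at h2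
        exact h2 hx'
      | succ b =>
        rw [Function.iterate_succ_apply', Function.iterate_succ_apply'] at h
        have h1 := hit x' hx' b (fun j hj => hb j (by omega))
        have h2 := hFinj _ _ ha1 (ha a (by omega)) h1 (hb b (by omega)) h
        obtain ⟨h3, h4⟩ := ih x hx b x' hx' (fun j hj => ha j (by omega))
          (fun j hj => hb j (by omega)) h2
        exact ⟨by omega, h4⟩
  have hreach : ∀ x ∈ X, ∃ k, F^[k] x ∈ B := by
    intro x hx
    by_contra h0
    push Not at h0
    have h1 : Function.Injective (fun k : ℕ => F^[k] x) := fun a b hab =>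
      (hinj a x hx b x hx (fun j _ => h0 j) (fun j _ => h0 j) hab).1
    have h2 : Set.range (fun k : ℕ => F^[k] x) ⊆ (V : Set ℕ) := by
      rintro _ ⟨k, rfl⟩
      exact hit x hx k (fun j _ => h0 j)
    exact Set.infinite_range_of_injective h1 (V.finite_toSet.subset h2)
  let K : ℕ → ℕ := fun x => lst (fun k => F^[k] x ∈ B)
  have hK1 : ∀ x ∈ X, F^[K x] x ∈ B := fun x hx => lst_spec (hreach x hx)
  have hK2 : ∀ x, ∀ j < K x, F^[j] x ∉ B := fun x j hj h0 =>
    absurd (lst_le (P := fun k => F^[k] x ∈ B) h0) (not_le.mpr hj)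
  refine ⟨fun x => orb F x (K x), fun x hx => ⟨?_, ?_, ?_, ?_, ?_⟩⟩
  · have : ∀ k, k ≤ K x → (orb F x k ++ [x]).IsChain (fun a b => A b a) := by
      intro k
      induction k with
      | zero => intro _; simp [orb]
      | succ k ih =>
        intro hk
        have hk' : ∀ j < k, F^[j] x ∉ B := fun j hj => hK2 x j (by omega)
        rw [orb, List.cons_append, List.isChain_cons]
        refine ⟨fun y hy => ?_, ih (by omega)⟩
        rw [orb_head] at hy
        cases hy
        rw [Function.iterate_succ_apply']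
        rcases (hFt _ (hit x hx k hk') (hK2 x k (by omega))).2.2 with h1 | h1
        · exfalso
          have h2 : F^[k + 1] x = F^[k] x := by rw [Function.iterate_succ_apply']; exact h1
          have := (hinj (k + 1) x hx k x hx (fun j hj => hK2 x j (by omega)) hk' h2).1
          omega
        · exact h1
    exact this (K x) le_rfl
  · have : ∀ k, k ≤ K x → (orb F x k ++ [x]).Nodup := by
      intro k
      induction k with
      | zero => intro _; simp [orb]
      | succ k ih =>
        intro hk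
        rw [orb, List.cons_append, List.nodup_cons]
        refine ⟨fun h0 => ?_, ih (by omega)⟩
        obtain ⟨j, hj, h1⟩ := mem_orb'.mp h0
        have := (hinj (k + 1) x hx j x hx (fun j hj => hK2 x j (by omega))
          (fun j hj => hK2 x j (by omega)) h1).1
        omega
    exact this (K x) le_rfl
  · intro y hy
    obtain ⟨j, h1, h2, rfl⟩ := mem_orb.mp hy
    obtain ⟨j, rfl⟩ : ∃ i, j = i + 1 := ⟨j - 1, by omega⟩
    rw [Function.iterate_succ_apply']
    have h3 := hFt _ (hit x hx j (fun i hi => hK2 x i (by omega))) (hK2 x j (by omega))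
    exact ⟨hVY _ h3.1, h3.2.1⟩
  · cases hKx : K x with
    | zero =>
      refine ⟨x, [], by simp [orb, hKx], ?_, by simp⟩
      have := hK1 x hx
      rwa [hKx] at this
    | succ k =>
      refine ⟨F^[k + 1] x, orb F x k ++ [x], by simp [orb, hKx], ?_, ?_⟩
      · have := hK1 x hx
        rwa [hKx] at this
      · intro y hy
        obtain ⟨j, hj, rfl⟩ := mem_orb'.mp hy
        exact hK2 x j (by omega)
  · intro x' hx' hne y hy hy'
    obtain ⟨j, h1, h2, rfl⟩ := mem_orb.mp hy
    obtain ⟨j', h1', h2', h3⟩ := mem_orb.mp hy'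
    exact hne (hinj j x hx j' x' hx' (fun i hi => hK2 x i (by omega))
      (fun i hi => hK2 x' i (by omega)) h3).2

end Halin
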