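import Pool.Agent.Helper90.HalinH

/-! Infinite families of disjoint rays from a haven. -/

namespace Halin

/-- Pairwise disjoint rays converging to the haven. -/
def Rays (A : ℕ → ℕ → Prop) (e : Finset ℕ → ℕ → Prop) (k : ℕ) (ρ : ℕ → ℕ → ℕ) : Prop :=
  (∀ i < k, IsRay A (ρ i) ∧ Conv e (ρ i)) ∧ ∀ i < k, ∀ j < k, i ≠ j → ∀ m m', ρ i m ≠ ρ j m'

def Xs (n : ℕ) (P : ℕ → List ℕ) : Finset ℕ := (Finset.range n).image (fun i => (P i).headD 0)
def Ys (n : ℕ) (P : ℕ → List ℕ) : Finset ℕ :=
  (Finset.range n).biUnion (fun i => (P i).tail.toFinset)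

/-- A system of `n` disjoint finite paths (newest vertices first). -/
structure Sys (A : ℕ → ℕ → Prop) (n : ℕ) (P : ℕ → List ℕ) : Prop where
  ne : ∀ i < n, P i ≠ []
  ch : ∀ i < n, (P i).IsChain A
  nd : ∀ i < n, (P i).Nodup
  dj : ∀ i < n, ∀ j < n, i ≠ j → ∀ y ∈ P i, y ∉ P j

/-- The heads are linked to the haven. -/
def Good (e : Finset ℕ → ℕ → Prop) (n : ℕ) (P : ℕ → List ℕ) : Prop :=
  ∀ Z : Finset ℕ, Disjoint Z (Ys n P) → Z.card < n →
    ∃ i < n, (P i).headD 0 ∉ Z ∧ e (Z ∪ Ys n P) ((P i).headD 0)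

theorem mem_Ys {n : ℕ} {P : ℕ → List ℕ} {y : ℕ} : y ∈ Ys n P ↔ ∃ i < n, y ∈ (P i).tail := by
  simp [Ys]

theorem mem_Xs {n : ℕ} {P : ℕ → List ℕ} {y : ℕ} : y ∈ Xs n P ↔ ∃ i < n, y = (P i).headD 0 := by
  simp only [Xs, Finset.mem_image, Finset.mem_range]
  constructor
  · rintro ⟨i, hi, rfl⟩; exact ⟨i, hi, rfl⟩
  · rintro ⟨i, hi, rfl⟩; exact ⟨i, hi, rfl⟩

theorem Sys.headD_mem {A n P} (h : Sys A n P) {i : ℕ} (hi : i < n) : (P i).headD 0 ∈ P i := by
  obtain ⟨x, L, hx⟩ := List.exists_cons_of_ne_nil (h.ne i hi)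
  rw [hx]; simp

theorem Sys.mem_cases {A n P} (h : Sys A n P) {i : ℕ} (hi : i < n) {y : ℕ} (hy : y ∈ P i) :
    y ∈ Xs n P ∨ y ∈ Ys n P := by
  obtain ⟨x, L, hx⟩ := List.exists_cons_of_ne_nil (h.ne i hi)
  rw [hx] at hy
  rcases List.mem_cons.mp hy with rfl | hy
  · left; exact mem_Xs.mpr ⟨i, hi, by rw [hx]; rfl⟩
  · right; exact mem_Ys.mpr ⟨i, hi, by rw [hx]; exact hy⟩

theorem Sys.disj {A n P} (h : Sys A n P) : Disjoint (Xs n P) (Ys n P) := by
  rw [Finset.disjoint_left]
  intro y hy hy'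
  obtain ⟨i, hi, rfl⟩ := mem_Xs.mp hy
  obtain ⟨j, hj, h1⟩ := mem_Ys.mp hy'
  by_cases hij : i = j
  · subst hij
    obtain ⟨x, L, hx⟩ := List.exists_cons_of_ne_nil (h.ne i hi)
    have h2 := h.nd i hi
    rw [hx] at h1 h2
    exact (List.nodup_cons.mp h2).1 h1
  · exact h.dj i hi j hj hij _ (h.headD_mem hi) (List.mem_of_mem_tail h1)

theorem Sys.card {A n P} (h : Sys A n P) : (Xs n P).card = n := by
  rw [Xs, Finset.card_image_of_injOn, Finset.card_range]
  intro i hi j hj hij
  simp only [Finset.coe_range, Set.mem_Iio] at hi hj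
  by_contra hne
  have h1 := h.headD_mem hi
  have h2 := h.headD_mem hj
  simp only at hij
  rw [hij] at h1
  exact h.dj i hi j hj hne _ h1 h2

section und
variable {A : ℕ → ℕ → Prop} {e : Finset ℕ → ℕ → Prop}

theorem exists_sep (he : IsHaven A e) (hund : ∀ d, ∃ Z : Finset ℕ, d ∉ Z ∧ ¬ e Z d)
    (A₀ : Finset ℕ) : ∃ B : Finset ℕ, Disjoint B A₀ ∧ ∀ a ∈ A₀, ¬ e B a := by
  classical
  choose Zd hZ1 hZ2 using hund
  let Z : Finset ℕ := A₀.biUnion Zd
  have hZ : ∀ a ∈ A₀, Zd a ⊆ Z := fun a ha => Finset.subset_biUnion_of_mem Zd ha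
  refine ⟨Z \ A₀, Finset.sdiff_disjoint, ?_⟩
  have hstep : ∀ w, e Z w → ∀ y, A w y → y ∉ Z \ A₀ → e Z y := by
    intro w hw y hwy hy
    by_cases hyZ : y ∈ Z
    · exfalso
      have hyA : y ∈ A₀ := by
        by_contra h0
        exact hy (Finset.mem_sdiff.mpr ⟨hyZ, h0⟩)
      exact hZ2 y (he.adj _ _ _ (he.mono _ _ _ (hZ y hyA) hw) hwy (hZ1 y))
    · exact he.adj _ _ _ hw hwy hyZ
  intro a ha h0
  obtain ⟨w, hw⟩ := he.ne Z
  have hwB : e (Z \ A₀) w := he.mono _ _ _ Finset.sdiff_subset hw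
  have hc := he.conn _ _ _ hwB h0
  have : e Z a := by
    clear h0 ha
    induction hc with
    | refl => exact hw
    | tail _ hbc ih => exact hstep _ ih _ hbc.1 hbc.2
  exact hZ2 a (he.mono _ _ _ (hZ a ha) this)

theorem exists_min_sep (he : IsHaven A e) (hund : ∀ d, ∃ Z : Finset ℕ, d ∉ Z ∧ ¬ e Z d)
    (A₀ : Finset ℕ) : ∃ B : Finset ℕ, Disjoint B A₀ ∧ (∀ a ∈ A₀, ¬ e B a) ∧
      ∀ B' : Finset ℕ, Disjoint B' A₀ → (∀ a ∈ A₀, ¬ e B' a) → B.card ≤ B'.card := by
  classical
  have h : ∃ n, ∃ B : Finset ℕ, Disjoint B A₀ ∧ (∀ a ∈ A₀, ¬ e B a) ∧ B.card = n := by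
    obtain ⟨B, h1, h2⟩ := exists_sep he hund A₀
    exact ⟨_, B, h1, h2, rfl⟩
  obtain ⟨B, h1, h2, h3⟩ := lst_spec h
  refine ⟨B, h1, h2, fun B' h1' h2' => ?_⟩
  rw [h3]
  exact lst_le (P := fun n => ∃ B : Finset ℕ, Disjoint B A₀ ∧ (∀ a ∈ A₀, ¬ e B a) ∧ B.card = n)
    ⟨B', h1', h2', rfl⟩

theorem good_of_min (he : IsHaven A e) {A₀ B X Y : Finset ℕ} (hB : Disjoint B A₀)
    (hB2 : ∀ a ∈ A₀, ¬ e B a)
    (hmin : ∀ B' : Finset ℕ, Disjoint B' A₀ → (∀ a ∈ A₀, ¬ e B' a) → B.card ≤ B'.card)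
    (hX : X ⊆ B) (hXY : Disjoint X Y) (hY : ∀ y ∈ Y, ¬ e B y) {Z : Finset ℕ}
    (hc : Z.card < X.card) : ∃ x ∈ X, x ∉ Z ∧ e (Z ∪ Y) x := by
  classical
  by_contra hcon
  push Not at hcon
  let B' : Finset ℕ := (B \ X) ∪ Z.filter (fun z => z ∈ B ∨ e B z)
  have h1 : Disjoint B' A₀ := by
    rw [Finset.disjoint_left]
    intro y hy hyA
    rcases Finset.mem_union.mp hy with h | h
    · exact Finset.disjoint_left.mp hB (Finset.mem_sdiff.mp h).1 hyA
    · rcases (Finset.mem_filter.mp h).2 with h | h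
      · exact Finset.disjoint_left.mp hB h hyA
      · exact hB2 y hyA h
  have h2 : B'.card < B.card := by
    have e1 : B'.card ≤ (B \ X).card + Z.card :=
      (Finset.card_union_le _ _).trans (Nat.add_le_add_left (Finset.card_filter_le _ _) _)
    have e2 : (B \ X).card = B.card - X.card := Finset.card_sdiff_of_subset hX
    have e3 := Finset.card_le_card hX
    omega
  have h3 : ∃ a ∈ A₀, e B' a := by
    by_contra h0
    push Not at h0
    exact absurd (hmin B' h1 h0) (not_le.mpr h2)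
  obtain ⟨a, ha, haB⟩ := h3
  have hsub : B' ⊆ B ∪ Z := by
    intro y hy
    rcases Finset.mem_union.mp hy with h | h
    · exact Finset.mem_union_left _ (Finset.mem_sdiff.mp h).1
    · exact Finset.mem_union_right _ (Finset.mem_filter.mp h).1
  have hstep : ∀ w, e (B ∪ Z) w → ∀ y, A w y → y ∉ B' → e (B ∪ Z) y := by
    intro w hw y hwy hy
    by_cases hyBZ : y ∈ B ∪ Z
    · exfalso
      have hwB : e B w := he.mono _ _ _ Finset.subset_union_left hw
      by_cases hyB : y ∈ B
      · have hyX : y ∈ X := by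
          by_contra h0
          exact hy (Finset.mem_union_left _ (Finset.mem_sdiff.mpr ⟨hyB, h0⟩))
        have hyZ : y ∉ Z := by
          intro h0
          exact hy (Finset.mem_union_right _ (Finset.mem_filter.mpr ⟨h0, Or.inl hyB⟩))
        apply hcon y hyX hyZ
        have h4 : e ((B ∪ Z) ∪ Y) w := he.avoid (fun y' hy' h0 =>
          hY y' hy' (he.mono _ _ _ Finset.subset_union_left h0)) hw
        have h5 : e (Z ∪ Y) w := by
          refine he.mono _ _ _ ?_ h4
          intro v hv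
          rcases Finset.mem_union.mp hv with h | h
          · exact Finset.mem_union_left _ (Finset.mem_union_right _ h)
          · exact Finset.mem_union_right _ h
        refine he.adj _ _ _ h5 hwy ?_
        rw [Finset.mem_union, not_or]
        exact ⟨hyZ, Finset.disjoint_left.mp hXY hyX⟩
      · have hyZ : y ∈ Z := by
          rcases Finset.mem_union.mp hyBZ with h | h
          · exact absurd h hyB
          · exact h
        exact hy (Finset.mem_union_right _ (Finset.mem_filter.mpr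
          ⟨hyZ, Or.inr (he.adj _ _ _ hwB hwy hyB)⟩))
    · exact he.adj _ _ _ hw hwy hyBZ
  obtain ⟨w, hw⟩ := he.ne (B ∪ Z)
  have hc2 := he.conn _ _ _ (he.mono _ _ _ hsub hw) haB
  have : e (B ∪ Z) a := by
    clear haB ha
    induction hc2 with
    | refl => exact hw
    | tail _ hbc ih => exact hstep _ ih _ hbc.1 hbc.2
  exact hB2 a ha (he.mono _ _ _ Finset.subset_union_left this)

theorem card_sep (hA : ∀ u v, A u v → A v u) (he : IsHaven A e) {k : ℕ} {ρ : ℕ → ℕ → ℕ}
    (hρ : Rays A e k ρ) {B : Finset ℕ} (hB : ∀ i < k, ρ i 0 ∉ B ∧ ¬ e B (ρ i 0)) :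
    k ≤ B.card := by
  classical
  have h1 : ∀ i, ∃ t, i < k → ρ i t ∈ B := by
    intro i
    by_cases hi : i < k
    · by_contra h0
      push Not at h0
      have h2 : ∀ t, 0 ≤ t → ρ i t ∉ B := fun t _ => (h0 t).2
      obtain ⟨N, hN⟩ := (hρ.1 i hi).2 B
      have h3 := ray_cn (hρ.1 i hi).1 h2 le_rfl (Nat.zero_le N)
      have h4 := (Cn.symm' hA (hB i hi).1 h3).2
      exact (hB i hi).2 (he.cn (hN N le_rfl) h4)
    · exact ⟨0, fun h => absurd h hi⟩
  choose t ht using h1
  have : (Finset.range k).card ≤ B.card := by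
    refine Finset.card_le_card_of_injOn (fun i => ρ i (t i)) ?_ ?_
    · intro i hi
      exact ht i (Finset.mem_range.mp hi)
    · intro i hi j hj hij
      by_contra hne
      exact hρ.2 i (by simpa using hi) j (by simpa using hj) hne _ _ hij
  simpa using this

theorem no_cross (hA : ∀ u v, A u v → A v u) (he : IsHaven A e) {B : Finset ℕ} {M : List ℕ}
    (hch : M.IsChain (fun a b => A b a)) (hB : ∀ y ∈ M, y ∉ B)
    (hl : ∀ x, M.getLast? = some x → ¬ e B x) : ∀ y ∈ M, ¬ e B y := by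
  induction M with
  | nil => simp
  | cons y M ih =>
    cases M with
    | nil =>
      intro z hz
      have : z = y := by simpa using hz
      subst this
      exact hl z (by simp)
    | cons z M =>
      have ih' := ih (List.isChain_cons_cons.mp hch).2
        (fun v hv => hB v (List.mem_cons_of_mem _ hv))
        (fun x hx => hl x (by simpa using hx))
      intro v hv
      rcases List.mem_cons.mp hv with rfl | hv
      · intro h0
        have h1 := (List.isChain_cons_cons.mp hch).1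
        exact ih' z (by simp) (he.adj _ _ _ h0 (hA _ _ h1) (hB z (by simp)))
      · exact ih' v hv

open Classical in
theorem stepU (hA : ∀ u v, A u v → A v u) (he : IsHaven A e)
    (hund : ∀ d, ∃ Z : Finset ℕ, d ∉ Z ∧ ¬ e Z d) (hk : ∀ k, ∃ ρ, Rays A e k ρ)
    {n : ℕ} {P : ℕ → List ℕ} (hS : Sys A n P) (hG : Good e n P) :
    ∃ P', Sys A (n + 1) P' ∧ Good e (n + 1) P' ∧ ∀ i < n, P i <:+ P' i ∧ P i ≠ P' i := by
  obtain ⟨ρ, hρ⟩ := hk (n + 1)
  let A₀ : Finset ℕ := Xs n P ∪ (Ys n P ∪ (Finset.range (n + 1)).image (fun j => ρ j 0))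
  have hXA : ∀ x ∈ Xs n P, x ∈ A₀ := fun x hx => Finset.mem_union_left _ hx
  have hYA : ∀ x ∈ Ys n P, x ∈ A₀ := fun x hx =>
    Finset.mem_union_right _ (Finset.mem_union_left _ hx)
  have hRA : ∀ i < n + 1, ρ i 0 ∈ A₀ := fun i hi =>
    Finset.mem_union_right _ (Finset.mem_union_right _
      (Finset.mem_image_of_mem (fun j => ρ j 0) (Finset.mem_range.mpr hi)))
  obtain ⟨B, hB1, hB2, hB3⟩ := exists_min_sep he hund A₀
  have hAB : ∀ a ∈ A₀, a ∉ B := fun a ha h0 => Finset.disjoint_left.mp hB1 h0 ha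
  have hcard : n + 1 ≤ B.card :=
    card_sep hA he hρ (fun i hi => ⟨hAB _ (hRA i hi), hB2 _ (hRA i hi)⟩)
  have hsep : ∀ Z : Finset ℕ, Disjoint Z (Ys n P) → Z.card < (Xs n P).card →
      ∃ x ∈ Xs n P, x ∉ Z ∧ ∃ b ∈ B, Cn A (Z ∪ Ys n P) x b := by
    intro Z hZ hc
    rw [hS.card] at hc
    obtain ⟨i, hi, h1, h2⟩ := hG Z hZ hc
    set x := (P i).headD 0 with hx
    have hxX : x ∈ Xs n P := mem_Xs.mpr ⟨i, hi, rfl⟩
    refine ⟨x, hxX, h1, ?_⟩
    by_contra h0
    push Not at h0
    obtain ⟨w, hw⟩ := he.ne ((Z ∪ Ys n P) ∪ B)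
    have hw1 : e (Z ∪ Ys n P) w := he.mono _ _ _ Finset.subset_union_left hw
    have hc1 := he.conn _ _ _ h2 hw1
    have hc2 : Cn A ((Z ∪ Ys n P) ∪ B) x w := by
      clear hw hw1
      induction hc1 with
      | refl => exact Relation.ReflTransGen.refl
      | @tail c d hc hd ih =>
        refine Relation.ReflTransGen.tail ih ⟨hd.1, ?_⟩
        rw [Finset.mem_union, not_or]
        exact ⟨hd.2, fun hdB => h0 d hdB (Relation.ReflTransGen.tail hc hd)⟩
    have hxZ : x ∉ (Z ∪ Ys n P) ∪ B := by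
      rw [Finset.mem_union, not_or]
      exact ⟨he.out _ _ h2, hAB _ (hXA _ hxX)⟩
    have h3 := he.cn hw (Cn.symm' hA hxZ hc2).2
    exact hB2 x (hXA _ hxX) (he.mono _ _ _ Finset.subset_union_right h3)
  obtain ⟨L, hL⟩ := linkage hS.disj hsep
  -- heads
  let x : ℕ → ℕ := fun i => (P i).headD 0
  have hxX : ∀ i < n, x i ∈ Xs n P := fun i hi => mem_Xs.mpr ⟨i, hi, rfl⟩
  have hxne : ∀ i < n, ∀ j < n, i ≠ j → x i ≠ x j := by
    intro i hi j hj hij h0
    have h1 : x i ∈ P i := hS.headD_mem hi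
    have h2 : x j ∈ P j := hS.headD_mem hj
    rw [← h0] at h2
    exact hS.dj i hi j hj hij _ h1 h2
  have hPA : ∀ i < n, ∀ y ∈ P i, y ∈ A₀ := by
    intro i hi y hy
    rcases hS.mem_cases hi hy with h | h
    · exact hXA _ h
    · exact hYA _ h
  -- the paths end in `B`
  have hLx : ∀ i < n, ∃ t L₁, L (x i) = t :: L₁ ∧ t ∈ B ∧ ∀ y ∈ L₁ ++ [x i], y ∉ B := by
    intro i hi
    obtain ⟨-, -, -, ⟨t, M, h1, h2, h3⟩, -⟩ := hL (x i) (hxX i hi)
    cases hLi : L (x i) with
    | nil =>
      rw [hLi] at h1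
      simp only [List.nil_append, List.cons.injEq] at h1
      exact absurd (h1.1 ▸ h2) (hAB _ (hXA _ (hxX i hi)))
    | cons t' L₁ =>
      rw [hLi] at h1
      simp only [List.cons_append, List.cons.injEq] at h1
      obtain ⟨rfl, rfl⟩ := h1
      exact ⟨t', L₁, rfl, h2, h3⟩
  choose! t L₁ hLt htB hL₁ using hLx
  obtain ⟨b, hbB, hbt⟩ : ∃ b ∈ B, b ∉ (Finset.range n).image t := by
    by_contra h0
    push Not at h0
    have h1 : B ⊆ (Finset.range n).image t := h0
    have h2 := (Finset.card_le_card h1).trans Finset.card_image_le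
    rw [Finset.card_range] at h2
    omega
  let P' : ℕ → List ℕ := fun i => if i < n then L (x i) ++ P i else [b]
  have hP' : ∀ i < n, P' i = L (x i) ++ P i := fun i hi => if_pos hi
  have hP'n : P' n = [b] := if_neg (lt_irrefl n)
  have hhead : ∀ i < n, (P i).head? = some (x i) := by
    intro i hi
    obtain ⟨x', P₁, hx'⟩ := List.exists_cons_of_ne_nil (hS.ne i hi)
    simp only [x, hx']
    rfl
  have hglue : ∀ i < n, (L (x i) ++ P i).IsChain A ∧ (L (x i) ++ P i).Nodup := by
    intro i hi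
    obtain ⟨h1, h2, h3, -, -⟩ := hL (x i) (hxX i hi)
    refine glue (h1.imp (fun u v h => hA _ _ h)) h2 (hhead i hi) (hS.ch i hi) (hS.nd i hi) ?_
    intro y hy h0
    exact (h3 y hy).1 (mem_Ys.mpr ⟨i, hi, h0⟩)
  have hbP : ∀ i < n, b ∉ P' i := by
    intro i hi h0
    rw [hP' i hi] at h0
    rcases List.mem_append.mp h0 with h | h
    · rw [hLt i hi] at h
      rcases List.mem_cons.mp h with h | h
      · apply hbt
        rw [h]
        exact Finset.mem_image_of_mem t (Finset.mem_range.mpr hi)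
      · exact hL₁ i hi b (List.mem_append_left _ h) hbB
    · exact hAB _ (hPA i hi b h) hbB
  have hS' : Sys A (n + 1) P' := by
    refine ⟨?_, ?_, ?_, ?_⟩
    · intro i hi
      rcases Nat.lt_or_ge i n with h | h
      · rw [hP' i h]
        simp [hS.ne i h]
      · obtain rfl : i = n := by omega
        rw [hP'n]; simp
    · intro i hi
      rcases Nat.lt_or_ge i n with h | h
      · rw [hP' i h]; exact (hglue i h).1
      · obtain rfl : i = n := by omega
        rw [hP'n]; simp
    · intro i hi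
      rcases Nat.lt_or_ge i n with h | h
      · rw [hP' i h]; exact (hglue i h).2
      · obtain rfl : i = n := by omega
        rw [hP'n]; simp
    · intro i hi j hj hij y hy hy'
      rcases Nat.lt_or_ge i n with h | h
      · rcases Nat.lt_or_ge j n with h' | h'
        · rw [hP' i h] at hy
          rw [hP' j h'] at hy'
          obtain ⟨-, -, a3, -, a5⟩ := hL (x i) (hxX i h)
          obtain ⟨-, -, b3, -, -⟩ := hL (x j) (hxX j h')
          rcases List.mem_append.mp hy with c | c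
          · rcases List.mem_append.mp hy' with d | d
            · exact a5 (x j) (hxX j h') (hxne i h j h' hij) y c d
            · rcases hS.mem_cases h' d with f | f
              · exact (a3 y c).2 f
              · exact (a3 y c).1 f
          · rcases List.mem_append.mp hy' with d | d
            · rcases hS.mem_cases h c with f | f
              · exact (b3 y d).2 f
              · exact (b3 y d).1 f
            · exact hS.dj i h j h' hij y c d
        · obtain rfl : j = n := by omega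
          rw [hP'n] at hy'
          have : y = b := by simpa using hy'
          subst this
          exact hbP i h hy
      · obtain rfl : i = n := by omega
        rw [hP'n] at hy
        have : y = b := by simpa using hy
        subst this
        have h' : j < i := by omega
        exact hbP j h' hy'
  refine ⟨P', hS', ?_, ?_⟩
  · intro Z hZ hZc
    have hXB : Xs (n + 1) P' ⊆ B := by
      intro y hy
      obtain ⟨i, hi, rfl⟩ := mem_Xs.mp hy
      rcases Nat.lt_or_ge i n with h | h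
      · rw [hP' i h, hLt i h]
        simpa using htB i h
      · obtain rfl : i = n := by omega
        rw [hP'n]; simpa using hbB
    have hYB : ∀ y ∈ Ys (n + 1) P', ¬ e B y := by
      intro y hy
      obtain ⟨i, hi, h1⟩ := mem_Ys.mp hy
      rcases Nat.lt_or_ge i n with h | h
      · rw [hP' i h, hLt i h] at h1
        simp only [List.cons_append, List.tail_cons] at h1
        rcases List.mem_append.mp h1 with h2 | h2
        · have hch := (hL (x i) (hxX i h)).1
          rw [hLt i h, List.cons_append] at hch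
          refine no_cross hA he (M := L₁ i ++ [x i]) hch.tail (hL₁ i h) ?_ y
            (List.mem_append_left _ h2)
          intro z hz
          simp only [List.getLast?_append, List.getLast?_singleton, Option.some_or,
            Option.some.injEq] at hz
          subst hz
          exact hB2 _ (hXA _ (hxX i h))
        · exact hB2 _ (hPA i h y h2)
      · obtain rfl : i = n := by omega
        rw [hP'n] at h1
        simp at h1
    rw [← hS'.card] at hZc
    obtain ⟨y, hy, h1, h2⟩ := good_of_min he hB1 hB2 hB3 hXB hS'.disj hYB hZc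
    obtain ⟨i, hi, rfl⟩ := mem_Xs.mp hy
    exact ⟨i, hi, h1, h2⟩
  · intro i hi
    rw [hP' i hi]
    refine ⟨List.suffix_append _ _, fun h0 => ?_⟩
    have := congrArg List.length h0
    rw [hLt i hi] at this
    simp at this
    omega

end und

/-! ### Infinitely many dominating vertices -/

/-- The vertex dominates the haven. -/
def Dm (e : Finset ℕ → ℕ → Prop) (d : ℕ) : Prop := ∀ Z : Finset ℕ, d ∉ Z → e Z d

def Vs (n : ℕ) (P : ℕ → List ℕ) : Finset ℕ := (Finset.range n).biUnion (fun i => (P i).toFinset)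

theorem mem_Vs {n : ℕ} {P : ℕ → List ℕ} {y : ℕ} : y ∈ Vs n P ↔ ∃ i < n, y ∈ P i := by
  simp [Vs]

open Classical in
theorem extendD {A : ℕ → ℕ → Prop} {e : Finset ℕ → ℕ → Prop} (hA : ∀ u v, A u v → A v u)
    (he : IsHaven A e) (hD : ∀ m, ∃ d, m ≤ d ∧ Dm e d) {n : ℕ} {P : ℕ → List ℕ}
    (hS : Sys A n P) (hP : ∀ i < n, Dm e ((P i).headD 0)) (i₀ : ℕ) :
    ∃ P', Sys A n P' ∧ (∀ i < n, Dm e ((P' i).headD 0)) ∧
      ∀ i < n, P i <:+ P' i ∧ (i = i₀ → P i ≠ P' i) := by
  by_cases hi₀ : i₀ < n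
  swap
  · exact ⟨P, hS, hP, fun i hi => ⟨List.suffix_rfl, fun h0 => absurd (h0 ▸ hi) hi₀⟩⟩
  obtain ⟨d, hd1, hd2⟩ := hD ((Vs n P).sup id + 1)
  have hdV : d ∉ Vs n P := by
    intro h0
    have := Finset.le_sup (f := id) h0
    simp only [id] at this
    omega
  set x := (P i₀).headD 0 with hx
  have hxP : x ∈ P i₀ := hS.headD_mem hi₀
  have hxV : x ∈ Vs n P := mem_Vs.mpr ⟨i₀, hi₀, hxP⟩
  let Z : Finset ℕ := (Vs n P).erase x
  have hxZ : x ∉ Z := Finset.notMem_erase _ _
  have hdZ : d ∉ Z := fun h0 => hdV (Finset.mem_of_mem_erase h0)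
  have hdx : d ≠ x := fun h0 => hdV (h0 ▸ hxV)
  have hc := he.conn Z x d (hP i₀ hi₀ Z hxZ) (hd2 Z hdZ)
  obtain ⟨L, c1, c2, c3, t, M, c4, c5, c6⟩ := first_hit
    (N := fun b => b ∉ Z) (T := fun b => b = d) (fun _ _ h => h.2) hc rfl
  subst c5
  have hhead : (P i₀).head? = some x := by
    obtain ⟨x', P₁, hx'⟩ := List.exists_cons_of_ne_nil (hS.ne i₀ hi₀)
    simp only [hx, hx']
    rfl
  have hLV : ∀ y ∈ L, y ∉ Vs n P := by
    intro y hy h0
    apply c3 y hy
    refine Finset.mem_erase.mpr ⟨?_, h0⟩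
    rintro rfl
    rw [List.nodup_append] at c2
    exact c2.2.2 _ hy _ (List.mem_singleton_self _) rfl
  obtain ⟨L₁, rfl⟩ : ∃ L₁, L = t :: L₁ := by
    cases L with
    | nil =>
      simp only [List.nil_append, List.cons.injEq] at c4
      exact absurd c4.1.symm hdx
    | cons t' L₁ =>
      simp only [List.cons_append, List.cons.injEq] at c4
      exact ⟨L₁, by rw [c4.1]⟩
  have hgl := glue (P := P i₀) (c1.imp (fun u v h => hA _ _ h.1)) c2 hhead (hS.ch i₀ hi₀)
    (hS.nd i₀ hi₀) (fun y hy h0 => hLV y hy (mem_Vs.mpr ⟨i₀, hi₀, List.mem_of_mem_tail h0⟩))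
  let P' : ℕ → List ℕ := Function.update P i₀ ((t :: L₁) ++ P i₀)
  have hP'0 : P' i₀ = (t :: L₁) ++ P i₀ := Function.update_self _ _ _
  have hP'1 : ∀ i, i ≠ i₀ → P' i = P i := fun i hi => Function.update_of_ne hi _ _
  refine ⟨P', ⟨?_, ?_, ?_, ?_⟩, ?_, ?_⟩
  · intro i hi
    by_cases h : i = i₀
    · subst h; rw [hP'0]; simp
    · rw [hP'1 i h]; exact hS.ne i hi
  · intro i hi
    by_cases h : i = i₀
    · subst h; rw [hP'0]; exact hgl.1
    · rw [hP'1 i h]; exact hS.ch i hi
  · intro i hi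
    by_cases h : i = i₀
    · subst h; rw [hP'0]; exact hgl.2
    · rw [hP'1 i h]; exact hS.nd i hi
  · intro i hi j hj hij y hy hy'
    by_cases h : i = i₀
    · subst h
      rw [hP'0] at hy
      rw [hP'1 j (Ne.symm hij)] at hy'
      rcases List.mem_append.mp hy with h1 | h1
      · exact hLV y h1 (mem_Vs.mpr ⟨j, hj, hy'⟩)
      · exact hS.dj i hi j hj hij y h1 hy'
    · rw [hP'1 i h] at hy
      by_cases h' : j = i₀
      · subst h'
        rw [hP'0] at hy'
        rcases List.mem_append.mp hy' with h1 | h1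
        · exact hLV y h1 (mem_Vs.mpr ⟨i, hi, hy⟩)
        · exact hS.dj i hi j hj hij y hy h1
      · rw [hP'1 j h'] at hy'
        exact hS.dj i hi j hj hij y hy hy'
  · intro i hi
    by_cases h : i = i₀
    · subst h; rw [hP'0]; simpa using hd2
    · rw [hP'1 i h]; exact hP i hi
  · intro i hi
    by_cases h : i = i₀
    · subst h
      rw [hP'0]
      refine ⟨List.suffix_append _ _, fun _ h0 => ?_⟩
      have := congrArg List.length h0
      simp at this
      omega
    · rw [hP'1 i h]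
      exact ⟨List.suffix_rfl, fun h0 => absurd h0 h⟩

open Classical in
theorem stepD {A : ℕ → ℕ → Prop} {e : Finset ℕ → ℕ → Prop} (hA : ∀ u v, A u v → A v u)
    (he : IsHaven A e) (hD : ∀ m, ∃ d, m ≤ d ∧ Dm e d) {n : ℕ} {P : ℕ → List ℕ}
    (hS : Sys A n P) (hP : ∀ i < n, Dm e ((P i).headD 0)) (i₀ : ℕ) :
    ∃ P', Sys A (n + 1) P' ∧ (∀ i < n + 1, Dm e ((P' i).headD 0)) ∧
      ∀ i < n, P i <:+ P' i ∧ (i = i₀ → P i ≠ P' i) := by
  obtain ⟨P₁, hS₁, hP₁, hE⟩ := extendD hA he hD hS hP i₀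
  obtain ⟨d, hd1, hd2⟩ := hD ((Vs n P₁).sup id + 1)
  have hdV : ∀ i < n, d ∉ P₁ i := by
    intro i hi h0
    have := Finset.le_sup (f := id) (mem_Vs.mpr ⟨i, hi, h0⟩)
    simp only [id] at this
    omega
  let P' : ℕ → List ℕ := fun i => if i < n then P₁ i else [d]
  have hP' : ∀ i < n, P' i = P₁ i := fun i hi => if_pos hi
  have hP'n : P' n = [d] := if_neg (lt_irrefl n)
  refine ⟨P', ⟨?_, ?_, ?_, ?_⟩, ?_, ?_⟩
  · intro i hi
    rcases Nat.lt_or_ge i n with h | h
    · rw [hP' i h]; exact hS₁.ne i h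
    · obtain rfl : i = n := by omega
      rw [hP'n]; simp
  · intro i hi
    rcases Nat.lt_or_ge i n with h | h
    · rw [hP' i h]; exact hS₁.ch i h
    · obtain rfl : i = n := by omega
      rw [hP'n]; simp
  · intro i hi
    rcases Nat.lt_or_ge i n with h | h
    · rw [hP' i h]; exact hS₁.nd i h
    · obtain rfl : i = n := by omega
      rw [hP'n]; simp
  · intro i hi j hj hij y hy hy'
    rcases Nat.lt_or_ge i n with h | h
    · rw [hP' i h] at hy
      rcases Nat.lt_or_ge j n with h' | h'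
      · rw [hP' j h'] at hy'
        exact hS₁.dj i h j h' hij y hy hy'
      · obtain rfl : j = n := by omega
        rw [hP'n] at hy'
        have : y = d := by simpa using hy'
        subst this
        exact hdV i h hy
    · obtain rfl : i = n := by omega
      rw [hP'n] at hy
      have : y = d := by simpa using hy
      subst this
      have h' : j < i := by omega
      rw [hP' j h'] at hy'
      exact hdV j h' hy'
  · intro i hi
    rcases Nat.lt_or_ge i n with h | h
    · rw [hP' i h]; exact hP₁ i h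
    · obtain rfl : i = n := by omega
      rw [hP'n]; simpa using hd2
  · intro i hi
    rw [hP' i hi]
    exact hE i hi

/-! ### Assembling the rays -/

def pf (s : List (List ℕ)) (i : ℕ) : List ℕ := s.getD i []

def RR (n : ℕ) (s t : List (List ℕ)) : Prop :=
  t.length = s.length + 1 ∧ ∀ i < s.length, pf s i <:+ pf t i ∧
    (i = (Nat.unpair n).1 → pf s i ≠ pf t i)

/-- The rays given by a sequence of systems. -/
noncomputable def asm (Φ : ℕ → List (List ℕ)) (i : ℕ) : ℕ → ℕ :=
  limp (fun m => pf (Φ (i + 1 + m)) i)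

theorem assemble {A : ℕ → ℕ → Prop} (hA : ∀ u v, A u v → A v u) {Φ : ℕ → List (List ℕ)}
    (hS : ∀ n, Sys A (Φ n).length (pf (Φ n))) (hR : ∀ n, RR n (Φ n) (Φ (n + 1))) :
    (∀ i, IsRay A (asm Φ i)) ∧ ∀ i j, i ≠ j → ∀ m m', asm Φ i m ≠ asm Φ j m' := by
  have hlen : ∀ n, n ≤ (Φ n).length := by
    intro n
    induction n with
    | zero => exact Nat.zero_le _
    | succ n ih => have := (hR n).1; omega
  have hlt : ∀ i k, i + 1 ≤ k → i < (Φ k).length := fun i k h => lt_of_lt_of_le h (hlen k)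
  have hsuf : ∀ i m, pf (Φ (i + 1 + m)) i <:+ pf (Φ (i + 1 + (m + 1))) i := by
    intro i m
    exact ((hR (i + 1 + m)).2 i (hlt i _ (by omega))).1
  have hunb : ∀ i k, ∃ m, k < (pf (Φ (i + 1 + m)) i).length := by
    intro i k
    induction k with
    | zero =>
      refine ⟨0, ?_⟩
      have := (hS (i + 1 + 0)).ne i (hlt i _ (by omega))
      exact List.length_pos_iff.mpr this
    | succ k ih =>
      obtain ⟨m, hm⟩ := ih
      let K := Nat.pair i (i + 1 + m)
      have hK : i + 1 + m ≤ K := Nat.right_le_pair _ _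
      obtain ⟨j, hj⟩ : ∃ j, K = i + 1 + j := ⟨K - (i + 1), by omega⟩
      have h1 : k < (pf (Φ (i + 1 + j)) i).length := by
        refine hm.trans_le ?_
        exact (suffix_mono (l := fun m => pf (Φ (i + 1 + m)) i) (hsuf i)
          (show m ≤ j by omega)).length_le
      have h2 := (hR K).2 i (hlt i _ (by omega))
      have h3 := h2.2 (by simp [K])
      rw [hj] at h2 h3
      refine ⟨j + 1, ?_⟩
      have h4 : (pf (Φ (i + 1 + j)) i).length ≠ (pf (Φ (i + 1 + (j + 1))) i).length := by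
        intro h0
        exact h3 (h2.1.eq_of_length h0)
      have h5 := h2.1.length_le
      have h6 : i + 1 + j + 1 = i + 1 + (j + 1) := rfl
      rw [h6] at h5
      omega
  constructor
  · intro i
    exact isRay_limp hA (hsuf i) (hunb i) (fun m => (hS _).ch i (hlt i _ (by omega)))
      (fun m => (hS _).nd i (hlt i _ (by omega)))
  · intro i j hij m m' h0
    obtain ⟨a, ha⟩ := hunb i m
    obtain ⟨b, hb⟩ := hunb j m'
    let K := max (i + 1 + a) (j + 1 + b)
    obtain ⟨a', ha'⟩ : ∃ a', K = i + 1 + a' := ⟨K - (i + 1), by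
      have : i + 1 + a ≤ K := le_max_left _ _
      omega⟩
    obtain ⟨b', hb'⟩ : ∃ b', K = j + 1 + b' := ⟨K - (j + 1), by
      have : j + 1 + b ≤ K := le_max_right _ _
      omega⟩
    have h1 : m < (pf (Φ (i + 1 + a')) i).length := by
      refine ha.trans_le (suffix_mono (l := fun m => pf (Φ (i + 1 + m)) i) (hsuf i)
          (show a ≤ a' by
            have : i + 1 + a ≤ K := le_max_left _ _
            omega)).length_le
    have h2 : m' < (pf (Φ (j + 1 + b')) j).length := by
      refine hb.trans_le (suffix_mono (l := fun m => pf (Φ (j + 1 + m)) j) (hsuf j)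
          (show b ≤ b' by
            have : j + 1 + b ≤ K := le_max_right _ _
            omega)).length_le
    have h3 := limp_mem (l := fun m => pf (Φ (i + 1 + m)) i) (hsuf i) h1
    have h4 := limp_mem (l := fun m => pf (Φ (j + 1 + m)) j) (hsuf j) h2
    have h5 : asm Φ i m ∈ pf (Φ K) i := by rw [ha']; exact h3
    have h6 : asm Φ j m' ∈ pf (Φ K) j := by rw [hb']; exact h4
    rw [h0] at h5
    exact (hS K).dj i (hlt i _ (by omega)) j (hlt j _ (by omega)) hij _ h5 h6

section borel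
variable {α : Type*} [MeasurableSpace α]

theorem BP_sys {A : α → ℕ → ℕ → Prop} (hA : ∀ u v, BP (fun a => A a u v)) (n : ℕ)
    (P : ℕ → List ℕ) : BP (fun a => Sys (A a) n P) := by
  have h : BP (fun a => (∀ i < n, P i ≠ []) ∧ (∀ i, i < n → (P i).IsChain (A a)) ∧
      (∀ i < n, (P i).Nodup) ∧ (∀ i < n, ∀ j < n, i ≠ j → ∀ y ∈ P i, y ∉ P j)) :=
    (BP.const _).and ((BP.all fun i => (BP.const _).imp (BP_chain hA _)).and
      ((BP.const _).and (BP.const _)))
  exact h.congr fun a => ⟨fun h => ⟨h.1, h.2.1, h.2.2.1, h.2.2.2⟩,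
    fun h => ⟨h.ne, h.ch, h.nd, h.dj⟩⟩

theorem BP_good {e : α → Finset ℕ → ℕ → Prop} (he : ∀ Z v, BP (fun a => e a Z v)) (n : ℕ)
    (P : ℕ → List ℕ) : BP (fun a => Good (e a) n P) := by
  have h : BP (fun a => ∀ Z : Finset ℕ, Disjoint Z (Ys n P) → Z.card < n →
      ∃ i, i < n ∧ (P i).headD 0 ∉ Z ∧ e a (Z ∪ Ys n P) ((P i).headD 0)) :=
    BP.all fun _ => (BP.const _).imp ((BP.const _).imp (BP.ex fun _ =>
      (BP.const _).and ((BP.const _).and (he _ _))))
  exact h.congr fun a => Iff.rfl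

theorem BP_Dm {e : α → Finset ℕ → ℕ → Prop} (he : ∀ Z v, BP (fun a => e a Z v)) (d : ℕ) :
    BP (fun a => Dm (e a) d) :=
  BP.all fun Z => (BP.const _).imp (he _ _)

/-- From a step lemma to a Borel family of rays. -/
theorem family_aux {A : α → ℕ → ℕ → Prop} (hA : ∀ u v, BP (fun a => A a u v))
    {G : α → ℕ → (ℕ → List ℕ) → Prop} (hG : ∀ n P, BP (fun a => G a n P))
    (hcong : ∀ a n P P', (∀ i < n, P i = P' i) → G a n P → G a n P') :
    ∃ ρ : α → ℕ → ℕ → ℕ, (∀ i, Measurable (fun a => ρ a i)) ∧ ∀ a,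
      (∀ u v, A a u v → A a v u) → G a 0 (fun _ => []) →
      (∀ n P i₀, Sys (A a) n P → G a n P → ∃ P', Sys (A a) (n + 1) P' ∧ G a (n + 1) P' ∧
        ∀ i < n, P i <:+ P' i ∧ (i = i₀ → P i ≠ P' i)) →
      (∀ i, IsRay (A a) (ρ a i)) ∧ ∀ i j, i ≠ j → ∀ m m', ρ a i m ≠ ρ a j m' := by
  let Q : α → List (List ℕ) → Prop := fun a s => Sys (A a) s.length (pf s) ∧
    G a s.length (pf s)
  have hQ : ∀ s, BP (fun a => Q a s) := fun s => (BP_sys hA _ _).and (hG _ _)
  obtain ⟨Φ, hΦ, hΦ2⟩ := borel_dc (R := fun n _ s t => RR n s t) hQ (fun n s t => BP.const _)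
  refine ⟨fun a i => asm (fun n => Φ n a) i, ?_, ?_⟩
  · intro i
    exact measurable_fun_iff.mpr fun k =>
      CM_limp (l := fun a m => pf (Φ (i + 1 + m) a) i) (fun m => (hΦ _).map (fun s => pf s i)) k
  · intro a hs h0 hstep
    obtain ⟨h1, h2⟩ := hΦ2 a ⟨[], ⟨⟨by simp, by simp, by simp, by simp⟩,
      hcong a 0 _ _ (by simp) h0⟩⟩ (by
      rintro n s ⟨hs1, hs2⟩
      obtain ⟨P', c1, c2, c3⟩ := hstep _ _ (Nat.unpair n).1 hs1 hs2
      let t : List (List ℕ) := (List.range (s.length + 1)).map P'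
      have htl : t.length = s.length + 1 := by simp [t]
      have htp : ∀ i < s.length + 1, P' i = pf t i := by
        intro i hi
        simp only [pf, t]
        rw [List.getD_eq_getElem _ _ (by simpa using hi)]
        simp
      refine ⟨t, ⟨?_, ?_⟩, htl, ?_⟩
      · rw [htl]
        refine ⟨?_, ?_, ?_, ?_⟩
        · intro i hi; rw [← htp i hi]; exact c1.ne i hi
        · intro i hi; rw [← htp i hi]; exact c1.ch i hi
        · intro i hi; rw [← htp i hi]; exact c1.nd i hi
        · intro i hi j hj; rw [← htp i hi, ← htp j hj]; exact c1.dj i hi j hj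
      · rw [htl]
        exact hcong a _ _ _ htp c2
      · intro i hi
        rw [← htp i (by omega)]
        exact c3 i hi)
    exact assemble hs (fun n => (h1 n).1) h2

theorem Good.congr {e : Finset ℕ → ℕ → Prop} {n : ℕ} {P P' : ℕ → List ℕ}
    (h : ∀ i < n, P i = P' i) (hg : Good e n P) : Good e n P' := by
  have hY : Ys n P = Ys n P' := by
    ext y
    rw [mem_Ys, mem_Ys]
    constructor
    · rintro ⟨i, hi, h1⟩; exact ⟨i, hi, by rw [← h i hi]; exact h1⟩
    · rintro ⟨i, hi, h1⟩; exact ⟨i, hi, by rw [h i hi]; exact h1⟩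
  intro Z hZ hc
  rw [← hY] at hZ ⊢
  obtain ⟨i, hi, h1, h2⟩ := hg Z hZ hc
  exact ⟨i, hi, by rw [← h i hi]; exact h1, by rw [← h i hi]; exact h2⟩

open Classical in
/-- Infinite families of disjoint rays can be found in a Borel way from a haven that contains
arbitrarily many disjoint rays. -/
theorem family {A : α → ℕ → ℕ → Prop} (hA : ∀ u v, BP (fun a => A a u v))
    {e : α → Finset ℕ → ℕ → Prop} (he : ∀ Z v, BP (fun a => e a Z v)) :
    ∃ ρ : α → ℕ → ℕ → ℕ, (∀ i, Measurable (fun a => ρ a i)) ∧ ∀ a,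
      (∀ u v, A a u v → A a v u) → IsHaven (A a) (e a) → (∀ k, ∃ r, Rays (A a) (e a) k r) →
      (∀ i, IsRay (A a) (ρ a i)) ∧ ∀ i j, i ≠ j → ∀ m m', ρ a i m ≠ ρ a j m' := by
  -- dominated case
  obtain ⟨ρD, hρD, hρD2⟩ := family_aux hA
    (G := fun a n P => ∀ i, i < n → Dm (e a) ((P i).headD 0))
    (fun n P => BP.all fun i => (BP.const _).imp (BP_Dm he _))
    (fun a n P P' h h1 i hi => by rw [← h i hi]; exact h1 i hi)
  -- undominated case
  let A' : α → ℕ → ℕ → Prop := fun a u v => A a u v ∧ ¬ Dm (e a) u ∧ ¬ Dm (e a) v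
  have hA' : ∀ u v, BP (fun a => A' a u v) := fun u v =>
    (hA u v).and ((BP_Dm he u).not.and (BP_Dm he v).not)
  let e' : α → Finset ℕ → ℕ → Prop := fun a Z v =>
    ∃ Df : Finset ℕ, (∀ d, d ∈ Df ↔ Dm (e a) d) ∧ e a (Z ∪ Df) v
  have he' : ∀ Z v, BP (fun a => e' a Z v) := fun Z v => BP.ex fun Df =>
    (BP.all fun d => (BP.const _).iff (BP_Dm he d)).and (he _ _)
  obtain ⟨ρU, hρU, hρU2⟩ := family_aux hA' (G := fun a n P => Good (e' a) n P)
    (fun n P => BP_good he' n P) (fun a n P P' h h1 => h1.congr h)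
  let Dinf : α → Prop := fun a => ∀ m, ∃ d, m ≤ d ∧ Dm (e a) d
  have hDinf : BP Dinf := BP.all fun m => BP.ex fun d => (BP.const _).and (BP_Dm he d)
  refine ⟨fun a => if Dinf a then ρD a else ρU a, ?_, ?_⟩
  · intro i
    refine measurable_fun_iff.mpr fun k => ?_
    have h1 := CM.ite hDinf (CM.app (hρD i) k) (CM.app (hρU i) k)
    refine fun s => (h1 s).congr fun a => ?_
    show _ ↔ (if Dinf a then ρD a else ρU a) i k = s
    by_cases h : Dinf a <;> simp [h]
  · intro a hs hh hk
    by_cases hinf : Dinf a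
    · simp only [if_pos hinf]
      exact hρD2 a hs (by simp) (fun n P i₀ h1 h2 => stepD hs hh hinf h1 h2 i₀)
    · simp only [if_neg hinf]
      have hfin : {d | Dm (e a) d}.Finite := by
        by_contra h0
        apply hinf
        intro m
        obtain ⟨d, hd, hmd⟩ := Set.Infinite.exists_gt h0 m
        exact ⟨d, hmd.le, hd⟩
      let Df := hfin.toFinset
      have hDf : ∀ d, d ∈ Df ↔ Dm (e a) d := fun d => by simp [Df]
      have he'' : ∀ Z v, e' a Z v ↔ e a (Z ∪ Df) v := by
        intro Z v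
        constructor
        · rintro ⟨D, hD, h1⟩
          have : D = Df := by ext d; rw [hD, hDf]
          rw [← this]; exact h1
        · intro h1
          exact ⟨Df, hDf, h1⟩
      have hs' : ∀ u v, A' a u v → A' a v u := fun u v h => ⟨hs _ _ h.1, h.2.2, h.2.1⟩
      have hh' : IsHaven (A' a) (e' a) := by
        refine ⟨?_, ?_, ?_, ?_, ?_⟩
        · intro Z
          obtain ⟨v, hv⟩ := hh.ne (Z ∪ Df)
          exact ⟨v, (he'' Z v).mpr hv⟩
        · intro Z v hv
          have := hh.out _ _ ((he'' Z v).mp hv)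
          exact fun h0 => this (Finset.mem_union_left _ h0)
        · intro Z v w hv hvw hw
          rw [he''] at hv ⊢
          refine hh.adj _ _ _ hv hvw.1 ?_
          rw [Finset.mem_union, not_or]
          exact ⟨hw, fun h0 => hvw.2.2 ((hDf w).mp h0)⟩
        · intro Z v w hv hw
          rw [he''] at hv hw
          have hc := hh.conn _ _ _ hv hw
          clear hw
          have : Cn (A' a) Z v w ∧ w ∉ Df := by
            induction hc with
            | refl =>
              exact ⟨Relation.ReflTransGen.refl, fun h0 =>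
                hh.out _ _ hv (Finset.mem_union_right _ h0)⟩
            | @tail b c hb hbc ih =>
              have hc1 := hbc.2
              rw [Finset.mem_union, not_or] at hc1
              refine ⟨Relation.ReflTransGen.tail ih.1 ⟨⟨hbc.1, ?_, ?_⟩, hc1.1⟩, hc1.2⟩
              · exact fun h0 => ih.2 ((hDf b).mpr h0)
              · exact fun h0 => hc1.2 ((hDf c).mpr h0)
          exact this.1
        · intro Z Z' v hZ hv
          rw [he''] at hv ⊢
          exact hh.mono _ _ _ (Finset.union_subset_union_left hZ) hv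
      have hund : ∀ d, ∃ Z : Finset ℕ, d ∉ Z ∧ ¬ e' a Z d := by
        intro d
        by_cases hd : Dm (e a) d
        · refine ⟨∅, by simp, fun h0 => ?_⟩
          rw [he''] at h0
          exact hh.out _ _ h0 (Finset.mem_union_right _ ((hDf d).mpr hd))
        · simp only [Dm] at hd
          push Not at hd
          obtain ⟨Z, hZ1, hZ2⟩ := hd
          refine ⟨Z, hZ1, fun h0 => ?_⟩
          rw [he''] at h0
          exact hZ2 (hh.mono _ _ _ Finset.subset_union_left h0)
      have hk' : ∀ k, ∃ r, Rays (A' a) (e' a) k r := by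
        intro k
        obtain ⟨r, hr1, hr2⟩ := hk k
        have h1 : ∀ i, ∃ N, i < k → ∀ n, N ≤ n → r i n ∉ Df := by
          intro i
          by_cases hi : i < k
          · obtain ⟨N, hN⟩ := ray_avoid (hr1 i hi).1 Df
            exact ⟨N, fun _ => hN⟩
          · exact ⟨0, fun h0 => absurd h0 hi⟩
        choose N hN using h1
        refine ⟨fun i n => r i (N i + n), ?_, ?_⟩
        · intro i hi
          refine ⟨⟨?_, ?_⟩, ?_⟩
          · intro m n hmn
            have := (hr1 i hi).1.1 hmn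
            omega
          · intro n
            refine ⟨(hr1 i hi).1.2 (N i + n), ?_, ?_⟩
            · exact fun h0 => hN i hi (N i + n) (by omega) ((hDf _).mpr h0)
            · exact fun h0 => hN i hi (N i + (n + 1)) (by omega) ((hDf _).mpr h0)
          · intro Z
            obtain ⟨M, hM⟩ := (hr1 i hi).2 (Z ∪ Df)
            exact ⟨M, fun n hn => (he'' _ _).mpr (hM _ (by omega))⟩
        · intro i hi j hj hij m m'
          exact hr2 i hi j hj hij _ _
      have h0 : Good (e' a) 0 (fun _ => []) := by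
        intro Z _ hc
        exact absurd hc (Nat.not_lt_zero _)
      obtain ⟨h1, h2⟩ := hρU2 a hs' h0 (by
        intro n P i₀ hS hG
        obtain ⟨P', c1, c2, c3⟩ := stepU hs' hh' hund hk' hS hG
        exact ⟨P', c1, c2, fun i hi => ⟨(c3 i hi).1, fun _ => (c3 i hi).2⟩⟩)
      exact ⟨fun i => ⟨(h1 i).1, fun n => ((h1 i).2 n).1⟩, h2⟩

end borel

end Halin
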