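import Pool.Agent.Helper90.HalinE

/-! The family of models `S F`, for finite sets `F` of trees. -/

open Ordinal
open scoped Ordinal

namespace Halin
open Tag

instance : Inhabited Nm := ⟨⟨fun _ _ => 0, measurable_const⟩⟩

/-- The `i`-th name in a list. -/
def nm (l : List Nm) (i : ℕ) : Nm := l.getD i default

/-- Requirements to decide Borel sets computed from names. -/
def DT (T : Set (List Nm → Set Str)) : Set Rel :=
  (fun t : View × List ℕ × (List Nm → Set Str) => fun l z =>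
    frc t.1 (subs t.2.1 (fm (t.2.2 (l.map Prod.snd)))) z.1 ∨
    frc t.1 (.neg (subs t.2.1 (fm (t.2.2 (l.map Prod.snd))))) z.1) ''
    (VV ×ˢ (Set.univ ×ˢ T))

theorem DT_countable {T : Set (List Nm → Set Str)} (h : T.Countable) : (DT T).Countable :=
  (VV_countable.prod (Set.countable_univ.prod h)).image _

theorem Gen.dt {T : Set (List Nm → Set Str)} {y : ℕ → Cond × Nm} (h : Gen (DT T) y)
    {Θ : List Nm → Set Str} (hΘ : Θ ∈ T) (l : List ℕ) :
    Dcd (fun n => (y n).1) (Θ (l.map fun m => (y m).2)) := by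
  intro g hg j
  have hl : (l.map y).map Prod.snd = l.map (fun m => (y m).2) := by
    rw [List.map_map]; rfl
  obtain ⟨k, -, hk⟩ := h.2 _ ⟨(g, j, Θ), ⟨hg, Set.mem_univ _, hΘ⟩, rfl⟩ l (by
      intro p _
      obtain ⟨q, hq, h1⟩ := decide_dense g (subs j (fm (Θ ((l.map y).map Prod.snd)))) p
      exact ⟨(q, default), hq, h1⟩)
  simp only [hl] at hk
  exact ⟨k, hk⟩

/-- Requirements to close the names under operations. -/
def DO (O : Set (List Nm → Nm)) : Set Rel :=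
  (fun t : List Nm → Nm => fun l z => z.2 = t (l.map Prod.snd)) '' O

theorem DO_countable {O : Set (List Nm → Nm)} (h : O.Countable) : (DO O).Countable := h.image _

theorem Gen.dop {O : Set (List Nm → Nm)} {y : ℕ → Cond × Nm} (h : Gen (DO O) y)
    {Ω : List Nm → Nm} (hΩ : Ω ∈ O) (l : List ℕ) :
    ∃ k, (y k).2 = Ω (l.map fun m => (y m).2) := by
  have hl : (l.map y).map Prod.snd = l.map (fun m => (y m).2) := by
    rw [List.map_map]; rfl
  obtain ⟨k, -, hk⟩ := h.2 _ ⟨Ω, hΩ, rfl⟩ l (by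
      intro p _
      exact ⟨(p, Ω ((l.map y).map Prod.snd)), le_rfl, rfl⟩)
  rw [hl] at hk
  exact ⟨k, hk⟩

/-! ### Special names -/

open Classical in
/-- Name for the (coded) forest. -/
noncomputable def TN : Nm :=
  ⟨fun M n => if M ((Encodable.decode (α := Node) n).getD (0, [])) ≠ 0 then 1 else 0, by
    refine measurable_fun_iff.mpr fun n => CM.ite ?_ (CM.const _) (CM.const _)
    exact BP.not (measurableSet_eq_fun (measurable_pi_apply _) measurable_const)⟩

theorem TN_apply (M : Str) (x : Node) : TN.1 M (Encodable.encode x) ≠ 0 ↔ M x ≠ 0 := by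
  simp only [TN, Encodable.encodek, Option.getD_some]
  split <;> simp_all

/-- The leftmost visible path of the `i`-th tree. -/
noncomputable def sp (i : ℕ) (M : Str) : ℕ → List ℕ
  | 0 => []
  | n + 1 => lst (fun m => 2 ≤ M (i, m :: sp i M n)) :: sp i M n

theorem CM_sp (i n : ℕ) : CM (fun M : Str => sp i M n) := by
  induction n with
  | zero => exact CM.const _
  | succ n ih =>
    refine CM.map₂ (CM.lst fun m => ?_) ih (fun a l => a :: l)
    refine BP.bind ih (P := fun l M => 2 ≤ M (i, m :: l)) fun l => ?_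
    exact CM.pred (cm_iff_measurable.mpr (measurable_pi_apply (i, m :: l))) (fun a => 2 ≤ a)

noncomputable def PN (i : ℕ) : Nm :=
  ⟨fun M n => (sp i M (n + 1)).headD 0,
    measurable_fun_iff.mpr fun n => (CM_sp i (n + 1)).map (fun l => l.headD 0)⟩

theorem pre_PN (i : ℕ) (M : Str) (n : ℕ) : pre ((PN i).1 M) n = sp i M n := by
  induction n with
  | zero => rfl
  | succ n ih =>
    rw [pre, ih]
    rfl

/-! ### The model -/

section model

variable {R : (ℕ → ℕ) → Prop} {Fi : (ℕ → ℕ) → (ℕ → ℕ) → Prop} {Hv : (ℕ → ℕ) → ℕ → Prop}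

theorem exists_model {K : Set ((ℕ → ℕ) → (ℕ → ℕ))} (hK : K.Countable)
    (hKm : ∀ Φ ∈ K, Measurable Φ) {PP : Set (ℕ → (ℕ → ℕ) → (ℕ → ℕ) → Prop)}
    (hPP : PP.Countable)
    (hPm : ∀ P ∈ PP, ∀ k, BP (fun z : (ℕ → ℕ) × (ℕ → ℕ) => P k z.1 z.2))
    (hR : BP R) (hFi : BP (fun z : (ℕ → ℕ) × (ℕ → ℕ) => Fi z.1 z.2))
    (hHv : ∀ n, BP (fun X => Hv X n))
    (hinv : ∀ X X', row X 0 = row X' 0 → R X → R X' → ¬ Fi X X' → ∀ n, Hv X n ↔ Hv X' n) :
    ∃ S : Finset ℕ → Set (ℕ → ℕ),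
      (∀ F F', F ⊆ F' → S F ⊆ S F') ∧
      (∀ F, ∀ X ∈ S F, ∀ Y ∈ S F, join X Y ∈ S F) ∧
      (∀ F, ∀ X ∈ S F, ∀ Φ ∈ K, Φ X ∈ S F) ∧
      (∃ τ ∈ S ∅, (∀ i, ∃ X ∈ S {i}, ∀ n, τ (Encodable.encode ((i, pre X n) : Node)) ≠ 0) ∧
        ∀ F : Finset ℕ, ∀ i, i ∉ F → ∀ X ∈ S F,
          ∃ n, τ (Encodable.encode ((i, pre X n) : Node)) = 0) ∧
      (∀ P ∈ PP, ∀ F, ∀ H ∈ S F, (∀ k, ∃ X ∈ S F, P k X H) →
        ∃ Y ∈ S F, ∀ k, P k (row Y k) H) ∧
      (∀ Fs F, Fs ⊆ F → ∀ H ∈ S Fs, ∀ f ∈ S F, R (join H f) →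
        (∃ W ∈ S F, (∀ b, R (row W b) ∧ row (row W b) 0 = H) ∧
          ∀ b b', b ≠ b' → Fi (row W b) (row W b')) ∨
        ∃ E ∈ S Fs, ∀ n, Hv (join H f) n ↔ E n = 1) := by
  classical
  -- statements to decide
  let T1 : Set (List Nm → Set Str) := Set.range (fun i : ℕ => fun l => Pth i (nm l 0))
  let T2 : Set (List Nm → Set Str) := (fun t : (ℕ → (ℕ → ℕ) → (ℕ → ℕ) → Prop) × ℕ => fun l =>
    {M : Str | t.1 t.2 ((nm l 0).1 M) ((nm l 1).1 M)}) '' (PP ×ˢ Set.univ)
  let T3 : Set (List Nm → Set Str) := (fun t : (ℕ → (ℕ → ℕ) → (ℕ → ℕ) → Prop) => fun l =>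
    {M : Str | ∀ k, t k (row ((nm l 0).1 M) k) ((nm l 1).1 M)}) '' PP
  let T4 : Set (List Nm → Set Str) := Set.range (fun Fs : Finset ℕ => fun l =>
    {M : Str | R (psi Fs (nm l 0) (nm l 1) M)})
  let T5 : Set (List Nm → Set Str) := Set.range (fun Fs : Finset ℕ => fun l =>
    {M : Str | ¬ R (psi Fs (nm l 0) (nm l 1) M)})
  let T6 : Set (List Nm → Set Str) := Set.range
    (fun t : Finset ℕ × Finset ℕ × Finset Node × ℕ × ℕ => fun l =>
      {M : Str | Fi (psi t.1 (nm l 0) (nm l 1) (rv (cv t.1 t.2.1 t.2.2.1 t.2.2.2.1) M))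
        (psi t.1 (nm l 0) (nm l 1) (rv (cv t.1 t.2.1 t.2.2.1 t.2.2.2.2) M))})
  let T7 : Set (List Nm → Set Str) := Set.range (fun Fs : Finset ℕ => fun l =>
    {M : Str | ∀ n, Hv (psi Fs (nm l 0) (nm l 1) M) n ↔ (nm l 2).1 (rv (vF Fs) M) n = 1})
  let T : Set (List Nm → Set Str) := T1 ∪ (T2 ∪ (T3 ∪ (T4 ∪ (T5 ∪ (T6 ∪ T7)))))
  have hT : T.Countable :=
    (Set.countable_range _).union (((hPP.prod Set.countable_univ).image _).union
      ((hPP.image _).union ((Set.countable_range _).union ((Set.countable_range _).union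
        ((Set.countable_range _).union (Set.countable_range _))))))
  -- operations
  let O1 : Set (List Nm → Nm) := {fun _ => TN}
  let O2 : Set (List Nm → Nm) := Set.range (fun i : ℕ => fun _ => PN i)
  let O3 : Set (List Nm → Nm) := (fun Φ : (ℕ → ℕ) → (ℕ → ℕ) => fun l =>
    if h : Measurable Φ then (⟨fun M => Φ ((nm l 0).1 M), h.comp (nm l 0).2⟩ : Nm) else default) '' K
  let O4 : Set (List Nm → Nm) := {fun l => ⟨fun M => join ((nm l 0).1 M) ((nm l 1).1 M),
    measurable_join (nm l 0).2 (nm l 1).2⟩}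
  let O5 : Set (List Nm → Nm) := Set.range (fun F : Finset ℕ => fun l =>
    (⟨fun M => (nm l 0).1 (rv (vF F) M), (nm l 0).2.comp (measurable_rv _)⟩ : Nm))
  let O6 : Set (List Nm → Nm) := Set.range
    (fun t : Finset ℕ × Finset ℕ × Finset Node => fun l =>
      (⟨fun M => mk (fun b => psi t.1 (nm l 0) (nm l 1) (rv (cv t.1 t.2.1 t.2.2 b) M)),
        measurable_mk fun b => (measurable_psi _ _ _).comp (measurable_rv _)⟩ : Nm))
  let O : Set (List Nm → Nm) := O1 ∪ (O2 ∪ (O3 ∪ (O4 ∪ (O5 ∪ O6))))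
  have hO : O.Countable :=
    (Set.countable_singleton _).union ((Set.countable_range _).union ((hK.image _).union
      ((Set.countable_singleton _).union ((Set.countable_range _).union
        (Set.countable_range _)))))
  -- bounding
  let DB : Set Rel := (fun t : (ℕ → (ℕ → ℕ) → (ℕ → ℕ) → Prop) × Finset ℕ => fun l z =>
    (∃ k, ∀ q ≤ z.1, ∀ f : Nm, ¬ Frc (vF t.2) q
      {M | t.1 k (f.1 M) ((nm (l.map Prod.snd) 0).1 M)}) ∨
    Frc (vF t.2) z.1 {M | ∀ k, t.1 k (row (z.2.1 M) k) ((nm (l.map Prod.snd) 0).1 M)}) ''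
    (PP ×ˢ Set.univ)
  have hDB : DB.Countable := (hPP.prod Set.countable_univ).image _
  -- ends
  let DE : Set Rel := Set.range (fun t : Finset ℕ × Finset ℕ => fun l z =>
      Frc (vF t.2) z.1 {M | ¬ R (psi t.1 (nm (l.map Prod.snd) 0) (nm (l.map Prod.snd) 1) M)} ∨
      (Frc (vF t.2) z.1 {M | R (psi t.1 (nm (l.map Prod.snd) 0) (nm (l.map Prod.snd) 1) M)} ∧
        ∀ b b', b ≠ b' → Frc (vF t.2) z.1
        {M | Fi (psi t.1 (nm (l.map Prod.snd) 0) (nm (l.map Prod.snd) 1)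
            (rv (cv t.1 t.2 z.1.dom b) M))
          (psi t.1 (nm (l.map Prod.snd) 0) (nm (l.map Prod.snd) 1)
            (rv (cv t.1 t.2 z.1.dom b') M))}) ∨
      Frc (vF t.2) z.1 {M | ∀ n, Hv (psi t.1 (nm (l.map Prod.snd) 0)
        (nm (l.map Prod.snd) 1) M) n ↔ z.2.1 (rv (vF t.1) M) n = 1})
  have hDE : DE.Countable := Set.countable_range _
  obtain ⟨y, hy, -⟩ := exists_gen (D := DS ∪ (DT T ∪ (DO O ∪ (DB ∪ DE))))
    (DS_countable.union ((DT_countable hT).union ((DO_countable hO).union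
      (hDB.union hDE)))) Cond.one
  have gS : Gen DS y := hy.mono (fun d h => Or.inl h)
  have gT : Gen (DT T) y := hy.mono (fun d h => Or.inr (Or.inl h))
  have gO : Gen (DO O) y := hy.mono (fun d h => Or.inr (Or.inr (Or.inl h)))
  have gB : Gen DB y := hy.mono (fun d h => Or.inr (Or.inr (Or.inr (Or.inl h))))
  have gE : Gen DE y := hy.mono (fun d h => Or.inr (Or.inr (Or.inr (Or.inr h))))
  set s : ℕ → Cond := fun n => (y n).1 with hs
  have hanti : Antitone s := hy.1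
  set G : PM := lim s with hG
  have hstc : Stc G := gS.stc
  let S : Finset ℕ → Set (ℕ → ℕ) := fun F => {X | ∃ k, X = (y k).2.1 (st (vF F) G)}
  have hop : ∀ (Ω : List Nm → Nm), Ω ∈ O → ∀ l : List ℕ, ∀ F,
      (Ω (l.map fun m => (y m).2)).1 (st (vF F) G) ∈ S F := by
    intro Ω hΩ l F
    obtain ⟨k, hk⟩ := gO.dop hΩ l
    exact ⟨k, by rw [hk]⟩
  refine ⟨S, ?_, ?_, ?_, ?_, ?_, ?_⟩
  · -- monotonicity
    rintro F F' hFF X ⟨a, rfl⟩
    have h1 := hop (fun l => ⟨fun M => (nm l 0).1 (rv (vF F) M),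
      (nm l 0).2.comp (measurable_rv _)⟩)
      (Or.inr (Or.inr (Or.inr (Or.inr (Or.inl ⟨F, rfl⟩))))) [a] F'
    have h2 : (nm (List.map (fun m => (y m).2) [a]) 0) = (y a).2 := rfl
    simp only [h2, rv_vF hFF] at h1
    exact h1
  · -- join
    rintro F X ⟨a, rfl⟩ Y ⟨b, rfl⟩
    exact hop (fun l => ⟨fun M => join ((nm l 0).1 M) ((nm l 1).1 M),
      measurable_join (nm l 0).2 (nm l 1).2⟩)
      (Or.inr (Or.inr (Or.inr (Or.inl rfl)))) [a, b] F
  · -- functions
    rintro F X ⟨a, rfl⟩ Φ hΦ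
    have h1 := hop (fun l => if h : Measurable Φ then
        (⟨fun M => Φ ((nm l 0).1 M), h.comp (nm l 0).2⟩ : Nm) else default)
      (Or.inr (Or.inr (Or.inl ⟨Φ, hΦ, rfl⟩))) [a] F
    rw [dif_pos (hKm Φ hΦ)] at h1
    exact h1
  · -- the forest
    refine ⟨TN.1 (st (vF ∅) G), hop (fun _ => TN) (Or.inl rfl) [] ∅, ?_, ?_⟩
    · intro i
      refine ⟨(PN i).1 (st (vF {i}) G), hop (fun _ => PN i) (Or.inr (Or.inl ⟨i, rfl⟩)) [] {i}, ?_⟩
      intro n
      rw [TN_apply, pre_PN, Ne, st_eq_zero]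
      have key : ∀ n, 2 ≤ st (vF {i}) G (i, sp i (st (vF {i}) G) n) := by
        intro n
        induction n with
        | zero =>
          show 2 ≤ st (vF {i}) G (i, [])
          rw [st_vF hstc.rule, hstc.root]
          simp
        | succ n ih =>
          obtain ⟨c, hc⟩ := st_ge_two ih
          obtain ⟨m, c', hm⟩ := hstc.top_kid _ _ _ hc
          have hex : ∃ m, 2 ≤ st (vF {i}) G (i, m :: sp i (st (vF {i}) G) n) := by
            refine ⟨m, ?_⟩
            rw [st_vF hstc.rule, hm]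
            simp
          exact lst_spec hex
      obtain ⟨c, hc⟩ := st_ge_two (key n)
      rw [hc]; simp
    · rintro F i hi X ⟨a, rfl⟩
      by_contra hcon
      push Not at hcon
      have hmem : st (vF F) G ∈ Pth i (y a).2 := by
        intro n
        have := hcon n
        rw [TN_apply, Ne, st_eq_zero] at this
        rw [Ne, st_eq_zero]
        exact this
      have hd : Dcd s (Pth i (y a).2) :=
        gT.dt (Θ := fun l => Pth i (nm l 0)) (Or.inl ⟨i, rfl⟩) [a]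
      obtain ⟨k, hk⟩ := exists_Frc hanti (measurable_Pth _ _) hd (vF_mem F) hmem
      exact no_path hi _ _ hk
  · -- bounding
    rintro P hP F H ⟨a, rfl⟩ hex
    have hmeas : ∀ k (f : Nm), MeasurableSet {M : Str | P k (f.1 M) ((y a).2.1 M)} :=
      fun k f => BP.comp (hPm P hP k) (f.2.prodMk (y a).2.2)
    obtain ⟨m, ham, hm⟩ := gB.2 _ ⟨(P, F), ⟨hP, Set.mem_univ _⟩, rfl⟩ [a] (by
      intro p hp
      have e1 : nm (List.map Prod.snd (List.map y [a])) 0 = (y a).2 := rfl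
      simp only [e1]
      by_cases hc : ∃ k, ∃ q ≤ p, ∀ q' ≤ q, ∀ f : Nm,
          ¬ Frc (vF F) q' {M | P k (f.1 M) ((y a).2.1 M)}
      · obtain ⟨k, q, hq, h1⟩ := hc
        exact ⟨(q, default), hq, Or.inl ⟨k, h1⟩⟩
      · push Not at hc
        obtain ⟨g, hg⟩ := bounding (vF_mem F) (hPm P hP) (y a).2 p (by
          intro k q hq
          obtain ⟨q', h1, f, h2⟩ := hc k q hq
          exact ⟨q', h1, f, h2⟩)
        exact ⟨(p, g), le_rfl, Or.inr hg⟩)
    have e1 : nm (List.map Prod.snd (List.map y [a])) 0 = (y a).2 := rfl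
    simp only [e1] at hm
    rcases hm with ⟨k, hk⟩ | hm
    · exfalso
      obtain ⟨X, ⟨b, rfl⟩, hX⟩ := hex k
      have hd : Dcd s {M : Str | P k ((y b).2.1 M) ((y a).2.1 M)} :=
        gT.dt (Θ := fun l => {M : Str | P k ((nm l 0).1 M) ((nm l 1).1 M)})
          (Or.inr (Or.inl ⟨(P, k), ⟨hP, Set.mem_univ _⟩, rfl⟩)) [b, a]
      obtain ⟨m', hm'⟩ := exists_Frc hanti (hmeas k (y b).2) hd (vF_mem F) hX
      exact hk (s (max m m')) (hanti (le_max_left _ _)) (y b).2
        (hm'.mono (hanti (le_max_right _ _)))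
    · refine ⟨(y m).2.1 (st (vF F) G), ⟨m, rfl⟩, ?_⟩
      have hd : Dcd s {M : Str | ∀ k, P k (row ((y m).2.1 M) k) ((y a).2.1 M)} :=
        gT.dt (Θ := fun l => {M : Str | ∀ k, P k (row ((nm l 0).1 M) k) ((nm l 1).1 M)})
          (Or.inr (Or.inr (Or.inl ⟨P, hP, rfl⟩))) [m, a]
      have hms : MeasurableSet {M : Str | ∀ k, P k (row ((y m).2.1 M) k) ((y a).2.1 M)} :=
        BP.all fun k => BP.comp (hPm P hP k)
          (((measurable_row k).comp (y m).2.2).prodMk (y a).2.2)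
      exact mem_of_Frc hanti hms hd (vF_mem F) (k := m) le_rfl hm
  · -- ends
    rintro Fs F hF H ⟨a, rfl⟩ f ⟨b, rfl⟩ hRf
    set h := (y a).2 with hh
    set f := (y b).2 with hf
    have hpsiG : psi Fs h f (st (vF F) G) = join (h.1 (st (vF Fs) G)) (f.1 (st (vF F) G)) := by
      simp only [psi, rv_vF hF]
    have hpsi := measurable_psi Fs h f
    obtain ⟨m, -, hm⟩ := gE.2 _ ⟨(Fs, F), rfl⟩ [a, b] (by
      intro p hp
      obtain ⟨u, hu, E, hE⟩ := dichotomy R Fi Hv hR hFi hHv hinv hF h f p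
      exact ⟨(u, E), hu, hE⟩)
    have e1 : nm (List.map Prod.snd (List.map y [a, b])) 0 = h := rfl
    have e2 : nm (List.map Prod.snd (List.map y [a, b])) 1 = f := rfl
    simp only [e1, e2] at hm
    have hmR : MeasurableSet {M : Str | R (psi Fs h f M)} := BP.comp hR hpsi
    have hdR : Dcd s {M : Str | R (psi Fs h f M)} :=
        gT.dt (Θ := fun l => {M : Str | R (psi Fs (nm l 0) (nm l 1) M)})
          (Or.inr (Or.inr (Or.inr (Or.inl ⟨Fs, rfl⟩)))) [a, b]
    rcases hm with hm | ⟨hm1, hm2⟩ | hm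
    · exfalso
      have hd : Dcd s {M : Str | ¬ R (psi Fs h f M)} :=
        gT.dt (Θ := fun l => {M : Str | ¬ R (psi Fs (nm l 0) (nm l 1) M)})
          (Or.inr (Or.inr (Or.inr (Or.inr (Or.inl ⟨Fs, rfl⟩))))) [a, b]
      have h1 := mem_of_Frc hanti hmR.compl hd (vF_mem F) (k := m) le_rfl hm
      apply h1
      show R (psi Fs h f (st (vF F) G))
      rw [hpsiG]
      exact hRf
    · left
      set D0 := (y m).1.dom with hD0
      refine ⟨mk (fun b' => psi Fs h f (rv (cv Fs F D0 b') (st (vF F) G))),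
        hop (fun l => ⟨fun M => mk (fun b => psi Fs (nm l 0) (nm l 1) (rv (cv Fs F D0 b) M)),
          measurable_mk fun b => (measurable_psi _ _ _).comp (measurable_rv _)⟩)
          (Or.inr (Or.inr (Or.inr (Or.inr (Or.inr ⟨(Fs, F, D0), rfl⟩))))) [a, b] F, ?_, ?_⟩
      · intro b'
        rw [row_mk, rv_cv hF]
        refine ⟨?_, ?_⟩
        · have h2 : Frc (cv Fs F D0 b') (y m).1 {M : Str | R (psi Fs h f M)} := by
            rw [Frc_prj hF (fun x hx => (Cond.mem_dom.mp hx).1), prj_self]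
            exact hm1
          exact mem_of_Frc hanti hmR hdR (cv_mem _ _ _ _) (k := m) le_rfl h2
        · simp only [psi, row_join_zero, rv_vF_cv]
      · intro b₁ b₂ hb
        rw [row_mk, row_mk]
        have hmF : MeasurableSet {M : Str | Fi (psi Fs h f (rv (cv Fs F D0 b₁) M))
            (psi Fs h f (rv (cv Fs F D0 b₂) M))} :=
          BP.comp hFi ((hpsi.comp (measurable_rv _)).prodMk (hpsi.comp (measurable_rv _)))
        have hdF : Dcd s {M : Str | Fi (psi Fs h f (rv (cv Fs F D0 b₁) M))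
            (psi Fs h f (rv (cv Fs F D0 b₂) M))} :=
          gT.dt (Θ := fun l => {M : Str | Fi (psi Fs (nm l 0) (nm l 1) (rv (cv Fs F D0 b₁) M))
            (psi Fs (nm l 0) (nm l 1) (rv (cv Fs F D0 b₂) M))})
            (Or.inr (Or.inr (Or.inr (Or.inr (Or.inr (Or.inl ⟨(Fs, F, D0, b₁, b₂), rfl⟩))))))
            [a, b]
        exact mem_of_Frc hanti hmF hdF (vF_mem F) (k := m) le_rfl (hm2 b₁ b₂ hb)
    · right
      refine ⟨(y m).2.1 (st (vF Fs) G), ⟨m, rfl⟩, ?_⟩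
      have hd : Dcd s {M : Str | ∀ n, Hv (psi Fs h f M) n ↔
          (y m).2.1 (rv (vF Fs) M) n = 1} :=
        gT.dt (Θ := fun l => {M : Str | ∀ n, Hv (psi Fs (nm l 0) (nm l 1) M) n ↔
          (nm l 2).1 (rv (vF Fs) M) n = 1})
          (Or.inr (Or.inr (Or.inr (Or.inr (Or.inr (Or.inr ⟨Fs, rfl⟩)))))) [a, b, m]
      have hms : MeasurableSet {M : Str | ∀ n, Hv (psi Fs h f M) n ↔
          (y m).2.1 (rv (vF Fs) M) n = 1} :=
        BP.all fun n => (BP.comp (hHv n) hpsi).iff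
          (CM.app ((y m).2.2.comp (measurable_rv _)) n 1)
      have h1 := mem_of_Frc hanti hms hd (vF_mem F) (k := m) le_rfl hm
      intro n
      have h2 := h1 n
      rw [hpsiG, rv_vF hF] at h2
      exact h2

end model

end Halin
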