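import Pool.Agent.Helper90.HalinI
import Pool.Agent.Helper90.HalinJ

/-! The infinite ray theorem inside the model, in internal form. -/

namespace Halin

/-- The pairing function of second order arithmetic. -/
def pr (u v : ℕ) : ℕ := (u + v) * (u + v) + u

theorem pr_inj {a b c d : ℕ} (h : pr a b = pr c d) : a = c ∧ b = d := by
  simp only [pr] at h
  have h1 : a + b = c + d := by
    by_contra hne
    rcases Nat.lt_or_gt_of_ne hne with h2 | h2
    · have : (a + b + 1) * (a + b + 1) ≤ (c + d) * (c + d) := Nat.mul_le_mul h2 h2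
      nlinarith
    · have : (c + d + 1) * (c + d + 1) ≤ (a + b) * (a + b) := Nat.mul_le_mul h2 h2
      nlinarith
  rw [h1] at h
  omega

/-- Adjacency in the graph whose edges `{u, v}`, `u < v`, are coded by `pr u v`. -/
def adj (H : ℕ → ℕ) (u v : ℕ) : Prop := (u < v ∧ H (pr u v) ≠ 0) ∨ (v < u ∧ H (pr v u) ≠ 0)

theorem adj_symm (H : ℕ → ℕ) : ∀ u v, adj H u v → adj H v u := fun _ _ h => h.symm

/-! ### Borel complexity -/

section
variable {α : Type*} [MeasurableSpace α]

theorem CM.eq {σ : Type*} [Countable σ] {f g : α → σ} (hf : CM f) (hg : CM g) :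
    BP (fun a => f a = g a) :=
  CM.pred (CM.map₂ hf hg (fun x y => (x, y))) (fun p => p.1 = p.2)

theorem BP_adj {f : α → ℕ → ℕ} (hf : Measurable f) {u v : α → ℕ} (hu : CM u) (hv : CM v) :
    BP (fun a => adj (f a) (u a) (v a)) := by
  refine BP.bind hu (P := fun x a => adj (f a) x (v a)) fun x => ?_
  refine BP.bind hv (P := fun y a => adj (f a) x y) fun y => ?_
  exact ((BP.const _).and (CM.app hf _ 0).not).or ((BP.const _).and (CM.app hf _ 0).not)

theorem BP_isRay {A : α → ℕ → ℕ → Prop}
    (hA : ∀ u v : α → ℕ, CM u → CM v → BP (fun a => A a (u a) (v a)))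
    {ρ : α → ℕ → ℕ} (hρ : Measurable ρ) : BP (fun a => IsRay (A a) (ρ a)) := by
  have h : BP (fun a => (∀ m n, ρ a m = ρ a n → m = n) ∧ ∀ n, A a (ρ a n) (ρ a (n + 1))) :=
    (BP.all fun m => BP.all fun n => (CM.eq (CM.app hρ m) (CM.app hρ n)).imp (BP.const _)).and
      (BP.all fun n => hA _ _ (CM.app hρ n) (CM.app hρ (n + 1)))
  exact h.congr fun a => ⟨fun h => ⟨fun m n => h.1 m n, h.2⟩, fun h => ⟨fun m n => @h.1 m n, h.2⟩⟩

theorem BP_hv {A : α → ℕ → ℕ → Prop} (hA : ∀ u v, BP (fun a => A a u v))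
    {ρ : α → ℕ → ℕ} (hρ : Measurable ρ) (Z : Finset ℕ) (v : ℕ) :
    BP (fun a => hv (A a) (ρ a) Z v) := by
  refine BP.ex fun N => BP.and ?_ ?_
  · exact BP.all fun n => (BP.const _).imp (CM.pred (CM.app hρ n) (fun x => x ∉ Z))
  · exact BP.bind (CM.app hρ N) (P := fun x a => Cn (A a) Z x v) fun x => BP_cn hA Z x v

theorem BP_finInt {ρ ρ' : α → ℕ → ℕ} (hρ : Measurable ρ) (hρ' : Measurable ρ') :
    BP (fun a => FinInt (ρ a) (ρ' a)) :=
  BP.ex fun N => BP.all fun n => (BP.const (N ≤ n)).imp
    (BP.all fun m => (CM.eq (CM.app hρ n) (CM.app hρ' m)).not)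

end

/-! ### The predicates used -/

def RayP (X : ℕ → ℕ) : Prop := IsRay (adj (row X 0)) (row X 1)
def FiP (X X' : ℕ → ℕ) : Prop := FinInt (row X 1) (row X' 1)
def fz (c : ℕ) : Finset ℕ := (Encodable.decode c).getD ∅
def HvP (X : ℕ → ℕ) (n : ℕ) : Prop :=
  hv (adj (row X 0)) (row X 1) (fz (Nat.unpair n).1) (Nat.unpair n).2
/-- Coded havens. -/
def hvn (E : ℕ → ℕ) (Z : Finset ℕ) (v : ℕ) : Prop := E (Nat.pair (Encodable.encode Z) v) = 1

theorem fz_encode (Z : Finset ℕ) : fz (Encodable.encode Z) = Z := by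
  simp [fz]

theorem BP_adj_row (k : ℕ) (u v : ℕ) : BP (fun X : ℕ → ℕ => adj (row X k) u v) :=
  BP_adj (measurable_row k) (CM.const u) (CM.const v)

theorem BP_RayP : BP RayP :=
  BP_isRay (fun _ _ hu hv => BP_adj (measurable_row 0) hu hv) (measurable_row 1)

theorem BP_FiP : BP (fun z : (ℕ → ℕ) × (ℕ → ℕ) => FiP z.1 z.2) :=
  BP_finInt ((measurable_row 1).comp measurable_fst) ((measurable_row 1).comp measurable_snd)

theorem BP_HvP (n : ℕ) : BP (fun X => HvP X n) :=
  BP_hv (fun u v => BP_adj_row 0 u v) (measurable_row 1) _ _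

theorem HvP_inv : ∀ X X', row X 0 = row X' 0 → RayP X → RayP X' → ¬ FiP X X' →
    ∀ n, HvP X n ↔ HvP X' n := by
  intro X X' h0 h1 h2 h3 n
  unfold RayP at h1 h2
  unfold HvP
  rw [← h0] at h2 ⊢
  rw [hv_eq_of_not_finInt (adj_symm _) h1 h2 h3]

theorem BP_hvn (k : ℕ) (Z : Finset ℕ) (v : ℕ) : BP (fun X : ℕ → ℕ => hvn (row X k) Z v) :=
  CM.app (measurable_row k) _ 1

/-! ### Families -/

def Fam (H W : ℕ → ℕ) (k : ℕ) : Prop :=
  (∀ i < k, IsRay (adj H) (row W i)) ∧
    ∀ i < k, ∀ j < k, i ≠ j → ∀ m m', row W i m ≠ row W j m'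

def InfFam (H W : ℕ → ℕ) : Prop :=
  (∀ i, IsRay (adj H) (row W i)) ∧ ∀ i j, i ≠ j → ∀ m m', row W i m ≠ row W j m'

/-- Tails of rays with finite intersections. -/
theorem exists_L1 : ∃ Φ : (ℕ → ℕ) → (ℕ → ℕ), Measurable Φ ∧ ∀ H W,
    (∀ b, IsRay (adj H) (row W b)) → (∀ b b', b ≠ b' → FinInt (row W b) (row W b')) →
    InfFam H (Φ W) := by
  classical
  let t : (ℕ → ℕ) → ℕ → ℕ := fun W j =>
    lst (fun t => ∀ n, t ≤ n → ∀ i, i < j → ∀ m, row W j n ≠ row W i m)
  have ht : ∀ j, CM (fun W => t W j) := by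
    intro j
    refine CM.lst fun t => BP.all fun n => (BP.const _).imp (BP.all fun i =>
      (BP.const _).imp (BP.all fun m => ?_))
    exact (CM.eq (CM.app (measurable_row j) n) (CM.app (measurable_row i) m)).not
  refine ⟨fun W => mk (fun j n => row W j (n + t W j)), ?_, ?_⟩
  · refine measurable_mk fun j => measurable_fun_iff.mpr fun n => ?_
    exact CM.app' (measurable_row j) ((ht j).map (fun x => n + x))
  · intro H W h1 h2
    have hex : ∀ j, ∀ n, t W j ≤ n → ∀ i, i < j → ∀ m, row W j n ≠ row W i m := by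
      intro j
      refine lst_spec (P := fun t => ∀ n, t ≤ n → ∀ i, i < j → ∀ m, row W j n ≠ row W i m) ?_
      have h3 : ∀ i, ∃ N, i < j → ∀ n, N ≤ n → ∀ m, row W j n ≠ row W i m := by
        intro i
        by_cases hi : i < j
        · obtain ⟨N, hN⟩ := h2 j i (by omega)
          exact ⟨N, fun _ => hN⟩
        · exact ⟨0, fun h => absurd h hi⟩
      choose N hN using h3
      refine ⟨(Finset.range j).sup N, fun n hn i hi m => hN i hi n ?_ m⟩
      exact (Finset.le_sup (f := N) (Finset.mem_range.mpr hi)).trans hn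
    refine ⟨?_, ?_⟩
    · intro i
      rw [row_mk]
      refine ⟨fun m n hmn => ?_, fun n => ?_⟩
      · have := (h1 i).1 hmn
        omega
      · have := (h1 i).2 (n + t W i)
        have e : n + 1 + t W i = n + t W i + 1 := by omega
        show adj H (row W i (n + t W i)) (row W i (n + 1 + t W i))
        rw [e]; exact this
    · have key : ∀ i j, i < j → ∀ m m',
          row W j (m + t W j) ≠ row W i (m' + t W i) := by
        intro i j hij m m'
        exact hex j _ (Nat.le_add_left _ _) i hij _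
      intro i j hij m m'
      rw [row_mk, row_mk]
      rcases Nat.lt_or_gt_of_ne hij with h | h
      · exact (key i j h m' m).symm
      · exact key j i h m m'

/-- `X` codes `m` rays with different havens. -/
def Inq (m : ℕ) (X H : ℕ → ℕ) : Prop :=
  (∀ i, i < m → IsRay (adj H) (row X i)) ∧ ∀ i, i < m → ∀ j, j < m → i ≠ j →
    ∃ Z : Finset ℕ, ∃ v, ¬ (hv (adj H) (row X i) Z v ↔ hv (adj H) (row X j) Z v)

theorem hv_ne_iff {H ρ ρ' : ℕ → ℕ} : (∃ Z : Finset ℕ, ∃ v, ¬ (hv (adj H) ρ Z v ↔
    hv (adj H) ρ' Z v)) ↔ hv (adj H) ρ ≠ hv (adj H) ρ' := by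
  constructor
  · rintro ⟨Z, v, h⟩ h0
    rw [h0] at h
    exact h Iff.rfl
  · intro h
    by_contra h0
    push Not at h0
    apply h
    funext Z v
    exact propext (h0 Z v)

theorem BP_Inq (m : ℕ) : BP (fun z : (ℕ → ℕ) × (ℕ → ℕ) => Inq m z.1 z.2) := by
  have hrow : ∀ i, Measurable (fun z : (ℕ → ℕ) × (ℕ → ℕ) => row z.1 i) := fun i =>
    (measurable_row i).comp measurable_fst
  refine BP.and ?_ ?_
  · exact BP.all fun i => (BP.const _).imp
      (BP_isRay (fun _ _ hu hv => BP_adj measurable_snd hu hv) (hrow i))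
  · refine BP.all fun i => (BP.const _).imp (BP.all fun j => (BP.const _).imp ((BP.const _).imp
      (BP.ex fun Z => BP.ex fun v => BP.not (BP.iff ?_ ?_))))
    · exact BP_hv (fun u v => BP_adj measurable_snd (CM.const u) (CM.const v)) (hrow i) Z v
    · exact BP_hv (fun u v => BP_adj measurable_snd (CM.const u) (CM.const v)) (hrow j) Z v

/-- From finite families of inequivalent rays of all sizes to an infinite one. -/
theorem exists_B : ∃ Φ : (ℕ → ℕ) → (ℕ → ℕ), Measurable Φ ∧ ∀ H Y,
    (∀ m, Inq m (row Y m) H) →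
    (∀ b, IsRay (adj H) (row (Φ (join H Y)) b)) ∧
    ∀ b b', b ≠ b' → FinInt (row (Φ (join H Y)) b) (row (Φ (join H Y)) b') := by
  classical
  let r : (ℕ → ℕ) → ℕ × ℕ → ℕ → ℕ := fun a p => row (row (row a 1) p.1) p.2
  have hr : ∀ p, Measurable (fun a => r a p) := fun p =>
    (measurable_row _).comp ((measurable_row _).comp (measurable_row _))
  let Df : (ℕ → ℕ) → ℕ × ℕ → ℕ × ℕ → Prop := fun a p q =>
    ∃ Z : Finset ℕ, ∃ v, ¬ (hv (adj (row a 0)) (r a p) Z v ↔ hv (adj (row a 0)) (r a q) Z v)
  have hDf : ∀ p q, BP (fun a => Df a p q) := fun p q =>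
    BP.ex fun Z => BP.ex fun v => BP.not (BP.iff (BP_hv (fun u v => BP_adj_row 0 u v) (hr p) Z v)
      (BP_hv (fun u v => BP_adj_row 0 u v) (hr q) Z v))
  let Q : (ℕ → ℕ) → List (ℕ × ℕ) → Prop := fun a s =>
    (∀ p ∈ s, p.2 < p.1) ∧ s.Pairwise (fun p q => Df a p q)
  have hQ : ∀ s, BP (fun a => Q a s) := by
    intro s
    refine (BP.const _).and ?_
    induction s with
    | nil => exact (BP.const True).congr fun a => by simp
    | cons p s ih =>
      have h1 : BP (fun a => (∀ q, q ∈ s → Df a p q) ∧ s.Pairwise (fun p q => Df a p q)) :=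
        (BP.all fun q => (BP.const _).imp (hDf p q)).and ih
      exact h1.congr fun a => by rw [List.pairwise_cons]
  obtain ⟨Φ, hΦ, hΦ2⟩ := borel_dc (R := fun _ _ s t => ∃ p, t = p :: s) hQ
    (fun n s t => BP.const _)
  refine ⟨fun a => mk (fun b => r a ((Φ (b + 1) a).headD (0, 0))), ?_, ?_⟩
  · refine measurable_mk fun b => measurable_fun_iff.mpr fun n => ?_
    exact CM.bind ((hΦ (b + 1)).map (fun s => s.headD (0, 0))) (g := fun p a => r a p n)
      (fun p => CM.app (hr p) n)
  · intro H Y hY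
    set a := join H Y with ha
    have ha0 : row a 0 = H := by rw [ha, row_join_zero]
    have ha1 : row a 1 = Y := by rw [ha, row_join_one]
    have hray : ∀ p : ℕ × ℕ, p.2 < p.1 → IsRay (adj H) (r a p) := by
      intro p hp
      simp only [r, ha1]
      exact (hY p.1).1 p.2 hp
    obtain ⟨h1, h2⟩ := hΦ2 a ⟨[], by simp, by simp⟩ (by
      rintro - s ⟨hs1, hs2⟩
      have : ∃ i < s.length + 1, ∀ p ∈ s, Df a (s.length + 1, i) p := by
        by_contra hcon
        push Not at hcon
        choose! p hp1 hp2 using hcon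
        have hcard : s.toFinset.card < (Finset.range (s.length + 1)).card := by
          rw [Finset.card_range]
          exact Nat.lt_succ_of_le (List.toFinset_card_le s)
        obtain ⟨i, hi, j, hj, hij, hpp⟩ := Finset.exists_ne_map_eq_of_card_lt_of_maps_to hcard
          (f := p) (fun i hi => List.mem_toFinset.mpr (hp1 i (Finset.mem_range.mp hi)))
        rw [Finset.mem_range] at hi hj
        have e1 := hp2 i hi
        have e2 := hp2 j hj
        rw [← hpp] at e2
        simp only [Df] at e1 e2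
        push Not at e1 e2
        obtain ⟨Z, v, h⟩ := (hY (s.length + 1)).2 i hi j hj hij
        apply h
        have e3 := e1 Z v
        have e4 := e2 Z v
        simp only [r, ha0, ha1] at e3 e4
        exact e3.trans e4.symm
      obtain ⟨i, hi, hp⟩ := this
      refine ⟨(s.length + 1, i) :: s, ⟨?_, ?_⟩, _, rfl⟩
      · intro p hp'
        rcases List.mem_cons.mp hp' with rfl | hp'
        · exact hi
        · exact hs1 p hp'
      · rw [List.pairwise_cons]
        exact ⟨hp, hs2⟩)
    choose p hp using h2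
    have hhead : ∀ b, (Φ (b + 1) a).headD (0, 0) = p b := by
      intro b; rw [hp b]; rfl
    have hmem : ∀ b b', b < b' → p b ∈ Φ b' a := by
      intro b b' hb
      induction hb with
      | refl => rw [hp b]; simp
      | step _ ih => rw [hp _]; exact List.mem_cons_of_mem _ ih
    have hpv : ∀ b, (p b).2 < (p b).1 := by
      intro b
      refine (h1 (b + 1)).1 (p b) ?_
      rw [hp b]; simp
    have hdf : ∀ b b', b < b' → hv (adj H) (r a (p b')) ≠ hv (adj H) (r a (p b)) := by
      intro b b' hb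
      have h3 := (h1 (b' + 1)).2
      rw [hp b', List.pairwise_cons] at h3
      have h4 := h3.1 (p b) (hmem b b' hb)
      simp only [Df, ha0] at h4
      exact hv_ne_iff.mp h4
    refine ⟨?_, ?_⟩
    · intro b
      rw [row_mk, hhead]
      exact hray _ (hpv b)
    · intro b b' hb
      rw [row_mk, row_mk, hhead, hhead]
      apply hv_ne_finInt (adj_symm H) (hray _ (hpv b)) (hray _ (hpv b'))
      rcases Nat.lt_or_gt_of_ne hb with h | h
      · exact (hdf b b' h).symm
      · exact hdf b' b h

theorem exists_R : ∃ Φ : (ℕ → ℕ) → (ℕ → ℕ), Measurable Φ ∧ ∀ H E,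
    IsHaven (adj H) (hvn E) → IsRay (adj H) (Φ (join H E)) ∧ Conv (hvn E) (Φ (join H E)) := by
  obtain ⟨ρ, h1, h2⟩ := exists_conv_ray (α := ℕ → ℕ) (A := fun a => adj (row a 0))
    (fun u v => BP_adj_row 0 u v) (e := fun a => hvn (row a 1)) (fun Z v => BP_hvn 1 Z v)
  refine ⟨ρ, h1, fun H E hE => ?_⟩
  have := h2 (join H E) (adj_symm _) (by rw [row_join_zero, row_join_one]; exact hE)
  rw [row_join_zero, row_join_one] at this
  exact this

theorem exists_L2 : ∃ Φ : (ℕ → ℕ) → (ℕ → ℕ), Measurable Φ ∧ ∀ H E,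
    IsHaven (adj H) (hvn E) → (∀ k, ∃ r, Rays (adj H) (hvn E) k r) →
    InfFam H (Φ (join H E)) := by
  obtain ⟨ρ, h1, h2⟩ := family (α := ℕ → ℕ) (A := fun a => adj (row a 0))
    (fun u v => BP_adj_row 0 u v) (e := fun a => hvn (row a 1)) (fun Z v => BP_hvn 1 Z v)
  refine ⟨fun a => mk (ρ a), measurable_mk h1, fun H E hE hk => ?_⟩
  have := h2 (join H E) (adj_symm _) (by rw [row_join_zero, row_join_one]; exact hE)
    (by rw [row_join_zero, row_join_one]; exact hk)
  rw [row_join_zero] at this
  simp only [InfFam, row_mk]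
  exact this

open Classical in
/-- Appending a row. -/
noncomputable def kapp (m : ℕ) (X : ℕ → ℕ) : ℕ → ℕ :=
  mk (fun i => if i < m then row (row X 0) i else row X 1)

theorem measurable_kapp (m : ℕ) : Measurable (kapp m) := by
  refine measurable_mk fun i => ?_
  by_cases h : i < m
  · simp only [h, if_true]; exact (measurable_row _).comp (measurable_row _)
  · simp only [h, if_false]; exact measurable_row _

def kunw (X : ℕ → ℕ) : ℕ → ℕ := mk (fun b => row (row X b) 1)

theorem measurable_kunw : Measurable kunw :=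
  measurable_mk fun _ => (measurable_row _).comp (measurable_row _)

noncomputable def kL1 : (ℕ → ℕ) → (ℕ → ℕ) := Classical.choose exists_L1
noncomputable def kB : (ℕ → ℕ) → (ℕ → ℕ) := Classical.choose exists_B
noncomputable def kR : (ℕ → ℕ) → (ℕ → ℕ) := Classical.choose exists_R
noncomputable def kL2 : (ℕ → ℕ) → (ℕ → ℕ) := Classical.choose exists_L2

/-- The Borel functions used in the internal proof. -/
def KI : Set ((ℕ → ℕ) → (ℕ → ℕ)) :=
  (Set.range (fun k X => row X k) ∪ Set.range kapp) ∪ {kunw, kL1, kB, kR, kL2}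

theorem KI_countable : KI.Countable :=
  ((Set.countable_range _).union (Set.countable_range _)).union (by simp)

theorem KI_measurable : ∀ Φ ∈ KI, Measurable Φ := by
  rintro Φ ((⟨k, rfl⟩ | ⟨m, rfl⟩) | h)
  · exact measurable_row k
  · exact measurable_kapp m
  · simp only [Set.mem_insert_iff, Set.mem_singleton_iff] at h
    rcases h with rfl | rfl | rfl | rfl | rfl
    · exact measurable_kunw
    · exact (Classical.choose_spec exists_L1).1
    · exact (Classical.choose_spec exists_B).1
    · exact (Classical.choose_spec exists_R).1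
    · exact (Classical.choose_spec exists_L2).1

/-- The closure properties of the family of models. -/
structure MProp (S : Finset ℕ → Set (ℕ → ℕ)) : Prop where
  mono : ∀ F F', F ⊆ F' → S F ⊆ S F'
  join : ∀ F, ∀ X ∈ S F, ∀ Y ∈ S F, join X Y ∈ S F
  fn : ∀ F, ∀ X ∈ S F, ∀ Φ ∈ KI, Φ X ∈ S F
  bnd : ∀ F, ∀ H ∈ S F, (∀ k, ∃ X ∈ S F, Inq k X H) → ∃ Y ∈ S F, ∀ k, Inq k (row Y k) H
  ends : ∀ Fs F, Fs ⊆ F → ∀ H ∈ S Fs, ∀ f ∈ S F, RayP (Halin.join H f) →
        (∃ W ∈ S F, (∀ b, RayP (row W b) ∧ row (row W b) 0 = H) ∧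
          ∀ b b', b ≠ b' → FiP (row W b) (row W b')) ∨
        ∃ E ∈ S Fs, ∀ n, HvP (Halin.join H f) n ↔ E n = 1

theorem irt {S : Finset ℕ → Set (ℕ → ℕ)} (hS : MProp S) {Fs : Finset ℕ} {H : ℕ → ℕ}
    (hH : H ∈ S Fs) (hk : ∀ k, ∃ F, ∃ W ∈ S F, Fam H W k) : ∃ F, ∃ W ∈ S F, InfFam H W := by
  classical
  by_contra hno
  push Not at hno
  have hrow : ∀ F, ∀ X ∈ S F, ∀ k, row X k ∈ S F := fun F X hX k =>
    hS.fn F X hX _ (Or.inl (Or.inl ⟨k, rfl⟩))
  have hL1 := (Classical.choose_spec exists_L1).2
  have hB := (Classical.choose_spec exists_B).2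
  have hR := (Classical.choose_spec exists_R).2
  have hL2 := (Classical.choose_spec exists_L2).2
  have kL1m : ∀ F, ∀ X ∈ S F, kL1 X ∈ S F := fun F X hX =>
    hS.fn F X hX _ (Or.inr (by simp))
  have kBm : ∀ F, ∀ X ∈ S F, kB X ∈ S F := fun F X hX =>
    hS.fn F X hX _ (Or.inr (by simp))
  have kRm : ∀ F, ∀ X ∈ S F, kR X ∈ S F := fun F X hX =>
    hS.fn F X hX _ (Or.inr (by simp))
  have kL2m : ∀ F, ∀ X ∈ S F, kL2 X ∈ S F := fun F X hX =>
    hS.fn F X hX _ (Or.inr (by simp))
  have kum : ∀ F, ∀ X ∈ S F, kunw X ∈ S F := fun F X hX =>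
    hS.fn F X hX _ (Or.inr (by simp))
  -- havens of rays are in `S Fs`
  have hends : ∀ F, Fs ⊆ F → ∀ f ∈ S F, IsRay (adj H) f →
      ∃ E ∈ S Fs, hvn E = hv (adj H) f := by
    intro F hF f hf hray
    rcases hS.ends Fs F hF H hH f hf (by
      unfold RayP; rw [row_join_zero, row_join_one]; exact hray) with ⟨W, hW, h1, h2⟩ | ⟨E, hE, h1⟩
    · exfalso
      refine hno F _ (kL1m F _ (kum F W hW)) (hL1 H (kunw W) ?_ ?_)
      · intro b
        have h3 := (h1 b).1
        unfold RayP at h3
        rw [(h1 b).2] at h3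
        simpa [kunw] using h3
      · intro b b' hb
        have := h2 b b' hb
        simpa [kunw, FiP] using this
    · refine ⟨E, hE, ?_⟩
      funext Z v
      have h2 := h1 (Nat.pair (Encodable.encode Z) v)
      simp only [HvP, row_join_zero, row_join_one, Nat.unpair_pair, fz_encode] at h2
      exact propext h2.symm
  -- no haven in `S Fs` contains arbitrarily many disjoint rays
  have hA : ∀ E ∈ S Fs, IsHaven (adj H) (hvn E) → ∃ k, ∀ r, ¬ Rays (adj H) (hvn E) k r := by
    intro E hE hh
    by_contra hcon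
    push Not at hcon
    exact hno Fs _ (kL2m Fs _ (hS.join Fs H hH E hE)) (hL2 H E hh hcon)
  have hm : ∀ m, ∃ X ∈ S Fs, Inq m X H := by
    intro m
    induction m with
    | zero => exact ⟨H, hH, by intro i hi; omega, by intro i hi; omega⟩
    | succ m ih =>
      obtain ⟨X, hX, hX1, hX2⟩ := ih
      have h1 : ∀ i, ∃ E k, i < m → E ∈ S Fs ∧ hvn E = hv (adj H) (row X i) ∧
          ∀ r, ¬ Rays (adj H) (hvn E) k r := by
        intro i
        by_cases hi : i < m
        · obtain ⟨E, hE, hE2⟩ := hends Fs subset_rfl (row X i) (hrow _ _ hX i) (hX1 i hi)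
          obtain ⟨k, hk⟩ := hA E hE (by
            rw [hE2]; exact isHaven_hv (adj_symm H) (hX1 i hi))
          exact ⟨E, k, fun _ => ⟨hE, hE2, hk⟩⟩
        · exact ⟨H, 0, fun h => absurd h hi⟩
      choose E κ hE using h1
      obtain ⟨F, W, hW, hW1, hW2⟩ := hk ((∑ i ∈ Finset.range m, κ i) + 1)
      set N := (∑ i ∈ Finset.range m, κ i) + 1 with hN
      have hj : ∃ j < N, ∀ i < m, hv (adj H) (row W j) ≠ hv (adj H) (row X i) := by
        by_contra hcon
        push Not at hcon
        choose! g hg1 hg2 using hcon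
        have hcard : ∀ i < m, ((Finset.range N).filter (fun j => g j = i)).card ≤ κ i := by
          intro i hi
          by_contra hlt
          push Not at hlt
          set J := (Finset.range N).filter (fun j => g j = i) with hJ
          have hlen : J.toList.length = J.card := Finset.length_toList J
          have hget : ∀ t < κ i, ∃ h : t < J.toList.length,
              J.toList.getD t 0 = J.toList[t] := by
            intro t ht
            exact ⟨by omega, List.getD_eq_getElem _ _ _⟩
          have hmem : ∀ t < κ i, J.toList.getD t 0 < N ∧ g (J.toList.getD t 0) = i := by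
            intro t ht
            obtain ⟨h, h2⟩ := hget t ht
            rw [h2]
            have hJm : ∀ x ∈ J, x < N ∧ g x = i := by
              intro x hx
              rw [hJ, Finset.mem_filter, Finset.mem_range] at hx
              exact hx
            exact hJm _ (Finset.mem_toList.mp (List.getElem_mem h))
          refine (hE i hi).2.2 (fun t => row W (J.toList.getD t 0)) ⟨?_, ?_⟩
          · intro t ht
            obtain ⟨c1, c2⟩ := hmem t ht
            refine ⟨hW1 _ c1, ?_⟩
            have c3 := hg2 _ c1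
            rw [c2] at c3
            rw [(hE i hi).2.1, ← c3]
            exact conv_hv (hW1 _ c1)
          · intro t ht t' ht' htt m₁ m₂
            refine hW2 _ (hmem t ht).1 _ (hmem t' ht').1 ?_ m₁ m₂
            obtain ⟨h, h2⟩ := hget t ht
            obtain ⟨h', h2'⟩ := hget t' ht'
            rw [h2, h2']
            intro h0
            exact htt ((List.Nodup.getElem_inj_iff J.nodup_toList).mp h0)
        have hsum : (Finset.range N).card = ∑ i ∈ Finset.range m,
            ((Finset.range N).filter (fun j => g j = i)).card :=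
          Finset.card_eq_sum_card_fiberwise (fun j hj => by
            have := hg1 j (by simpa using hj)
            simpa using this)
        rw [Finset.card_range] at hsum
        have := Finset.sum_le_sum (fun i (hi : i ∈ Finset.range m) =>
          hcard i (Finset.mem_range.mp hi))
        omega
      obtain ⟨j, hjN, hj⟩ := hj
      have hWF : row W j ∈ S (F ∪ Fs) :=
        hS.mono F _ Finset.subset_union_left (hrow F W hW j)
      obtain ⟨E', hE', hE'2⟩ := hends (F ∪ Fs) Finset.subset_union_right _ hWF (hW1 j hjN)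
      have hhav : IsHaven (adj H) (hvn E') := by
        rw [hE'2]; exact isHaven_hv (adj_symm H) (hW1 j hjN)
      obtain ⟨hr1, hr2⟩ := hR H E' hhav
      have hρS := kRm Fs _ (hS.join Fs H hH E' hE')
      set ρ := kR (join H E') with hρ
      have hρr : IsRay (adj H) ρ := hr1
      have hρc : Conv (hvn E') ρ := hr2
      have hρv : hv (adj H) ρ = hv (adj H) (row W j) := by
        rw [hv_eq_of_conv (adj_symm H) hhav hρr hρc, hE'2]
      have hX' := hS.fn Fs _ (hS.join Fs X hX ρ hρS) (kapp m) (Or.inl (Or.inr ⟨m, rfl⟩))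
      refine ⟨_, hX', ?_, ?_⟩
      · intro i hi
        by_cases h : i < m
        · simp only [kapp, row_mk, h, if_true, row_join_zero]
          exact hX1 i h
        · simp only [kapp, row_mk, h, if_false, row_join_one]
          exact hρr
      · intro i hi i' hi' hne
        rw [hv_ne_iff]
        by_cases h : i < m
        · by_cases h' : i' < m
          · simp only [kapp, row_mk, h, h', if_true, row_join_zero]
            exact hv_ne_iff.mp (hX2 i h i' h' hne)
          · simp only [kapp, row_mk, h, h', if_true, if_false, row_join_zero, row_join_one]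
            rw [hρv]
            exact (hj i h).symm
        · by_cases h' : i' < m
          · simp only [kapp, row_mk, h, h', if_true, if_false, row_join_zero, row_join_one]
            rw [hρv]
            exact hj i' h'
          · omega
  obtain ⟨Y, hY, hY2⟩ := hS.bnd Fs H hH hm
  obtain ⟨h1, h2⟩ := hB H Y hY2
  exact hno Fs _ (kL1m Fs _ (kBm Fs _ (hS.join Fs H hH Y hY))) (hL1 H _ h1 h2)

end Halin
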